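import Pool.Agent.V1145.BK5

/-! # The two-urn chain which moves `k` of `n` balls, `k / n → 1 / 2`: the mixing time -/

set_option autoImplicit false

open Finset Filter Topology

namespace Pool.Agent.V1145.BK.P

open Pool.Agent.V1145.BK

theorem exists_AJ {n k : ℕ} (he : eta n k ≤ 1 / 16) : ∃ J, 1 ≤ J ∧ AJ n k J := by
  obtain ⟨J2, hJ2⟩ := exists_pow_lt_of_lt_one (show (0 : ℝ) < 3 / 4 * (2 * (1 / 16 : ℝ) ^ 2) by norm_num)
    (show (0.88 : ℝ) < 1 by norm_num)
  obtain ⟨J1, hJ1⟩ := exists_pow_lt_of_lt_one (show (0 : ℝ) < 1 / ((n : ℝ) + 1) by positivity)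
    (show (1 / 8 : ℝ) < 1 by norm_num)
  refine ⟨J2 + (J1 + 1), by omega, AJ_of (κ := 1 / 16) (by norm_num) le_rfl he ?_ ?_⟩
  · have h1 : (1 / 8 : ℝ) ^ J1 * ((n : ℝ) + 1) < 1 := by
      rwa [lt_div_iff₀ (by positivity)] at hJ1
    have e : (2 * (1 / 16) : ℝ) = 1 / 8 := by norm_num
    have h2 : (0 : ℝ) < (1 / 8) ^ J1 := by positivity
    rw [e, pow_succ]
    norm_num at h1 h2 ⊢
    nlinarith
  · rw [mul_one_div, div_le_iff₀ (by norm_num)]
    exact hJ2.le

theorem ratio {p ε : ℝ} (hp0 : 0 < p) (hp1 : p ≤ 1) (h0 : 0 < ε) (h1 : ε < 1) (k : ℕ → ℕ)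
    (hk : ∀ n, k n ≤ n) (hlim : Tendsto (fun n => (k n : ℝ) / n) atTop (𝓝 (1 / 2)))
    (π : ℕ → ℕ → ℝ) (h : ∀ᶠ n in atTop, Stationary n (k n) p (π n)) :
    Tendsto (fun n : ℕ => mixTime n (k n) p (π n) ε / Real.log n) atTop (𝓝 0) := by
  set C := Real.log (4 / (3 * ε)) with hC
  have hC0 : 0 ≤ C := by
    apply Real.log_nonneg
    rw [le_div_iff₀ (by positivity)]
    linarith
  have hlog : Tendsto (fun n : ℕ => Real.log (n : ℝ)) atTop atTop :=
    Real.tendsto_log_atTop.comp tendsto_natCast_atTop_atTop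
  have heta : Tendsto (fun n => eta n (k n)) atTop (𝓝 0) := by
    have h1 := ((hlim.const_mul 2).const_sub 1).abs
    have e : |(1 : ℝ) - 2 * (1 / 2)| = 0 := by norm_num
    rw [e] at h1
    exact h1
  refine tendsto_order.2 ⟨fun a ha => ?_, fun δ hδ => ?_⟩
  · filter_upwards [hlog.eventually_ge_atTop 0] with n hn
    exact lt_of_lt_of_le ha (div_nonneg (Real.sInf_nonneg fun t ht => ht.1) hn)
  · set A : ℝ := 8 * C / (p * δ) + 3 with hA
    have hA3 : 3 ≤ A := by
      have : 0 ≤ 8 * C / (p * δ) := by positivity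
      linarith
    have hA0 : 0 < A := by linarith
    have hAC : 4 * C / p ≤ δ / 2 * A := by
      have : δ / 2 * A = 4 * C / p + 3 * δ / 2 := by
        rw [hA]; field_simp; ring
      rw [this]; linarith
    set κ : ℝ := Real.exp (-A) / 2 with hκ
    have hκ0 : 0 < κ := by positivity
    have hκ1 : κ ≤ 1 / 16 := by
      have h2 : Real.exp (-A) ≤ Real.exp (-3) := Real.exp_le_exp.2 (by linarith)
      have h3 : Real.exp (-3) ≤ 1 / 8 := by
        rw [Real.exp_neg, ← one_div]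
        apply one_div_le_one_div_of_le (by norm_num)
        have h4 : (2 : ℝ) ≤ Real.exp 1 := by have := Real.add_one_le_exp (1 : ℝ); linarith
        have h5 : Real.exp 3 = Real.exp 1 ^ 3 := by rw [← Real.exp_nat_mul]; norm_num
        rw [h5]
        calc (8 : ℝ) = 2 ^ 3 := by norm_num
          _ ≤ Real.exp 1 ^ 3 := pow_le_pow_left₀ (by norm_num) h4 3
      rw [hκ]; linarith
    obtain ⟨J2, hJ2⟩ := exists_pow_lt_of_lt_one (show (0 : ℝ) < 3 / 4 * (2 * κ ^ 2) by positivity)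
      (show (0.88 : ℝ) < 1 by norm_num)
    have hJ2' : (0.88 : ℝ) ^ J2 * (1 / (2 * κ ^ 2)) ≤ 3 / 4 := by
      rw [mul_one_div, div_le_iff₀ (by positivity)]; exact hJ2.le
    have hsm : ∀ᶠ n : ℕ in atTop, 4 * C / p * (J2 + 1) / Real.log n < δ / 2 :=
      (hlog.const_div_atTop (4 * C / p * (J2 + 1))).eventually_lt_const (by positivity)
    filter_upwards [hsm, heta.eventually_lt_const hκ0, h, hlog.eventually_gt_atTop 0] with n g1 g2 g3 g4
    have : Fact (k n ≤ n) := ⟨hk n⟩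
    set J1 := ⌈Real.log n / A⌉₊ with hJ1
    have hJ1p : 1 ≤ J1 := Nat.ceil_pos.2 (by positivity)
    have hJ1b : (J1 : ℝ) ≤ Real.log n / A + 1 := (Nat.ceil_lt_add_one (by positivity)).le
    have hJ1a : Real.log n / A ≤ J1 := Nat.le_ceil _
    have hn0 : (0 : ℝ) < n := by
      rcases Nat.eq_zero_or_pos n with h | h
      · rw [h] at g4; simp at g4
      · exact_mod_cast h
    have hAJ : AJ n (k n) (J2 + J1) := by
      refine AJ_of hκ0 hκ1 g2.le ?_ hJ2'
      have e1 : (2 * κ) ^ J1 = Real.exp (-(A * J1)) := by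
        have e0 : 2 * κ = Real.exp (-A) := by rw [hκ]; ring
        rw [e0, ← Real.exp_nat_mul]; congr 1; ring
      rw [e1]
      calc Real.exp (-(A * J1)) * n = Real.exp (-(A * J1) + Real.log n) := by
            rw [Real.exp_add, Real.exp_log hn0]
        _ ≤ 1 := Real.exp_le_one_iff.2 (by
            have := (div_le_iff₀ hA0).1 hJ1a
            linarith)
        _ ≤ 1 / (2 * κ ^ 2) := by
            rw [le_div_iff₀ (by positivity)]; nlinarith
    have hb := mix_bound (by omega) hAJ hp0 hp1 g3 h0 h1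
    rw [div_lt_iff₀ g4]
    rw [div_lt_iff₀ g4] at g1
    have hp' : 0 ≤ 4 * C / p := by positivity
    have hL : 4 * C / p * (Real.log n / A) ≤ δ / 2 * Real.log n := by
      have : 4 * C / p * (Real.log n / A) = (4 * C / p) * Real.log n / A := by ring
      rw [this, div_le_iff₀ hA0]
      have := mul_le_mul_of_nonneg_right hAC g4.le
      linarith
    calc mixTime n (k n) p (π n) ε ≤ 4 * ((J2 + J1 : ℕ) : ℝ) / p * C := hb
      _ = 4 * C / p * ((J2 : ℝ) + J1) := by push_cast; ring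
      _ ≤ 4 * C / p * ((J2 : ℝ) + (Real.log n / A + 1)) :=
          mul_le_mul_of_nonneg_left (by linarith) hp'
      _ = 4 * C / p * (J2 + 1) + 4 * C / p * (Real.log n / A) := by ring
      _ < δ * Real.log n := by linarith

/-- for large `n` there is exactly one stationary distribution -/
theorem exists_unique {n k : ℕ} {p : ℝ} (hp0 : 0 < p) (hk : k ≤ n) (he : eta n k ≤ 1 / 16) :
    (∃ π, Stationary n k p π) ∧
      ∀ π π' : ℕ → ℝ, Stationary n k p π → Stationary n k p π' → ∀ x, x ≤ n → π x = π' x := by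
  have : Fact (k ≤ n) := ⟨hk⟩
  obtain ⟨J, hJ1, hJ⟩ := exists_AJ he
  exact ⟨exists_stat hJ1 hJ p, fun π π' h h' x hx => stat_unique hJ1 hJ hp0 h h' hx⟩

end Pool.Agent.V1145.BK.P
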