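import Mathlib

/-!
# Two linear algebra lemmas: hyperbolic pairs and dual families
-/

set_option autoImplicit false
set_option linter.all false

noncomputable section

namespace Pool.Agent.V1145.Pois

open Submodule

section symp

variable {F W : Type*} [Field F] [AddCommGroup W] [Module F W] [FiniteDimensional F W]

/-- Hyperbolic pairs for an alternating form, complete modulo the radical. -/
theorem symp (Ω : W →ₗ[F] W →ₗ[F] F) (halt : ∀ w, Ω w w = 0) (N : Submodule F W) :
    ∃ (ι : Type) (_ : Fintype ι) (e f : ι → W), (∀ i, e i ∈ N) ∧ (∀ i, f i ∈ N) ∧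
      (∀ i, Ω (e i) (f i) = 1) ∧ (∀ i j, i ≠ j → Ω (e i) (f j) = 0) ∧
      (∀ i j, Ω (e i) (e j) = 0) ∧ (∀ i j, Ω (f i) (f j) = 0) ∧
      ∀ w ∈ N, ∃ s ∈ span F (Set.range e ∪ Set.range f), ∀ v ∈ N, Ω (w - s) v = 0 := by
  have hanti : ∀ a b, Ω a b = - Ω b a := by
    intro a b
    have h := halt (a + b)
    simp only [map_add, LinearMap.add_apply, halt, zero_add, add_zero] at h
    linear_combination h
  induction N using WellFoundedLT.induction with
  | ind N ih =>
    by_cases h : ∃ e0 ∈ N, ∃ f0 ∈ N, Ω e0 f0 ≠ 0
    · obtain ⟨e0, he0, f1, hf1, hne⟩ := h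
      obtain ⟨f0, hf0, h1⟩ : ∃ f0 ∈ N, Ω e0 f0 = 1 :=
        ⟨(Ω e0 f1)⁻¹ • f1, N.smul_mem _ hf1, by simp [hne]⟩
      let N' : Submodule F W := N ⊓ (LinearMap.ker (Ω.flip e0) ⊓ LinearMap.ker (Ω.flip f0))
      have hN'mem : ∀ w, w ∈ N' ↔ w ∈ N ∧ Ω w e0 = 0 ∧ Ω w f0 = 0 := by
        intro w
        simp only [N', Submodule.mem_inf, LinearMap.mem_ker, LinearMap.flip_apply]
      have hlt : N' < N := by
        refine lt_of_le_of_ne inf_le_left ?_
        intro heq
        have : e0 ∈ N' := by rw [heq]; exact he0
        rw [hN'mem] at this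
        rw [h1] at this
        exact one_ne_zero this.2.2
      obtain ⟨ι, hι, e, f, heN, hfN, hef1, hef0, hee, hff, hspan⟩ := ih N' hlt
      have hred : ∀ w ∈ N, w - Ω w f0 • e0 + Ω w e0 • f0 ∈ N' := by
        intro w hw
        rw [hN'mem]
        refine ⟨N.add_mem (N.sub_mem hw (N.smul_mem _ he0)) (N.smul_mem _ hf0), ?_, ?_⟩
        · simp only [map_add, map_sub, map_smul, LinearMap.add_apply, LinearMap.sub_apply,
            LinearMap.smul_apply, smul_eq_mul, halt, hanti f0 e0, h1]
          ring
        · simp only [map_add, map_sub, map_smul, LinearMap.add_apply, LinearMap.sub_apply,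
            LinearMap.smul_apply, smul_eq_mul, halt, h1]
          ring
      refine ⟨Option ι, inferInstance, fun o => Option.elim o e0 e, fun o => Option.elim o f0 f,
        ?_, ?_, ?_, ?_, ?_, ?_, ?_⟩
      · rintro (_ | i)
        · exact he0
        · exact ((hN'mem _).1 (heN i)).1
      · rintro (_ | i)
        · exact hf0
        · exact ((hN'mem _).1 (hfN i)).1
      · rintro (_ | i)
        · exact h1
        · exact hef1 i
      · rintro (_ | i) (_ | j) hij
        · exact absurd rfl hij
        · show Ω e0 (f j) = 0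
          rw [hanti, ((hN'mem _).1 (hfN j)).2.1, neg_zero]
        · exact ((hN'mem _).1 (heN i)).2.2
        · exact hef0 i j (fun h => hij (by rw [h]))
      · rintro (_ | i) (_ | j)
        · exact halt _
        · show Ω e0 (e j) = 0
          rw [hanti, ((hN'mem _).1 (heN j)).2.1, neg_zero]
        · exact ((hN'mem _).1 (heN i)).2.1
        · exact hee i j
      · rintro (_ | i) (_ | j)
        · exact halt _
        · show Ω f0 (f j) = 0
          rw [hanti, ((hN'mem _).1 (hfN j)).2.2, neg_zero]
        · exact ((hN'mem _).1 (hfN i)).2.2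
        · exact hff i j
      · intro w hw
        obtain ⟨s, hs, hsv⟩ := hspan _ (hred w hw)
        have hsN : s ∈ N' := by
          have : span F (Set.range e ∪ Set.range f) ≤ N' := by
            rw [span_le]
            rintro x (⟨i, rfl⟩ | ⟨i, rfl⟩)
            · exact heN i
            · exact hfN i
          exact this hs
        set u := w - Ω w f0 • e0 + Ω w e0 • f0 - s with hu
        have huN : u ∈ N' := N'.sub_mem (hred w hw) hsN
        refine ⟨s + (Ω w f0 • e0 - Ω w e0 • f0), ?_, ?_⟩
        · have hle : span F (Set.range e ∪ Set.range f) ≤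
              span F (Set.range (fun o => Option.elim o e0 e) ∪
                Set.range (fun o => Option.elim o f0 f)) := by
            rw [span_le]
            rintro x (⟨i, rfl⟩ | ⟨i, rfl⟩)
            · exact subset_span (Or.inl ⟨some i, rfl⟩)
            · exact subset_span (Or.inr ⟨some i, rfl⟩)
          refine Submodule.add_mem _ (hle hs) (Submodule.sub_mem _ (Submodule.smul_mem _ _ ?_)
            (Submodule.smul_mem _ _ ?_))
          · exact subset_span (Or.inl ⟨none, rfl⟩)
          · exact subset_span (Or.inr ⟨none, rfl⟩)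
        · intro v hv
          have e1 : w - (s + (Ω w f0 • e0 - Ω w e0 • f0)) = u := by rw [hu]; abel
          rw [e1]
          have h2 := hsv _ (hred v hv)
          rw [map_add, map_sub, map_smul, map_smul, ((hN'mem u).1 huN).2.1,
            ((hN'mem u).1 huN).2.2] at h2
          simpa using h2
    · push Not at h
      exact ⟨Empty, inferInstance, fun i => i.elim, fun i => i.elim, fun i => i.elim,
        fun i => i.elim, fun i => i.elim, fun i => i.elim, fun i => i.elim, fun i => i.elim,
        fun w hw => ⟨0, zero_mem _, fun v hv => by rw [sub_zero]; exact h w hw v hv⟩⟩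

end symp

section dual

variable {k F : Type*} [Field k] [Field F] [Algebra k F]

theorem sum_smul_apply {ι : Type*} (s : Finset ι) (c : ι → F) (X : ι → Derivation k F F) (x : F) :
    (∑ i ∈ s, c i • X i) x = ∑ i ∈ s, c i * X i x := by
  classical
  induction s using Finset.induction_on with
  | empty => simp
  | insert a s ha ih =>
    rw [Finset.sum_insert ha, Finset.sum_insert ha, Derivation.add_apply, ih]
    simp

/-- A finite dimensional space of derivations has a basis dual to a family of elements. -/
theorem dual_family [FiniteDimensional F (Derivation k F F)]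
    (N : Submodule F (Derivation k F F)) :
    ∃ (ι : Type) (_ : Fintype ι) (X : ι → Derivation k F F) (y : ι → F), (∀ i, X i ∈ N) ∧
      (∀ i, X i (y i) = 1) ∧ (∀ i j, i ≠ j → X i (y j) = 0) ∧
      ∀ Z ∈ N, Z = ∑ i, Z (y i) • X i := by
  induction N using WellFoundedLT.induction with
  | ind N ih =>
    by_cases h : ∃ Z ∈ N, Z ≠ 0
    · obtain ⟨Z1, hZ1, hne⟩ := h
      obtain ⟨y0, hy0⟩ : ∃ y, Z1 y ≠ 0 := by
        by_contra hc
        push Not at hc
        exact hne (Derivation.ext hc)
      obtain ⟨Z0, hZ0, h1⟩ : ∃ Z0 ∈ N, Z0 y0 = 1 :=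
        ⟨(Z1 y0)⁻¹ • Z1, N.smul_mem _ hZ1, by simp [hy0]⟩
      let ev : Derivation k F F →ₗ[F] F :=
        { toFun := fun D => D y0, map_add' := fun _ _ => rfl, map_smul' := fun _ _ => rfl }
      let N' : Submodule F (Derivation k F F) := N ⊓ LinearMap.ker ev
      have hN'mem : ∀ w, w ∈ N' ↔ w ∈ N ∧ w y0 = 0 := by
        intro w
        simp only [N', Submodule.mem_inf, LinearMap.mem_ker]
        rfl
      have hlt : N' < N := by
        refine lt_of_le_of_ne inf_le_left ?_
        intro heq
        have : Z0 ∈ N' := by rw [heq]; exact hZ0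
        rw [hN'mem] at this
        rw [h1] at this
        exact one_ne_zero this.2
      obtain ⟨ι, hι, X, y, hXN, hXy1, hXy0, hspan⟩ := ih N' hlt
      set Z := Z0 - ∑ i, Z0 (y i) • X i with hZ
      have hZN : Z ∈ N := N.sub_mem hZ0 (N.sum_mem (fun i _ => N.smul_mem _
        ((hN'mem _).1 (hXN i)).1))
      have hsum : ∀ (D : Derivation k F F) (c : ι → F) (x : F),
          (D - ∑ i, c i • X i) x = D x - ∑ i, c i * X i x := by
        intro D c x
        rw [Derivation.sub_apply]
        rw [sum_smul_apply]
      have hZy : ∀ j, Z (y j) = 0 := by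
        intro j
        rw [hZ, hsum, Finset.sum_eq_single j]
        · rw [hXy1, mul_one, sub_self]
        · intro i _ hij
          rw [hXy0 i j hij, mul_zero]
        · intro hj; exact absurd (Finset.mem_univ j) hj
      have hZ0 : Z y0 = 1 := by
        rw [hZ, hsum, h1, Finset.sum_eq_zero, sub_zero]
        intro i _
        rw [((hN'mem _).1 (hXN i)).2, mul_zero]
      refine ⟨Option ι, inferInstance, fun o => Option.elim o Z X, fun o => Option.elim o y0 y,
        ?_, ?_, ?_, ?_⟩
      · rintro (_ | i)
        · exact hZN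
        · exact ((hN'mem _).1 (hXN i)).1
      · rintro (_ | i)
        · exact hZ0
        · exact hXy1 i
      · rintro (_ | i) (_ | j) hij
        · exact absurd rfl hij
        · exact hZy j
        · exact ((hN'mem _).1 (hXN i)).2
        · exact hXy0 i j (fun h => hij (by rw [h]))
      · intro Y hY
        have hY' : Y - Y y0 • Z ∈ N' := by
          rw [hN'mem]
          refine ⟨N.sub_mem hY (N.smul_mem _ hZN), ?_⟩
          rw [Derivation.sub_apply, Derivation.smul_apply, hZ0, smul_eq_mul, mul_one, sub_self]
        have h3 := hspan _ hY'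
        rw [Fintype.sum_option]
        show Y = Y y0 • Z + ∑ i, Y (y i) • X i
        have h4 : ∀ i, (Y - Y y0 • Z) (y i) = Y (y i) := by
          intro i
          rw [Derivation.sub_apply, Derivation.smul_apply, hZy, smul_zero, sub_zero]
        simp only [h4] at h3
        rw [← h3]; abel
    · push Not at h
      refine ⟨Empty, inferInstance, fun i => i.elim, fun i => i.elim, fun i => i.elim,
        fun i => i.elim, fun i => i.elim, fun Z hZ => ?_⟩
      rw [h Z hZ]; simp

end dual

end Pool.Agent.V1145.Pois
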