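import Mathlib

/-!
# The `p`-th power of a derivation in characteristic `p`
-/

set_option autoImplicit false
set_option linter.all false

noncomputable section

namespace Pool.Agent.V1145.Pois

theorem iter_ad {R : Type*} [Ring R] {p : ℕ} (hp : p.Prime) (hR : (p : R) = 0) (a b : R) :
    (fun z => a * z - z * a)^[p] b = a ^ p * b - b * a ^ p := by
  set L : Module.End ℤ R := LinearMap.mulLeft ℤ a with hL
  set T : Module.End ℤ R := LinearMap.mulRight ℤ a with hT
  have hcomm : Commute L T := LinearMap.commute_mulLeft_right a a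
  have hc2 : Commute (L - T) T := hcomm.sub_left (Commute.refl T)
  obtain ⟨r, hr⟩ := hc2.exists_add_pow_prime_eq hp
  have hz : (p : Module.End ℤ R) = 0 := by
    ext x
    rw [Module.End.natCast_apply, LinearMap.zero_apply, nsmul_eq_mul, hR, zero_mul]
  rw [hz, zero_mul, zero_mul, zero_mul, add_zero, sub_add_cancel] at hr
  have h1 : (L - T) ^ p = L ^ p - T ^ p := by rw [hr]; abel
  have h2 : ((L - T) ^ p) b = a ^ p * b - b * a ^ p := by
    rw [h1, hL, hT, LinearMap.pow_mulLeft, LinearMap.pow_mulRight]
    simp
  rw [← h2, Module.End.pow_apply]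
  rfl

variable {k F : Type*} [Field k] [Field F] [Algebra k F]

theorem natCast_end {p : ℕ} [CharP F p] : ((p : ℕ) : Module.End k F) = 0 := by
  ext x
  rw [Module.End.natCast_apply, LinearMap.zero_apply, nsmul_eq_mul, CharP.cast_eq_zero, zero_mul]

/-- The `p`-th power of a derivation. -/
def ppow {p : ℕ} (hp : p.Prime) [CharP F p] (D : Derivation k F F) : Derivation k F F :=
  Derivation.mk' ((D : F →ₗ[k] F) ^ p) (by
    intro f g
    have key : ∀ j : ℕ, (fun z : Module.End k F => (D : F →ₗ[k] F) * z - z * (D : F →ₗ[k] F))^[j]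
        (LinearMap.mulLeft k f) = LinearMap.mulLeft k (((D : F →ₗ[k] F) ^ j) f) := by
      intro j
      induction j with
      | zero => simp
      | succ j ih =>
        rw [Function.iterate_succ_apply', ih, pow_succ']
        ext x
        simp only [LinearMap.sub_apply, Module.End.mul_apply, LinearMap.mulLeft_apply,
          Derivation.coeFn_coe, Derivation.leibniz, smul_eq_mul]
        ring
    have h1 := iter_ad (R := Module.End k F) hp natCast_end (D : F →ₗ[k] F) (LinearMap.mulLeft k f)
    rw [key p] at h1
    have h2 := congrArg (fun z : Module.End k F => z g) h1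
    simp only [LinearMap.sub_apply, Module.End.mul_apply, LinearMap.mulLeft_apply] at h2
    simp only [smul_eq_mul]
    linear_combination -h2)

theorem ppow_apply {p : ℕ} (hp : p.Prime) [CharP F p] (D : Derivation k F F) (f : F) :
    ppow hp D f = (⇑D)^[p] f := by
  show ((D : F →ₗ[k] F) ^ p) f = _
  rw [Module.End.pow_apply]; rfl

theorem ppow_lie {p : ℕ} (hp : p.Prime) [CharP F p] (D Z : Derivation k F F) :
    ⁅ppow hp D, Z⁆ = (fun Z : Derivation k F F => ⁅D, Z⁆)^[p] Z := by
  have key : ∀ j : ℕ, (((fun Z : Derivation k F F => ⁅D, Z⁆)^[j] Z : Derivation k F F) : F →ₗ[k] F)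
      = (fun z : Module.End k F => (D : F →ₗ[k] F) * z - z * (D : F →ₗ[k] F))^[j]
        (Z : F →ₗ[k] F) := by
    intro j
    induction j with
    | zero => rfl
    | succ j ih =>
      rw [Function.iterate_succ_apply', Function.iterate_succ_apply', ← ih]
      ext x
      show (⁅D, (fun Z : Derivation k F F => ⁅D, Z⁆)^[j] Z⁆ : Derivation k F F) x = _
      rw [Derivation.commutator_apply]
      rfl
  have h1 := iter_ad (R := Module.End k F) hp natCast_end (D : F →ₗ[k] F) (Z : F →ₗ[k] F)
  rw [← key p] at h1
  ext x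
  have h2 := congrArg (fun z : Module.End k F => z x) h1
  simp only [LinearMap.sub_apply, Module.End.mul_apply] at h2
  rw [Derivation.commutator_apply]
  exact h2.symm

theorem lie_smul' (D E : Derivation k F F) (f : F) : ⁅D, f • E⁆ = f • ⁅D, E⁆ + (D f) • E := by
  ext x
  simp only [Derivation.commutator_apply, Derivation.smul_apply, Derivation.add_apply,
    Derivation.leibniz, smul_eq_mul]
  ring

theorem smul_lie' (D E : Derivation k F F) (f : F) : ⁅f • D, E⁆ = f • ⁅D, E⁆ - (E f) • D := by
  ext x
  simp only [Derivation.commutator_apply, Derivation.smul_apply, Derivation.sub_apply,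
    Derivation.leibniz, smul_eq_mul]
  ring

/-- A subspace of derivations closed under brackets absorbs the bracket with `p`-th powers. -/
theorem ppow_lie_mem {p : ℕ} (hp : p.Prime) [CharP F p] (N : Submodule F (Derivation k F F))
    (hN : ∀ X ∈ N, ∀ Y ∈ N, ⁅X, Y⁆ ∈ N) {D Z : Derivation k F F} (hD : D ∈ N) (hZ : Z ∈ N) :
    ⁅ppow hp D, Z⁆ ∈ N := by
  rw [ppow_lie]
  have : ∀ j : ℕ, (fun Z : Derivation k F F => ⁅D, Z⁆)^[j] Z ∈ N := by
    intro j
    induction j with
    | zero => exact hZ
    | succ j ih =>
      rw [Function.iterate_succ_apply']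
      exact hN _ hD _ ih
  exact this p

end Pool.Agent.V1145.Pois
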