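import Mathlib
import Pool.Agent.V1145.PoisPow
import Pool.Agent.V1145.PoisLin

/-!
# Traceless families of derivations and their extension to a basis
-/

set_option autoImplicit false
set_option linter.all false

noncomputable section

namespace Pool.Agent.V1145.Pois

open Submodule

variable {k F : Type*} [Field k] [Field F] [Algebra k F]

theorem lie_mem_span (S : Set (Derivation k F F))
    (h : ∀ a ∈ S, ∀ b ∈ S, ⁅a, b⁆ ∈ span F S) :
    ∀ X ∈ span F S, ∀ Y ∈ span F S, ⁅X, Y⁆ ∈ span F S := by
  have h1 : ∀ a ∈ S, ∀ Y ∈ span F S, ⁅a, Y⁆ ∈ span F S := by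
    intro a ha Y hY
    induction hY using Submodule.span_induction with
    | mem b hb => exact h a ha b hb
    | zero => rw [lie_zero]; exact zero_mem _
    | add b c _ _ hb hc => rw [lie_add]; exact add_mem hb hc
    | smul f b hb hb' =>
      rw [lie_smul']
      exact add_mem (Submodule.smul_mem _ _ hb') (Submodule.smul_mem _ _ hb)
  intro X hX Y hY
  induction hX using Submodule.span_induction with
  | mem a ha => exact h1 a ha Y hY
  | zero => rw [zero_lie]; exact zero_mem _
  | add b c _ _ hb hc => rw [add_lie]; exact add_mem hb hc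
  | smul f b hb hb' =>
    rw [smul_lie']
    exact sub_mem (Submodule.smul_mem _ _ hb') (Submodule.smul_mem _ _ hb)

/-- A linearly independent family of derivations whose span contains the `H a`, is closed under
brackets, and on which the brackets with the `H a` are traceless. -/
structure Good {κ ι : Type*} [Fintype ι] (H : κ → Derivation k F F)
    (v : ι → Derivation k F F) : Prop where
  indep : LinearIndependent F v
  memH : ∀ a, H a ∈ span F (Set.range v)
  closed : ∀ i j, ⁅v i, v j⁆ ∈ span F (Set.range v)
  trace : ∃ c : κ → ι → ι → F, (∀ a i, ⁅H a, v i⁆ = ∑ l, c a i l • v l) ∧ ∀ a, ∑ i, c a i i = 0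

theorem Good.lie_mem {κ ι : Type*} [Fintype ι] {H : κ → Derivation k F F}
    {v : ι → Derivation k F F} (hv : Good H v) :
    ∀ X ∈ span F (Set.range v), ∀ Y ∈ span F (Set.range v), ⁅X, Y⁆ ∈ span F (Set.range v) := by
  apply lie_mem_span
  rintro _ ⟨i, rfl⟩ _ ⟨j, rfl⟩
  exact hv.closed i j

theorem Good.extend {κ ι : Type*} [Fintype ι] {H : κ → Derivation k F F}
    {v : ι → Derivation k F F} (hv : Good H v) {Y : Derivation k F F}
    (hY : Y ∉ span F (Set.range v))
    (hYl : ∀ X ∈ span F (Set.range v), ⁅X, Y⁆ ∈ span F (Set.range v)) :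
    Good H (fun o : Option ι => Option.elim o Y v) := by
  have hle : span F (Set.range v) ≤
      span F (Set.range (fun o : Option ι => Option.elim o Y v)) := by
    apply span_mono
    rintro _ ⟨i, rfl⟩
    exact ⟨some i, rfl⟩
  refine ⟨?_, fun a => hle (hv.memH a), ?_, ?_⟩
  · have h := (linearIndependent_option' (K := F) (v := v) (x := Y)).2 ⟨hv.indep, hY⟩
    have e : (fun o : Option ι => Option.elim o Y v) = fun o => Option.casesOn' o Y v := by
      funext o
      cases o <;> rfl
    rw [e]
    exact h
  · rintro (_ | i) (_ | j)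
    · show ⁅Y, Y⁆ ∈ _
      rw [lie_self]; exact zero_mem _
    · show ⁅Y, v j⁆ ∈ _
      rw [← lie_skew]
      exact hle (neg_mem (hYl _ (subset_span ⟨j, rfl⟩)))
    · show ⁅v i, Y⁆ ∈ _
      exact hle (hYl _ (subset_span ⟨i, rfl⟩))
    · exact hle (hv.closed i j)
  · obtain ⟨c, hc1, hc2⟩ := hv.trace
    have hd : ∀ a, ∃ d : ι → F, ∑ l, d l • v l = ⁅H a, Y⁆ := fun a =>
      (Submodule.mem_span_range_iff_exists_fun F).1 (hYl _ (hv.memH a))
    choose d hd using hd
    refine ⟨fun a o o' => Option.elim o (Option.elim o' 0 (d a))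
      (fun i => Option.elim o' 0 (c a i)), ?_, ?_⟩
    · rintro a (_ | i)
      · rw [Fintype.sum_option]
        simp only [Option.elim_none, Option.elim_some, zero_smul, zero_add]
        exact (hd a).symm
      · rw [Fintype.sum_option]
        simp only [Option.elim_none, Option.elim_some, zero_smul, zero_add]
        exact hc1 a i
    · intro a
      rw [Fintype.sum_option]
      simp only [Option.elim_none, Option.elim_some, zero_add]
      exact hc2 a

theorem step {p : ℕ} (hp : p.Prime) [CharP F p] [FiniteDimensional F (Derivation k F F)]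
    (N : Submodule F (Derivation k F F)) (hN : ∀ X ∈ N, ∀ Y ∈ N, ⁅X, Y⁆ ∈ N) (hne : N ≠ ⊤) :
    ∃ Y, Y ∉ N ∧ ∀ X ∈ N, ⁅X, Y⁆ ∈ N := by
  by_cases hA : ∃ X ∈ N, ppow hp X ∉ N
  · obtain ⟨X, hX, hXp⟩ := hA
    refine ⟨ppow hp X, hXp, fun Z hZ => ?_⟩
    rw [← lie_skew]
    exact neg_mem (ppow_lie_mem hp N hN hX hZ)
  · push Not at hA
    obtain ⟨ι, hι, X, y, hXN, hXy1, hXy0, hspan⟩ := dual_family N
    have hkill : ∀ Z ∈ N, (∀ j, Z (y j) = 0) → Z = 0 := by
      intro Z hZ h
      rw [hspan Z hZ]
      exact Finset.sum_eq_zero (fun i _ => by rw [h i, zero_smul])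
    have hconst : ∀ (D : Derivation k F F) i j, D (X i (y j)) = 0 := by
      intro D i j
      by_cases hij : i = j
      · subst hij; rw [hXy1, Derivation.map_one_eq_zero]
      · rw [hXy0 i j hij, map_zero]
    have hcomm : ∀ i j, ⁅X i, X j⁆ = 0 := by
      intro i j
      refine hkill _ (hN _ (hXN i) _ (hXN j)) (fun l => ?_)
      rw [Derivation.commutator_apply, hconst, hconst, sub_zero]
    have hpow : ∀ i, ppow hp (X i) = 0 := by
      intro i
      refine hkill _ (hA _ (hXN i)) (fun l => ?_)
      rw [ppow_apply]
      obtain ⟨q, hq⟩ : ∃ q, p = q + 1 + 1 := ⟨p - 2, by have := hp.two_le; omega⟩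
      rw [hq, Function.iterate_succ_apply, Function.iterate_succ_apply, hconst]
      have : ∀ m : ℕ, (⇑(X i))^[m] 0 = 0 := by
        intro m
        induction m with
        | zero => rfl
        | succ m ih => rw [Function.iterate_succ_apply, map_zero, ih]
      exact this q
    have hnil : ∀ i (Z : Derivation k F F), (fun Z : Derivation k F F => ⁅X i, Z⁆)^[p] Z = 0 := by
      intro i Z
      rw [← ppow_lie hp, hpow, zero_lie]
    obtain ⟨Y0, hY0⟩ : ∃ Y0, Y0 ∉ N := by
      by_contra hc
      push Not at hc
      exact hne (eq_top_iff.2 (fun x _ => hc x))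
    have hY1 : ∃ Y1 : Derivation k F F, Y1 ≠ 0 ∧ ∀ j, Y1 (y j) = 0 := by
      refine ⟨Y0 - ∑ i, Y0 (y i) • X i, ?_, ?_⟩
      · intro h
        rw [sub_eq_zero] at h
        apply hY0
        rw [h]
        exact N.sum_mem (fun i _ => N.smul_mem _ (hXN i))
      · intro j
        rw [Derivation.sub_apply, sum_smul_apply, Finset.sum_eq_single j]
        · rw [hXy1, mul_one, sub_self]
        · intro i _ hij
          rw [hXy0 i j hij, mul_zero]
        · intro hj; exact absurd (Finset.mem_univ j) hj
    have hmain : ∀ s : Finset ι, ∃ Y : Derivation k F F, Y ≠ 0 ∧ (∀ j, Y (y j) = 0) ∧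
        ∀ i ∈ s, ⁅X i, Y⁆ = 0 := by
      classical
      intro s
      induction s using Finset.induction_on with
      | empty =>
        obtain ⟨Y1, h1, h2⟩ := hY1
        exact ⟨Y1, h1, h2, fun i hi => absurd hi (by simp)⟩
      | insert a s ha ih =>
        obtain ⟨Y, h1, h2, h3⟩ := ih
        have hex : ∃ j, (fun Z : Derivation k F F => ⁅X a, Z⁆)^[j] Y = 0 := ⟨p, hnil a Y⟩
        have hj := Nat.find_spec hex
        set j := Nat.find hex with hjdef
        have hj0 : j ≠ 0 := by
          intro h0
          rw [h0] at hj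
          exact h1 hj
        obtain ⟨m, hm⟩ := Nat.exists_eq_succ_of_ne_zero hj0
        have hmin : (fun Z : Derivation k F F => ⁅X a, Z⁆)^[m] Y ≠ 0 :=
          Nat.find_min hex (by rw [← hjdef, hm]; exact Nat.lt_succ_self m)
        refine ⟨(fun Z : Derivation k F F => ⁅X a, Z⁆)^[m] Y, hmin, ?_, ?_⟩
        · have : ∀ m : ℕ, ∀ l, ((fun Z : Derivation k F F => ⁅X a, Z⁆)^[m] Y) (y l) = 0 := by
            intro m
            induction m with
            | zero => exact h2
            | succ m ihm =>
              intro l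
              rw [Function.iterate_succ_apply', Derivation.commutator_apply, ihm, map_zero,
                hconst, sub_zero]
          exact this m
        · intro i hi
          rw [Finset.mem_insert] at hi
          rcases hi with rfl | hi
          · rw [hm, Function.iterate_succ_apply'] at hj
            exact hj
          · have : ∀ m : ℕ, ⁅X i, (fun Z : Derivation k F F => ⁅X a, Z⁆)^[m] Y⁆ = 0 := by
              intro m
              induction m with
              | zero => exact h3 i hi
              | succ m ihm =>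
                rw [Function.iterate_succ_apply', leibniz_lie, hcomm, zero_lie, ihm, lie_zero,
                  add_zero]
            exact this m
    obtain ⟨Y, hY, hYy, hYX⟩ := hmain Finset.univ
    refine ⟨Y, fun h => hY (hkill Y h hYy), fun Z hZ => ?_⟩
    rw [hspan Z hZ, sum_lie]
    refine N.sum_mem (fun i _ => ?_)
    rw [smul_lie', hYX i (Finset.mem_univ i), smul_zero, zero_sub]
    exact neg_mem (N.smul_mem _ (hXN i))

theorem exists_good_top {p : ℕ} (hp : p.Prime) [CharP F p]
    [FiniteDimensional F (Derivation k F F)] {κ : Type} (H : κ → Derivation k F F) :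
    ∀ (d : ℕ) (ι : Type) [Fintype ι] (v : ι → Derivation k F F), Good H v →
      Module.finrank F (Derivation k F F) - Fintype.card ι = d →
      ∃ (ι' : Type) (_ : Fintype ι') (w : ι' → Derivation k F F), Good H w ∧
        span F (Set.range w) = ⊤ := by
  intro d
  induction d using Nat.strong_induction_on with
  | _ d ih =>
    intro ι _ v hv hd
    by_cases htop : span F (Set.range v) = ⊤
    · exact ⟨ι, inferInstance, v, hv, htop⟩
    · obtain ⟨Y, hY, hYl⟩ := step hp _ hv.lie_mem htop
      have hg := hv.extend hY hYl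
      have hcard := hg.indep.fintype_card_le_finrank
      rw [Fintype.card_option] at hcard
      refine ih (Module.finrank F (Derivation k F F) - Fintype.card (Option ι)) ?_ (Option ι) _ hg rfl
      rw [Fintype.card_option]
      omega

end Pool.Agent.V1145.Pois
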