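import Mathlib
import Pool.Agent.V1145.PoisGood

/-!
# The Hamiltonian derivations span a traceless space
-/

set_option autoImplicit false
set_option linter.all false

noncomputable section

namespace Pool.Agent.V1145.Pois

open Submodule

variable {k F : Type*} [Field k] [Field F] [Algebra k F]

/-- The pairing of a derivation with a vector of functions. -/
def pair {n : ℕ} (x : Fin n → F) (X : Derivation k F F) (h : Fin n → F) : F :=
  ∑ j, h j * X (x j)

/-- The derivation attached to a vector of functions. -/
def sharp {n : ℕ} (H : Fin n → Derivation k F F) (g : Fin n → F) : Derivation k F F :=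
  ∑ i, g i • H i

theorem sharp_apply {n : ℕ} (H : Fin n → Derivation k F F) (g : Fin n → F) (z : F) :
    sharp H g z = ∑ i, g i * H i z := sum_smul_apply _ _ _ _

theorem sharp_add {n : ℕ} (H : Fin n → Derivation k F F) (g g' : Fin n → F) :
    sharp H (g + g') = sharp H g + sharp H g' := by
  simp [sharp, add_smul, Finset.sum_add_distrib]

theorem sharp_smul {n : ℕ} (H : Fin n → Derivation k F F) (c : F) (g : Fin n → F) :
    sharp H (c • g) = c • sharp H g := by
  simp [sharp, mul_smul, Finset.smul_sum]

/-- `sharp` as a linear map. -/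
def sharpL {n : ℕ} (H : Fin n → Derivation k F F) : (Fin n → F) →ₗ[F] Derivation k F F :=
  { toFun := sharp H, map_add' := sharp_add H, map_smul' := sharp_smul H }

theorem pair_add {n : ℕ} (x : Fin n → F) (X Y : Derivation k F F) (h : Fin n → F) :
    pair x (X + Y) h = pair x X h + pair x Y h := by
  simp [pair, mul_add, Finset.sum_add_distrib]

theorem pair_smul {n : ℕ} (x : Fin n → F) (c : F) (X : Derivation k F F) (h : Fin n → F) :
    pair x (c • X) h = c * pair x X h := by
  simp only [pair, Derivation.smul_apply, smul_eq_mul, Finset.mul_sum]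
  exact Finset.sum_congr rfl (fun _ _ => by ring)

theorem pair_zero {n : ℕ} (x : Fin n → F) (h : Fin n → F) :
    pair x (0 : Derivation k F F) h = 0 := by
  simp [pair]

theorem pair_sum {n : ℕ} (x : Fin n → F) {ι : Type*} (s : Finset ι) (c : ι → F)
    (X : ι → Derivation k F F) (h : Fin n → F) :
    pair x (∑ i ∈ s, c i • X i) h = ∑ i ∈ s, c i * pair x (X i) h := by
  classical
  induction s using Finset.induction_on with
  | empty => simp [pair_zero]
  | insert a s ha ih =>
    rw [Finset.sum_insert ha, Finset.sum_insert ha, pair_add, ih, pair_smul]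

theorem pair_add_right {n : ℕ} (x : Fin n → F) (X : Derivation k F F) (h h' : Fin n → F) :
    pair x X (h + h') = pair x X h + pair x X h' := by
  simp [pair, add_mul, Finset.sum_add_distrib]

theorem pair_smul_right {n : ℕ} (x : Fin n → F) (c : F) (X : Derivation k F F) (h : Fin n → F) :
    pair x X (c • h) = c * pair x X h := by
  simp only [pair, Pi.smul_apply, smul_eq_mul, Finset.mul_sum]
  exact Finset.sum_congr rfl (fun _ _ => by ring)

/-- The bilinear form. -/
def Om {n : ℕ} (x : Fin n → F) (H : Fin n → Derivation k F F) :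
    (Fin n → F) →ₗ[F] (Fin n → F) →ₗ[F] F :=
  LinearMap.mk₂ F (fun g h => pair x (sharp H g) h)
    (fun g g' h => by rw [sharp_add, pair_add])
    (fun c g h => by rw [sharp_smul, pair_smul, smul_eq_mul])
    (fun g h h' => by rw [pair_add_right])
    (fun c g h => by rw [pair_smul_right, smul_eq_mul])

theorem Om_apply {n : ℕ} (x : Fin n → F) (H : Fin n → Derivation k F F) (g h : Fin n → F) :
    Om x H g h = pair x (sharp H g) h := rfl

theorem Om_self {n : ℕ} (x : Fin n → F) (H : Fin n → Derivation k F F)
    (hself : ∀ i, H i (x i) = 0) (hanti : ∀ i j, H i (x j) = - H j (x i)) (g : Fin n → F) :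
    Om x H g g = 0 := by
  rw [Om_apply, pair]
  simp only [sharp_apply, Finset.mul_sum]
  rw [← Finset.sum_product']
  refine Finset.sum_involution (fun q _ => (q.2, q.1)) ?_ ?_ ?_ ?_
  · rintro ⟨i, j⟩ _
    simp only
    rw [hanti j i]; ring
  · rintro ⟨i, j⟩ _ hne heq
    apply hne
    have : j = i := congrArg Prod.fst heq
    subst this
    simp only
    rw [hself, mul_zero, mul_zero]
  · rintro ⟨i, j⟩ _
    simp
  · rintro ⟨i, j⟩ _
    rfl

theorem key {n : ℕ} (x : Fin n → F) (H : Fin n → Derivation k F F)
    (hanti : ∀ i j, H i (x j) = - H j (x i))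
    (hJ : ∀ a i j, H a (H i (x j)) + H i (H j (x a)) + H j (H a (x i)) = 0)
    (a : Fin n) (g h : Fin n → F) :
    pair x ⁅H a, sharp H g⁆ h - pair x ⁅H a, sharp H h⁆ g = H a (pair x (sharp H g) h) := by
  have e1 : H a (pair x (sharp H g) h) = ∑ i, ∑ j, (H a (h j) * g i * H i (x j)
      + h j * H a (g i) * H i (x j) + h j * g i * H a (H i (x j))) := by
    rw [Finset.sum_comm]
    simp only [pair, sharp_apply, map_sum, Derivation.leibniz, smul_eq_mul, Finset.mul_sum,
      Finset.sum_mul, ← Finset.sum_add_distrib]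
    exact Finset.sum_congr rfl (fun j _ => Finset.sum_congr rfl (fun i _ => by ring))
  have e2 : ∀ g h : Fin n → F, pair x ⁅H a, sharp H g⁆ h = ∑ i, ∑ j, (h j * H a (g i) * H i (x j)
      + h j * g i * H a (H i (x j)) - h j * g i * H i (H a (x j))) := by
    intro g h
    rw [Finset.sum_comm]
    simp only [pair, Derivation.commutator_apply, sharp_apply, map_sum, Derivation.leibniz,
      smul_eq_mul, mul_sub, Finset.mul_sum, ← Finset.sum_sub_distrib]
    exact Finset.sum_congr rfl (fun j _ => Finset.sum_congr rfl (fun i _ => by ring))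
  have e3 : pair x ⁅H a, sharp H h⁆ g = ∑ i, ∑ j, (g i * H a (h j) * H j (x i)
      + g i * h j * H a (H j (x i)) - g i * h j * H j (H a (x i))) := by
    rw [e2 h g, Finset.sum_comm]
  rw [e1, e2 g h, e3, ← Finset.sum_sub_distrib]
  refine Finset.sum_congr rfl (fun i _ => ?_)
  rw [← Finset.sum_sub_distrib]
  refine Finset.sum_congr rfl (fun j _ => ?_)
  have h1 : H a (H j (x i)) = - H a (H i (x j)) := by rw [hanti j i, map_neg]
  have h2 : H i (H j (x a)) = - H i (H a (x j)) := by rw [hanti j a, map_neg]
  have h3 := hJ a i j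
  rw [h2] at h3
  rw [h1, hanti j i]
  linear_combination (h j * g i) * h3

theorem exists_good_init {n : ℕ} (x : Fin n → F)
    (hx : ∀ X : Derivation k F F, (∀ j, X (x j) = 0) → X = 0)
    (H : Fin n → Derivation k F F) (hself : ∀ i, H i (x i) = 0)
    (hanti : ∀ i j, H i (x j) = - H j (x i))
    (hJ : ∀ a i j, H a (H i (x j)) + H i (H j (x a)) + H j (H a (x i)) = 0)
    (hHH : ∀ a b, ⁅H a, H b⁆ ∈ span F (Set.range H)) :
    ∃ (ι : Type) (_ : Fintype ι) (v : ι → Derivation k F F), Good H v := by
  obtain ⟨ι, hι, e, f, -, -, hef1, hef0, hee, hff, hspan⟩ :=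
    symp (Om x H) (Om_self x H hself hanti) ⊤
  have hOanti : ∀ a b, Om x H a b = - Om x H b a := by
    intro a b
    have h := Om_self x H hself hanti (a + b)
    simp only [map_add, LinearMap.add_apply, Om_self x H hself hanti, zero_add, add_zero] at h
    linear_combination h
  set v : ι ⊕ ι → Derivation k F F := Sum.elim (fun i => sharp H (e i)) (fun i => sharp H (f i))
    with hv
  have hsharp : ∀ g, sharp H g ∈ span F (Set.range v) := by
    intro g
    obtain ⟨s, hs, hrad⟩ := hspan g mem_top
    have h1 : sharp H (g - s) = 0 := by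
      apply hx
      intro j
      have h2 := hrad (Pi.single j 1) mem_top
      rw [Om_apply, pair, Finset.sum_eq_single j] at h2
      · simpa using h2
      · intro b _ hb
        rw [Pi.single_eq_of_ne hb, zero_mul]
      · intro hj; exact absurd (Finset.mem_univ j) hj
    have h3 : sharp H g = sharp H s := by
      have : sharp H (g - s) + sharp H s = sharp H g := by
        rw [← sharp_add, sub_add_cancel]
      rw [← this, h1, zero_add]
    rw [h3]
    have h4 : sharpL H s ∈ Submodule.map (sharpL H) (span F (Set.range e ∪ Set.range f)) :=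
      ⟨s, hs, rfl⟩
    rw [Submodule.map_span] at h4
    refine span_mono ?_ h4
    rintro _ ⟨w, (⟨i, rfl⟩ | ⟨i, rfl⟩), rfl⟩
    · exact ⟨Sum.inl i, rfl⟩
    · exact ⟨Sum.inr i, rfl⟩
  have hHv : ∀ a, H a ∈ span F (Set.range v) := by
    intro a
    have := hsharp (Pi.single a 1)
    rw [sharp, Finset.sum_eq_single a] at this
    · simpa using this
    · intro b _ hb
      rw [Pi.single_eq_of_ne hb, zero_smul]
    · intro hj; exact absurd (Finset.mem_univ a) hj
  have hsH : ∀ g, sharp H g ∈ span F (Set.range H) := by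
    intro g
    unfold sharp
    refine Submodule.sum_mem _ (fun j _ => Submodule.smul_mem _ _ ?_)
    exact subset_span (Set.mem_range_self j)
  have hvH : ∀ o, v o ∈ span F (Set.range H) := by
    rintro (i | i)
    · exact hsH _
    · exact hsH _
  have hHle : span F (Set.range H) ≤ span F (Set.range v) := by
    rw [span_le]; rintro _ ⟨a, rfl⟩; exact hHv a
  have hclosedH := lie_mem_span (Set.range H) (by
    rintro _ ⟨a, rfl⟩ _ ⟨b, rfl⟩; exact hHH a b)
  have hpE : ∀ i g, pair x (v (Sum.inl i)) g = Om x H (e i) g := fun i g => rfl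
  have hpF : ∀ i g, pair x (v (Sum.inr i)) g = Om x H (f i) g := fun i g => rfl
  -- coefficients
  have hcoefE : ∀ (c : ι ⊕ ι → F) (j : ι), pair x (∑ o, c o • v o) (f j) = c (Sum.inl j) := by
    intro c j
    rw [pair_sum, Fintype.sum_sum_type]
    simp only [hpE, hpF, hff, mul_zero, Finset.sum_const_zero, add_zero]
    rw [Finset.sum_eq_single j]
    · rw [hef1, mul_one]
    · intro i _ hij; rw [hef0 i j hij, mul_zero]
    · intro hj; exact absurd (Finset.mem_univ j) hj
  have hcoefF : ∀ (c : ι ⊕ ι → F) (j : ι), pair x (∑ o, c o • v o) (e j) = - c (Sum.inr j) := by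
    intro c j
    rw [pair_sum, Fintype.sum_sum_type]
    simp only [hpE, hpF, hee, mul_zero, Finset.sum_const_zero, zero_add]
    rw [Finset.sum_eq_single j]
    · rw [hOanti, hef1, mul_neg, mul_one]
    · intro i _ hij; rw [hOanti, hef0 j i (Ne.symm hij), neg_zero, mul_zero]
    · intro hj; exact absurd (Finset.mem_univ j) hj
  refine ⟨ι ⊕ ι, inferInstance, v, ?_, hHv, ?_, ?_⟩
  · rw [Fintype.linearIndependent_iff]
    intro c hc o
    rcases o with j | j
    · rw [← hcoefE c j, hc, pair_zero]
    · have := hcoefF c j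
      rw [hc, pair_zero] at this
      linear_combination this
  · intro o o'
    exact hHle (hclosedH _ (hvH o) _ (hvH o'))
  · have hd : ∀ a o, ∃ d : ι ⊕ ι → F, ∑ l, d l • v l = ⁅H a, v o⁆ := fun a o =>
      (Submodule.mem_span_range_iff_exists_fun F).1
        (hHle (hclosedH _ (subset_span ⟨a, rfl⟩) _ (hvH o)))
    choose c hc using hd
    refine ⟨c, fun a o => (hc a o).symm, fun a => ?_⟩
    rw [Fintype.sum_sum_type, ← Finset.sum_add_distrib]
    refine Finset.sum_eq_zero (fun i _ => ?_)
    have h1 := hcoefE (c a (Sum.inl i)) i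
    have h2 := hcoefF (c a (Sum.inr i)) i
    rw [hc] at h1 h2
    have h3 := key x H hanti hJ a (e i) (f i)
    have h4 : pair x (sharp H (e i)) (f i) = 1 := hef1 i
    rw [h4, Derivation.map_one_eq_zero] at h3
    have h5 : pair x ⁅H a, sharp H (e i)⁆ (f i) = c a (Sum.inl i) (Sum.inl i) := h1
    have h6 : pair x ⁅H a, sharp H (f i)⁆ (e i) = - c a (Sum.inr i) (Sum.inr i) := h2
    rw [h5, h6] at h3
    linear_combination h3

end Pool.Agent.V1145.Pois
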