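import Mathlib
import Pool.Agent.V1145.PoisInit

/-!
# The invariant density
-/

set_option autoImplicit false
set_option linter.all false

noncomputable section

namespace Pool.Agent.V1145.Pois

open Submodule Matrix

variable {k F : Type*} [Field k] [Field F] [Algebra k F]

/-- The ring homomorphism to the dual numbers given by a derivation. -/
def dualHom (D : Derivation k F F) : F →+* TrivSqZeroExt F F where
  toFun f := TrivSqZeroExt.inl f + TrivSqZeroExt.inr (D f)
  map_one' := by ext <;> simp
  map_mul' f g := by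
    ext
    · simp
    · simp [mul_comm, add_comm]
  map_zero' := by ext <;> simp
  map_add' f g := by
    ext <;> simp

theorem snd_calc (a b c : F) : TrivSqZeroExt.snd
    (((TrivSqZeroExt.inl 1 + TrivSqZeroExt.inr a : TrivSqZeroExt F F) * TrivSqZeroExt.inl b) *
      (TrivSqZeroExt.inl 1 + TrivSqZeroExt.inr c)) = (c + a) * b := by
  simp
  ring

theorem det_deriv {n : ℕ} (D : Derivation k F F) (A c G : Matrix (Fin n) (Fin n) F)
    (h : ∀ i j, D (A i j) = (A * G + c * A) i j) :
    D A.det = (G.trace + c.trace) * A.det := by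
  set R := TrivSqZeroExt F F
  set ε : R := TrivSqZeroExt.inr 1 with hε
  have hε2 : ε ^ 2 = 0 := by
    rw [pow_two, hε, TrivSqZeroExt.inr_mul_inr]
  set I : F →+* R := TrivSqZeroExt.inlHom F F with hI
  have hmat : (dualHom D).mapMatrix A =
      (1 + ε • I.mapMatrix c) * I.mapMatrix A * (1 + ε • I.mapMatrix G) := by
    have e1 : (dualHom D).mapMatrix A = I.mapMatrix A + ε • I.mapMatrix (A * G + c * A) := by
      ext1 i j
      have h1 : (dualHom D) (A i j) = TrivSqZeroExt.inl (A i j) + TrivSqZeroExt.inr (D (A i j)) :=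
        rfl
      simp only [RingHom.mapMatrix_apply, Matrix.map_apply, Matrix.add_apply, Matrix.smul_apply]
      rw [h1, h i j]
      have h2 : (TrivSqZeroExt.inr ((A * G + c * A) i j) : R) = ε • I ((A * G + c * A) i j) := by
        rw [hε, hI, smul_eq_mul, TrivSqZeroExt.inlHom_apply, TrivSqZeroExt.inr_mul_inl]
        simp
      rw [h2]
      rfl
    rw [e1, map_add, map_mul, map_mul]
    have e2 : ε • I.mapMatrix c * I.mapMatrix A * ε • I.mapMatrix G = 0 := by
      rw [smul_mul_assoc, smul_mul_assoc, Matrix.mul_smul, smul_smul, ← pow_two, hε2, zero_smul]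
    rw [add_mul, one_mul, add_mul, mul_add, mul_one, mul_add, mul_one, e2]
    rw [smul_add, Matrix.mul_smul, smul_mul_assoc]
    abel
  have hdet := congrArg Matrix.det hmat
  rw [← RingHom.map_det, Matrix.det_mul, Matrix.det_mul] at hdet
  rw [Matrix.det_one_add_smul ε (I.mapMatrix c), Matrix.det_one_add_smul ε (I.mapMatrix G), hε2,
    mul_zero, mul_zero, add_zero, add_zero, ← RingHom.map_det] at hdet
  have htr : ∀ M : Matrix (Fin n) (Fin n) F, (I.mapMatrix M).trace = I M.trace := by
    intro M
    simp [Matrix.trace]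
  rw [htr, htr] at hdet
  have h3 := congrArg TrivSqZeroExt.snd hdet
  have h4 : TrivSqZeroExt.snd ((dualHom D) A.det) = D A.det := by
    simp [dualHom]
  rw [h4] at h3
  have hs : ∀ t : F, (1 : R) + I t * ε = TrivSqZeroExt.inl 1 + TrivSqZeroExt.inr t := by
    intro t
    rw [hε, hI, TrivSqZeroExt.inlHom_apply, TrivSqZeroExt.inl_mul_inr, smul_eq_mul, mul_one,
      TrivSqZeroExt.inl_one]
  rw [hs, hs] at h3
  rw [h3]
  have hIA : I A.det = TrivSqZeroExt.inl A.det := rfl
  rw [hIA]
  exact snd_calc _ _ _

theorem abstract_main {p : ℕ} (hp : p.Prime) [CharP F p] {n : ℕ} (x : Fin n → F)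
    (d : Fin n → Derivation k F F) (hd1 : ∀ i, d i (x i) = 1) (hd0 : ∀ i j, i ≠ j → d i (x j) = 0)
    (hx : ∀ X : Derivation k F F, (∀ j, X (x j) = 0) → X = 0)
    (H : Fin n → Derivation k F F) (hself : ∀ i, H i (x i) = 0)
    (hanti : ∀ i j, H i (x j) = - H j (x i))
    (hJ : ∀ a i j, H a (H i (x j)) + H i (H j (x a)) + H j (H a (x i)) = 0)
    (hHH : ∀ a b, ⁅H a, H b⁆ ∈ span F (Set.range H)) :
    ∃ g : F, g ≠ 0 ∧ ∀ a, H a g = - (∑ j, d j (H a (x j))) * g := by
  classical
  have hexp : ∀ X : Derivation k F F, X = ∑ i, X (x i) • d i := by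
    intro X
    rw [← sub_eq_zero]
    apply hx
    intro j
    rw [Derivation.sub_apply, sum_smul_apply, Finset.sum_eq_single j]
    · rw [hd1, mul_one, sub_self]
    · intro i _ hij
      rw [hd0 i j hij, mul_zero]
    · intro hj; exact absurd (Finset.mem_univ j) hj
  have hspan : span F (Set.range d) = ⊤ := by
    rw [eq_top_iff]
    intro X _
    rw [hexp X]
    exact Submodule.sum_mem _ (fun j _ => Submodule.smul_mem _ _ (subset_span (Set.mem_range_self j)))
  have hdind : LinearIndependent F d := by
    rw [Fintype.linearIndependent_iff]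
    intro c hc j
    have h1 : (∑ i, c i • d i) (x j) = c j := by
      rw [sum_smul_apply, Finset.sum_eq_single j]
      · rw [hd1, mul_one]
      · intro i _ hij
        rw [hd0 i j hij, mul_zero]
      · intro hj; exact absurd (Finset.mem_univ j) hj
    rw [← h1, hc]
    rfl
  let bd : Module.Basis (Fin n) F (Derivation k F F) := Module.Basis.mk hdind (by rw [hspan])
  haveI : FiniteDimensional F (Derivation k F F) := bd.finiteDimensional_of_finite
  obtain ⟨ι, hι, v0, hv0⟩ := exists_good_init x hx H hself hanti hJ hHH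
  obtain ⟨ι', hι', w, hw, hwtop⟩ := exists_good_top hp H _ ι v0 hv0 rfl
  let bw : Module.Basis ι' F (Derivation k F F) := Module.Basis.mk hw.indep (by rw [hwtop])
  let e : Fin n ≃ ι' := bd.indexEquiv bw
  obtain ⟨c, hc1, hc2⟩ := hw.trace
  let A : Matrix (Fin n) (Fin n) F := fun i j => w (e i) (x j)
  have hAdet : A.det ≠ 0 := by
    intro h0
    obtain ⟨g, hg, hgA⟩ := Matrix.exists_vecMul_eq_zero_iff.2 h0
    apply hg
    have h1 : ∑ i, g i • w (e i) = 0 := by
      apply hx
      intro j
      have h2 := congrFun hgA j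
      rw [sum_smul_apply]
      exact h2
    have h3 : LinearIndependent F (fun i => w (e i)) := hw.indep.comp e e.injective
    rw [Fintype.linearIndependent_iff] at h3
    funext i
    exact h3 g h1 i
  have hder : ∀ a, H a A.det = (∑ j, d j (H a (x j))) * A.det := by
    intro a
    let C : Matrix (Fin n) (Fin n) F := fun i l => c a (e i) (e l)
    let G : Matrix (Fin n) (Fin n) F := fun l j => d l (H a (x j))
    have h1 := det_deriv (H a) A C G (by
      intro i j
      rw [Matrix.add_apply, Matrix.mul_apply, Matrix.mul_apply]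
      have h2 := hc1 a (e i)
      have h3 := congrArg (fun D : Derivation k F F => D (x j)) h2
      simp only [Derivation.commutator_apply, sum_smul_apply] at h3
      have h4 : w (e i) (H a (x j)) = ∑ l, A i l * G l j := by
        conv_lhs => rw [hexp (w (e i))]
        rw [sum_smul_apply]
      have h5 : ∑ l, c a (e i) l * w l (x j) = ∑ l, C i l * A l j :=
        (Equiv.sum_comp e (fun l => c a (e i) l * w l (x j))).symm
      rw [h4, h5] at h3
      show H a (w (e i) (x j)) = _
      linear_combination h3)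
    have h6 : C.trace = 0 := by
      have := hc2 a
      rw [← Equiv.sum_comp e] at this
      exact this
    rw [h1, h6, add_zero]
    rfl
  refine ⟨A.det⁻¹, inv_ne_zero hAdet, fun a => ?_⟩
  have h7 : H a (A.det * A.det⁻¹) = 0 := by
    rw [mul_inv_cancel₀ hAdet, Derivation.map_one_eq_zero]
  rw [Derivation.leibniz, hder, smul_eq_mul, smul_eq_mul] at h7
  have h8 : A.det * (H a A.det⁻¹ + (∑ j, d j (H a (x j))) * A.det⁻¹) = 0 := by
    linear_combination h7
  rcases mul_eq_zero.1 h8 with h9 | h9
  · exact absurd h9 hAdet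
  · linear_combination h9

end Pool.Agent.V1145.Pois
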