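import Mathlib

/-! # The two-urn chain: second moments of uniformly random sets of `k` balls -/

set_option autoImplicit false

open Finset

namespace Pool.Agent.V1145.BK

/-- the possible choices of `k` out of `n` balls -/
def sel (n k : ℕ) : Finset (Finset (Fin n)) := powersetCard k univ

/-- centred indicator -/
noncomputable def Y {n : ℕ} (k : ℕ) (S : Finset (Fin n)) (i : Fin n) : ℝ :=
  (if i ∈ S then 1 else 0) - (k : ℝ) / n

noncomputable def NN (n k : ℕ) : ℝ := ((sel n k).card : ℝ)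

theorem NN_pos {n k : ℕ} (h : k ≤ n) : 0 < NN n k := by
  unfold NN sel
  rw [card_powersetCard, card_univ, Fintype.card_fin]
  exact_mod_cast Nat.choose_pos h

theorem sumY {n k : ℕ} (hn : 0 < n) (S : Finset (Fin n)) (hS : S ∈ sel n k) : ∑ i, Y k S i = 0 := by
  have hc : S.card = k := (mem_powersetCard.1 hS).2
  have hn' : (n : ℝ) ≠ 0 := by positivity
  unfold Y
  rw [sum_sub_distrib, sum_ite_mem, univ_inter]
  simp [hc]
  field_simp
  ring

theorem reindex {n k : ℕ} (j j' : Fin n) (F : Finset (Fin n) → ℝ) :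
    ∑ S ∈ sel n k, F S = ∑ S ∈ sel n k, F (S.map (Equiv.swap j j').toEmbedding) := by
  have hss : ∀ S : Finset (Fin n),
      (S.map (Equiv.swap j j').toEmbedding).map (Equiv.swap j j').toEmbedding = S := by
    intro S
    ext x
    simp [mem_map_equiv]
  refine sum_nbij' (fun S => S.map (Equiv.swap j j').toEmbedding)
    (fun S => S.map (Equiv.swap j j').toEmbedding) ?_ ?_ ?_ ?_ ?_
  · intro S hS
    exact mem_powersetCard.2 ⟨subset_univ _, by rw [card_map]; exact (mem_powersetCard.1 hS).2⟩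
  · intro S hS
    exact mem_powersetCard.2 ⟨subset_univ _, by rw [card_map]; exact (mem_powersetCard.1 hS).2⟩
  · intro S _; exact hss S
  · intro S _; exact hss S
  · intro S _
    rw [hss]

theorem Y_map {n : ℕ} (k : ℕ) (j j' : Fin n) (S : Finset (Fin n)) (i : Fin n) :
    Y k (S.map (Equiv.swap j j').toEmbedding) (Equiv.swap j j' i) = Y k S i := by
  unfold Y
  have : (Equiv.swap j j' i ∈ S.map (Equiv.swap j j').toEmbedding) ↔ i ∈ S := by
    rw [mem_map_equiv, Equiv.symm_apply_apply]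
  simp only [this]

theorem m1 {n k : ℕ} (i : Fin n) : ∑ S ∈ sel n k, Y k S i = 0 := by
  have hn : 0 < n := i.pos
  have h : ∀ i', ∑ S ∈ sel n k, Y k S i' = ∑ S ∈ sel n k, Y k S i := by
    intro i'
    rw [reindex i i']
    refine sum_congr rfl fun S _ => ?_
    have := Y_map k i i' S i
    rwa [Equiv.swap_apply_left] at this
  have h0 : ∑ i', ∑ S ∈ sel n k, Y k S i' = 0 := by
    rw [sum_comm]
    exact sum_eq_zero fun S hS => sumY hn S hS
  rw [sum_congr rfl fun i' _ => h i'] at h0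
  simp only [sum_const, card_univ, Fintype.card_fin, nsmul_eq_mul] at h0
  rcases mul_eq_zero.1 h0 with h1 | h1
  · exact absurd h1 (by positivity)
  · exact h1

theorem m1q {n k : ℕ} (A : Finset (Fin n)) : ∑ S ∈ sel n k, ∑ i ∈ A, Y k S i = 0 := by
  rw [sum_comm]
  exact sum_eq_zero fun i _ => m1 i

theorem cswap {n k : ℕ} (i j j' : Fin n) (h1 : j ≠ i) (h2 : j' ≠ i) :
    ∑ S ∈ sel n k, Y k S i * Y k S j = ∑ S ∈ sel n k, Y k S i * Y k S j' := by
  rw [reindex j' j]
  refine sum_congr rfl fun S _ => ?_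
  have e1 := Y_map k j' j S i
  have e2 := Y_map k j' j S j'
  rw [Equiv.swap_apply_of_ne_of_ne h2.symm h1.symm] at e1
  rw [Equiv.swap_apply_left] at e2
  rw [e1, e2]

theorem cii {n k : ℕ} (i : Fin n) : ∑ S ∈ sel n k, Y k S i * Y k S i ≤ NN n k / 4 := by
  set q : ℝ := (k : ℝ) / n with hq
  have h : ∀ S : Finset (Fin n), Y k S i * Y k S i = (1 - 2 * q) * Y k S i + (q - q ^ 2) := by
    intro S; unfold Y; rw [← hq]; split_ifs <;> ring
  simp only [h, sum_add_distrib, ← mul_sum, m1, mul_zero, zero_add, sum_const, nsmul_eq_mul]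
  have e : ((sel n k).card : ℝ) = NN n k := rfl
  have hN : 0 ≤ NN n k := Nat.cast_nonneg _
  rw [e]
  nlinarith [sq_nonneg (q - 1 / 2)]

theorem cneg {n k : ℕ} (i j : Fin n) (h : j ≠ i) : ∑ S ∈ sel n k, Y k S i * Y k S j ≤ 0 := by
  have hn : 0 < n := i.pos
  have h0 : ∑ j', ∑ S ∈ sel n k, Y k S i * Y k S j' = 0 := by
    rw [sum_comm]
    refine sum_eq_zero fun S hS => ?_
    rw [← mul_sum, sumY hn S hS, mul_zero]
  rw [← add_sum_erase univ _ (mem_univ i)] at h0
  have h1 : ∑ j' ∈ univ.erase i, ∑ S ∈ sel n k, Y k S i * Y k S j' =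
      ((univ.erase i).card : ℝ) * ∑ S ∈ sel n k, Y k S i * Y k S j := by
    rw [sum_congr rfl fun j' hj' => cswap i j' j (ne_of_mem_erase hj') h]
    simp
  rw [h1] at h0
  have h2 : 0 ≤ ∑ S ∈ sel n k, Y k S i * Y k S i := sum_nonneg fun S _ => mul_self_nonneg _
  have h3 : 0 < ((univ.erase i).card : ℝ) := by
    exact_mod_cast card_pos.2 ⟨j, mem_erase.2 ⟨h, mem_univ _⟩⟩
  by_contra hc
  push Not at hc
  have : 0 < ((univ.erase i).card : ℝ) * ∑ S ∈ sel n k, Y k S i * Y k S j := mul_pos h3 hc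
  linarith

theorem m2 {n k : ℕ} (A : Finset (Fin n)) :
    ∑ S ∈ sel n k, (∑ i ∈ A, Y k S i) ^ 2 ≤ NN n k * A.card / 4 := by
  have h : ∑ S ∈ sel n k, (∑ i ∈ A, Y k S i) ^ 2 =
      ∑ i ∈ A, ∑ j ∈ A, ∑ S ∈ sel n k, Y k S i * Y k S j := by
    have : ∀ S : Finset (Fin n), (∑ i ∈ A, Y k S i) ^ 2 = ∑ i ∈ A, ∑ j ∈ A, Y k S i * Y k S j := by
      intro S; rw [sq, sum_mul_sum]
    simp only [this]
    rw [sum_comm]
    refine sum_congr rfl fun i _ => ?_
    rw [sum_comm]
  rw [h]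
  calc ∑ i ∈ A, ∑ j ∈ A, ∑ S ∈ sel n k, Y k S i * Y k S j ≤ ∑ i ∈ A, NN n k / 4 := by
        refine sum_le_sum fun i hi => ?_
        rw [← add_sum_erase A _ hi]
        have : ∑ j ∈ A.erase i, ∑ S ∈ sel n k, Y k S i * Y k S j ≤ 0 :=
          sum_nonpos fun j hj => cneg i j (ne_of_mem_erase hj)
        have h3 := cii (k := k) i
        linarith
    _ = NN n k * A.card / 4 := by rw [sum_const, nsmul_eq_mul]; ring

end Pool.Agent.V1145.BK
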