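import Pool.Agent.V1145.BK1

/-! # The two-urn chain which moves `k` of `n` balls, `k` near `n / 2`: contraction -/

set_option autoImplicit false

open Finset

namespace Pool.Agent.V1145.BK

/-- number of chosen balls among the first `w` -/
def cnt {n : ℕ} (S : Finset (Fin n)) (w : ℕ) : ℕ := (S.filter fun i => i.val < w).card

/-- the new number of white balls in the first urn -/
def nxt {n : ℕ} (w : ℕ) (S T : Finset (Fin n)) : ℕ := w - cnt S w + cnt T (n - w)

/-- one step of the chain, acting on functions -/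
noncomputable def step (n k : ℕ) (f : ℕ → ℝ) (w : ℕ) : ℝ :=
  (∑ S ∈ sel n k, ∑ T ∈ sel n k, f (nxt w S T)) / ((sel n k).card : ℝ) ^ 2

/-- the first `w` balls -/
def I (n w : ℕ) : Finset (Fin n) := univ.filter fun i => i.val < w

theorem card_I {n w : ℕ} (hw : w ≤ n) : (I n w).card = w := by
  unfold I
  have h2 : ((univ.filter fun i : Fin n => i.val < w).map Fin.valEmbedding) = range w := by
    ext x
    simp only [mem_map, mem_filter, mem_univ, true_and, Fin.valEmbedding_apply, mem_range]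
    constructor
    · rintro ⟨a, ha, rfl⟩; exact ha
    · intro hx; exact ⟨⟨x, by omega⟩, hx, rfl⟩
  rw [← card_map Fin.valEmbedding, h2, card_range]

theorem cnt_le {n w : ℕ} (hw : w ≤ n) (S : Finset (Fin n)) : cnt S w ≤ w := by
  unfold cnt
  calc (S.filter fun i => i.val < w).card ≤ (I n w).card := card_le_card (by
        intro i hi
        exact mem_filter.2 ⟨mem_univ _, (mem_filter.1 hi).2⟩)
    _ = w := card_I hw

theorem nxt_le {n w : ℕ} (hw : w ≤ n) (S T : Finset (Fin n)) : nxt w S T ≤ n := by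
  unfold nxt
  have h1 := cnt_le hw S
  have h2 := cnt_le (n := n) (w := n - w) (by omega) T
  omega

theorem sum_cnt {n w : ℕ} (k : ℕ) (hw : w ≤ n) (S : Finset (Fin n)) :
    ∑ i ∈ I n w, Y k S i = (cnt S w : ℝ) - w * ((k : ℝ) / n) := by
  unfold Y
  rw [sum_sub_distrib, sum_ite_mem, sum_const, sum_const, card_I hw]
  have : (I n w ∩ S).card = cnt S w := by
    unfold cnt I
    congr 1
    ext i
    simp [and_comm]
  rw [this]
  simp

theorem nxt_real {n w : ℕ} (k : ℕ) (hw : w ≤ n) (S T : Finset (Fin n)) :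
    (nxt w S T : ℝ) = w - (∑ i ∈ I n w, Y k S i + w * ((k : ℝ) / n)) +
      (∑ i ∈ I n (n - w), Y k T i + (n - w) * ((k : ℝ) / n)) := by
  rw [sum_cnt k hw, sum_cnt k (by omega)]
  unfold nxt
  have h1 := cnt_le hw S
  push_cast [Nat.cast_sub h1, Nat.cast_sub hw]
  ring

theorem I_mono {n v w : ℕ} (h : v ≤ w) : I n v ⊆ I n w := by
  intro i hi
  exact mem_filter.2 ⟨mem_univ _, lt_of_lt_of_le (mem_filter.1 hi).2 h⟩

theorem diff_real {n v w : ℕ} (k : ℕ) (hvw : v ≤ w) (hw : w ≤ n) (S T : Finset (Fin n)) :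
    ((nxt w S T : ℝ) - nxt v S T) = (1 - 2 * ((k : ℝ) / n)) * ((w : ℝ) - v)
      -(∑ i ∈ I n w \ I n v, Y k S i + ∑ i ∈ I n (n - v) \ I n (n - w), Y k T i) := by
  have h1 := nxt_real k hw S T
  have h2 := nxt_real k (hvw.trans hw) S T
  have h3 := sum_sdiff (f := fun i => Y k S i) (I_mono (n := n) hvw)
  have h4 := sum_sdiff (f := fun i => Y k T i) (I_mono (n := n) (show n - w ≤ n - v by omega))
  linarith

/-- the deviation of `k / n` from one half -/
noncomputable def eta (n k : ℕ) : ℝ := |1 - 2 * ((k : ℝ) / n)|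

theorem second {n k v w : ℕ} (hk : k ≤ n) (hvw : v ≤ w) (hw : w ≤ n) :
    ∑ S ∈ sel n k, ∑ T ∈ sel n k, ((nxt w S T : ℝ) - nxt v S T) ^ 2 ≤
      NN n k ^ 2 * (eta n k ^ 2 * ((w : ℝ) - v) ^ 2 + ((w : ℝ) - v) / 2) := by
  set A := I n w \ I n v
  set B := I n (n - v) \ I n (n - w)
  have hA : (A.card : ℝ) = w - v := by
    rw [card_sdiff_of_subset (I_mono hvw), card_I hw, card_I (hvw.trans hw)]
    push_cast [Nat.cast_sub hvw]; ring
  have hB : (B.card : ℝ) = w - v := by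
    rw [card_sdiff_of_subset (I_mono (by omega)), card_I (by omega), card_I (by omega)]
    rw [Nat.cast_sub (by omega), Nat.cast_sub (hvw.trans hw), Nat.cast_sub hw]; ring
  set g : ℝ := (1 - 2 * ((k : ℝ) / n)) * ((w : ℝ) - v) with hg
  have h : ∀ S T : Finset (Fin n), ((nxt w S T : ℝ) - nxt v S T) ^ 2 =
      g ^ 2 + (∑ i ∈ A, Y k S i) ^ 2 + (2 * (∑ i ∈ A, Y k S i)) * (∑ i ∈ B, Y k T i)
        + (∑ i ∈ B, Y k T i) ^ 2
        - 2 * g * (∑ i ∈ A, Y k S i) - 2 * g * (∑ i ∈ B, Y k T i) := by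
    intro S T
    rw [diff_real k hvw hw S T]
    ring
  simp only [h, sum_add_distrib, sum_sub_distrib, ← mul_sum, m1q, mul_zero, sum_const, nsmul_eq_mul]
  have e1 := m2 (k := k) A
  have e2 := m2 (k := k) B
  have hN := NN_pos hk
  rw [hA] at e1
  rw [hB] at e2
  have e3 : ((sel n k).card : ℝ) = NN n k := rfl
  have e4 : g ^ 2 = eta n k ^ 2 * ((w : ℝ) - v) ^ 2 := by
    rw [hg, mul_pow]; unfold eta; rw [sq_abs]
  rw [e3, e4]
  nlinarith

/-- the bound for the mean difference after a step -/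
noncomputable def bb (e x : ℝ) : ℝ := e * x + Real.sqrt (x / 2)

theorem bb_mono {e : ℝ} (he : 0 ≤ e) {x y : ℝ} (h : x ≤ y) : bb e x ≤ bb e y := by
  unfold bb
  exact add_le_add (mul_le_mul_of_nonneg_left h he) (Real.sqrt_le_sqrt (by linarith))

theorem it_mono {e : ℝ} (he : 0 ≤ e) (j : ℕ) : ∀ {x y : ℝ}, x ≤ y →
    (bb e)^[j] x ≤ (bb e)^[j] y := by
  induction j with
  | zero => intro x y h; exact h
  | succ j ih => intro x y h; exact ih (bb_mono he h)

theorem bb_nonneg {e x : ℝ} (he : 0 ≤ e) (hx : 0 ≤ x) : 0 ≤ bb e x := by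
  unfold bb; positivity

theorem sqrt_avg {ι : Type*} (s : Finset ι) (hs : s.Nonempty) (Z : ι → ℝ) (hZ : ∀ i ∈ s, 0 ≤ Z i) :
    (∑ i ∈ s, Real.sqrt (Z i)) / s.card ≤ Real.sqrt ((∑ i ∈ s, Z i) / s.card) := by
  have hc : (0 : ℝ) < s.card := by exact_mod_cast hs.card_pos
  apply Real.le_sqrt_of_sq_le
  have h := sq_sum_le_card_mul_sum_sq (s := s) (f := fun i => Real.sqrt (Z i))
  have h2 : ∑ i ∈ s, Real.sqrt (Z i) ^ 2 = ∑ i ∈ s, Z i :=
    sum_congr rfl fun i hi => Real.sq_sqrt (hZ i hi)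
  rw [h2] at h
  rw [div_pow, div_le_div_iff₀ (by positivity) hc]
  nlinarith

theorem bb_avg {e : ℝ} {ι : Type*} (s : Finset ι) (hs : s.Nonempty) (Z : ι → ℝ)
    (hZ : ∀ i ∈ s, 0 ≤ Z i) : (∑ i ∈ s, bb e (Z i)) / s.card ≤ bb e ((∑ i ∈ s, Z i) / s.card) := by
  have h := sqrt_avg s hs (fun i => Z i / 2) (fun i hi => by have := hZ i hi; positivity)
  unfold bb
  rw [sum_add_distrib, ← mul_sum, add_div, mul_div_assoc]
  have e1 : (∑ i ∈ s, Z i / 2) / s.card = (∑ i ∈ s, Z i) / s.card / 2 := by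
    rw [← sum_div]; ring
  rw [e1] at h
  linarith

theorem it_avg {e : ℝ} (he : 0 ≤ e) (j : ℕ) {ι : Type*} (s : Finset ι) (hs : s.Nonempty) :
    ∀ (Z : ι → ℝ), (∀ i ∈ s, 0 ≤ Z i) →
      (∑ i ∈ s, (bb e)^[j] (Z i)) / s.card ≤ (bb e)^[j] ((∑ i ∈ s, Z i) / s.card) := by
  induction j with
  | zero => intro Z _; exact le_refl _
  | succ j ih =>
    intro Z hZ
    have h1 := ih (fun i => bb e (Z i)) (fun i hi => bb_nonneg he (hZ i hi))
    exact h1.trans (it_mono he j (bb_avg s hs Z hZ))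

theorem sel_ne (n k : ℕ) [hk : Fact (k ≤ n)] : (sel n k ×ˢ sel n k).Nonempty := by
  have h := NN_pos hk.1
  unfold NN at h
  have : (sel n k).Nonempty := card_pos.1 (by exact_mod_cast h)
  exact this.product this

theorem step_eq (n k : ℕ) (f : ℕ → ℝ) (w : ℕ) :
    step n k f w = (∑ p ∈ sel n k ×ˢ sel n k, f (nxt w p.1 p.2)) / ((sel n k ×ˢ sel n k).card : ℝ) := by
  unfold step
  rw [sum_product, card_product]
  push_cast
  rw [sq]

theorem eta_nonneg (n k : ℕ) : 0 ≤ eta n k := abs_nonneg _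

theorem iter (n k : ℕ) [hk : Fact (k ≤ n)] (f : ℕ → ℝ) (δ : ℝ)
    (hf : ∀ w v, w ≤ n → v ≤ n → |f w - f v| ≤ δ) (j : ℕ) :
    ∀ w v, v ≤ w → w ≤ n →
      |(step n k)^[j] f w - (step n k)^[j] f v| ≤ δ * (bb (eta n k))^[j] ((w : ℝ) - v) := by
  have hδ : 0 ≤ δ := (abs_nonneg _).trans (hf 0 0 (by omega) (by omega))
  have he := eta_nonneg n k
  induction j with
  | zero =>
    intro w v hvw hw
    show |f w - f v| ≤ δ * ((w : ℝ) - v)
    rcases Nat.eq_or_lt_of_le hvw with h | h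
    · subst h; simp
    · have h1 := hf w v hw (by omega)
      have h2 : (1 : ℝ) ≤ (w : ℝ) - v := by
        have : ((v + 1 : ℕ) : ℝ) ≤ w := by exact_mod_cast h
        push_cast at this; linarith
      nlinarith
  | succ j ih =>
    intro w v hvw hw
    rw [Function.iterate_succ_apply']
    set F := (step n k)^[j] f
    set P := sel n k ×ˢ sel n k
    have hP : P.Nonempty := sel_ne n k
    have hc : (0 : ℝ) < P.card := by exact_mod_cast hP.card_pos
    rw [step_eq, step_eq, ← sub_div, ← sum_sub_distrib, abs_div, abs_of_pos hc]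
    have h1 : ∀ p ∈ P, |F (nxt w p.1 p.2) - F (nxt v p.1 p.2)| ≤
        δ * (bb (eta n k))^[j] (|(nxt w p.1 p.2 : ℝ) - nxt v p.1 p.2|) := by
      intro p _
      rcases le_total (nxt v p.1 p.2) (nxt w p.1 p.2) with h | h
      · have := ih _ _ h (nxt_le hw p.1 p.2)
        rwa [abs_of_nonneg (sub_nonneg.2 (Nat.cast_le.2 h))]
      · have := ih _ _ h (nxt_le (hvw.trans hw) p.1 p.2)
        rw [abs_sub_comm, abs_sub_comm (nxt w p.1 p.2 : ℝ)]
        rwa [abs_of_nonneg (sub_nonneg.2 (Nat.cast_le.2 h))]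
    set D : ℝ := (w : ℝ) - v with hD
    have hD0 : 0 ≤ D := sub_nonneg.2 (Nat.cast_le.2 hvw)
    have h3 : (∑ p ∈ P, ((nxt w p.1 p.2 : ℝ) - nxt v p.1 p.2) ^ 2) / P.card ≤
        eta n k ^ 2 * D ^ 2 + D / 2 := by
      rw [div_le_iff₀ hc]
      have := second hk.1 hvw hw
      rw [← sum_product'] at this
      have e : (P.card : ℝ) = NN n k ^ 2 := by
        rw [card_product]; unfold NN; push_cast; ring
      rw [e]
      linarith
    have h4 : (∑ p ∈ P, |(nxt w p.1 p.2 : ℝ) - nxt v p.1 p.2|) / P.card ≤ bb (eta n k) D := by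
      have h5 := sqrt_avg P hP (fun p => ((nxt w p.1 p.2 : ℝ) - nxt v p.1 p.2) ^ 2)
        (fun p _ => sq_nonneg _)
      simp only [Real.sqrt_sq_eq_abs] at h5
      refine h5.trans ((Real.sqrt_le_sqrt h3).trans ?_)
      unfold bb
      rw [Real.sqrt_le_left (by positivity)]
      have hs : Real.sqrt (D / 2) ^ 2 = D / 2 := Real.sq_sqrt (by positivity)
      have h6 : 0 ≤ eta n k * D * Real.sqrt (D / 2) := by positivity
      nlinarith
    calc |∑ p ∈ P, (F (nxt w p.1 p.2) - F (nxt v p.1 p.2))| / P.card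
        ≤ (∑ p ∈ P, δ * (bb (eta n k))^[j] (|(nxt w p.1 p.2 : ℝ) - nxt v p.1 p.2|)) / P.card := by
          apply div_le_div_of_nonneg_right _ hc.le
          exact (abs_sum_le_sum_abs _ _).trans (sum_le_sum h1)
      _ = δ * ((∑ p ∈ P, (bb (eta n k))^[j] (|(nxt w p.1 p.2 : ℝ) - nxt v p.1 p.2|)) / P.card) := by
          rw [← mul_sum, mul_div_assoc]
      _ ≤ δ * (bb (eta n k))^[j + 1] D := by
          apply mul_le_mul_of_nonneg_left _ hδ
          exact (it_avg he j P hP _ fun p _ => abs_nonneg _).trans (it_mono he j h4)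

/-- growth control of the iterates -/
theorem it_bound {e c X : ℝ} (he : 0 ≤ e) (hc0 : 0 ≤ c) (hc1 : c ≤ 1) (hX : 0 ≤ X)
    (h : ∀ x, X ≤ x → bb e x ≤ c * x) (x : ℝ) (j : ℕ) : (bb e)^[j] x ≤ max X (c ^ j * x) := by
  induction j with
  | zero => simp
  | succ j ih =>
    rw [Function.iterate_succ_apply']
    refine (bb_mono he ih).trans ((h _ (le_max_left _ _)).trans ?_)
    rcases le_total X (c ^ j * x) with h1 | h1
    · rw [max_eq_right h1, pow_succ]
      exact le_max_of_le_right (by linarith)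
    · rw [max_eq_left h1]
      exact le_max_of_le_left (by nlinarith)

/-- `J` steps bring the two copies together with probability at least one quarter -/
def AJ (n k J : ℕ) : Prop := (bb (eta n k))^[J] (n : ℝ) ≤ 3 / 4

theorem AJ_of {n k J1 J2 : ℕ} {κ : ℝ} (hκ0 : 0 < κ) (hκ1 : κ ≤ 1 / 16) (he : eta n k ≤ κ)
    (h1 : (2 * κ) ^ J1 * n ≤ 1 / (2 * κ ^ 2)) (h2 : (0.88 : ℝ) ^ J2 * (1 / (2 * κ ^ 2)) ≤ 3 / 4) :
    AJ n k (J2 + J1) := by
  have he0 := eta_nonneg n k
  unfold AJ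
  rw [Function.iterate_add_apply]
  have e1 : (bb (eta n k))^[J1] (n : ℝ) ≤ 1 / (2 * κ ^ 2) := by
    refine (it_bound he0 (by positivity) (by linarith) (by positivity) ?_ _ J1).trans
      (max_le (le_refl (1 / (2 * κ ^ 2))) h1)
    intro x hx
    have hx0 : 0 < x := lt_of_lt_of_le (by positivity) hx
    have hx' : 1 ≤ x * (2 * κ ^ 2) := by
      rwa [div_le_iff₀ (by positivity)] at hx
    have h3 : Real.sqrt (x / 2) ≤ κ * x := by
      rw [Real.sqrt_le_left (by positivity)]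
      nlinarith
    have h4 : eta n k * x ≤ κ * x := mul_le_mul_of_nonneg_right he hx0.le
    unfold bb
    linarith
  refine (it_mono he0 J2 e1).trans ?_
  refine (it_bound he0 (by norm_num) (by norm_num) (by norm_num) ?_ _ J2).trans
    (max_le (le_refl (3 / 4)) h2)
  intro x hx
  have h3 : Real.sqrt (x / 2) ≤ 0.8175 * x := by
    rw [Real.sqrt_le_left (by positivity)]
    nlinarith
  have h4 : eta n k * x ≤ 1 / 16 * x :=
    mul_le_mul_of_nonneg_right (he.trans hκ1) (by linarith)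
  unfold bb
  linarith

end Pool.Agent.V1145.BK
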