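import Pool.Agent.V1145.BK2

/-! # The two-urn chain which moves `k` of `n` balls: mixing in continuous time -/

set_option autoImplicit false

open Finset

namespace Pool.Agent.V1145.BK

/-- oscillation on the state space -/
def Osc (n : ℕ) (f : ℕ → ℝ) (δ : ℝ) : Prop := ∀ w v, w ≤ n → v ≤ n → |f w - f v| ≤ δ

theorem osc_J {n k J : ℕ} [hk : Fact (k ≤ n)] (hJ : AJ n k J) {f : ℕ → ℝ} {δ : ℝ}
    (hf : Osc n f δ) : Osc n ((step n k)^[J] f) (3 / 4 * δ) := by
  have hδ : 0 ≤ δ := (abs_nonneg _).trans (hf 0 0 (by omega) (by omega))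
  have key : ∀ w v, v ≤ w → w ≤ n → |(step n k)^[J] f w - (step n k)^[J] f v| ≤ 3 / 4 * δ := by
    intro w v hvw hw
    refine (iter n k f δ hf J w v hvw hw).trans ?_
    have h1 : ((w : ℝ) - v) ≤ n := by
      have : (w : ℝ) ≤ n := by exact_mod_cast hw
      have hv : (0 : ℝ) ≤ v := Nat.cast_nonneg _
      linarith
    have h2 := (it_mono (eta_nonneg n k) J h1).trans hJ
    nlinarith
  intro w v hw hv
  rcases le_total v w with h | h
  · exact key w v h hw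
  · rw [abs_sub_comm]; exact key v w h hv

theorem osc_step {n k : ℕ} [hk : Fact (k ≤ n)] {f : ℕ → ℝ} {δ : ℝ} (hf : Osc n f δ) : Osc n (step n k f) δ := by
  intro w v hw hv
  set P := sel n k ×ˢ sel n k
  have hP : P.Nonempty := sel_ne n k
  have hc : (0 : ℝ) < P.card := by exact_mod_cast hP.card_pos
  rw [step_eq, step_eq, ← sub_div, ← sum_sub_distrib, abs_div, abs_of_pos hc, div_le_iff₀ hc]
  refine (abs_sum_le_sum_abs _ _).trans ?_
  refine (sum_le_sum fun p _ => hf _ _ (nxt_le hw p.1 p.2) (nxt_le hv p.1 p.2)).trans ?_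
  rw [sum_const, nsmul_eq_mul, mul_comm]

theorem osc_iter {n k : ℕ} [hk : Fact (k ≤ n)] {f : ℕ → ℝ} {δ : ℝ} (hf : Osc n f δ) (j : ℕ) :
    Osc n ((step n k)^[j] f) δ := by
  induction j with
  | zero => exact hf
  | succ j ih => rw [Function.iterate_succ_apply']; exact osc_step ih

theorem osc_q {n k J : ℕ} [hk : Fact (k ≤ n)] (hJ : AJ n k J) {f : ℕ → ℝ} {δ : ℝ}
    (hf : Osc n f δ) (q : ℕ) : Osc n ((step n k)^[q * J] f) ((3 / 4) ^ q * δ) := by
  induction q with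
  | zero => simpa using hf
  | succ q ih =>
    have h : (q + 1) * J = J + q * J := by ring
    rw [h, Function.iterate_add_apply]
    have := osc_J hJ ih
    intro w v hw hv
    have h2 := this w v hw hv
    rw [pow_succ]
    linarith

theorem pow_bound {J : ℕ} (hJ : 1 ≤ J) (j : ℕ) :
    ((3 : ℝ) / 4) ^ (j / J) ≤ 4 / 3 * (1 - 1 / (4 * J)) ^ j := by
  have hJ' : (1 : ℝ) ≤ J := by exact_mod_cast hJ
  set θ : ℝ := 1 - 1 / (4 * J) with hθ
  have h0 : 1 / (4 * (J : ℝ)) ≤ 1 / 4 := by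
    apply one_div_le_one_div_of_le (by norm_num); linarith
  have h0' : 0 < 1 / (4 * (J : ℝ)) := by positivity
  have hθ0 : 0 ≤ θ := by rw [hθ]; linarith
  have hθ1 : θ ≤ 1 := by rw [hθ]; linarith
  have h1 : (3 : ℝ) / 4 ≤ θ ^ J := by
    have := one_add_mul_le_pow (show (-2 : ℝ) ≤ -(1 / (4 * (J : ℝ))) by linarith) J
    have e : (1 : ℝ) + J * -(1 / (4 * (J : ℝ))) = 3 / 4 := by field_simp; ring
    rw [e] at this
    calc (3 : ℝ) / 4 ≤ (1 + -(1 / (4 * (J : ℝ)))) ^ J := this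
      _ = θ ^ J := by rw [hθ]; ring
  have h2 : (3 : ℝ) / 4 ≤ θ ^ (j % J) :=
    h1.trans (pow_le_pow_of_le_one hθ0 hθ1 (Nat.mod_lt _ (by omega)).le)
  have h3 : ((3 : ℝ) / 4) ^ (j / J) ≤ θ ^ (J * (j / J)) := by
    rw [pow_mul]; exact pow_le_pow_left₀ (by norm_num) h1 _
  have h4 : θ ^ j = θ ^ (J * (j / J)) * θ ^ (j % J) := by
    rw [← pow_add, Nat.div_add_mod]
  rw [h4]
  have h5 : 0 ≤ θ ^ (J * (j / J)) := pow_nonneg hθ0 _
  nlinarith

theorem osc_j {n k J : ℕ} [hk : Fact (k ≤ n)] (hJ1 : 1 ≤ J) (hJ : AJ n k J) {f : ℕ → ℝ}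
    (hf : Osc n f 1) (j : ℕ) : Osc n ((step n k)^[j] f) (4 / 3 * (1 - 1 / (4 * J)) ^ j) := by
  have h : j = j % J + (j / J) * J := by
    rw [mul_comm]; exact (Nat.mod_add_div _ _).symm
  have h1 := osc_iter (n := n) (k := k) (osc_q hJ hf (j / J)) (j % J)
  rw [← Function.iterate_add_apply, ← h, mul_one] at h1
  intro w v hw hv
  exact (h1 w v hw hv).trans (pow_bound hJ1 j)

/-- the semigroup of the continuous time chain with rate one -/
noncomputable def evolve (n k : ℕ) (t : ℝ) (f : ℕ → ℝ) (w : ℕ) : ℝ :=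
  ∑' j : ℕ, Real.exp (-t) * t ^ j / (j.factorial : ℝ) * (step n k)^[j] f w

/-- stationary distributions -/
def IsStationary (n k : ℕ) (μ : ℕ → ℝ) : Prop :=
  (∀ x, 0 ≤ μ x) ∧ ∑ x ∈ range (n + 1), μ x = 1 ∧
    ∀ f : ℕ → ℝ, ∑ x ∈ range (n + 1), μ x * step n k f x = ∑ x ∈ range (n + 1), μ x * f x

theorem stat_iter {n k : ℕ} [hk : Fact (k ≤ n)] {μ : ℕ → ℝ} (h : IsStationary n k μ) (f : ℕ → ℝ) (j : ℕ) :
    ∑ x ∈ range (n + 1), μ x * (step n k)^[j] f x = ∑ x ∈ range (n + 1), μ x * f x := by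
  induction j with
  | zero => rfl
  | succ j ih =>
    rw [Function.iterate_succ_apply', h.2.2, ih]

theorem close_j {n k J : ℕ} [hk : Fact (k ≤ n)] (hJ1 : 1 ≤ J) (hJ : AJ n k J) {f : ℕ → ℝ}
    (hf : Osc n f 1) {μ : ℕ → ℝ} (h : IsStationary n k μ) {w : ℕ} (hw : w ≤ n) (j : ℕ) :
    |(step n k)^[j] f w - ∑ x ∈ range (n + 1), μ x * f x| ≤ 4 / 3 * (1 - 1 / (4 * J)) ^ j := by
  rw [← stat_iter h f j]
  have h1 : (step n k)^[j] f w - ∑ x ∈ range (n + 1), μ x * (step n k)^[j] f x =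
      ∑ x ∈ range (n + 1), μ x * ((step n k)^[j] f w - (step n k)^[j] f x) := by
    simp only [mul_sub, sum_sub_distrib]
    rw [← sum_mul, h.2.1, one_mul]
  rw [h1]
  refine (abs_sum_le_sum_abs _ _).trans ?_
  calc ∑ x ∈ range (n + 1), |μ x * ((step n k)^[j] f w - (step n k)^[j] f x)|
      ≤ ∑ x ∈ range (n + 1), μ x * (4 / 3 * (1 - 1 / (4 * J)) ^ j) := by
        refine sum_le_sum fun x hx => ?_
        rw [abs_mul, abs_of_nonneg (h.1 x)]
        exact mul_le_mul_of_nonneg_left (osc_j hJ1 hJ hf j w x hw (by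
          have := mem_range.1 hx; omega)) (h.1 x)
    _ = 4 / 3 * (1 - 1 / (4 * J)) ^ j := by rw [← sum_mul, h.2.1, one_mul]

theorem hasSum_exp (x : ℝ) : HasSum (fun j : ℕ => x ^ j / (j.factorial : ℝ)) (Real.exp x) := by
  rw [Real.exp_eq_exp_ℝ]
  exact NormedSpace.expSeries_div_hasSum_exp x

theorem close_t {n k J : ℕ} [hk : Fact (k ≤ n)] (hJ1 : 1 ≤ J) (hJ : AJ n k J) {f : ℕ → ℝ}
    (hf : Osc n f 1) {μ : ℕ → ℝ} (h : IsStationary n k μ) {w : ℕ} (hw : w ≤ n) {t : ℝ}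
    (ht : 0 ≤ t) :
    |evolve n k t f w - ∑ x ∈ range (n + 1), μ x * f x| ≤ 4 / 3 * Real.exp (-t / (4 * J)) := by
  set s := ∑ x ∈ range (n + 1), μ x * f x
  have hJ' : (1 : ℝ) ≤ J := by exact_mod_cast hJ1
  set θ : ℝ := 1 - 1 / (4 * J) with hθ
  have hw1 : HasSum (fun j : ℕ => Real.exp (-t) * t ^ j / (j.factorial : ℝ)) 1 := by
    have := (hasSum_exp t).mul_left (Real.exp (-t))
    rw [← Real.exp_add, neg_add_cancel, Real.exp_zero] at this
    simpa [mul_div_assoc] using this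
  have hw2 : HasSum (fun j : ℕ => Real.exp (-t) * t ^ j / (j.factorial : ℝ) * (4 / 3 * θ ^ j))
      (4 / 3 * Real.exp (-t / (4 * J))) := by
    have := (hasSum_exp (t * θ)).mul_left (4 / 3 * Real.exp (-t))
    have e : 4 / 3 * Real.exp (-t) * Real.exp (t * θ) = 4 / 3 * Real.exp (-t / (4 * J)) := by
      rw [mul_assoc, ← Real.exp_add]
      congr 2
      rw [hθ]; field_simp; ring
    rw [e] at this
    have hfun : (fun j : ℕ => Real.exp (-t) * t ^ j / (j.factorial : ℝ) * (4 / 3 * θ ^ j)) =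
        fun j : ℕ => 4 / 3 * Real.exp (-t) * ((t * θ) ^ j / (j.factorial : ℝ)) := by
      funext j
      rw [mul_pow]; ring
    rw [hfun]
    exact this
  have hnn : ∀ j : ℕ, 0 ≤ Real.exp (-t) * t ^ j / (j.factorial : ℝ) := fun j => by positivity
  have hb : ∀ j, ‖Real.exp (-t) * t ^ j / (j.factorial : ℝ) * ((step n k)^[j] f w - s)‖ ≤
      Real.exp (-t) * t ^ j / (j.factorial : ℝ) * (4 / 3 * θ ^ j) := by
    intro j
    rw [norm_mul, Real.norm_of_nonneg (hnn j), Real.norm_eq_abs]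
    exact mul_le_mul_of_nonneg_left (close_j hJ1 hJ hf h hw j) (hnn j)
  have hs1 : Summable (fun j : ℕ => Real.exp (-t) * t ^ j / (j.factorial : ℝ) *
      ((step n k)^[j] f w - s)) := Summable.of_norm_bounded hw2.summable hb
  have e1 : evolve n k t f w - s =
      ∑' j : ℕ, Real.exp (-t) * t ^ j / (j.factorial : ℝ) * ((step n k)^[j] f w - s) := by
    have h2 : HasSum (fun j : ℕ => Real.exp (-t) * t ^ j / (j.factorial : ℝ) * s) s := by
      simpa using hw1.mul_right s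
    have h3 := hs1.hasSum.add h2
    have h4 : (fun j : ℕ => Real.exp (-t) * t ^ j / (j.factorial : ℝ) * ((step n k)^[j] f w - s) +
        Real.exp (-t) * t ^ j / (j.factorial : ℝ) * s) =
        fun j : ℕ => Real.exp (-t) * t ^ j / (j.factorial : ℝ) * (step n k)^[j] f w := by
      funext j; ring
    rw [h4] at h3
    unfold evolve
    rw [h3.tsum_eq]; ring
  rw [e1, ← Real.norm_eq_abs]
  exact tsum_of_norm_bounded hw2 hb

end Pool.Agent.V1145.BK
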