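import Pool.Agent.V1145.BK3

/-! # The two-urn chain which moves `k` of `n` balls: the stationary distribution -/

set_option autoImplicit false

open Finset Filter Topology

namespace Pool.Agent.V1145.BK

theorem osc_of (n : ℕ) (f : ℕ → ℝ) : ∃ δ, 0 ≤ δ ∧ Osc n f δ := by
  refine ⟨2 * ∑ x ∈ range (n + 1), |f x|, by positivity, ?_⟩
  have key : ∀ w, w ≤ n → |f w| ≤ ∑ x ∈ range (n + 1), |f x| := by
    intro w hw
    exact single_le_sum (f := fun x => |f x|) (fun x _ => abs_nonneg _) (mem_range.2 (by omega))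
  intro w v hw hv
  have h1 := abs_sub (f w) (f v)
  have h2 := key w hw
  have h3 := key v hv
  linarith

/-- a step does not leave the range of the function -/
theorem step_near {n k : ℕ} [hk : Fact (k ≤ n)] {f : ℕ → ℝ} {δ : ℝ} (hf : Osc n f δ) {w : ℕ} (hw : w ≤ n) :
    |step n k f w - f w| ≤ δ := by
  set P := sel n k ×ˢ sel n k
  have hP : P.Nonempty := sel_ne n k
  have hc : (0 : ℝ) < P.card := by exact_mod_cast hP.card_pos
  have h : step n k f w - f w = (∑ p ∈ P, (f (nxt w p.1 p.2) - f w)) / P.card := by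
    rw [step_eq, sum_sub_distrib, sum_const, nsmul_eq_mul, sub_div, mul_div_cancel_left₀ _ hc.ne']
  rw [h, abs_div, abs_of_pos hc, div_le_iff₀ hc]
  refine (abs_sum_le_sum_abs _ _).trans ?_
  refine (sum_le_sum fun p _ => hf _ _ (nxt_le hw p.1 p.2) hw).trans ?_
  rw [sum_const, nsmul_eq_mul, mul_comm]

theorem step_congr {n k : ℕ} [hk : Fact (k ≤ n)] {f g : ℕ → ℝ} (h : ∀ x, x ≤ n → f x = g x) {w : ℕ}
    (hw : w ≤ n) : step n k f w = step n k g w := by
  unfold step
  congr 1
  refine sum_congr rfl fun S _ => sum_congr rfl fun T _ => h _ (nxt_le hw S T)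

theorem iter_congr {n k : ℕ} [hk : Fact (k ≤ n)] {f g : ℕ → ℝ} (h : ∀ x, x ≤ n → f x = g x) (j : ℕ) :
    ∀ w, w ≤ n → (step n k)^[j] f w = (step n k)^[j] g w := by
  induction j with
  | zero => exact h
  | succ j ih =>
    intro w hw
    rw [Function.iterate_succ_apply', Function.iterate_succ_apply']
    exact step_congr ih hw

theorem step_sum (n k : ℕ) {ι : Type*} (s : Finset ι) (a : ι → ℝ) (g : ι → ℕ → ℝ) :
    step n k (fun x => ∑ i ∈ s, a i * g i x) = fun x => ∑ i ∈ s, a i * step n k (g i) x := by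
  funext w
  simp only [step_eq]
  rw [sum_comm]
  simp only [← mul_sum]
  rw [sum_div]
  refine sum_congr rfl fun i _ => ?_
  rw [mul_div_assoc]

theorem iter_sum (n k : ℕ) {ι : Type*} (s : Finset ι) (a : ι → ℝ) (g : ι → ℕ → ℝ) (j : ℕ) :
    (step n k)^[j] (fun x => ∑ i ∈ s, a i * g i x) =
      fun x => ∑ i ∈ s, a i * (step n k)^[j] (g i) x := by
  induction j with
  | zero => rfl
  | succ j ih =>
    rw [Function.iterate_succ_apply', ih, step_sum]
    funext x
    refine sum_congr rfl fun i _ => ?_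
    rw [Function.iterate_succ_apply']

theorem step_nonneg {n k : ℕ} [hk : Fact (k ≤ n)] {f : ℕ → ℝ} (h : ∀ x, 0 ≤ f x) (w : ℕ) : 0 ≤ step n k f w := by
  unfold step
  exact div_nonneg (sum_nonneg fun S _ => sum_nonneg fun T _ => h _) (by positivity)

theorem iter_nonneg {n k : ℕ} [hk : Fact (k ≤ n)] {f : ℕ → ℝ} (h : ∀ x, 0 ≤ f x) (j : ℕ) : ∀ w, 0 ≤ (step n k)^[j] f w := by
  induction j with
  | zero => exact h
  | succ j ih => rw [Function.iterate_succ_apply']; exact fun w => step_nonneg ih w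

theorem step_one (n k : ℕ) [hk : Fact (k ≤ n)] : step n k (fun _ => 1) = fun _ => 1 := by
  funext w
  have hP : (sel n k ×ˢ sel n k).Nonempty := sel_ne n k
  have hc : (0 : ℝ) < (sel n k ×ˢ sel n k).card := by exact_mod_cast hP.card_pos
  rw [step_eq, sum_const, nsmul_eq_mul, mul_one, div_self hc.ne']

theorem iter_one (n k : ℕ) [hk : Fact (k ≤ n)] (j : ℕ) : (step n k)^[j] (fun _ => (1 : ℝ)) = fun _ => 1 := by
  induction j with
  | zero => rfl
  | succ j ih => rw [Function.iterate_succ_apply', ih, step_one]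

theorem lim {n k J : ℕ} [hk : Fact (k ≤ n)] (hJ1 : 1 ≤ J) (hJe : AJ n k J) (f : ℕ → ℝ) :
    ∃ L, Tendsto (fun j => (step n k)^[j] f 0) atTop (𝓝 L) := by
  obtain ⟨δ, hδ, hf⟩ := osc_of n f
  have hJ' : (1 : ℝ) ≤ J := by exact_mod_cast hJ1
  apply cauchySeq_tendsto_of_complete
  set θ : ℝ := 1 - 1 / (4 * J) with hθ
  have h0 : 0 < 1 / (4 * (J : ℝ)) := by positivity
  apply cauchySeq_of_le_geometric θ (4 / 3 * δ) (by rw [hθ]; linarith)
  intro j
  rw [dist_comm, Real.dist_eq, Function.iterate_succ_apply']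
  have h1 : Osc n ((step n k)^[j] f) (4 / 3 * δ * θ ^ j) := by
    have h : j = j % J + (j / J) * J := by
      rw [mul_comm]; exact (Nat.mod_add_div _ _).symm
    have h1 := osc_iter (n := n) (k := k) (osc_q hJe hf (j / J)) (j % J)
    rw [← Function.iterate_add_apply, ← h] at h1
    intro w v hw hv
    refine (h1 w v hw hv).trans ?_
    have := pow_bound hJ1 j
    nlinarith
  exact step_near h1 (by omega)

theorem exists_stationary {n k J : ℕ} [hk : Fact (k ≤ n)] (hJ1 : 1 ≤ J) (hJe : AJ n k J) : ∃ μ : ℕ → ℝ, IsStationary n k μ := by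
  choose L hL using lim hJ1 hJe
  have hrep : ∀ f : ℕ → ℝ, L f = ∑ x ∈ range (n + 1), L (fun y => if y = x then 1 else 0) * f x := by
    intro f
    set g : ℕ → ℝ := fun y => ∑ x ∈ range (n + 1), f x * (if y = x then (1 : ℝ) else 0) with hg
    have hfg : ∀ y, y ≤ n → f y = g y := by
      intro y hy
      rw [hg]
      simp only [mul_ite, mul_one, mul_zero]
      rw [sum_ite_eq, if_pos (mem_range.2 (by omega))]
    have h1 : Tendsto (fun j => (step n k)^[j] f 0) atTop
        (𝓝 (∑ x ∈ range (n + 1), f x * L (fun y => if y = x then 1 else 0))) := by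
      have h2 : (fun j => (step n k)^[j] f 0) =
          fun j => ∑ x ∈ range (n + 1), f x * (step n k)^[j] (fun y => if y = x then (1 : ℝ) else 0) 0 := by
        funext j
        rw [iter_congr hfg j 0 (by omega), hg, iter_sum]
      rw [h2]
      exact tendsto_finsetSum _ fun x _ => (hL _).const_mul _
    rw [tendsto_nhds_unique (hL f) h1]
    exact sum_congr rfl fun x _ => mul_comm _ _
  refine ⟨fun x => L (fun y => if y = x then 1 else 0), ?_, ?_, ?_⟩
  · intro x
    refine ge_of_tendsto' (hL _) fun j => iter_nonneg (fun y => ?_) j 0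
    split_ifs <;> norm_num
  · have h1 := hrep (fun _ => 1)
    simp only [mul_one] at h1
    rw [← h1]
    refine tendsto_nhds_unique (hL _) ?_
    simp only [iter_one]
    exact tendsto_const_nhds
  · intro f
    rw [← hrep, ← hrep]
    have h1 := (tendsto_add_atTop_iff_nat 1).2 (hL f)
    refine tendsto_nhds_unique (hL _) ?_
    simpa [Function.iterate_succ_apply] using h1

/-- The total variation distance to `μ` at time `t` is at most `ε` for every starting state. -/
def DistLE (n k : ℕ) (μ : ℕ → ℝ) (t ε : ℝ) : Prop :=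
  ∀ w, w ≤ n → ∀ B : Finset ℕ,
    |evolve n k t (fun x => if x ∈ B then 1 else 0) w -
      ∑ x ∈ range (n + 1), if x ∈ B then μ x else 0| ≤ ε

/-- the mixing time -/
noncomputable def mixTime (n k : ℕ) (μ : ℕ → ℝ) (ε : ℝ) : ℝ := sInf {t : ℝ | 0 ≤ t ∧ DistLE n k μ t ε}

theorem dist_bound {n k J : ℕ} [hk : Fact (k ≤ n)] (hJ1 : 1 ≤ J) (hJ : AJ n k J) {μ : ℕ → ℝ}
    (h : IsStationary n k μ) {t : ℝ} (ht : 0 ≤ t) :
    DistLE n k μ t (4 / 3 * Real.exp (-t / (4 * J))) := by
  intro w hw B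
  have hf : Osc n (fun x => if x ∈ B then (1 : ℝ) else 0) 1 := by
    intro a b _ _
    show |(if a ∈ B then (1 : ℝ) else 0) - (if b ∈ B then (1 : ℝ) else 0)| ≤ 1
    split_ifs <;> norm_num
  have := close_t hJ1 hJ hf h hw ht
  simpa only [mul_ite, mul_one, mul_zero] using this

theorem stat_unique {n k J : ℕ} [hk : Fact (k ≤ n)] (hJ1 : 1 ≤ J) (hJ : AJ n k J) {μ ν : ℕ → ℝ} (h : IsStationary n k μ) (h' : IsStationary n k ν) {x : ℕ}
    (hx : x ≤ n) : μ x = ν x := by
  have hJ' : (1 : ℝ) ≤ J := by exact_mod_cast hJ1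
  have hb : ∀ t : ℝ, 0 ≤ t → |μ x - ν x| ≤ 8 / 3 * Real.exp (-(t / (4 * J))) := by
    intro t ht
    have h1 := dist_bound hJ1 hJ h ht 0 (by omega) {x}
    have h2 := dist_bound hJ1 hJ h' ht 0 (by omega) {x}
    have e : ∀ ρ : ℕ → ℝ, (∑ y ∈ range (n + 1), if y ∈ ({x} : Finset ℕ) then ρ y else 0) = ρ x := by
      intro ρ
      simp only [mem_singleton]
      rw [sum_ite_eq', if_pos (mem_range.2 (by omega))]
    rw [e, neg_div] at h1 h2
    rw [abs_le] at h1 h2 ⊢
    constructor <;> linarith [h1.1, h1.2, h2.1, h2.2]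
  have hlim : Tendsto (fun t : ℝ => 8 / 3 * Real.exp (-(t / (4 * J)))) atTop (𝓝 0) := by
    have h1 : Tendsto (fun t : ℝ => t / (4 * J)) atTop atTop :=
      tendsto_id.atTop_div_const (by positivity)
    have h2 := (Real.tendsto_exp_neg_atTop_nhds_zero.comp h1).const_mul (8 / 3)
    simpa using h2
  have h0 : |μ x - ν x| ≤ 0 := by
    refine ge_of_tendsto hlim ?_
    filter_upwards [eventually_ge_atTop 0] with t ht using hb t ht
  exact sub_eq_zero.1 (abs_nonpos_iff.1 h0)

end Pool.Agent.V1145.BK
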