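import Pool.Agent.V1145.BK4

/-! # The two-urn chain which moves `k` of `n` balls, with an arbitrary rate of exchanges -/

set_option autoImplicit false

open Finset Filter Topology

namespace Pool.Agent.V1145.BK.P

open Pool.Agent.V1145.BK

/-- One event: with probability `p` the chosen balls are exchanged, otherwise nothing changes. -/
noncomputable def stepP (n k : ℕ) (p : ℝ) (f : ℕ → ℝ) (w : ℕ) : ℝ := (1 - p) * f w + p * step n k f w

theorem step_lin (n k : ℕ) (a b : ℝ) (f g : ℕ → ℝ) :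
    step n k (fun w => a * f w + b * g w) = fun w => a * step n k f w + b * step n k g w := by
  funext w
  simp only [step_eq, sum_add_distrib, ← mul_sum]
  ring

theorem iter_stepP (n k : ℕ) (p : ℝ) (f : ℕ → ℝ) (i : ℕ) :
    (step n k)^[i] (stepP n k p f) = fun w => (1 - p) * (step n k)^[i] f w + p * (step n k)^[i + 1] f w := by
  induction i with
  | zero => rfl
  | succ i ih =>
    rw [Function.iterate_succ_apply', ih, step_lin]
    funext w
    rw [Function.iterate_succ_apply' (step n k) (i + 1) f, Function.iterate_succ_apply' (step n k) i f]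

/-- geometric decay of the oscillation -/
def Q (n k : ℕ) (θ a : ℝ) (f : ℕ → ℝ) : Prop := ∀ i, Osc n ((step n k)^[i] f) (a * θ ^ i)

theorem Q_stepP {n k : ℕ} [hk : Fact (k ≤ n)] {θ a p : ℝ} {f : ℕ → ℝ} (hp0 : 0 ≤ p) (hp1 : p ≤ 1) (h : Q n k θ a f) :
    Q n k θ (a * (1 - p + p * θ)) (stepP n k p f) := by
  intro i w v hw hv
  rw [iter_stepP]
  have h1 := h i w v hw hv
  have h2 := h (i + 1) w v hw hv
  have e : (1 - p) * (step n k)^[i] f w + p * (step n k)^[i + 1] f w -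
      ((1 - p) * (step n k)^[i] f v + p * (step n k)^[i + 1] f v) =
      (1 - p) * ((step n k)^[i] f w - (step n k)^[i] f v) +
        p * ((step n k)^[i + 1] f w - (step n k)^[i + 1] f v) := by ring
  show |(1 - p) * (step n k)^[i] f w + p * (step n k)^[i + 1] f w -
      ((1 - p) * (step n k)^[i] f v + p * (step n k)^[i + 1] f v)| ≤ _
  rw [e]
  refine (abs_add_le _ _).trans ?_
  rw [abs_mul, abs_mul, abs_of_nonneg hp0, abs_of_nonneg (by linarith : 0 ≤ 1 - p)]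
  have h3 := mul_le_mul_of_nonneg_left h1 (by linarith : 0 ≤ 1 - p)
  have h4 := mul_le_mul_of_nonneg_left h2 hp0
  calc _ ≤ (1 - p) * (a * θ ^ i) + p * (a * θ ^ (i + 1)) := add_le_add h3 h4
    _ = a * (1 - p + p * θ) * θ ^ i := by rw [pow_succ]; ring

theorem Q_iter {n k : ℕ} [hk : Fact (k ≤ n)] {θ a p : ℝ} {f : ℕ → ℝ} (hp0 : 0 ≤ p) (hp1 : p ≤ 1) (h : Q n k θ a f)
    (j : ℕ) : Q n k θ (a * (1 - p + p * θ) ^ j) ((stepP n k p)^[j] f) := by
  induction j with
  | zero => simpa using h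
  | succ j ih =>
    rw [Function.iterate_succ_apply', pow_succ, ← mul_assoc]
    exact Q_stepP hp0 hp1 ih

theorem osc_jP {n k J : ℕ} [hk : Fact (k ≤ n)] (hJ1 : 1 ≤ J) (hJ : AJ n k J) {f : ℕ → ℝ} {p : ℝ}
    (hp0 : 0 ≤ p) (hp1 : p ≤ 1) (hf : Osc n f 1) (j : ℕ) :
    Osc n ((stepP n k p)^[j] f) (4 / 3 * (1 - p / (4 * J)) ^ j) := by
  have h : Q n k (1 - 1 / (4 * J)) (4 / 3) f := fun i => osc_j hJ1 hJ hf i
  have h1 := Q_iter hp0 hp1 h j 0
  have e : 1 - p + p * (1 - 1 / (4 * (J : ℝ))) = 1 - p / (4 * J) := by ring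
  rw [e, pow_zero, mul_one] at h1
  exact h1

/-- The semigroup of the chain in continuous time, events occurring at rate one. -/
noncomputable def evolve (n k : ℕ) (p t : ℝ) (f : ℕ → ℝ) (w : ℕ) : ℝ :=
  ∑' j : ℕ, Real.exp (-t) * t ^ j / (j.factorial : ℝ) * (stepP n k p)^[j] f w

/-- `π` is a stationary distribution on the states `0, …, n`. -/
def Stationary (n k : ℕ) (p : ℝ) (π : ℕ → ℝ) : Prop :=
  (∀ x, 0 ≤ π x) ∧ ∑ x ∈ range (n + 1), π x = 1 ∧
    ∀ f : ℕ → ℝ, ∑ x ∈ range (n + 1), π x * stepP n k p f x =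
      ∑ x ∈ range (n + 1), π x * f x

/-- The total variation distance to `π` at time `t` is at most `ε` for every starting state. -/
def DistLE (n k : ℕ) (p : ℝ) (π : ℕ → ℝ) (t ε : ℝ) : Prop :=
  ∀ w, w ≤ n → ∀ B : Finset ℕ,
    |evolve n k p t (fun x => if x ∈ B then 1 else 0) w -
      ∑ x ∈ range (n + 1), if x ∈ B then π x else 0| ≤ ε

/-- the mixing time `t_mix(ε)` -/
noncomputable def mixTime (n k : ℕ) (p : ℝ) (π : ℕ → ℝ) (ε : ℝ) : ℝ :=
  sInf {t : ℝ | 0 ≤ t ∧ DistLE n k p π t ε}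

theorem exists_stat {n k J : ℕ} [hk : Fact (k ≤ n)] (hJ1 : 1 ≤ J) (hJ : AJ n k J) (p : ℝ) : ∃ π, Stationary n k p π := by
  obtain ⟨μ, h⟩ := exists_stationary hJ1 hJ
  refine ⟨μ, h.1, h.2.1, fun f => ?_⟩
  unfold stepP
  have e : ∀ x, μ x * ((1 - p) * f x + p * step n k f x) =
      (1 - p) * (μ x * f x) + p * (μ x * step n k f x) := fun x => by ring
  simp only [e, sum_add_distrib, ← mul_sum, h.2.2 f]
  ring

theorem stat_iter {n k : ℕ} [hk : Fact (k ≤ n)] {p : ℝ} {μ : ℕ → ℝ} (h : Stationary n k p μ) (f : ℕ → ℝ) (j : ℕ) :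
    ∑ x ∈ range (n + 1), μ x * (stepP n k p)^[j] f x = ∑ x ∈ range (n + 1), μ x * f x := by
  induction j with
  | zero => rfl
  | succ j ih => rw [Function.iterate_succ_apply', h.2.2, ih]

theorem close_j {n k J : ℕ} [hk : Fact (k ≤ n)] (hJ1 : 1 ≤ J) (hJ : AJ n k J) {f : ℕ → ℝ} {p : ℝ}
    (hp0 : 0 ≤ p) (hp1 : p ≤ 1) (hf : Osc n f 1) {μ : ℕ → ℝ} (h : Stationary n k p μ) {w : ℕ}
    (hw : w ≤ n) (j : ℕ) :
    |(stepP n k p)^[j] f w - ∑ x ∈ range (n + 1), μ x * f x| ≤ 4 / 3 * (1 - p / (4 * J)) ^ j := by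
  rw [← stat_iter h f j]
  have h1 : (stepP n k p)^[j] f w - ∑ x ∈ range (n + 1), μ x * (stepP n k p)^[j] f x =
      ∑ x ∈ range (n + 1), μ x * ((stepP n k p)^[j] f w - (stepP n k p)^[j] f x) := by
    simp only [mul_sub, sum_sub_distrib]
    rw [← sum_mul, h.2.1, one_mul]
  rw [h1]
  refine (abs_sum_le_sum_abs _ _).trans ?_
  calc ∑ x ∈ range (n + 1), |μ x * ((stepP n k p)^[j] f w - (stepP n k p)^[j] f x)|
      ≤ ∑ x ∈ range (n + 1), μ x * (4 / 3 * (1 - p / (4 * J)) ^ j) := by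
        refine sum_le_sum fun x hx => ?_
        rw [abs_mul, abs_of_nonneg (h.1 x)]
        exact mul_le_mul_of_nonneg_left (osc_jP hJ1 hJ hp0 hp1 hf j w x hw (by
          have := mem_range.1 hx; omega)) (h.1 x)
    _ = 4 / 3 * (1 - p / (4 * J)) ^ j := by rw [← sum_mul, h.2.1, one_mul]

theorem close_t {n k J : ℕ} [hk : Fact (k ≤ n)] (hJ1 : 1 ≤ J) (hJ : AJ n k J) {f : ℕ → ℝ} {p : ℝ}
    (hp0 : 0 ≤ p) (hp1 : p ≤ 1) (hf : Osc n f 1) {μ : ℕ → ℝ} (h : Stationary n k p μ) {w : ℕ}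
    (hw : w ≤ n) {t : ℝ} (ht : 0 ≤ t) :
    |evolve n k p t f w - ∑ x ∈ range (n + 1), μ x * f x| ≤
      4 / 3 * Real.exp (-(p * t) / (4 * J)) := by
  set s := ∑ x ∈ range (n + 1), μ x * f x
  have hJ' : (1 : ℝ) ≤ J := by exact_mod_cast hJ1
  set θ : ℝ := 1 - p / (4 * J) with hθ
  have hw1 : HasSum (fun j : ℕ => Real.exp (-t) * t ^ j / (j.factorial : ℝ)) 1 := by
    have := (hasSum_exp t).mul_left (Real.exp (-t))
    rw [← Real.exp_add, neg_add_cancel, Real.exp_zero] at this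
    simpa [mul_div_assoc] using this
  have hw2 : HasSum (fun j : ℕ => Real.exp (-t) * t ^ j / (j.factorial : ℝ) * (4 / 3 * θ ^ j))
      (4 / 3 * Real.exp (-(p * t) / (4 * J))) := by
    have := (hasSum_exp (t * θ)).mul_left (4 / 3 * Real.exp (-t))
    have e : 4 / 3 * Real.exp (-t) * Real.exp (t * θ) =
        4 / 3 * Real.exp (-(p * t) / (4 * J)) := by
      rw [mul_assoc, ← Real.exp_add]
      congr 2
      rw [hθ]; field_simp; ring
    rw [e] at this
    have hfun : (fun j : ℕ => Real.exp (-t) * t ^ j / (j.factorial : ℝ) * (4 / 3 * θ ^ j)) =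
        fun j : ℕ => 4 / 3 * Real.exp (-t) * ((t * θ) ^ j / (j.factorial : ℝ)) := by
      funext j
      rw [mul_pow]; ring
    rw [hfun]
    exact this
  have hnn : ∀ j : ℕ, 0 ≤ Real.exp (-t) * t ^ j / (j.factorial : ℝ) := fun j => by positivity
  have hb : ∀ j, ‖Real.exp (-t) * t ^ j / (j.factorial : ℝ) * ((stepP n k p)^[j] f w - s)‖ ≤
      Real.exp (-t) * t ^ j / (j.factorial : ℝ) * (4 / 3 * θ ^ j) := by
    intro j
    rw [norm_mul, Real.norm_of_nonneg (hnn j), Real.norm_eq_abs]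
    exact mul_le_mul_of_nonneg_left (close_j hJ1 hJ hp0 hp1 hf h hw j) (hnn j)
  have hs1 : Summable (fun j : ℕ => Real.exp (-t) * t ^ j / (j.factorial : ℝ) *
      ((stepP n k p)^[j] f w - s)) := Summable.of_norm_bounded hw2.summable hb
  have e1 : evolve n k p t f w - s =
      ∑' j : ℕ, Real.exp (-t) * t ^ j / (j.factorial : ℝ) * ((stepP n k p)^[j] f w - s) := by
    have h2 : HasSum (fun j : ℕ => Real.exp (-t) * t ^ j / (j.factorial : ℝ) * s) s := by
      simpa using hw1.mul_right s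
    have h3 := hs1.hasSum.add h2
    have h4 : (fun j : ℕ => Real.exp (-t) * t ^ j / (j.factorial : ℝ) * ((stepP n k p)^[j] f w - s) +
        Real.exp (-t) * t ^ j / (j.factorial : ℝ) * s) =
        fun j : ℕ => Real.exp (-t) * t ^ j / (j.factorial : ℝ) * (stepP n k p)^[j] f w := by
      funext j; ring
    rw [h4] at h3
    unfold evolve
    rw [h3.tsum_eq]; ring
  rw [e1, ← Real.norm_eq_abs]
  exact tsum_of_norm_bounded hw2 hb

theorem dist_bound {n k J : ℕ} [hk : Fact (k ≤ n)] (hJ1 : 1 ≤ J) (hJ : AJ n k J) {p : ℝ}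
    (hp0 : 0 ≤ p) (hp1 : p ≤ 1) {μ : ℕ → ℝ} (h : Stationary n k p μ) {t : ℝ} (ht : 0 ≤ t) :
    DistLE n k p μ t (4 / 3 * Real.exp (-(p * t) / (4 * J))) := by
  intro w hw B
  have hf : Osc n (fun x => if x ∈ B then (1 : ℝ) else 0) 1 := by
    intro a b _ _
    show |(if a ∈ B then (1 : ℝ) else 0) - (if b ∈ B then (1 : ℝ) else 0)| ≤ 1
    split_ifs <;> norm_num
  have := close_t hJ1 hJ hp0 hp1 hf h hw ht
  simpa only [mul_ite, mul_one, mul_zero] using this

theorem mix_bound {n k J : ℕ} [hk : Fact (k ≤ n)] (hJ1 : 1 ≤ J) (hJ : AJ n k J) {p : ℝ}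
    (hp0 : 0 < p) (hp1 : p ≤ 1) {μ : ℕ → ℝ} (h : Stationary n k p μ) {ε : ℝ} (h0 : 0 < ε)
    (h1 : ε < 1) : mixTime n k p μ ε ≤ 4 * J / p * Real.log (4 / (3 * ε)) := by
  have hJ' : (1 : ℝ) ≤ J := by exact_mod_cast hJ1
  have hlog : 0 ≤ Real.log (4 / (3 * ε)) := by
    apply Real.log_nonneg
    rw [le_div_iff₀ (by positivity)]
    linarith
  apply csInf_le ⟨0, fun t ht => ht.1⟩
  refine ⟨by positivity, ?_⟩
  have := dist_bound hJ1 hJ hp0.le hp1 h (t := 4 * J / p * Real.log (4 / (3 * ε))) (by positivity)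
  have e : 4 / 3 * Real.exp (-(p * (4 * J / p * Real.log (4 / (3 * ε)))) / (4 * J)) = ε := by
    have e1 : -(p * (4 * (J : ℝ) / p * Real.log (4 / (3 * ε)))) / (4 * J) =
        - Real.log (4 / (3 * ε)) := by
      field_simp
    rw [e1, Real.exp_neg, Real.exp_log (by positivity)]
    field_simp
  rwa [e] at this

theorem stat_unique {n k J : ℕ} [hk : Fact (k ≤ n)] (hJ1 : 1 ≤ J) (hJ : AJ n k J) {p : ℝ} (hp0 : 0 < p) {μ ν : ℕ → ℝ}
    (h : Stationary n k p μ) (h' : Stationary n k p ν) {x : ℕ} (hx : x ≤ n) : μ x = ν x := by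
  have key : ∀ ρ : ℕ → ℝ, Stationary n k p ρ → IsStationary n k ρ := by
    intro ρ hρ
    refine ⟨hρ.1, hρ.2.1, fun f => ?_⟩
    have h1 := hρ.2.2 f
    unfold stepP at h1
    have e : ∀ x, ρ x * ((1 - p) * f x + p * step n k f x) =
        (1 - p) * (ρ x * f x) + p * (ρ x * step n k f x) := fun x => by ring
    simp only [e, sum_add_distrib, ← mul_sum] at h1
    have h2 : p * (∑ x ∈ range (n + 1), ρ x * step n k f x) =
        p * ∑ x ∈ range (n + 1), ρ x * f x := by linarith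
    exact mul_left_cancel₀ hp0.ne' h2
  exact BK.stat_unique hJ1 hJ (key μ h) (key ν h') hx

end Pool.Agent.V1145.BK.P
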