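import Mathlib

/-! # The two-urn chain which moves half of the balls: second moments -/

set_option autoImplicit false

open Finset

namespace Pool.Agent.V1145.BL

/-- the possible choices of `m` out of `2 m` balls -/
def sel (m : ℕ) : Finset (Finset (Fin (2 * m))) := powersetCard m univ

/-- signs -/
noncomputable def X {m : ℕ} (S : Finset (Fin (2 * m))) (i : Fin (2 * m)) : ℝ := if i ∈ S then 1 else -1

noncomputable def NN (m : ℕ) : ℝ := ((sel m).card : ℝ)

theorem NN_pos (m : ℕ) : 0 < NN m := by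
  unfold NN sel
  rw [card_powersetCard, card_univ, Fintype.card_fin]
  exact_mod_cast Nat.choose_pos (by omega)

theorem sumX {m : ℕ} (S : Finset (Fin (2 * m))) (hS : S ∈ sel m) : ∑ i, X S i = 0 := by
  have hc : S.card = m := (mem_powersetCard.1 hS).2
  have h : ∀ i, X S i = 2 * (if i ∈ S then (1 : ℝ) else 0) - 1 := by
    intro i; unfold X; split_ifs <;> norm_num
  simp only [h, sum_sub_distrib, ← mul_sum]
  rw [sum_ite_mem, univ_inter]
  simp [hc]

theorem m1 {m : ℕ} (i : Fin (2 * m)) : ∑ S ∈ sel m, X S i = 0 := by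
  have h : ∑ S ∈ sel m, X S i = ∑ S ∈ sel m, - X S i := by
    refine sum_nbij' (fun S => Sᶜ) (fun S => Sᶜ) ?_ ?_ ?_ ?_ ?_
    · intro S hS
      have hc : S.card = m := (mem_powersetCard.1 hS).2
      refine mem_powersetCard.2 ⟨subset_univ _, ?_⟩
      rw [card_compl, Fintype.card_fin, hc]; omega
    · intro S hS
      have hc : S.card = m := (mem_powersetCard.1 hS).2
      refine mem_powersetCard.2 ⟨subset_univ _, ?_⟩
      rw [card_compl, Fintype.card_fin, hc]; omega
    · intro S _; exact compl_compl S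
    · intro S _; exact compl_compl S
    · intro S _
      unfold X
      by_cases hi : i ∈ S <;> simp [hi]
  rw [sum_neg_distrib] at h
  linarith

theorem m1q {m : ℕ} (A : Finset (Fin (2 * m))) : ∑ S ∈ sel m, ∑ i ∈ A, X S i = 0 := by
  rw [sum_comm]
  exact sum_eq_zero fun i _ => m1 i

theorem cswap {m : ℕ} (i j j' : Fin (2 * m)) (h1 : j ≠ i) (h2 : j' ≠ i) :
    ∑ S ∈ sel m, X S i * X S j = ∑ S ∈ sel m, X S i * X S j' := by
  set σ := Equiv.swap j j' with hσ
  have hi : σ i = i := Equiv.swap_apply_of_ne_of_ne h1.symm h2.symm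
  have hj : σ j = j' := Equiv.swap_apply_left _ _
  have hss : ∀ S : Finset (Fin (2 * m)), (S.map σ.toEmbedding).map σ.toEmbedding = S := by
    intro S
    ext x
    simp [mem_map_equiv, hσ]
  have hX : ∀ (S : Finset (Fin (2 * m))) k, X (S.map σ.toEmbedding) (σ k) = X S k := by
    intro S k
    unfold X
    have : (σ k ∈ S.map σ.toEmbedding) ↔ k ∈ S := by
      rw [mem_map_equiv, Equiv.symm_apply_apply]
    simp only [this]
  refine sum_nbij' (fun S => S.map σ.toEmbedding) (fun S => S.map σ.toEmbedding) ?_ ?_ ?_ ?_ ?_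
  · intro S hS
    exact mem_powersetCard.2 ⟨subset_univ _, by rw [card_map]; exact (mem_powersetCard.1 hS).2⟩
  · intro S hS
    exact mem_powersetCard.2 ⟨subset_univ _, by rw [card_map]; exact (mem_powersetCard.1 hS).2⟩
  · intro S _; exact hss S
  · intro S _; exact hss S
  · intro S _
    have e1 := hX S i
    have e2 := hX S j
    rw [hi] at e1
    rw [hj] at e2
    rw [e1, e2]

theorem cii {m : ℕ} (i : Fin (2 * m)) : ∑ S ∈ sel m, X S i * X S i = NN m := by
  have h : ∀ S ∈ sel m, X S i * X S i = 1 := by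
    intro S _; unfold X; split_ifs <;> norm_num
  rw [sum_congr rfl h]; simp [NN]

theorem cneg {m : ℕ} (i j : Fin (2 * m)) (h : j ≠ i) : ∑ S ∈ sel m, X S i * X S j ≤ 0 := by
  have h0 : ∑ j', ∑ S ∈ sel m, X S i * X S j' = 0 := by
    rw [sum_comm]
    refine sum_eq_zero fun S hS => ?_
    rw [← mul_sum, sumX S hS, mul_zero]
  rw [← add_sum_erase univ _ (mem_univ i), cii] at h0
  have h1 : ∑ j' ∈ univ.erase i, ∑ S ∈ sel m, X S i * X S j' =
      ((univ.erase i).card : ℝ) * ∑ S ∈ sel m, X S i * X S j := by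
    rw [sum_congr rfl fun j' hj' => cswap i j' j (ne_of_mem_erase hj') h]
    simp
  rw [h1] at h0
  have hN := NN_pos m
  by_contra hc
  push Not at hc
  have : 0 ≤ ((univ.erase i).card : ℝ) * ∑ S ∈ sel m, X S i * X S j := by positivity
  linarith

theorem m2 {m : ℕ} (A : Finset (Fin (2 * m))) :
    ∑ S ∈ sel m, (∑ i ∈ A, X S i) ^ 2 ≤ NN m * A.card := by
  have h : ∑ S ∈ sel m, (∑ i ∈ A, X S i) ^ 2 = ∑ i ∈ A, ∑ j ∈ A, ∑ S ∈ sel m, X S i * X S j := by
    have : ∀ S : Finset (Fin (2 * m)), (∑ i ∈ A, X S i) ^ 2 = ∑ i ∈ A, ∑ j ∈ A, X S i * X S j := by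
      intro S; rw [sq, sum_mul_sum]
    simp only [this]
    rw [sum_comm]
    refine sum_congr rfl fun i _ => ?_
    rw [sum_comm]
  rw [h]
  calc ∑ i ∈ A, ∑ j ∈ A, ∑ S ∈ sel m, X S i * X S j ≤ ∑ i ∈ A, NN m := by
        refine sum_le_sum fun i hi => ?_
        rw [← add_sum_erase A _ hi, cii]
        have : ∑ j ∈ A.erase i, ∑ S ∈ sel m, X S i * X S j ≤ 0 :=
          sum_nonpos fun j hj => cneg i j (ne_of_mem_erase hj)
        linarith
    _ = NN m * A.card := by rw [sum_const, nsmul_eq_mul]; ring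

end Pool.Agent.V1145.BL
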