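import Pool.Agent.V1145.BL1

/-! # The two-urn chain which moves half of the balls: contraction -/

set_option autoImplicit false

open Finset

namespace Pool.Agent.V1145.BL

/-- number of chosen balls among the first `w` -/
def cnt {m : ℕ} (S : Finset (Fin (2 * m))) (w : ℕ) : ℕ := (S.filter fun i => i.val < w).card

/-- the new number of white balls in the first urn -/
def nxt {m : ℕ} (w : ℕ) (S T : Finset (Fin (2 * m))) : ℕ := w - cnt S w + cnt T (2 * m - w)

/-- one step of the chain, acting on functions -/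
noncomputable def step (m : ℕ) (f : ℕ → ℝ) (w : ℕ) : ℝ :=
  (∑ S ∈ sel m, ∑ T ∈ sel m, f (nxt w S T)) / ((sel m).card : ℝ) ^ 2

/-- the first `w` balls -/
def I (m w : ℕ) : Finset (Fin (2 * m)) := univ.filter fun i => i.val < w

theorem card_I {m w : ℕ} (hw : w ≤ 2 * m) : (I m w).card = w := by
  unfold I
  have : (univ.filter fun i : Fin (2 * m) => i.val < w) = univ.filter (fun i : Fin (2*m) => i.val ∈ range w) := by
    ext i; simp
  have h2 : ((univ.filter fun i : Fin (2 * m) => i.val < w).map Fin.valEmbedding) = range w := by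
    ext x
    simp only [mem_map, mem_filter, mem_univ, true_and, Fin.valEmbedding_apply, mem_range]
    constructor
    · rintro ⟨a, ha, rfl⟩; exact ha
    · intro hx; exact ⟨⟨x, by omega⟩, hx, rfl⟩
  rw [← card_map Fin.valEmbedding, h2, card_range]

theorem cnt_le {m w : ℕ} (hw : w ≤ 2 * m) (S : Finset (Fin (2 * m))) : cnt S w ≤ w := by
  unfold cnt
  calc (S.filter fun i => i.val < w).card ≤ (I m w).card := card_le_card (by
        intro i hi
        exact mem_filter.2 ⟨mem_univ _, (mem_filter.1 hi).2⟩)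
    _ = w := card_I hw

theorem nxt_le {m w : ℕ} (hw : w ≤ 2 * m) (S T : Finset (Fin (2 * m))) : nxt w S T ≤ 2 * m := by
  unfold nxt
  have h1 := cnt_le hw S
  have h2 := cnt_le (m := m) (w := 2 * m - w) (by omega) T
  omega

theorem sum_cnt {m w : ℕ} (hw : w ≤ 2 * m) (S : Finset (Fin (2 * m))) :
    ∑ i ∈ I m w, X S i = 2 * (cnt S w : ℝ) - w := by
  have h : ∀ i, X S i = 2 * (if i ∈ S then (1 : ℝ) else 0) - 1 := by
    intro i; unfold X; split_ifs <;> norm_num
  simp only [h, sum_sub_distrib, ← mul_sum]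
  rw [sum_ite_mem, sum_const, sum_const, card_I hw]
  have : (I m w ∩ S).card = cnt S w := by
    unfold cnt I
    congr 1
    ext i
    simp [and_comm]
  rw [this]
  simp

theorem nxt_real {m w : ℕ} (hw : w ≤ 2 * m) (S T : Finset (Fin (2 * m))) :
    2 * (nxt w S T : ℝ) = 2 * m - ∑ i ∈ I m w, X S i + ∑ i ∈ I m (2 * m - w), X T i := by
  rw [sum_cnt hw, sum_cnt (by omega)]
  unfold nxt
  have h1 := cnt_le hw S
  push_cast [Nat.cast_sub h1, Nat.cast_sub hw]
  ring

theorem I_mono {m v w : ℕ} (h : v ≤ w) : I m v ⊆ I m w := by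
  intro i hi
  exact mem_filter.2 ⟨mem_univ _, lt_of_lt_of_le (mem_filter.1 hi).2 h⟩

theorem diff_real {m v w : ℕ} (hvw : v ≤ w) (hw : w ≤ 2 * m) (S T : Finset (Fin (2 * m))) :
    2 * ((nxt w S T : ℝ) - nxt v S T) =
      -(∑ i ∈ I m w \ I m v, X S i + ∑ i ∈ I m (2 * m - v) \ I m (2 * m - w), X T i) := by
  have h1 := nxt_real hw S T
  have h2 := nxt_real (hvw.trans hw) S T
  have h3 := sum_sdiff (f := fun i => X S i) (I_mono (m := m) hvw)
  have h4 := sum_sdiff (f := fun i => X T i) (I_mono (m := m) (show 2 * m - w ≤ 2 * m - v by omega))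
  linarith

theorem second {m v w : ℕ} (hvw : v ≤ w) (hw : w ≤ 2 * m) :
    ∑ S ∈ sel m, ∑ T ∈ sel m, (2 * |(nxt w S T : ℝ) - nxt v S T|) ^ 2 ≤
      NN m ^ 2 * (2 * ((w : ℝ) - v)) := by
  set A := I m w \ I m v
  set B := I m (2 * m - v) \ I m (2 * m - w)
  have hA : (A.card : ℝ) = w - v := by
    rw [card_sdiff_of_subset (I_mono hvw), card_I hw, card_I (hvw.trans hw)]
    push_cast [Nat.cast_sub hvw]; ring
  have hB : (B.card : ℝ) = w - v := by
    rw [card_sdiff_of_subset (I_mono (by omega)), card_I (by omega), card_I (by omega)]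
    rw [Nat.cast_sub (by omega), Nat.cast_sub (hvw.trans hw), Nat.cast_sub hw]; ring
  have h : ∀ S T : Finset (Fin (2 * m)), (2 * |(nxt w S T : ℝ) - nxt v S T|) ^ 2 =
      (∑ i ∈ A, X S i) ^ 2 + 2 * (∑ i ∈ A, X S i) * (∑ i ∈ B, X T i) + (∑ i ∈ B, X T i) ^ 2 := by
    intro S T
    have := diff_real hvw hw S T
    rw [mul_pow, sq_abs, ← mul_pow, this]
    ring
  simp only [h, sum_add_distrib, ← mul_sum, m1q, mul_zero, sum_const, nsmul_eq_mul]
  have e1 := m2 A
  have e2 := m2 B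
  have hN := NN_pos m
  rw [hA] at e1
  rw [hB] at e2
  have e3 : ((sel m).card : ℝ) = NN m := rfl
  rw [e3, add_zero]
  nlinarith

/-- iterated square roots -/
noncomputable def r : ℕ → ℝ → ℝ
  | 0, x => x
  | j + 1, x => r j (Real.sqrt x)

theorem r_mono (j : ℕ) : ∀ {x y : ℝ}, x ≤ y → r j x ≤ r j y := by
  induction j with
  | zero => intro x y h; exact h
  | succ j ih => intro x y h; exact ih (Real.sqrt_le_sqrt h)

theorem r_pow (j : ℕ) : ∀ c : ℝ, 0 ≤ c → r j (c ^ 2 ^ j) = c := by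
  induction j with
  | zero => intro c _; simp [r]
  | succ j ih =>
    intro c hc
    show r j (Real.sqrt (c ^ 2 ^ (j + 1))) = c
    rw [pow_succ, pow_mul, Real.sqrt_sq (by positivity), ih c hc]

theorem sqrt_avg {ι : Type*} (s : Finset ι) (hs : s.Nonempty) (Z : ι → ℝ) (hZ : ∀ i ∈ s, 0 ≤ Z i) :
    (∑ i ∈ s, Real.sqrt (Z i)) / s.card ≤ Real.sqrt ((∑ i ∈ s, Z i) / s.card) := by
  have hc : (0 : ℝ) < s.card := by exact_mod_cast hs.card_pos
  apply Real.le_sqrt_of_sq_le
  have h := sq_sum_le_card_mul_sum_sq (s := s) (f := fun i => Real.sqrt (Z i))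
  have h2 : ∑ i ∈ s, Real.sqrt (Z i) ^ 2 = ∑ i ∈ s, Z i :=
    sum_congr rfl fun i hi => Real.sq_sqrt (hZ i hi)
  rw [h2] at h
  rw [div_pow, div_le_div_iff₀ (by positivity) hc]
  nlinarith

theorem r_avg (j : ℕ) {ι : Type*} (s : Finset ι) (hs : s.Nonempty) : ∀ (Z : ι → ℝ),
    (∀ i ∈ s, 0 ≤ Z i) → (∑ i ∈ s, r j (Z i)) / s.card ≤ r j ((∑ i ∈ s, Z i) / s.card) := by
  induction j with
  | zero => intro Z _; exact le_refl _
  | succ j ih =>
    intro Z hZ
    have h1 := ih (fun i => Real.sqrt (Z i)) (fun i _ => Real.sqrt_nonneg _)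
    exact h1.trans (r_mono j (sqrt_avg s hs Z hZ))

theorem sel_ne (m : ℕ) : (sel m ×ˢ sel m).Nonempty := by
  have h := NN_pos m
  unfold NN at h
  have : (sel m).Nonempty := card_pos.1 (by exact_mod_cast h)
  exact this.product this

theorem step_eq (m : ℕ) (f : ℕ → ℝ) (w : ℕ) :
    step m f w = (∑ p ∈ sel m ×ˢ sel m, f (nxt w p.1 p.2)) / ((sel m ×ˢ sel m).card : ℝ) := by
  unfold step
  rw [sum_product, card_product]
  push_cast
  rw [sq]

theorem iter (m : ℕ) (f : ℕ → ℝ) (δ : ℝ)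
    (hf : ∀ w v, w ≤ 2 * m → v ≤ 2 * m → |f w - f v| ≤ δ) (j : ℕ) :
    ∀ w v, v ≤ w → w ≤ 2 * m →
      |(step m)^[j] f w - (step m)^[j] f v| ≤ δ / 2 * r j (2 * ((w : ℝ) - v)) := by
  have hδ : 0 ≤ δ := (abs_nonneg _).trans (hf 0 0 (by omega) (by omega))
  induction j with
  | zero =>
    intro w v hvw hw
    show |f w - f v| ≤ δ / 2 * (2 * ((w : ℝ) - v))
    rcases Nat.eq_or_lt_of_le hvw with h | h
    · subst h; simp
    · have h1 := hf w v hw (by omega)
      have h2 : (1 : ℝ) ≤ (w : ℝ) - v := by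
        have : ((v + 1 : ℕ) : ℝ) ≤ w := by exact_mod_cast h
        push_cast at this; linarith
      nlinarith
  | succ j ih =>
    intro w v hvw hw
    rw [Function.iterate_succ_apply']
    set F := (step m)^[j] f
    set P := sel m ×ˢ sel m
    have hP : P.Nonempty := sel_ne m
    have hc : (0 : ℝ) < P.card := by exact_mod_cast hP.card_pos
    rw [step_eq, step_eq, ← sub_div, ← sum_sub_distrib, abs_div, abs_of_pos hc]
    have h1 : ∀ p ∈ P, |F (nxt w p.1 p.2) - F (nxt v p.1 p.2)| ≤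
        δ / 2 * r j (2 * |(nxt w p.1 p.2 : ℝ) - nxt v p.1 p.2|) := by
      intro p _
      rcases le_total (nxt v p.1 p.2) (nxt w p.1 p.2) with h | h
      · have := ih _ _ h (nxt_le hw p.1 p.2)
        rwa [abs_of_nonneg (sub_nonneg.2 (Nat.cast_le.2 h))]
      · have := ih _ _ h (nxt_le (hvw.trans hw) p.1 p.2)
        rw [abs_sub_comm, abs_sub_comm (nxt w p.1 p.2 : ℝ)]
        rwa [abs_of_nonneg (sub_nonneg.2 (Nat.cast_le.2 h))]
    have h2 : ∀ p ∈ P, r j (2 * |(nxt w p.1 p.2 : ℝ) - nxt v p.1 p.2|) =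
        r (j + 1) ((2 * |(nxt w p.1 p.2 : ℝ) - nxt v p.1 p.2|) ^ 2) := by
      intro p _
      show _ = r j (Real.sqrt _)
      rw [Real.sqrt_sq (by positivity)]
    have h3 : (∑ p ∈ P, (2 * |(nxt w p.1 p.2 : ℝ) - nxt v p.1 p.2|) ^ 2) / P.card ≤
        2 * ((w : ℝ) - v) := by
      rw [div_le_iff₀ hc]
      have := second hvw hw
      rw [← sum_product'] at this
      have e : (P.card : ℝ) = NN m ^ 2 := by
        rw [card_product]; unfold NN; push_cast; ring
      rw [e]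
      linarith
    calc |∑ p ∈ P, (F (nxt w p.1 p.2) - F (nxt v p.1 p.2))| / P.card
        ≤ (∑ p ∈ P, δ / 2 * r j (2 * |(nxt w p.1 p.2 : ℝ) - nxt v p.1 p.2|)) / P.card := by
          apply div_le_div_of_nonneg_right _ hc.le
          exact (abs_sum_le_sum_abs _ _).trans (sum_le_sum h1)
      _ = δ / 2 * ((∑ p ∈ P, r (j + 1) ((2 * |(nxt w p.1 p.2 : ℝ) - nxt v p.1 p.2|) ^ 2)) / P.card) := by
          rw [← mul_sum, sum_congr rfl h2, mul_div_assoc]
      _ ≤ δ / 2 * r (j + 1) (2 * ((w : ℝ) - v)) := by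
          apply mul_le_mul_of_nonneg_left _ (by linarith)
          exact (r_avg (j + 1) P hP _ fun p _ => by positivity).trans (r_mono _ h3)

end Pool.Agent.V1145.BL
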