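import Pool.Agent.V1145.BL3

/-! # The two-urn chain which moves half of the balls: the stationary distribution -/

set_option autoImplicit false

open Finset Filter Topology

namespace Pool.Agent.V1145.BL

theorem exists_J (m : ℕ) : (4 * m : ℝ) ≤ (3 / 2) ^ (2 ^ (Nat.clog 2 (Nat.clog 2 (4 * m)) + 1)) := by
  set L := Nat.clog 2 (4 * m) with hL
  set c := Nat.clog 2 L with hc
  have h1 : 4 * m ≤ 2 ^ L := Nat.le_pow_clog (by norm_num) _
  have h2 : L ≤ 2 ^ c := Nat.le_pow_clog (by norm_num) _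
  have h3 : (4 * m : ℝ) ≤ 2 ^ L := by exact_mod_cast h1
  calc (4 * m : ℝ) ≤ 2 ^ L := h3
    _ ≤ 2 ^ (2 ^ c) := pow_le_pow_right₀ (by norm_num) h2
    _ ≤ ((3 / 2) ^ 2) ^ (2 ^ c) := pow_le_pow_left₀ (by norm_num) (by norm_num) _
    _ = (3 / 2) ^ (2 ^ (c + 1)) := by rw [← pow_mul, pow_succ, mul_comm]

theorem osc_of (m : ℕ) (f : ℕ → ℝ) : ∃ δ, 0 ≤ δ ∧ Osc m f δ := by
  refine ⟨2 * ∑ x ∈ range (2 * m + 1), |f x|, by positivity, ?_⟩
  have key : ∀ w, w ≤ 2 * m → |f w| ≤ ∑ x ∈ range (2 * m + 1), |f x| := by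
    intro w hw
    exact single_le_sum (f := fun x => |f x|) (fun x _ => abs_nonneg _) (mem_range.2 (by omega))
  intro w v hw hv
  have h1 := abs_sub (f w) (f v)
  have h2 := key w hw
  have h3 := key v hv
  linarith

/-- a step does not leave the range of the function -/
theorem step_near {m : ℕ} {f : ℕ → ℝ} {δ : ℝ} (hf : Osc m f δ) {w : ℕ} (hw : w ≤ 2 * m) :
    |step m f w - f w| ≤ δ := by
  set P := sel m ×ˢ sel m
  have hP : P.Nonempty := sel_ne m
  have hc : (0 : ℝ) < P.card := by exact_mod_cast hP.card_pos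
  have h : step m f w - f w = (∑ p ∈ P, (f (nxt w p.1 p.2) - f w)) / P.card := by
    rw [step_eq, sum_sub_distrib, sum_const, nsmul_eq_mul, sub_div, mul_div_cancel_left₀ _ hc.ne']
  rw [h, abs_div, abs_of_pos hc, div_le_iff₀ hc]
  refine (abs_sum_le_sum_abs _ _).trans ?_
  refine (sum_le_sum fun p _ => hf _ _ (nxt_le hw p.1 p.2) hw).trans ?_
  rw [sum_const, nsmul_eq_mul, mul_comm]

theorem step_congr {m : ℕ} {f g : ℕ → ℝ} (h : ∀ x, x ≤ 2 * m → f x = g x) {w : ℕ}
    (hw : w ≤ 2 * m) : step m f w = step m g w := by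
  unfold step
  congr 1
  refine sum_congr rfl fun S _ => sum_congr rfl fun T _ => h _ (nxt_le hw S T)

theorem iter_congr {m : ℕ} {f g : ℕ → ℝ} (h : ∀ x, x ≤ 2 * m → f x = g x) (j : ℕ) :
    ∀ w, w ≤ 2 * m → (step m)^[j] f w = (step m)^[j] g w := by
  induction j with
  | zero => exact h
  | succ j ih =>
    intro w hw
    rw [Function.iterate_succ_apply', Function.iterate_succ_apply']
    exact step_congr ih hw

theorem step_sum (m : ℕ) {ι : Type*} (s : Finset ι) (a : ι → ℝ) (g : ι → ℕ → ℝ) :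
    step m (fun x => ∑ i ∈ s, a i * g i x) = fun x => ∑ i ∈ s, a i * step m (g i) x := by
  funext w
  simp only [step_eq]
  rw [sum_comm]
  simp only [← mul_sum]
  rw [sum_div]
  refine sum_congr rfl fun i _ => ?_
  rw [mul_div_assoc]

theorem iter_sum (m : ℕ) {ι : Type*} (s : Finset ι) (a : ι → ℝ) (g : ι → ℕ → ℝ) (j : ℕ) :
    (step m)^[j] (fun x => ∑ i ∈ s, a i * g i x) =
      fun x => ∑ i ∈ s, a i * (step m)^[j] (g i) x := by
  induction j with
  | zero => rfl
  | succ j ih =>
    rw [Function.iterate_succ_apply', ih, step_sum]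
    funext x
    refine sum_congr rfl fun i _ => ?_
    rw [Function.iterate_succ_apply']

theorem step_nonneg {m : ℕ} {f : ℕ → ℝ} (h : ∀ x, 0 ≤ f x) (w : ℕ) : 0 ≤ step m f w := by
  unfold step
  exact div_nonneg (sum_nonneg fun S _ => sum_nonneg fun T _ => h _) (by positivity)

theorem iter_nonneg {m : ℕ} {f : ℕ → ℝ} (h : ∀ x, 0 ≤ f x) (j : ℕ) : ∀ w, 0 ≤ (step m)^[j] f w := by
  induction j with
  | zero => exact h
  | succ j ih => rw [Function.iterate_succ_apply']; exact fun w => step_nonneg ih w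

theorem step_one (m : ℕ) : step m (fun _ => 1) = fun _ => 1 := by
  funext w
  have hP : (sel m ×ˢ sel m).Nonempty := sel_ne m
  have hc : (0 : ℝ) < (sel m ×ˢ sel m).card := by exact_mod_cast hP.card_pos
  rw [step_eq, sum_const, nsmul_eq_mul, mul_one, div_self hc.ne']

theorem iter_one (m : ℕ) (j : ℕ) : (step m)^[j] (fun _ => (1 : ℝ)) = fun _ => 1 := by
  induction j with
  | zero => rfl
  | succ j ih => rw [Function.iterate_succ_apply', ih, step_one]

theorem lim (m : ℕ) (f : ℕ → ℝ) :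
    ∃ L, Tendsto (fun j => (step m)^[j] f 0) atTop (𝓝 L) := by
  obtain ⟨δ, hδ, hf⟩ := osc_of m f
  set J := Nat.clog 2 (Nat.clog 2 (4 * m)) + 1 with hJ
  have hJ1 : 1 ≤ J := by omega
  have hJ' : (1 : ℝ) ≤ J := by exact_mod_cast hJ1
  have hJe := exists_J m
  rw [← hJ] at hJe
  apply cauchySeq_tendsto_of_complete
  set θ : ℝ := 1 - 1 / (4 * J) with hθ
  have h0 : 0 < 1 / (4 * (J : ℝ)) := by positivity
  apply cauchySeq_of_le_geometric θ (4 / 3 * δ) (by rw [hθ]; linarith)
  intro j
  rw [dist_comm, Real.dist_eq, Function.iterate_succ_apply']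
  have h1 : Osc m ((step m)^[j] f) (4 / 3 * δ * θ ^ j) := by
    have h : j = j % J + (j / J) * J := by
      rw [mul_comm]; exact (Nat.mod_add_div _ _).symm
    have h1 := osc_iter (osc_q hJe hf (j / J)) (j % J)
    rw [← Function.iterate_add_apply, ← h] at h1
    intro w v hw hv
    refine (h1 w v hw hv).trans ?_
    have := pow_bound hJ1 j
    nlinarith
  exact step_near h1 (by omega)

theorem exists_stationary (m : ℕ) : ∃ μ : ℕ → ℝ, IsStationary m μ := by
  choose L hL using lim m
  have hrep : ∀ f : ℕ → ℝ, L f = ∑ x ∈ range (2 * m + 1), L (fun y => if y = x then 1 else 0) * f x := by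
    intro f
    set g : ℕ → ℝ := fun y => ∑ x ∈ range (2 * m + 1), f x * (if y = x then (1 : ℝ) else 0) with hg
    have hfg : ∀ y, y ≤ 2 * m → f y = g y := by
      intro y hy
      rw [hg]
      simp only [mul_ite, mul_one, mul_zero]
      rw [sum_ite_eq, if_pos (mem_range.2 (by omega))]
    have h1 : Tendsto (fun j => (step m)^[j] f 0) atTop
        (𝓝 (∑ x ∈ range (2 * m + 1), f x * L (fun y => if y = x then 1 else 0))) := by
      have h2 : (fun j => (step m)^[j] f 0) =
          fun j => ∑ x ∈ range (2 * m + 1), f x * (step m)^[j] (fun y => if y = x then (1 : ℝ) else 0) 0 := by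
        funext j
        rw [iter_congr hfg j 0 (by omega), hg, iter_sum]
      rw [h2]
      exact tendsto_finsetSum _ fun x _ => (hL _).const_mul _
    rw [tendsto_nhds_unique (hL f) h1]
    exact sum_congr rfl fun x _ => mul_comm _ _
  refine ⟨fun x => L (fun y => if y = x then 1 else 0), ?_, ?_, ?_⟩
  · intro x
    refine ge_of_tendsto' (hL _) fun j => iter_nonneg (fun y => ?_) j 0
    split_ifs <;> norm_num
  · have h1 := hrep (fun _ => 1)
    simp only [mul_one] at h1
    rw [← h1]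
    refine tendsto_nhds_unique (hL _) ?_
    simp only [iter_one]
    exact tendsto_const_nhds
  · intro f
    rw [← hrep, ← hrep]
    have h1 := (tendsto_add_atTop_iff_nat 1).2 (hL f)
    refine tendsto_nhds_unique (hL _) ?_
    simpa [Function.iterate_succ_apply] using h1

end Pool.Agent.V1145.BL
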