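import Pool.Agent.V1145.BL4

/-! # The two-urn chain which moves half of the balls: the mixing time -/

set_option autoImplicit false

open Finset Filter Topology

namespace Pool.Agent.V1145.BL

/-- The total variation distance to `μ` at time `t` is at most `ε` for every starting state. -/
def DistLE (m : ℕ) (μ : ℕ → ℝ) (t ε : ℝ) : Prop :=
  ∀ w, w ≤ 2 * m → ∀ B : Finset ℕ,
    |evolve m t (fun x => if x ∈ B then 1 else 0) w -
      ∑ x ∈ range (2 * m + 1), if x ∈ B then μ x else 0| ≤ ε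

/-- the mixing time -/
noncomputable def mixTime (m : ℕ) (μ : ℕ → ℝ) (ε : ℝ) : ℝ := sInf {t : ℝ | 0 ≤ t ∧ DistLE m μ t ε}

theorem exists_J' (m : ℕ) : (4 * m : ℝ) ≤ (3 / 2) ^ (2 ^ (Nat.clog 2 (Nat.clog 2 (4 * m)) + 1)) :=
  exists_J m

theorem dist_bound {m J : ℕ} (hJ1 : 1 ≤ J) (hJ : (4 * m : ℝ) ≤ (3 / 2) ^ (2 ^ J)) {μ : ℕ → ℝ}
    (h : IsStationary m μ) {t : ℝ} (ht : 0 ≤ t) :
    DistLE m μ t (4 / 3 * Real.exp (-t / (4 * J))) := by
  intro w hw B
  have hf : Osc m (fun x => if x ∈ B then (1 : ℝ) else 0) 1 := by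
    intro a b _ _
    show |(if a ∈ B then (1 : ℝ) else 0) - (if b ∈ B then (1 : ℝ) else 0)| ≤ 1
    split_ifs <;> norm_num
  have := close_t hJ1 hJ hf h hw ht
  simpa only [mul_ite, mul_one, mul_zero] using this

theorem mix_bound {m J : ℕ} (hJ1 : 1 ≤ J) (hJ : (4 * m : ℝ) ≤ (3 / 2) ^ (2 ^ J)) {μ : ℕ → ℝ}
    (h : IsStationary m μ) {ε : ℝ} (h0 : 0 < ε) (h1 : ε < 1) :
    mixTime m μ ε ≤ 4 * J * Real.log (4 / (3 * ε)) := by
  have hJ' : (1 : ℝ) ≤ J := by exact_mod_cast hJ1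
  have hlog : 0 ≤ Real.log (4 / (3 * ε)) := by
    apply Real.log_nonneg
    rw [le_div_iff₀ (by positivity)]
    linarith
  apply csInf_le ⟨0, fun t ht => ht.1⟩
  refine ⟨by positivity, ?_⟩
  have := dist_bound hJ1 hJ h (t := 4 * J * Real.log (4 / (3 * ε))) (by positivity)
  have e : 4 / 3 * Real.exp (-(4 * J * Real.log (4 / (3 * ε))) / (4 * J)) = ε := by
    have e1 : -(4 * (J : ℝ) * Real.log (4 / (3 * ε))) / (4 * J) = - Real.log (4 / (3 * ε)) := by
      field_simp
    rw [e1, Real.exp_neg, Real.exp_log (by positivity)]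
    field_simp
  rwa [e] at this

theorem stat_unique {m : ℕ} {μ ν : ℕ → ℝ} (h : IsStationary m μ) (h' : IsStationary m ν) {x : ℕ}
    (hx : x ≤ 2 * m) : μ x = ν x := by
  set J := Nat.clog 2 (Nat.clog 2 (4 * m)) + 1 with hJ
  have hJ1 : 1 ≤ J := by omega
  have hJ' : (1 : ℝ) ≤ J := by exact_mod_cast hJ1
  have hb : ∀ t : ℝ, 0 ≤ t → |μ x - ν x| ≤ 8 / 3 * Real.exp (-(t / (4 * J))) := by
    intro t ht
    have h1 := dist_bound hJ1 (by rw [hJ]; exact exists_J' m) h ht 0 (by omega) {x}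
    have h2 := dist_bound hJ1 (by rw [hJ]; exact exists_J' m) h' ht 0 (by omega) {x}
    have e : ∀ ρ : ℕ → ℝ, (∑ y ∈ range (2 * m + 1), if y ∈ ({x} : Finset ℕ) then ρ y else 0) = ρ x := by
      intro ρ
      simp only [mem_singleton]
      rw [sum_ite_eq', if_pos (mem_range.2 (by omega))]
    rw [e, neg_div] at h1 h2
    rw [abs_le] at h1 h2 ⊢
    constructor <;> linarith [h1.1, h1.2, h2.1, h2.2]
  have hlim : Tendsto (fun t : ℝ => 8 / 3 * Real.exp (-(t / (4 * J)))) atTop (𝓝 0) := by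
    have h1 : Tendsto (fun t : ℝ => t / (4 * J)) atTop atTop :=
      tendsto_id.atTop_div_const (by positivity)
    have h2 := (Real.tendsto_exp_neg_atTop_nhds_zero.comp h1).const_mul (8 / 3)
    simpa using h2
  have h0 : |μ x - ν x| ≤ 0 := by
    refine ge_of_tendsto hlim ?_
    filter_upwards [eventually_ge_atTop 0] with t ht using hb t ht
  exact sub_eq_zero.1 (abs_nonpos_iff.1 h0)

theorem sq_le_pow (c : ℕ) : c ^ 2 ≤ 2 ^ (c + 1) := by
  induction c with
  | zero => norm_num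
  | succ c ih =>
    rcases Nat.lt_or_ge c 3 with h | h
    · interval_cases c <;> norm_num
    · rw [pow_succ 2 (c + 1)]
      nlinarith

theorem clog_sq {L : ℕ} (hL : 2 ≤ L) : (Nat.clog 2 L) ^ 2 ≤ 4 * L := by
  set c := Nat.clog 2 L with hc
  have h1 : 2 ^ (c - 1) < L := Nat.pow_pred_clog_lt_self (by norm_num) (by omega)
  have hc1 : 1 ≤ c := Nat.clog_pos (by norm_num) hL
  have h2 := sq_le_pow c
  have h3 : 2 ^ (c + 1) = 4 * 2 ^ (c - 1) := by
    obtain ⟨d, hd⟩ : ∃ d, c = d + 1 := ⟨c - 1, by omega⟩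
    rw [hd]
    simp only [Nat.add_sub_cancel, pow_succ]
    ring
  omega

theorem J_bound (m : ℕ) (hm : 1 ≤ m) (hx : 1 ≤ Real.log (2 * m)) :
    ((Nat.clog 2 (Nat.clog 2 (4 * m)) + 1 : ℕ) : ℝ) ≤ 6 * Real.sqrt (Real.log (2 * m)) := by
  set L := Nat.clog 2 (4 * m) with hL
  set c := Nat.clog 2 L with hc
  set x := Real.log (2 * m) with hxd
  have hm' : (1 : ℝ) ≤ m := by exact_mod_cast hm
  have h1 : 2 ^ (L - 1) < 4 * m := Nat.pow_pred_clog_lt_self (by norm_num) (by omega)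
  have hL2 : 2 ≤ L := by
    by_contra hcon
    push Not at hcon
    have h4 : 4 * m ≤ 2 ^ L := Nat.le_pow_clog (by norm_num) _
    have : 2 ^ L ≤ 2 ^ 1 := Nat.pow_le_pow_right (by norm_num) (by omega)
    omega
  have h2 : ((L : ℝ) - 1) * Real.log 2 ≤ Real.log (4 * m) := by
    have h3 : ((2 : ℝ) ^ (L - 1)) ≤ 4 * m := by exact_mod_cast h1.le
    have h5 := Real.log_le_log (by positivity) h3
    rw [Real.log_pow, Nat.cast_sub (by omega)] at h5
    simpa using h5
  have h3 : Real.log (4 * m) = Real.log 2 + x := by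
    rw [hxd, ← Real.log_mul (by norm_num) (by positivity)]
    congr 1; ring
  have hl1 : (0.69 : ℝ) < Real.log 2 := by have := Real.log_two_gt_d9; linarith
  have h4 : (L : ℝ) ≤ 4 * x := by
    have : (L : ℝ) * Real.log 2 ≤ 2 * Real.log 2 + x := by linarith
    have hl2 : Real.log 2 < 0.7 := by have := Real.log_two_lt_d9; linarith
    nlinarith
  have h5 : (c : ℝ) ^ 2 ≤ 4 * L := by exact_mod_cast clog_sq hL2
  have h6 : (c : ℝ) ^ 2 ≤ 16 * x := by linarith
  have hs : 1 ≤ Real.sqrt x := by rw [Real.one_le_sqrt]; exact hx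
  have h7 : (c : ℝ) ≤ 4 * Real.sqrt x := by
    have h8 : (c : ℝ) ^ 2 ≤ (4 * Real.sqrt x) ^ 2 := by
      rw [mul_pow, Real.sq_sqrt (by linarith)]; linarith
    exact (pow_le_pow_iff_left₀ (Nat.cast_nonneg _) (by positivity) two_ne_zero).1 h8
  push_cast
  linarith

theorem ratio {ε : ℝ} (h0 : 0 < ε) (h1 : ε < 1) (μ : ℕ → ℕ → ℝ)
    (h : ∀ m, IsStationary m (μ m)) :
    Tendsto (fun m : ℕ => mixTime m (μ m) ε / Real.log (2 * m)) atTop (𝓝 0) := by
  set C := Real.log (4 / (3 * ε)) with hC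
  have hlog : 0 ≤ C := by
    apply Real.log_nonneg
    rw [le_div_iff₀ (by positivity)]
    linarith
  have hlim : Tendsto (fun m : ℕ => Real.log (2 * m)) atTop atTop :=
    Real.tendsto_log_atTop.comp
      ((tendsto_natCast_atTop_atTop).const_mul_atTop (by norm_num : (0 : ℝ) < 2))
  have hs : Tendsto (fun m : ℕ => 24 * C / Real.sqrt (Real.log (2 * m))) atTop (𝓝 0) := by
    have h2 : Tendsto (fun m : ℕ => Real.sqrt (Real.log (2 * m))) atTop atTop :=
      Real.tendsto_sqrt_atTop.comp hlim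
    exact h2.const_div_atTop (24 * C)
  refine squeeze_zero' ?_ ?_ hs
  · filter_upwards [hlim.eventually_ge_atTop 1] with m hm
    exact div_nonneg (Real.sInf_nonneg fun t ht => ht.1) (by linarith)
  · filter_upwards [hlim.eventually_ge_atTop 1, eventually_ge_atTop 1] with m hm hm1
    have hx : 0 < Real.log (2 * m) := by linarith
    have hb := mix_bound (J := Nat.clog 2 (Nat.clog 2 (4 * m)) + 1) (by omega) (exists_J m) (h m) h0 h1
    have hJ := J_bound m hm1 hm
    have hq : 0 < Real.sqrt (Real.log (2 * m)) := Real.sqrt_pos.2 hx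
    rw [div_le_div_iff₀ hx hq]
    have hsq : Real.sqrt (Real.log (2 * m)) * Real.sqrt (Real.log (2 * m)) = Real.log (2 * m) :=
      Real.mul_self_sqrt hx.le
    calc mixTime m (μ m) ε * Real.sqrt (Real.log (2 * m))
        ≤ (4 * (6 * Real.sqrt (Real.log (2 * m))) * C) * Real.sqrt (Real.log (2 * m)) := by
          apply mul_le_mul_of_nonneg_right _ hq.le
          refine hb.trans ?_
          apply mul_le_mul_of_nonneg_right _ hlog
          linarith
      _ = 24 * C * (Real.sqrt (Real.log (2 * m)) * Real.sqrt (Real.log (2 * m))) := by ring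
      _ = 24 * C * Real.log (2 * m) := by rw [hsq]

end Pool.Agent.V1145.BL
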