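import Mathlib

/-! # Graphs of polytopes given by their vertices -/

set_option autoImplicit false

namespace Pool.Agent.V1145.DA

open Set

variable {E : Type*} [NormedAddCommGroup E] [NormedSpace ℝ E] {ι : Type*}

/-- the graph (1-skeleton) of the polytope with vertices `v i` -/
def skeleton (v : ι → E) : SimpleGraph ι where
  Adj i j := i ≠ j ∧ IsExposed ℝ (convexHull ℝ (range v)) (segment ℝ (v i) (v j))
  symm := ⟨fun i j h => ⟨h.1.symm, by rw [segment_symm]; exact h.2⟩⟩
  loopless := ⟨fun i h => h.1 rfl⟩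

/-- the dimension of the polytope with vertices `v i` -/
noncomputable def dim (v : ι → E) : ℕ := Module.finrank ℝ (vectorSpan ℝ (range v))

lemma exists_strict [FiniteDimensional ℝ E] [Finite ι] {v : ι → E}
    (hv : ConvexIndependent ℝ v) (i : ι) :
    ∃ l : E →L[ℝ] ℝ, ∀ k, k ≠ i → l (v k) < l (v i) := by
  rw [convexIndependent_iff_notMem_convexHull_sdiff] at hv
  have h1 := hv i univ
  have hfin : (v '' (univ \ {i})).Finite := Set.toFinite _
  obtain ⟨f, u, h2, h3⟩ := geometric_hahn_banach_closed_point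
    (convex_convexHull ℝ (v '' (univ \ {i}))) (hfin.isClosed_convexHull ℝ) h1
  refine ⟨f, fun k hk => ?_⟩
  exact (h2 _ (subset_convexHull ℝ _ ⟨k, ⟨mem_univ _, by simpa using hk⟩, rfl⟩)).trans h3

lemma convexIndependent_of_strict {v : ι → E}
    (h : ∀ i, ∃ l : E →L[ℝ] ℝ, ∀ k, k ≠ i → l (v k) < l (v i)) : ConvexIndependent ℝ v := by
  rw [convexIndependent_iff_notMem_convexHull_sdiff]
  intro i s hi
  obtain ⟨l, hl⟩ := h i
  have h2 : convexHull ℝ (v '' (s \ {i})) ⊆ {x | l x < l (v i)} := by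
    apply convexHull_min
    · rintro _ ⟨k, hk, rfl⟩
      exact hl k (by simpa using hk.2)
    · exact convex_halfSpace_lt l.toLinearMap.isLinear _
  exact lt_irrefl (l (v i)) (h2 hi)

lemma le_of_mem_hull {v : ι → E} {l : E →L[ℝ] ℝ} {c : ℝ} (h : ∀ k, l (v k) ≤ c) {x : E}
    (hx : x ∈ convexHull ℝ (range v)) : l x ≤ c := by
  have h2 : convexHull ℝ (range v) ⊆ {x | l x ≤ c} := by
    apply convexHull_min
    · rintro _ ⟨k, rfl⟩
      exact h k
    · exact convex_halfSpace_le l.toLinearMap.isLinear _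
  exact h2 hx

/-- edges and linear functionals -/
theorem adj_iff [FiniteDimensional ℝ E] [Fintype ι] {v : ι → E}
    (hv : ConvexIndependent ℝ v) {i j : ι} :
    (skeleton v).Adj i j ↔ i ≠ j ∧ ∃ l : E →L[ℝ] ℝ, l (v i) = l (v j) ∧
      ∀ k, k ≠ i → k ≠ j → l (v k) < l (v i) := by
  classical
  constructor
  · rintro ⟨h1, h2⟩
    refine ⟨h1, ?_⟩
    obtain ⟨l, hl⟩ := h2 ⟨v i, left_mem_segment ℝ _ _⟩
    have hi : v i ∈ segment ℝ (v i) (v j) := left_mem_segment ℝ _ _
    have hj : v j ∈ segment ℝ (v i) (v j) := right_mem_segment ℝ _ _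
    rw [hl] at hi hj
    have hmem : ∀ k, v k ∈ convexHull ℝ (range v) := fun k => subset_convexHull ℝ _ ⟨k, rfl⟩
    refine ⟨l, le_antisymm (hj.2 _ (hmem i)) (hi.2 _ (hmem j)), fun k hki hkj => ?_⟩
    refine lt_of_le_of_ne (hi.2 _ (hmem k)) fun he => ?_
    have hk : v k ∈ segment ℝ (v i) (v j) := by
      rw [hl]
      exact ⟨hmem k, fun y hy => by rw [he]; exact hi.2 y hy⟩
    rw [convexIndependent_iff_notMem_convexHull_sdiff] at hv
    refine hv k {i, j} ?_
    rw [← convexHull_pair] at hk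
    refine convexHull_mono ?_ hk
    rintro x (rfl | rfl)
    · exact ⟨i, ⟨by simp, by simpa using hki.symm⟩, rfl⟩
    · exact ⟨j, ⟨by simp, by simpa using hkj.symm⟩, rfl⟩
  · rintro ⟨h1, l, h2, h3⟩
    refine ⟨h1, fun _ => ⟨l, ?_⟩⟩
    have hle : ∀ k, l (v k) ≤ l (v i) := by
      intro k
      by_cases hki : k = i
      · rw [hki]
      · by_cases hkj : k = j
        · rw [hkj, h2]
        · exact (h3 k hki hkj).le
    have hsub : segment ℝ (v i) (v j) ⊆ convexHull ℝ (range v) :=
      segment_subset_convexHull ⟨i, rfl⟩ ⟨j, rfl⟩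
    have hconst : ∀ x ∈ segment ℝ (v i) (v j), l x = l (v i) := by
      rintro x ⟨a, b, ha, hb, hab, rfl⟩
      rw [map_add, map_smul, map_smul, ← h2, ← add_smul, hab, one_smul]
    ext x
    constructor
    · intro hx
      refine ⟨hsub hx, fun y hy => ?_⟩
      rw [hconst x hx]
      exact le_of_mem_hull hle hy
    · rintro ⟨hx, hmax⟩
      have hxi : l x = l (v i) := le_antisymm (le_of_mem_hull hle hx)
        (hmax _ (subset_convexHull ℝ _ ⟨i, rfl⟩))
      rw [convexHull_range_eq_exists_affineCombination] at hx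
      obtain ⟨s, w, hw0, hw1, rfl⟩ := hx
      rw [Finset.affineCombination_eq_linear_combination _ _ _ hw1] at hxi ⊢
      rw [map_sum] at hxi
      simp only [map_smul, smul_eq_mul] at hxi
      have hz : ∀ k ∈ s, k ≠ i → k ≠ j → w k = 0 := by
        intro k hk hki hkj
        by_contra hne
        have hpos : 0 < w k := lt_of_le_of_ne (hw0 k hk) (Ne.symm hne)
        have : ∑ k ∈ s, w k * l (v k) < ∑ k ∈ s, w k * l (v i) :=
          Finset.sum_lt_sum (fun a ha => mul_le_mul_of_nonneg_left (hle a) (hw0 a ha))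
            ⟨k, hk, mul_lt_mul_of_pos_left (h3 k hki hkj) hpos⟩
        rw [← Finset.sum_mul, hw1, one_mul] at this
        exact absurd hxi this.ne
      rw [← convexHull_pair]
      have he : ∑ k ∈ s, w k • v k = ∑ k ∈ s, w k • (if k = j then v j else v i) := by
        refine Finset.sum_congr rfl fun k hk => ?_
        by_cases hkj : k = j
        · rw [if_pos hkj, hkj]
        · rw [if_neg hkj]
          by_cases hki : k = i
          · rw [hki]
          · rw [hz k hk hki hkj, zero_smul, zero_smul]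
      rw [he]
      refine (convex_convexHull ℝ _).sum_mem hw0 hw1 fun k _ => subset_convexHull ℝ _ ?_
      split_ifs
      · exact Or.inr rfl
      · exact Or.inl rfl

end Pool.Agent.V1145.DA
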