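import Pool.Agent.V1145.DA1

/-! # Iterated pyramids -/

set_option autoImplicit false

namespace Pool.Agent.V1145.DA

open Set Module

variable {E : Type*} [NormedAddCommGroup E] [NormedSpace ℝ E] {ι : Type*}

/-- `w` gives the vertices of an `m`-fold pyramid with basis the polytope with vertices `v i`: the
apexes `w (inr 0), w (inr 1), …` are added one after the other, each one outside the affine hull of
all the previous points -/
def IsPyramid {m : ℕ} (v : ι → E) (w : ι ⊕ Fin m → E) : Prop :=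
  (∀ i, w (Sum.inl i) = v i) ∧
    ∀ k : Fin m, w (Sum.inr k) ∉ affineSpan ℝ (range v ∪ {x | ∃ j < k, w (Sum.inr j) = x})

lemma sub_notMem {S : Set E} {x y : E} (hy : y ∈ S) (hx : x ∉ affineSpan ℝ S) :
    x - y ∉ vectorSpan ℝ S := by
  intro h
  apply hx
  rw [← direction_affineSpan] at h
  have := AffineSubspace.vadd_mem_of_mem_direction h (subset_affineSpan ℝ S hy)
  simpa using this

lemma exists_affine [FiniteDimensional ℝ E] {S : Set E} {x : E} (hS : S.Nonempty)
    (hx : x ∉ affineSpan ℝ S) :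
    ∃ (f : E →L[ℝ] ℝ) (b : ℝ), (∀ y ∈ S, f y + b = 0) ∧ f x + b = 1 := by
  obtain ⟨y, hy⟩ := hS
  obtain ⟨g, hg1, hg2⟩ := Submodule.exists_dual_map_eq_bot_of_notMem (sub_notMem hy hx)
    inferInstance
  refine ⟨LinearMap.toContinuousLinearMap ((g (x - y))⁻¹ • g), - ((g (x - y))⁻¹ * g y), ?_, ?_⟩
  · intro z hz
    have h1 : z - y ∈ vectorSpan ℝ S := vsub_mem_vectorSpan ℝ hz hy
    have h2 : g (z - y) = 0 := by
      have : g (z - y) ∈ (vectorSpan ℝ S).map g := ⟨_, h1, rfl⟩
      rw [hg2] at this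
      simpa using this
    rw [map_sub, sub_eq_zero] at h2
    simp [h2]
  · have h3 : g x - g y = g (x - y) := (map_sub g x y).symm
    simp only [LinearMap.coe_toContinuousLinearMap', LinearMap.smul_apply, smul_eq_mul]
    rw [← sub_eq_add_neg, ← mul_sub, h3]
    exact inv_mul_cancel₀ hg1

lemma ext [FiniteDimensional ℝ E] [Nonempty ι] {m : ℕ} {v : ι → E} {w : ι ⊕ Fin m → E}
    (hw : IsPyramid v w) (l : E →L[ℝ] ℝ) (c : Fin m → ℝ) :
    ∃ (L : E →L[ℝ] ℝ) (b : ℝ), (∀ i, L (v i) + b = l (v i)) ∧ ∀ k, L (w (Sum.inr k)) + b = c k := by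
  have key : ∀ n : ℕ, ∃ (L : E →L[ℝ] ℝ) (b : ℝ), (∀ i, L (v i) + b = l (v i)) ∧
      ∀ k : Fin m, (k : ℕ) < n → L (w (Sum.inr k)) + b = c k := by
    intro n
    induction n with
    | zero => exact ⟨l, 0, fun i => by simp, fun k hk => absurd hk (Nat.not_lt_zero _)⟩
    | succ n ih =>
      obtain ⟨L, b, h1, h2⟩ := ih
      by_cases hn : n < m
      · obtain ⟨f, b', h3, h4⟩ := exists_affine
          (((range_nonempty v).mono subset_union_left)) (hw.2 ⟨n, hn⟩)
        refine ⟨L + (c ⟨n, hn⟩ - (L (w (Sum.inr ⟨n, hn⟩)) + b)) • f,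
          b + (c ⟨n, hn⟩ - (L (w (Sum.inr ⟨n, hn⟩)) + b)) * b', ?_, ?_⟩
        · intro i
          have h5 := h3 (v i) (Or.inl ⟨i, rfl⟩)
          have h6 := h1 i
          simp only [ContinuousLinearMap.add_apply, ContinuousLinearMap.smul_apply, smul_eq_mul]
          linear_combination h6 + (c ⟨n, hn⟩ - (L (w (Sum.inr ⟨n, hn⟩)) + b)) * h5
        · intro k hk
          simp only [ContinuousLinearMap.add_apply, ContinuousLinearMap.smul_apply, smul_eq_mul]
          by_cases hkn : (k : ℕ) = n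
          · have hk' : k = ⟨n, hn⟩ := Fin.ext hkn
            rw [hk']
            linear_combination (c ⟨n, hn⟩ - (L (w (Sum.inr ⟨n, hn⟩)) + b)) * h4
          · have hk2 : (k : ℕ) < n := by omega
            have h5 := h3 (w (Sum.inr k)) (Or.inr ⟨k, Fin.lt_def.2 hk2, rfl⟩)
            linear_combination h2 k hk2 + (c ⟨n, hn⟩ - (L (w (Sum.inr ⟨n, hn⟩)) + b)) * h5
      · exact ⟨L, b, h1, fun k _ => h2 k (by have := k.2; omega)⟩
  obtain ⟨L, b, h1, h2⟩ := key m
  exact ⟨L, b, h1, fun k => h2 k k.2⟩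

lemma finrank_insert [FiniteDimensional ℝ E] {S : Set E} {x : E} (hS : S.Nonempty)
    (hx : x ∉ affineSpan ℝ S) :
    finrank ℝ (vectorSpan ℝ (insert x S)) = finrank ℝ (vectorSpan ℝ S) + 1 := by
  obtain ⟨y, hy⟩ := hS
  refine le_antisymm (finrank_vectorSpan_insert_le_set ℝ S x) ?_
  refine Submodule.finrank_lt_finrank_of_lt ?_
  refine lt_of_le_of_ne (vectorSpan_mono ℝ (subset_insert _ _)) fun he => ?_
  apply sub_notMem hy hx
  rw [he]
  exact vsub_mem_vectorSpan ℝ (mem_insert _ _) (mem_insert_of_mem _ hy)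

theorem dim_pyramid [FiniteDimensional ℝ E] [Nonempty ι] {m : ℕ} {v : ι → E}
    {w : ι ⊕ Fin m → E} (hw : IsPyramid v w) : dim w = dim v + m := by
  have key : ∀ n : ℕ, n ≤ m → finrank ℝ (vectorSpan ℝ
      (range v ∪ {x | ∃ j : Fin m, (j : ℕ) < n ∧ w (Sum.inr j) = x})) = dim v + n := by
    intro n
    induction n with
    | zero =>
      intro _
      have : (range v ∪ {x | ∃ j : Fin m, (j : ℕ) < 0 ∧ w (Sum.inr j) = x}) = range v := by
        ext x
        simp
      rw [this]
      rfl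
    | succ n ih =>
      intro hn
      have h1 := hw.2 ⟨n, hn⟩
      have h2 : (range v ∪ {x | ∃ j : Fin m, (j : ℕ) < n + 1 ∧ w (Sum.inr j) = x}) =
          insert (w (Sum.inr ⟨n, hn⟩))
            (range v ∪ {x | ∃ j : Fin m, (j : ℕ) < n ∧ w (Sum.inr j) = x}) := by
        ext x
        simp only [mem_union, mem_setOf_eq, mem_insert_iff]
        constructor
        · rintro (h | ⟨j, hj, rfl⟩)
          · exact Or.inr (Or.inl h)
          · rcases Nat.lt_succ_iff_lt_or_eq.1 hj with h | h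
            · exact Or.inr (Or.inr ⟨j, h, rfl⟩)
            · left
              rw [show j = ⟨n, hn⟩ from Fin.ext h]
        · rintro (rfl | h | ⟨j, hj, rfl⟩)
          · exact Or.inr ⟨_, Nat.lt_succ_self n, rfl⟩
          · exact Or.inl h
          · exact Or.inr ⟨j, by omega, rfl⟩
      rw [h2, finrank_insert ((range_nonempty v).mono subset_union_left), ih (by omega)]
      · ring
      · exact h1
  have h := key m le_rfl
  have h3 : (range v ∪ {x | ∃ j : Fin m, (j : ℕ) < m ∧ w (Sum.inr j) = x}) = range w := by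
    ext x
    constructor
    · rintro (⟨i, rfl⟩ | ⟨j, _, rfl⟩)
      · exact ⟨Sum.inl i, hw.1 i⟩
      · exact ⟨_, rfl⟩
    · rintro ⟨i | j, rfl⟩
      · exact Or.inl ⟨i, (hw.1 i).symm⟩
      · exact Or.inr ⟨j, j.2, rfl⟩
  rw [h3] at h
  exact h

theorem indep_pyramid [FiniteDimensional ℝ E] [Fintype ι] [Nonempty ι] {m : ℕ} {v : ι → E}
    {w : ι ⊕ Fin m → E} (hw : IsPyramid v w) (hv : ConvexIndependent ℝ v) :
    ConvexIndependent ℝ w := by
  classical
  apply convexIndependent_of_strict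
  rintro (i | k)
  · obtain ⟨l, hl⟩ := exists_strict hv i
    obtain ⟨L, b, h1, h2⟩ := ext hw l (fun _ => l (v i) - 1)
    refine ⟨L, ?_⟩
    rintro (j | k) hne
    · have h3 := hl j (fun h => hne (by rw [h]))
      rw [hw.1, hw.1]
      linarith [h1 i, h1 j]
    · rw [hw.1]
      linarith [h1 i, h2 k]
  · obtain ⟨L, b, h1, h2⟩ := ext hw 0 (fun j => if j = k then 1 else 0)
    refine ⟨L, ?_⟩
    have h3 := h2 k
    rw [if_pos rfl] at h3
    rintro (j | j) hne
    · have h4 := h1 j
      rw [hw.1]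
      simp only [ContinuousLinearMap.zero_apply] at h4
      linarith
    · have h4 := h2 j
      rw [if_neg (fun h => hne (by rw [h]))] at h4
      linarith

/-- the graph with vertex set `ι ⊕ κ` in which the elements of `κ` are joined to everything -/
def joinComplete (G : SimpleGraph ι) (κ : Type*) : SimpleGraph (ι ⊕ κ) where
  Adj
    | Sum.inl i, Sum.inl j => G.Adj i j
    | Sum.inl _, Sum.inr _ => True
    | Sum.inr _, Sum.inl _ => True
    | Sum.inr k, Sum.inr k' => k ≠ k'
  symm := ⟨by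
    rintro (i | i) (j | j) h
    · exact G.symm.symm _ _ h
    · trivial
    · trivial
    · exact Ne.symm h⟩
  loopless := ⟨by
    rintro (i | i) h
    · exact G.loopless.irrefl i h
    · exact h rfl⟩

theorem skeleton_pyramid [FiniteDimensional ℝ E] [Fintype ι] [Nonempty ι] {m : ℕ} {v : ι → E}
    {w : ι ⊕ Fin m → E} (hw : IsPyramid v w) (hv : ConvexIndependent ℝ v) :
    skeleton w = joinComplete (skeleton v) (Fin m) := by
  classical
  have hwi := indep_pyramid hw hv
  have hir : ∀ i k, (skeleton w).Adj (Sum.inl i) (Sum.inr k) := by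
    intro i k
    rw [adj_iff hwi]
    refine ⟨by simp, ?_⟩
    obtain ⟨l, hl⟩ := exists_strict hv i
    obtain ⟨L, b, h1, h2⟩ := ext hw l (fun j => if j = k then l (v i) else l (v i) - 1)
    have h3 := h2 k
    rw [if_pos rfl] at h3
    refine ⟨L, by rw [hw.1]; linarith [h1 i], ?_⟩
    rintro (j | j) hj1 hj2
    · have h4 := hl j (fun h => hj1 (by rw [h]))
      rw [hw.1, hw.1]
      linarith [h1 i, h1 j]
    · have h4 := h2 j
      rw [if_neg (fun h => hj2 (by rw [h]))] at h4
      rw [hw.1]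
      linarith [h1 i]
  ext x y
  rcases x with i | k <;> rcases y with j | k'
  · change _ ↔ (skeleton v).Adj i j
    rw [adj_iff hwi, adj_iff hv]
    constructor
    · rintro ⟨h1, L, h2, h3⟩
      rw [hw.1, hw.1] at h2
      refine ⟨fun h => h1 (by rw [h]), L, h2, fun k hki hkj => ?_⟩
      have := h3 (Sum.inl k) (fun h => hki (Sum.inl.inj h)) (fun h => hkj (Sum.inl.inj h))
      rw [hw.1, hw.1] at this
      exact this
    · rintro ⟨h1, l, h2, h3⟩
      obtain ⟨L, b, h4, h5⟩ := ext hw l (fun _ => l (v i) - 1)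
      refine ⟨fun h => h1 (Sum.inl.inj h), L, ?_, ?_⟩
      · rw [hw.1, hw.1]
        linarith [h4 i, h4 j]
      · rintro (k | k) hk1 hk2
        · have := h3 k (fun h => hk1 (by rw [h])) (fun h => hk2 (by rw [h]))
          rw [hw.1, hw.1]
          linarith [h4 i, h4 k]
        · rw [hw.1]
          linarith [h4 i, h5 k]
  · exact ⟨fun _ => trivial, fun _ => hir i k'⟩
  · exact ⟨fun _ => trivial, fun _ => (hir j k).symm⟩
  · change _ ↔ k ≠ k'
    rw [adj_iff hwi]
    constructor
    · rintro ⟨h1, _⟩ h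
      exact h1 (by rw [h])
    · intro h
      obtain ⟨L, b, h1, h2⟩ := ext hw 0 (fun j => if j = k ∨ j = k' then 1 else 0)
      have h3 := h2 k
      have h3' := h2 k'
      rw [if_pos (Or.inl rfl)] at h3
      rw [if_pos (Or.inr rfl)] at h3'
      refine ⟨fun he => h (Sum.inr.inj he), L, by linarith, ?_⟩
      rintro (j | j) hj1 hj2
      · have h4 := h1 j
        simp only [ContinuousLinearMap.zero_apply] at h4
        rw [hw.1]
        linarith
      · have h4 := h2 j
        rw [if_neg (by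
          rintro (h | h)
          · exact hj1 (by rw [h])
          · exact hj2 (by rw [h]))] at h4
        linarith

end Pool.Agent.V1145.DA
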