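import Pool.Agent.V1145.DA2

/-! # Free sums -/

set_option autoImplicit false

namespace Pool.Agent.V1145.DA

open Set Module

variable {E F : Type*} [NormedAddCommGroup E] [NormedSpace ℝ E] [NormedAddCommGroup F]
  [NormedSpace ℝ F] {ι κ : Type*}

/-- the vertices of the free sum of two polytopes -/
def freeSum (p : ι → E) (q : κ → F) : ι ⊕ κ → E × F
  | Sum.inl i => (p i, 0)
  | Sum.inr k => (0, q k)

lemma pos_of [Fintype ι] {p : ι → E} (h0 : ∑ i, p i = 0) {l : E →L[ℝ] ℝ} {c : ℝ}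
    (hle : ∀ k, l (p k) ≤ c) (hlt : ∃ k, l (p k) < c) : 0 < c := by
  have h1 : ∑ k, l (p k) < ∑ _k : ι, c := Finset.sum_lt_sum (fun k _ => hle k)
    (by obtain ⟨k, hk⟩ := hlt; exact ⟨k, Finset.mem_univ _, hk⟩)
  rw [← map_sum, h0, map_zero, Finset.sum_const, nsmul_eq_mul] at h1
  by_contra hc
  have h2 : (0 : ℝ) ≤ ((Finset.univ : Finset ι).card : ℝ) := Nat.cast_nonneg _
  nlinarith

lemma pos_vertex [Fintype ι] [Nontrivial ι] {p : ι → E} (h0 : ∑ i, p i = 0) {l : E →L[ℝ] ℝ}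
    {i : ι} (hl : ∀ k, k ≠ i → l (p k) < l (p i)) : 0 < l (p i) := by
  obtain ⟨j, hj⟩ := exists_ne i
  refine pos_of h0 (fun k => ?_) ⟨j, hl j hj⟩
  by_cases h : k = i
  · rw [h]
  · exact (hl k h).le

lemma pos_edge [Fintype ι] (hc : 3 ≤ Fintype.card ι) {p : ι → E} (h0 : ∑ i, p i = 0)
    {l : E →L[ℝ] ℝ} {i j : ι} (hij : l (p i) = l (p j))
    (hl : ∀ k, k ≠ i → k ≠ j → l (p k) < l (p i)) : 0 < l (p i) := by
  classical
  obtain ⟨k, hk⟩ : ∃ k, k ∉ ({i, j} : Finset ι) := by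
    by_contra h
    push Not at h
    have h1 : (Finset.univ : Finset ι) ⊆ {i, j} := fun x _ => h x
    have h2 := (Finset.card_le_card h1).trans (Finset.card_insert_le _ _)
    rw [Finset.card_univ, Finset.card_singleton] at h2
    omega
  simp only [Finset.mem_insert, Finset.mem_singleton, not_or] at hk
  refine pos_of h0 (fun k => ?_) ⟨k, hl k hk.1 hk.2⟩
  by_cases h : k = i
  · rw [h]
  · by_cases h' : k = j
    · rw [h', hij]
    · exact (hl k h h').le

lemma coprod_inl (l : E →L[ℝ] ℝ) (γ : F →L[ℝ] ℝ) (p : ι → E) (q : κ → F) (i : ι) :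
    (l.coprod γ) (freeSum p q (Sum.inl i)) = l (p i) := by
  simp [freeSum]

lemma coprod_inr (l : E →L[ℝ] ℝ) (γ : F →L[ℝ] ℝ) (p : ι → E) (q : κ → F) (k : κ) :
    (l.coprod γ) (freeSum p q (Sum.inr k)) = γ (q k) := by
  simp [freeSum]

variable [FiniteDimensional ℝ E] [FiniteDimensional ℝ F] [Fintype ι] [Fintype κ]

theorem indep_freeSum [Nontrivial ι] [Nontrivial κ] {p : ι → E} {q : κ → F}
    (hp : ConvexIndependent ℝ p) (hq : ConvexIndependent ℝ q)
    (hp0 : ∑ i, p i = 0) (hq0 : ∑ k, q k = 0) : ConvexIndependent ℝ (freeSum p q) := by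
  apply convexIndependent_of_strict
  rintro (i | k)
  · obtain ⟨l, hl⟩ := exists_strict hp i
    have hpos := pos_vertex hp0 hl
    refine ⟨l.coprod 0, ?_⟩
    rintro (j | k) hne
    · rw [coprod_inl, coprod_inl]
      exact hl j (fun h => hne (by rw [h]))
    · rw [coprod_inl, coprod_inr]
      simpa using hpos
  · obtain ⟨l, hl⟩ := exists_strict hq k
    have hpos := pos_vertex hq0 hl
    refine ⟨ContinuousLinearMap.coprod 0 l, ?_⟩
    rintro (j | j) hne
    · rw [coprod_inl, coprod_inr]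
      simpa using hpos
    · rw [coprod_inr, coprod_inr]
      exact hl j (fun h => hne (by rw [h]))

theorem skeleton_freeSum {p : ι → E} {q : κ → F}
    (hp : ConvexIndependent ℝ p) (hq : ConvexIndependent ℝ q)
    (hp0 : ∑ i, p i = 0) (hq0 : ∑ k, q k = 0) (hι : 3 ≤ Fintype.card ι)
    (hκ : 3 ≤ Fintype.card κ) (hcomp : ∀ k k', k ≠ k' → (skeleton q).Adj k k') :
    skeleton (freeSum p q) = joinComplete (skeleton p) κ := by
  have : Nontrivial ι := Fintype.one_lt_card_iff_nontrivial.1 (by omega)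
  have : Nontrivial κ := Fintype.one_lt_card_iff_nontrivial.1 (by omega)
  have hu := indep_freeSum hp hq hp0 hq0
  have hir : ∀ i k, (skeleton (freeSum p q)).Adj (Sum.inl i) (Sum.inr k) := by
    intro i k
    rw [adj_iff hu]
    refine ⟨by simp, ?_⟩
    obtain ⟨l, hl⟩ := exists_strict hp i
    have hlpos := pos_vertex hp0 hl
    obtain ⟨γ, hγ⟩ := exists_strict hq k
    have hγpos := pos_vertex hq0 hγ
    refine ⟨((l (p i))⁻¹ • l).coprod ((γ (q k))⁻¹ • γ), ?_, ?_⟩
    · rw [coprod_inl, coprod_inr]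
      simp [inv_mul_cancel₀ hlpos.ne', inv_mul_cancel₀ hγpos.ne']
    · rintro (j | j) hj1 hj2
      · rw [coprod_inl, coprod_inl]
        exact mul_lt_mul_of_pos_left (hl j (fun h => hj1 (by rw [h]))) (inv_pos.2 hlpos)
      · rw [coprod_inr, coprod_inl]
        have h1 : ((l (p i))⁻¹ • l) (p i) = ((γ (q k))⁻¹ • γ) (q k) := by
          simp [inv_mul_cancel₀ hlpos.ne', inv_mul_cancel₀ hγpos.ne']
        rw [h1]
        exact mul_lt_mul_of_pos_left (hγ j (fun h => hj2 (by rw [h]))) (inv_pos.2 hγpos)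
  ext x y
  rcases x with i | k <;> rcases y with j | k'
  · change _ ↔ (skeleton p).Adj i j
    rw [adj_iff hu, adj_iff hp]
    constructor
    · rintro ⟨h1, L, h2, h3⟩
      have h4 : ∀ a, (L.comp (ContinuousLinearMap.inl ℝ E F)) (p a) =
        L (freeSum p q (Sum.inl a)) := fun a => rfl
      refine ⟨fun h => h1 (by rw [h]), L.comp (ContinuousLinearMap.inl ℝ E F), ?_, ?_⟩
      · rw [h4, h4, h2]
      · intro a ha1 ha2
        rw [h4, h4]
        exact h3 _ (fun h => ha1 (Sum.inl.inj h)) (fun h => ha2 (Sum.inl.inj h))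
    · rintro ⟨h1, l, h2, h3⟩
      have hpos := pos_edge hι hp0 h2 h3
      refine ⟨fun h => h1 (Sum.inl.inj h), l.coprod 0, ?_, ?_⟩
      · rw [coprod_inl, coprod_inl, h2]
      · rintro (a | a) ha1 ha2
        · rw [coprod_inl, coprod_inl]
          exact h3 a (fun h => ha1 (by rw [h])) (fun h => ha2 (by rw [h]))
        · rw [coprod_inl, coprod_inr]
          simpa using hpos
  · exact ⟨fun _ => trivial, fun _ => hir i k'⟩
  · exact ⟨fun _ => trivial, fun _ => (hir j k).symm⟩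
  · change _ ↔ k ≠ k'
    constructor
    · rintro ⟨h1, _⟩ h
      exact h1 (by rw [h])
    · intro h
      have h1 := hcomp k k' h
      rw [adj_iff hq] at h1
      obtain ⟨h1, l, h2, h3⟩ := h1
      have hpos := pos_edge hκ hq0 h2 h3
      rw [adj_iff hu]
      refine ⟨fun h => h1 (Sum.inr.inj h), ContinuousLinearMap.coprod 0 l, ?_, ?_⟩
      · rw [coprod_inr, coprod_inr, h2]
      · rintro (a | a) ha1 ha2
        · rw [coprod_inl, coprod_inr]
          simpa using hpos
        · rw [coprod_inr, coprod_inr]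
          exact h3 a (fun h => ha1 (by rw [h])) (fun h => ha2 (by rw [h]))

omit [FiniteDimensional ℝ E] [FiniteDimensional ℝ F] [Fintype κ] in
lemma vectorSpan_eq_span [Nonempty ι] {p : ι → E} (h0 : ∑ i, p i = 0) :
    vectorSpan ℝ (range p) = Submodule.span ℝ (range p) := by
  apply le_antisymm
  · rw [vectorSpan_def, Submodule.span_le]
    rintro _ ⟨_, ⟨i, rfl⟩, _, ⟨j, rfl⟩, rfl⟩
    exact Submodule.sub_mem _ (Submodule.subset_span ⟨i, rfl⟩) (Submodule.subset_span ⟨j, rfl⟩)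
  · rw [Submodule.span_le]
    rintro _ ⟨i, rfl⟩
    have h1 : p i = (Fintype.card ι : ℝ)⁻¹ • ∑ j, (p i - p j) := by
      rw [Finset.sum_sub_distrib, h0, sub_zero, Finset.sum_const, Finset.card_univ,
        ← Nat.cast_smul_eq_nsmul ℝ, smul_smul, inv_mul_cancel₀, one_smul]
      exact Nat.cast_ne_zero.2 Fintype.card_ne_zero
    rw [h1]
    exact Submodule.smul_mem _ _ (Submodule.sum_mem _ fun j _ =>
      vsub_mem_vectorSpan ℝ ⟨i, rfl⟩ ⟨j, rfl⟩)

lemma finrank_prod_submodule (A : Submodule ℝ E) (B : Submodule ℝ F) :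
    finrank ℝ (A.prod B) = finrank ℝ A + finrank ℝ B := by
  have h1 : A.prod B = LinearMap.range (A.subtype.prodMap B.subtype) := by
    rw [LinearMap.range_prodMap, Submodule.range_subtype, Submodule.range_subtype]
  rw [h1, LinearMap.finrank_range_of_inj, finrank_prod]
  rintro ⟨a, b⟩ ⟨c, d⟩ h
  simpa [Prod.ext_iff] using h

theorem dim_freeSum [Nonempty ι] [Nonempty κ] {p : ι → E} {q : κ → F}
    (hp0 : ∑ i, p i = 0) (hq0 : ∑ k, q k = 0) : dim (freeSum p q) = dim p + dim q := by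
  have hu0 : ∑ x, freeSum p q x = 0 := by
    rw [Fintype.sum_sum_type]
    have h1 : ∑ i, freeSum p q (Sum.inl i) = 0 := by
      have : ∀ i, freeSum p q (Sum.inl i) = LinearMap.inl ℝ E F (p i) := fun i => rfl
      simp only [this]
      rw [← map_sum, hp0, map_zero]
    have h2 : ∑ i, freeSum p q (Sum.inr i) = 0 := by
      have : ∀ i, freeSum p q (Sum.inr i) = LinearMap.inr ℝ E F (q i) := fun i => rfl
      simp only [this]
      rw [← map_sum, hq0, map_zero]
    rw [h1, h2, add_zero]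
  have hset : range (freeSum p q) =
      (LinearMap.inl ℝ E F '' range p) ∪ (LinearMap.inr ℝ E F '' range q) := by
    ext x
    constructor
    · rintro ⟨i | k, rfl⟩
      · exact Or.inl ⟨p i, ⟨i, rfl⟩, rfl⟩
      · exact Or.inr ⟨q k, ⟨k, rfl⟩, rfl⟩
    · rintro (⟨_, ⟨i, rfl⟩, rfl⟩ | ⟨_, ⟨k, rfl⟩, rfl⟩)
      · exact ⟨Sum.inl i, rfl⟩
      · exact ⟨Sum.inr k, rfl⟩
  unfold dim
  rw [vectorSpan_eq_span hp0, vectorSpan_eq_span hq0, vectorSpan_eq_span hu0,
    ← finrank_prod_submodule, ← LinearMap.span_inl_union_inr, hset]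

end Pool.Agent.V1145.DA
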