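import Pool.Agent.V1145.DA3

/-! # Centring, transport, the simplex, and the existence of pyramids -/

set_option autoImplicit false

namespace Pool.Agent.V1145.DA

open Set Module

variable {E F : Type*} [NormedAddCommGroup E] [NormedSpace ℝ E] [NormedAddCommGroup F]
  [NormedSpace ℝ F] {ι κ : Type*} [FiniteDimensional ℝ E] [FiniteDimensional ℝ F]

section transport

variable [Fintype ι]

lemma indep_translate {v : ι → E} (hv : ConvexIndependent ℝ v) (g : E) :
    ConvexIndependent ℝ (fun i => v i - g) := by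
  apply convexIndependent_of_strict
  intro i
  obtain ⟨l, hl⟩ := exists_strict hv i
  refine ⟨l, fun k hk => ?_⟩
  rw [map_sub, map_sub]
  linarith [hl k hk]

lemma skeleton_translate {v : ι → E} (hv : ConvexIndependent ℝ v) (g : E) :
    skeleton (fun i => v i - g) = skeleton v := by
  ext i j
  rw [adj_iff hv, adj_iff (indep_translate hv g)]
  simp only [map_sub, sub_left_inj, sub_lt_sub_iff_right]

omit [FiniteDimensional ℝ E] [Fintype ι] in
lemma dim_translate [Nonempty ι] (v : ι → E) (g : E) : dim (fun i => v i - g) = dim v := by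
  obtain ⟨i0⟩ := ‹Nonempty ι›
  unfold dim
  rw [vectorSpan_range_eq_span_range_vsub_right ℝ (fun i => v i - g) i0,
    vectorSpan_range_eq_span_range_vsub_right ℝ v i0]
  have h : (range fun i => (v i - g) -ᵥ (v i0 - g)) = range fun i => v i -ᵥ v i0 := by
    congr 1
    ext i
    simp only [vsub_eq_sub]
    abel
  rw [h]

omit [FiniteDimensional ℝ F] in
lemma indep_equiv {v : ι → E} (hv : ConvexIndependent ℝ v) (φ : E ≃L[ℝ] F) :
    ConvexIndependent ℝ (fun i => φ (v i)) := by
  apply convexIndependent_of_strict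
  intro i
  obtain ⟨l, hl⟩ := exists_strict hv i
  refine ⟨l.comp (φ.symm : F →L[ℝ] E), fun k hk => ?_⟩
  simpa using hl k hk

lemma skeleton_equiv {v : ι → E} (hv : ConvexIndependent ℝ v) (φ : E ≃L[ℝ] F) :
    skeleton (fun i => φ (v i)) = skeleton v := by
  ext i j
  rw [adj_iff hv, adj_iff (indep_equiv hv φ)]
  constructor
  · rintro ⟨h1, l, h2, h3⟩
    exact ⟨h1, l.comp (φ : E →L[ℝ] F), by simpa using h2, fun k hk hk' => by
      simpa using h3 k hk hk'⟩
  · rintro ⟨h1, l, h2, h3⟩
    exact ⟨h1, l.comp (φ.symm : F →L[ℝ] E), by simpa using h2, fun k hk hk' => by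
      simpa using h3 k hk hk'⟩

omit [FiniteDimensional ℝ E] [FiniteDimensional ℝ F] [Fintype ι] in
lemma dim_equiv [Nonempty ι] (v : ι → E) (φ : E ≃L[ℝ] F) : dim (fun i => φ (v i)) = dim v := by
  obtain ⟨i0⟩ := ‹Nonempty ι›
  unfold dim
  rw [vectorSpan_range_eq_span_range_vsub_right ℝ (fun i => φ (v i)) i0,
    vectorSpan_range_eq_span_range_vsub_right ℝ v i0]
  have h1 : (range fun i => φ (v i) -ᵥ φ (v i0)) =
      (φ.toLinearEquiv : E →ₗ[ℝ] F) '' (range fun i => v i -ᵥ v i0) := by
    rw [← range_comp]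
    congr 1
    ext i
    simp
  rw [h1, Submodule.span_image]
  exact LinearEquiv.finrank_map_eq φ.toLinearEquiv _

end transport

/-- the vertices of a centred simplex -/
noncomputable def simp (m : ℕ) (k : Fin m) : EuclideanSpace ℝ (Fin m) :=
  WithLp.toLp 2 (fun j => (if j = k then 1 else 0) - (m : ℝ)⁻¹)

lemma simp_apply (m : ℕ) (k j : Fin m) : simp m k j = (if j = k then 1 else 0) - (m : ℝ)⁻¹ := rfl

lemma simp_sum (m : ℕ) (hm : m ≠ 0) : ∑ k, simp m k = 0 := by
  ext j
  have h1 : (∑ k, simp m k) j = ∑ k, simp m k j := by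
    simp
  rw [h1]
  simp only [simp_apply, Finset.sum_sub_distrib, Finset.sum_ite_eq, Finset.mem_univ, if_true,
    Finset.sum_const, Finset.card_univ, Fintype.card_fin, nsmul_eq_mul]
  rw [mul_inv_cancel₀ (Nat.cast_ne_zero.2 hm)]
  simp

lemma simp_indep (m : ℕ) : ConvexIndependent ℝ (simp m) := by
  apply convexIndependent_of_strict
  intro i
  refine ⟨EuclideanSpace.proj i, fun k hk => ?_⟩
  change simp m k i < simp m i i
  rw [simp_apply, simp_apply, if_pos rfl, if_neg (Ne.symm hk)]
  linarith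

lemma simp_adj (m : ℕ) (k k' : Fin m) (h : k ≠ k') : (skeleton (simp m)).Adj k k' := by
  rw [adj_iff (simp_indep m)]
  have hev : ∀ x : EuclideanSpace ℝ (Fin m),
      (EuclideanSpace.proj k + EuclideanSpace.proj k' : EuclideanSpace ℝ (Fin m) →L[ℝ] ℝ) x =
        x k + x k' := fun x => rfl
  refine ⟨h, EuclideanSpace.proj k + EuclideanSpace.proj k', ?_, fun j hj hj' => ?_⟩
  · rw [hev, hev]
    simp only [simp_apply, if_true, if_neg h, if_neg (Ne.symm h)]
    ring
  · rw [hev, hev]
    simp only [simp_apply, if_true, if_neg (Ne.symm h), if_neg (Ne.symm hj), if_neg (Ne.symm hj')]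
    linarith

lemma simp_affine (m : ℕ) : AffineIndependent ℝ (simp m) := by
  rw [affineIndependent_iff]
  intro s w hw0 hw1 e he
  have h1 : (∑ k ∈ s, w k • simp m k) e = 0 := by rw [hw1]; rfl
  have h2 : (∑ k ∈ s, w k • simp m k) e = ∑ k ∈ s, w k * simp m k e := by
    simp
  rw [h2] at h1
  simp only [simp_apply, mul_sub, mul_ite, mul_one, mul_zero, Finset.sum_sub_distrib,
    Finset.sum_ite_eq, if_pos he] at h1
  rw [← Finset.sum_mul, hw0, zero_mul, sub_zero] at h1
  exact h1

lemma simp_dim (m : ℕ) (hm : m ≠ 0) : dim (simp m) + 1 = m := by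
  obtain ⟨n, rfl⟩ := Nat.exists_eq_succ_of_ne_zero hm
  have := (simp_affine (n + 1)).finrank_vectorSpan (n := n) (by simp)
  unfold dim
  rw [this]

/-- in a space of large enough dimension there are pyramids over every polytope -/
theorem exists_pyramid [Nonempty ι] {v : ι → E} : ∀ m : ℕ, dim v + m ≤ finrank ℝ E →
    ∃ w : ι ⊕ Fin m → E, IsPyramid v w := by
  intro m
  induction m with
  | zero => exact fun _ => ⟨Sum.elim v (fun k => k.elim0), fun i => rfl, fun k => k.elim0⟩
  | succ m ih =>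
    intro h
    obtain ⟨w, hw⟩ := ih (by omega)
    have hne : affineSpan ℝ (range w) ≠ ⊤ := by
      intro htop
      have h1 := dim_pyramid hw
      unfold dim at h1
      rw [← direction_affineSpan, htop, AffineSubspace.direction_top, finrank_top] at h1
      unfold dim at h
      omega
    obtain ⟨x, hx⟩ : ∃ x, x ∉ affineSpan ℝ (range w) := by
      by_contra hcon
      push Not at hcon
      exact hne (eq_top_iff.2 fun x _ => hcon x)
    refine ⟨Sum.elim v (Fin.snoc (fun k => w (Sum.inr k)) x : Fin (m + 1) → E),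
      fun i => rfl, fun k => ?_⟩
    refine Fin.lastCases ?_ (fun k => ?_) k
    · simp only [Sum.elim_inr, Fin.snoc_last]
      refine fun hmem => hx (affineSpan_mono ℝ ?_ hmem)
      rintro y (⟨i, rfl⟩ | ⟨j, hj, rfl⟩)
      · exact ⟨Sum.inl i, hw.1 i⟩
      · obtain ⟨j', rfl⟩ := Fin.eq_castSucc_of_ne_last hj.ne
        exact ⟨Sum.inr j', by simp⟩
    · simp only [Sum.elim_inr, Fin.snoc_castSucc]
      refine fun hmem => hw.2 k (affineSpan_mono ℝ ?_ hmem)
      rintro y (⟨i, rfl⟩ | ⟨j, hj, rfl⟩)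
      · exact Or.inl ⟨i, rfl⟩
      · have hj' : j ≠ Fin.last m := by
          rintro rfl
          exact absurd hj (not_lt.2 (Fin.le_last _))
        obtain ⟨j', rfl⟩ := Fin.eq_castSucc_of_ne_last hj'
        exact Or.inr ⟨j', Fin.castSucc_lt_castSucc_iff.1 hj, by simp⟩

end Pool.Agent.V1145.DA
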