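import Pool.Agent.TH215.TM.AsmMM

/-!
Koszul type lemmas for the linear forms `x - a`, `y - b`, `z - c` on flat modules over
`ℂ[x, y, z]`.
-/

set_option autoImplicit false

open Pool.Agent.TH215.TM MvPolynomial

namespace Pool.Agent.V1145.NC

theorem sub_aeval_mem (f : Fin 3 → S3) (I : Ideal S3) (h : ∀ k, X k - f k ∈ I) (p : S3) :
    p - aeval f p ∈ I := by
  induction p using MvPolynomial.induction_on with
  | C a => simp
  | add p q hp hq =>
    have : p + q - aeval f (p + q) = (p - aeval f p) + (q - aeval f q) := by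
      rw [map_add]; ring
    rw [this]
    exact I.add_mem hp hq
  | mul_X p i hp =>
    have : p * X i - aeval f (p * X i) = (p - aeval f p) * X i + aeval f p * (X i - f i) := by
      rw [map_mul, aeval_X]; ring
    rw [this]
    exact I.add_mem (I.mul_mem_right _ hp) (I.mul_mem_left _ (h i))

/-- the linear form `x_i - a` -/
noncomputable def lin (i : Fin 3) (a : ℂ) : S3 := X i - C a

theorem lin_ne_zero (i : Fin 3) (a : ℂ) : lin i a ≠ 0 := by
  intro h
  have h1 := congrArg (aeval (fun _ => C (a + 1) : Fin 3 → S3)) h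
  simp [lin] at h1

theorem reg2 {a b : ℂ} {p : S3} (h : ∃ r : S3, lin 1 b * p = lin 0 a * r) :
    ∃ r : S3, p = lin 0 a * r := by
  obtain ⟨r, hr⟩ := h
  let f : Fin 3 → S3 := ![C a, X 1, X 2]
  have h0 : aeval f (lin 0 a) = 0 := by simp [lin, f]
  have h1 : aeval f (lin 1 b) = lin 1 b := by simp [lin, f]
  have h2 := congrArg (aeval f) hr
  rw [map_mul, map_mul, h0, h1, zero_mul] at h2
  have h3 : aeval f p = 0 := (mul_eq_zero.1 h2).resolve_left (lin_ne_zero _ _)
  have h4 := sub_aeval_mem f (Ideal.span {lin 0 a}) (fun k => by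
    fin_cases k
    · exact Ideal.subset_span rfl
    · simp [f]
    · simp [f]) p
  rw [h3, sub_zero, Ideal.mem_span_singleton] at h4
  obtain ⟨c, hc⟩ := h4
  exact ⟨c, hc⟩

theorem reg3 {a b c : ℂ} {p : S3} (h : ∃ r s : S3, lin 2 c * p = lin 0 a * r + lin 1 b * s) :
    ∃ r s : S3, p = lin 0 a * r + lin 1 b * s := by
  obtain ⟨r, s, hr⟩ := h
  let f : Fin 3 → S3 := ![C a, C b, X 2]
  have h0 : aeval f (lin 0 a) = 0 := by simp [lin, f]
  have h1 : aeval f (lin 1 b) = 0 := by simp [lin, f]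
  have h1' : aeval f (lin 2 c) = lin 2 c := by simp [lin, f]
  have h2 := congrArg (aeval f) hr
  rw [map_mul, map_add, map_mul, map_mul, h0, h1, h1', zero_mul, zero_mul, add_zero] at h2
  have h3 : aeval f p = 0 := (mul_eq_zero.1 h2).resolve_left (lin_ne_zero _ _)
  have h4 := sub_aeval_mem f (Ideal.span {lin 0 a, lin 1 b}) (fun k => by
    fin_cases k
    · exact Ideal.subset_span (by simp [f, lin])
    · exact Ideal.subset_span (by simp [f, lin])
    · simp [f]) p
  rw [h3, sub_zero, Ideal.mem_span_pair] at h4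
  obtain ⟨u, v, huv⟩ := h4
  exact ⟨u, v, by rw [← huv]; ring⟩

theorem flat_koszul3 {K : Type} [AddCommGroup K] [Module S3 K] [Module.Flat S3 K] {a b c : ℂ}
    (c01 c02 c12 : K) (h : lin 2 c • c01 + (-lin 1 b) • c02 + lin 0 a • c12 = 0) :
    ∃ k0 k1 : K, c01 = lin 1 b • k0 - lin 0 a • k1 := by
  have h1 : ∑ i, (![lin 2 c, -lin 1 b, lin 0 a] : Fin 3 → S3) i •
      (![c01, c02, c12] : Fin 3 → K) i = 0 := by
    rw [Fin.sum_univ_three]
    exact h
  obtain ⟨k, t, y, h2, h3⟩ := Module.Flat.isTrivialRelation_of_sum_smul_eq_zero h1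
  have h4 : ∀ j, ∃ r s : S3, t 0 j = lin 0 a * r + lin 1 b * s := by
    intro j
    apply reg3 (c := c)
    have h5 := h3 j
    rw [Fin.sum_univ_three] at h5
    simp only [Matrix.cons_val_zero, Matrix.cons_val_one, Matrix.cons_val] at h5
    exact ⟨-t 2 j, t 1 j, by linear_combination h5⟩
  choose r s hrs using h4
  refine ⟨∑ j, s j • y j, -∑ j, r j • y j, ?_⟩
  have h6 := h2 0
  simp only [Matrix.cons_val_zero] at h6
  rw [h6, smul_neg, sub_neg_eq_add, Finset.smul_sum, Finset.smul_sum, ← Finset.sum_add_distrib]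
  refine Finset.sum_congr rfl fun j _ => ?_
  rw [hrs j, smul_smul, smul_smul, ← add_smul, add_comm]

theorem flat_koszul2 {K : Type} [AddCommGroup K] [Module S3 K] [Module.Flat S3 K] {a b : ℂ}
    (b0 b1 : K) (h : lin 1 b • b0 = lin 0 a • b1) :
    ∃ z : K, b0 = lin 0 a • z := by
  have h1 : ∑ i, (![lin 1 b, -lin 0 a] : Fin 2 → S3) i • (![b0, b1] : Fin 2 → K) i = 0 := by
    rw [Fin.sum_univ_two]
    simp only [Matrix.cons_val_zero, Matrix.cons_val_one, neg_smul]
    rw [h, add_neg_cancel]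
  obtain ⟨k, t, y, h2, h3⟩ := Module.Flat.isTrivialRelation_of_sum_smul_eq_zero h1
  have h4 : ∀ j, ∃ r : S3, t 0 j = lin 0 a * r := by
    intro j
    apply reg2 (b := b)
    have h5 := h3 j
    rw [Fin.sum_univ_two] at h5
    simp only [Matrix.cons_val_zero, Matrix.cons_val_one] at h5
    exact ⟨t 1 j, by linear_combination h5⟩
  choose r hr using h4
  refine ⟨∑ j, r j • y j, ?_⟩
  have h6 := h2 0
  simp only [Matrix.cons_val_zero] at h6
  rw [h6, Finset.smul_sum]
  refine Finset.sum_congr rfl fun j _ => ?_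
  rw [hr j, smul_smul]

theorem flat_nzd {K : Type} [AddCommGroup K] [Module S3 K] [Module.Flat S3 K] {s : S3}
    (hs : s ≠ 0) (b0 : K) (h : s • b0 = 0) : b0 = 0 := by
  have h1 : ∑ i, (![s] : Fin 1 → S3) i • (![b0] : Fin 1 → K) i = 0 := by
    rw [Fin.sum_univ_one]
    exact h
  obtain ⟨k, t, y, h2, h3⟩ := Module.Flat.isTrivialRelation_of_sum_smul_eq_zero h1
  have h6 := h2 0
  simp only [Matrix.cons_val_fin_one] at h6
  rw [h6]
  refine Finset.sum_eq_zero fun j _ => ?_
  have h5 := h3 j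
  rw [Fin.sum_univ_one] at h5
  simp only [Matrix.cons_val_fin_one] at h5
  rw [(mul_eq_zero.1 h5).resolve_left hs, zero_smul]

/-- If `p(x_j) h ∈ T` for a nonzero polynomial `p` in one variable and `h ∉ T`, then a multiple
`h'` of `h` outside of `T` satisfies `(x_j - a) h' ∈ T`. -/
theorem exists_eigen {M : Type} [AddCommGroup M] [Module S3 M] (T : Submodule S3 M) (j : Fin 3) :
    ∀ (d : ℕ) (p : Polynomial ℂ), p ≠ 0 → p.natDegree = d → ∀ h : M, h ∉ T →
      (Polynomial.aeval (X j : S3) p) • h ∈ T →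
      ∃ (a : ℂ) (q : S3), q • h ∉ T ∧ lin j a • (q • h) ∈ T := by
  intro d
  induction d with
  | zero =>
    intro p hp hd h hh hph
    exfalso
    rw [Polynomial.natDegree_eq_zero] at hd
    obtain ⟨c, rfl⟩ := hd
    have hc : c ≠ 0 := fun h0 => hp (by rw [h0, map_zero])
    rw [Polynomial.aeval_C] at hph
    apply hh
    have h1 := T.smul_mem (algebraMap ℂ S3 c⁻¹) hph
    rw [smul_smul, ← map_mul, inv_mul_cancel₀ hc, map_one, one_smul] at h1
    exact h1
  | succ d ih =>
    intro p hp hd h hh hph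
    obtain ⟨a, ha⟩ := IsAlgClosed.exists_root p (by
      rw [Polynomial.degree_eq_natDegree hp, hd]
      exact_mod_cast Nat.succ_ne_zero d)
    obtain ⟨p', hp'⟩ := Polynomial.dvd_iff_isRoot.2 ha
    have hp0 : p' ≠ 0 := fun h0 => hp (by rw [hp', h0, mul_zero])
    have hdeg : p'.natDegree = d := by
      have := congrArg Polynomial.natDegree hp'
      rw [Polynomial.natDegree_mul (Polynomial.X_sub_C_ne_zero a) hp0,
        Polynomial.natDegree_X_sub_C, hd] at this
      omega
    by_cases hq : (Polynomial.aeval (X j : S3) p') • h ∈ T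
    · exact ih p' hp0 hdeg h hh hq
    · refine ⟨a, _, hq, ?_⟩
      rw [smul_smul]
      have : lin j a * Polynomial.aeval (X j : S3) p' = Polynomial.aeval (X j : S3) p := by
        rw [hp', map_mul]
        simp [lin]
      rw [this]
      exact hph

end Pool.Agent.V1145.NC
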