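import Pool.Agent.V1145.NC1

/-!
A second syzygy over `ℂ[x, y, z]` becomes projective after inverting a nonzero polynomial in one
of the variables.
-/

set_option autoImplicit false

open Pool.Agent.TH215.TM Pool.Agent.W506.Hilb

namespace Pool.Agent.V1145.NC

open Polynomial in
/-- The nonzero polynomials in the variable `x_j`. -/
noncomputable def Wj (j : Fin 3) : Submonoid S3 :=
  (nonZeroDivisors ℂ[X]).map (Polynomial.aeval (MvPolynomial.X j : S3)).toRingHom

open Polynomial in
/-- the isomorphism `ℂ[x, y, z] = ℂ[x_j][u, v]` -/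
noncomputable def eqv (j : Fin 3) : S3 ≃+* MvPolynomial (Fin 2) ℂ[X] :=
  ((MvPolynomial.renameEquiv ℂ (finSuccEquiv' j)).trans
    (MvPolynomial.optionEquivRight ℂ (Fin 2))).toRingEquiv

open Polynomial in
theorem eqv_aeval (j : Fin 3) (p : ℂ[X]) :
    eqv j (Polynomial.aeval (MvPolynomial.X j : S3) p) = MvPolynomial.C p := by
  have h1 : (((MvPolynomial.renameEquiv ℂ (finSuccEquiv' j)).trans
    (MvPolynomial.optionEquivRight ℂ (Fin 2))).toAlgHom.comp
      (Polynomial.aeval (MvPolynomial.X j : S3))) =
      (IsScalarTower.toAlgHom ℂ ℂ[X] (MvPolynomial (Fin 2) ℂ[X])) := by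
    apply Polynomial.algHom_ext
    simp [MvPolynomial.algebraMap_eq]
  exact DFunLike.congr_fun h1 p

attribute [local instance] MvPolynomial.algebraMvPolynomial

open Polynomial in
/-- the localization of `ℂ[x, y, z]` in the nonzero polynomials in `x_j` -/
noncomputable def eqvLoc (j : Fin 3) :
    Localization (Wj j) ≃+* MvPolynomial (Fin 2) (FractionRing ℂ[X]) :=
  IsLocalization.ringEquivOfRingEquiv (M := Wj j)
    (T := (nonZeroDivisors ℂ[X]).map (MvPolynomial.C (σ := Fin 2)))
    (Localization (Wj j)) (MvPolynomial (Fin 2) (FractionRing ℂ[X])) (eqv j) (by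
      ext x
      constructor
      · rintro ⟨_, ⟨p, hp, rfl⟩, rfl⟩
        exact ⟨p, hp, (eqv_aeval j p).symm⟩
      · rintro ⟨p, hp, rfl⟩
        exact ⟨_, ⟨p, hp, rfl⟩, eqv_aeval j p⟩)

theorem gl_loc (j : Fin 3) (M : Type) [AddCommGroup M] [Module (Localization (Wj j)) M] :
    PdLT (Localization (Wj j)) M 3 := by
  let e := eqvLoc j
  let _ : Module (MvPolynomial (Fin 2) (FractionRing (Polynomial ℂ))) M :=
    Module.compHom M e.symm.toRingHom
  have h : PdLT (MvPolynomial (Fin 2) (FractionRing (Polynomial ℂ))) M 3 :=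
    hilbert_syzygy (FractionRing (Polynomial ℂ)) 2 M
  exact pdLT_of_ringEquiv e.symm M M (AddEquiv.refl M) (fun r m => rfl) h

/-- A kernel of a map of projective modules over a ring of global dimension at most `d + 2` has
projective dimension at most `d`. -/
theorem pdLT_kernel {A : Type} [CommRing A] (d : ℕ)
    (hgl : ∀ (M : Type) [AddCommGroup M] [Module A M], PdLT A M (d + 3))
    {L F1 F2 : Type} [AddCommGroup L] [AddCommGroup F1] [AddCommGroup F2] [Module A L]
    [Module A F1] [Module A F2] [Module.Projective A F1] [Module.Projective A F2]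
    (i : L →ₗ[A] F1) (δ : F1 →ₗ[A] F2) (hi : Function.Injective i) (hex : Function.Exact i δ) :
    PdLT A L (d + 1) := by
  have h1 : PdLT A (LinearMap.range δ) (d + 2) :=
    pdLT_left (LinearMap.range δ).subtype (LinearMap.range δ).mkQ
      (Submodule.injective_subtype _) (Submodule.mkQ_surjective _)
      (LinearMap.exact_subtype_mkQ _) (pdLT_mono (by omega)
        (pdLT_one_of_projective inferInstance)) (hgl _)
  refine pdLT_left i δ.rangeRestrict hi δ.surjective_rangeRestrict ?_
    (pdLT_mono (by omega) (pdLT_one_of_projective inferInstance)) h1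
  intro x
  rw [← hex x]
  exact Subtype.ext_iff

theorem generic (j : Fin 3) {L F1 F2 : Type} [AddCommGroup L] [AddCommGroup F1]
    [AddCommGroup F2] [Module S3 L] [Module S3 F1] [Module S3 F2] [Module.Projective S3 F1]
    [Module.Projective S3 F2] [Module.Finite S3 L]
    (i : L →ₗ[S3] F1) (δ : F1 →ₗ[S3] F2) (hi : Function.Injective i)
    (hex : Function.Exact i δ) :
    ∃ p : Polynomial ℂ, p ≠ 0 ∧ ∃ (n : ℕ) (α : L →ₗ[S3] (Fin n → S3))
      (β : (Fin n → S3) →ₗ[S3] L), ∀ v, β (α v) = Polynomial.aeval (MvPolynomial.X j : S3) p • v := by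
  set W := Wj j with hW
  have hpL : Module.Projective (Localization W) (LocalizedModule W L) := by
    apply projective_of_pdLT_one
    refine pdLT_kernel 0 (fun M _ _ => gl_loc j M) (LocalizedModule.map W i)
      (LocalizedModule.map W δ) (LocalizedModule.map_injective W i hi) ?_
    exact LocalizedModule.map_exact W i δ hex
  obtain ⟨n, π, hπ⟩ := Module.Finite.exists_fin' S3 L
  obtain ⟨σ, hσ⟩ := Module.projective_lifting_property (LocalizedModule.map W π) LinearMap.id
    (LocalizedModule.map_surjective W π hπ)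
  have hfp : Module.FinitePresentation S3 L := Module.finitePresentation_of_finite S3 L
  let g : L →ₗ[S3] LocalizedModule W (Fin n → S3) :=
    (σ.restrictScalars S3) ∘ₗ LocalizedModule.mkLinearMap W L
  obtain ⟨h, s, hs⟩ := Module.FinitePresentation.exists_lift_of_isLocalizedModule W
    (LocalizedModule.mkLinearMap W (Fin n → S3)) g
  obtain ⟨p, hp, hps⟩ := s.2
  have hp0 : p ≠ 0 := nonZeroDivisors.ne_zero hp
  have htf : ∀ (t : W) (v : L), (t : S3) • v = 0 → v = 0 := by
    intro t v htv
    obtain ⟨q, hq, hqt⟩ := t.2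
    have hq0 : q ≠ 0 := nonZeroDivisors.ne_zero hq
    apply hi
    rw [map_zero]
    refine flat_nzd (s := (t : S3)) ?_ (i v) (by rw [← map_smul, htv, map_zero])
    rw [← hqt]
    intro h0
    apply hq0
    have h1 := congrArg (eqv j) h0
    rw [map_zero] at h1
    have h2 : MvPolynomial.C (σ := Fin 2) q = 0 := (eqv_aeval j q).symm.trans h1
    exact (MvPolynomial.C_eq_zero).1 h2
  refine ⟨p, hp0, n, h, π, fun v => ?_⟩
  have h1 : LocalizedModule.mkLinearMap W L (π (h v)) = (s : S3) • LocalizedModule.mkLinearMap W L v := by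
    have h2 : LocalizedModule.mkLinearMap W (Fin n → S3) (h v) = s • σ (LocalizedModule.mkLinearMap W L v) :=
      LinearMap.congr_fun hs v
    have h3 : LocalizedModule.map W π (LocalizedModule.mkLinearMap W (Fin n → S3) (h v)) =
        LocalizedModule.mkLinearMap W L (π (h v)) := by
      simp [LocalizedModule.mkLinearMap_apply]
    rw [← h3, h2]
    have h4 : LocalizedModule.map W π (s • σ (LocalizedModule.mkLinearMap W L v)) =
        s • LocalizedModule.map W π (σ (LocalizedModule.mkLinearMap W L v)) :=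
      ((LocalizedModule.map W π).restrictScalars S3).map_smul (s : S3) _
    rw [h4]
    have h5 : LocalizedModule.map W π (σ (LocalizedModule.mkLinearMap W L v)) =
      LocalizedModule.mkLinearMap W L v := LinearMap.congr_fun hσ _
    rw [h5]
    rfl
  rw [← map_smul] at h1
  obtain ⟨t, ht⟩ := IsLocalizedModule.exists_of_eq (S := W)
    (f := LocalizedModule.mkLinearMap W L) h1
  have h6 : (t : S3) • (π (h v) - (s : S3) • v) = 0 := by
    rw [smul_sub]
    exact sub_eq_zero.2 ht
  have h7 := sub_eq_zero.1 (htf t _ h6)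
  rw [h7, ← hps]
  rfl

end Pool.Agent.V1145.NC
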