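import Pool.Agent.V1145.NC2

/-!
A multiple `p(x_j) id` of the identity of a second syzygy over `R` factors through a free module.
-/

set_option autoImplicit false

open Pool.Agent.TH215.TM Pool.Agent.W506.Hilb

namespace Pool.Agent.V1145.NC

section tolin

variable {L L' : Type} [AddCommGroup L] [Module RR L] [Module S3 L] [IsScalarTower S3 RR L]
  [AddCommGroup L'] [Module RR L'] [Module S3 L'] [IsScalarTower S3 RR L']

/-- an `S`-linear map commuting with `w` is `R`-linear -/
noncomputable def toR (f : L →ₗ[S3] L') (hf : ∀ v, f (wR • v) = wR • f v) : L →ₗ[RR] L' where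
  toFun := f
  map_add' := f.map_add
  map_smul' := by
    intro r v
    simp only [RingHom.id_apply]
    induction r using AdjoinRoot.induction_on with
    | ih p =>
      induction p using Polynomial.induction_on generalizing v with
      | C a =>
        have e : (AdjoinRoot.mk (Polynomial.X ^ 4 + Polynomial.C g3) (Polynomial.C a) : RR) =
          algebraMap S3 RR a := rfl
        rw [e, algebraMap_smul, algebraMap_smul, map_smul]
      | add p q hp hq =>
        rw [map_add, add_smul, add_smul, map_add, hp, hq]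
      | monomial n a ih =>
        have e : (AdjoinRoot.mk (Polynomial.X ^ 4 + Polynomial.C g3)
            (Polynomial.C a * Polynomial.X ^ (n + 1)) : RR) =
            (AdjoinRoot.mk (Polynomial.X ^ 4 + Polynomial.C g3)
            (Polynomial.C a * Polynomial.X ^ n) : RR) * wR := by
          rw [pow_succ (Polynomial.X : Polynomial S3) n, ← mul_assoc, map_mul]
          rfl
        rw [e, mul_smul, mul_smul, ih, hf]

@[simp] theorem toR_apply (f : L →ₗ[S3] L') (hf : ∀ v, f (wR • v) = wR • f v) (v : L) :
    toR f hf v = f v := rfl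

end tolin

open MvPolynomial in
theorem genericR (j : Fin 3) {L F1 F2 : Type} [AddCommGroup L] [AddCommGroup F1]
    [AddCommGroup F2] [Module RR L] [Module RR F1] [Module RR F2] [Module S3 L] [Module S3 F1]
    [Module S3 F2] [IsScalarTower S3 RR L] [IsScalarTower S3 RR F1] [IsScalarTower S3 RR F2]
    [Module.Projective S3 F1] [Module.Projective S3 F2] [Module.Finite S3 L]
    (i : L →ₗ[RR] F1) (δ : F1 →ₗ[RR] F2) (hi : Function.Injective i)
    (hex : Function.Exact i δ) :
    ∃ p : Polynomial ℂ, p ≠ 0 ∧ ∃ (n : ℕ) (α : L →ₗ[RR] (Fin n → RR))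
      (β : (Fin n → RR) →ₗ[RR] L), ∀ v, β (α v) = Polynomial.aeval (X j : S3) p • v := by
  obtain ⟨p, hp, n, α, β, hβα⟩ := generic j (i.restrictScalars S3) (δ.restrictScalars S3) hi hex
  set P : S3 := Polynomial.aeval (X j : S3) p with hP
  set D : Derivation ℂ S3 S3 := pderiv j with hD
  let N : L →+ L :=
    { toFun := fun v => β (fun k => D (α v k))
      map_zero' := by
        have : (fun k : Fin n => D ((α (0 : L)) k)) = 0 := by
          funext k
          simp
        rw [this, map_zero]
      map_add' := by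
        intro v v'
        have : (fun k : Fin n => D (α (v + v') k)) = (fun k => D (α v k)) +
            (fun k => D (α v' k)) := by
          funext k
          simp
        rw [this, map_add] }
  have hN : ∀ (s : S3) (v : L), N (s • v) = (P * D s) • v + s • N v := by
    intro s v
    have : (fun k : Fin n => D (α (s • v) k)) = D s • α v + s • (fun k => D (α v k)) := by
      funext k
      simp only [map_smul, Pi.smul_apply, Pi.add_apply, smul_eq_mul, Derivation.leibniz]
      ring
    change β (fun k : Fin n => D (α (s • v) k)) = _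
    rw [this, map_add, map_smul, map_smul, hβα, smul_smul, mul_comm (D s)]
    rfl
  set φ := phiN L with hφ
  set c0 := Pool.Agent.TH350.Conn.comm (fun s => P * D s) N hN φ with hc0
  have htr := Pool.Agent.TH350.Conn.comm_trace (fun s => P * D s) N hN φ 4 g3 (phiN_pow_four L)
  set c : Module.End S3 L := (C (-1 / 3) : S3) • c0 with hc
  have htrc : ∀ v, ∑ t ∈ Finset.range 4, (φ ^ t) (c ((φ ^ (3 - t)) v)) = (P * X j ^ 2) • v := by
    intro v
    have h1 := LinearMap.congr_fun htr v
    simp only [LinearMap.sum_apply, Module.End.mul_apply] at h1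
    have h2 : ∀ t ∈ Finset.range 4, (φ ^ t) (c ((φ ^ (3 - t)) v)) =
        (C (-1 / 3) : S3) • (φ ^ t) (c0 ((φ ^ (4 - 1 - t)) v)) := by
      intro t _
      rw [hc, LinearMap.smul_apply, map_smul]
    rw [Finset.sum_congr rfl h2, ← Finset.smul_sum, h1]
    have hDg : D g3 = (C 3 : S3) * X j ^ 2 := by
      rw [hD]
      unfold g3
      fin_cases j <;> simp [Derivation.leibniz_pow, pderiv_X] <;> rfl
    have h3 : (C (-1 / 3) : S3) * -(P * ((C 3 : S3) * X j ^ 2)) = P * X j ^ 2 := by
      have : (C (-1 / 3) : S3) * C 3 = -1 := by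
        rw [← C_mul]
        norm_num
      linear_combination (-(P * X j ^ 2)) * this
    rw [hDg, LinearMap.neg_apply, LinearMap.smul_apply, Module.End.one_apply, ← neg_smul,
      smul_smul, h3]
  have hφp : ∀ (t : ℕ) (v : L), (φ ^ t) v = wR ^ t • v := phiN_pow L
  let A0 : L →ₗ[S3] (Fin n → RR) :=
    { toFun := fun v k => ∑ t ∈ Finset.range 4, wR ^ t * algebraMap S3 RR (α (c ((φ ^ (3 - t)) v)) k)
      map_add' := by
        intro v v'
        funext k
        simp only [map_add, Pi.add_apply, mul_add, Finset.sum_add_distrib]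
      map_smul' := by
        intro s v
        funext k
        simp only [map_smul, Pi.smul_apply, smul_eq_mul, map_mul, RingHom.id_apply,
          Finset.mul_sum, Algebra.smul_def]
        refine Finset.sum_congr rfl fun t _ => ?_
        ring }
  have hw4 : wR ^ 4 = - algebraMap S3 RR g3 := by
    have := wR_rel
    rw [← of_g3] at this
    exact eq_neg_of_add_eq_zero_left this
  have hA0 : ∀ v, A0 (wR • v) = wR • A0 v := by
    intro v
    funext k
    change ∑ t ∈ Finset.range 4, wR ^ t * algebraMap S3 RR (α (c ((φ ^ (3 - t)) (wR • v))) k) =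
      wR * ∑ t ∈ Finset.range 4, wR ^ t * algebraMap S3 RR (α (c ((φ ^ (3 - t)) v)) k)
    have e : ∀ t, (φ ^ t) (wR • v) = (φ ^ (t + 1)) v := by
      intro t
      rw [hφp, hφp, smul_smul, ← pow_succ]
    have e4 : (φ ^ 4) v = -(g3 • v) := by
      rw [hφp, hw4, neg_smul, algebraMap_smul]
    simp only [e, Finset.sum_range_succ, Finset.sum_range_zero, Nat.sub_zero, Nat.sub_self,
      show 3 - 1 = 2 from rfl, show 3 - 2 = 1 from rfl, show 3 + 1 = 4 from rfl, e4, map_neg,
      map_smul, Pi.neg_apply, Pi.smul_apply, smul_eq_mul, map_mul]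
    simp only [pow_zero, Module.End.one_apply]
    linear_combination (-algebraMap S3 RR (α (c v) k)) * hw4
  let A := toR A0 hA0
  let B : (Fin n → RR) →ₗ[RR] L :=
    { toFun := fun r => ∑ k, r k • β (Pi.single k 1)
      map_add' := by
        intro r r'
        simp only [Pi.add_apply, add_smul, Finset.sum_add_distrib]
      map_smul' := by
        intro s r
        simp only [Pi.smul_apply, smul_eq_mul, RingHom.id_apply, Finset.smul_sum, mul_smul] }
  have hβ : ∀ u : Fin n → S3, β u = ∑ k, u k • β (Pi.single k 1) := by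
    intro u
    conv_lhs => rw [pi_eq_sum_univ' u]
    rw [map_sum]
    refine Finset.sum_congr rfl fun k _ => ?_
    rw [map_smul]
  refine ⟨p * p * Polynomial.X ^ 2, mul_ne_zero (mul_ne_zero hp hp) (pow_ne_zero _ Polynomial.X_ne_zero), n, A, B,
    fun v => ?_⟩
  change ∑ k, (∑ t ∈ Finset.range 4, wR ^ t * algebraMap S3 RR (α (c ((φ ^ (3 - t)) v)) k)) •
    β (Pi.single k 1) = _
  have h5 : ∀ k : Fin n, (∑ t ∈ Finset.range 4, wR ^ t *
      algebraMap S3 RR (α (c ((φ ^ (3 - t)) v)) k)) • β (Pi.single k 1) =
      ∑ t ∈ Finset.range 4, wR ^ t • (α (c ((φ ^ (3 - t)) v)) k • β (Pi.single k 1)) := by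
    intro k
    rw [Finset.sum_smul]
    refine Finset.sum_congr rfl fun t _ => ?_
    rw [mul_smul, algebraMap_smul]
  simp only [h5]
  rw [Finset.sum_comm]
  have h6 : ∀ t ∈ Finset.range 4, ∑ k, wR ^ t • (α (c ((φ ^ (3 - t)) v)) k • β (Pi.single k 1)) =
      P • ((φ ^ t) (c ((φ ^ (3 - t)) v))) := by
    intro t _
    rw [← Finset.smul_sum, ← hβ, hβα, hφp t (c _), smul_comm]
  rw [Finset.sum_congr rfl h6, ← Finset.smul_sum, htrc, smul_smul]
  congr 1
  simp only [map_mul, map_pow, Polynomial.aeval_X]
  rw [← hP]
  ring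

end Pool.Agent.V1145.NC
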