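import Pool.Agent.V1145.NC3

/-!
`Ext¹(L, L) = 0` for a second syzygy `L` over `R` with `End(L)` flat over `ℂ[x, y, z]`.
-/

set_option autoImplicit false
set_option backward.isDefEq.respectTransparency.types true

open Pool.Agent.TH215.TM Pool.Agent.W506.Hilb

namespace Pool.Agent.V1145.NC

theorem factor {R A B C : Type} [CommRing R] [AddCommGroup A] [AddCommGroup B] [AddCommGroup C]
    [Module R A] [Module R B] [Module R C] (π : A →ₗ[R] B) (hπ : Function.Surjective π)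
    (g : A →ₗ[R] C) (h : ∀ x, π x = 0 → g x = 0) : ∃ e : B →ₗ[R] C, ∀ x, e (π x) = g x := by
  let e0 : (A ⧸ LinearMap.ker π) →ₗ[R] C := (LinearMap.ker π).liftQ g (fun x hx => h x hx)
  refine ⟨e0 ∘ₗ (LinearMap.quotKerEquivOfSurjective π hπ).symm.toLinearMap, fun x => ?_⟩
  have : (LinearMap.quotKerEquivOfSurjective π hπ).symm (π x) = (LinearMap.ker π).mkQ x := by
    rw [LinearEquiv.symm_apply_eq]
    rfl
  rw [LinearMap.comp_apply, LinearEquiv.coe_coe, this]
  rfl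

variable {L F1 F2 : Type} [AddCommGroup L] [AddCommGroup F1]
    [AddCommGroup F2] [Module RR L] [Module RR F1] [Module RR F2] [Module S3 L] [Module S3 F1]
    [Module S3 F2] [IsScalarTower S3 RR L] [IsScalarTower S3 RR F1] [IsScalarTower S3 RR F2]
    [Module.Projective S3 F1] [Module.Projective S3 F2]

theorem tf_L (i : L →ₗ[RR] F1) (hi : Function.Injective i) {s : S3} (hs : s ≠ 0) (x : L)
    (h : s • x = 0) : x = 0 := by
  apply hi
  rw [map_zero]
  refine flat_nzd hs (i x) ?_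
  have : i (s • x) = s • i x := (i.restrictScalars S3).map_smul s x
  rw [← this, h, map_zero]

theorem reg_L (i : L →ₗ[RR] F1) (δ : F1 →ₗ[RR] F2) (hi : Function.Injective i)
    (hex : Function.Exact i δ) {a b : ℂ} (x y : L) (h : lin 1 b • x = lin 0 a • y) :
    ∃ z : L, x = lin 0 a • z := by
  have hsm : ∀ (s : S3) (v : L), i (s • v) = s • i v := (i.restrictScalars S3).map_smul
  have hδ : ∀ (s : S3) (v : F1), δ (s • v) = s • δ v := (δ.restrictScalars S3).map_smul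
  obtain ⟨z, hz⟩ := flat_koszul2 (a := a) (b := b) (i x) (i y) (by rw [← hsm, h, hsm])
  have h1 : δ z = 0 := by
    refine flat_nzd (lin_ne_zero 0 a) (δ z) ?_
    rw [← hδ, ← hz]
    exact hex.apply_apply_eq_zero x
  obtain ⟨z', rfl⟩ := (hex z).1 h1
  exact ⟨z', hi (by rw [hz, hsm])⟩

/-- the restrictions of maps `R^n → L` to the kernel of `π` -/
noncomputable def extT (n : ℕ) (π : (Fin n → RR) →ₗ[RR] L) :
    Submodule S3 (LinearMap.ker π →ₗ[RR] L) where
  carrier := {h | ∃ g : (Fin n → RR) →ₗ[RR] L, g ∘ₗ (LinearMap.ker π).subtype = h}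
  add_mem' := by
    rintro _ _ ⟨g, rfl⟩ ⟨g', rfl⟩
    exact ⟨g + g', rfl⟩
  zero_mem' := ⟨0, rfl⟩
  smul_mem' := by
    rintro s _ ⟨g, rfl⟩
    exact ⟨s • g, rfl⟩

theorem ext_zero [Module.Finite S3 L] (i : L →ₗ[RR] F1) (δ : F1 →ₗ[RR] F2)
    (hi : Function.Injective i) (hex : Function.Exact i δ) (n : ℕ) (π : (Fin n → RR) →ₗ[RR] L)
    (hπ : Function.Surjective π) [Module.Flat S3 (Module.End RR L)]
    (h : LinearMap.ker π →ₗ[RR] L) :
    ∃ g : (Fin n → RR) →ₗ[RR] L, g ∘ₗ (LinearMap.ker π).subtype = h := by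
  have hann : ∀ j : Fin 3, ∃ p : Polynomial ℂ, p ≠ 0 ∧ ∀ h : LinearMap.ker π →ₗ[RR] L,
      (Polynomial.aeval (MvPolynomial.X j : S3) p) • h ∈ extT n π := by
    intro j
    obtain ⟨p, hp, m, α, β, hβα⟩ := genericR j i δ hi hex
    refine ⟨p, hp, fun h => ?_⟩
    set P := (Polynomial.aeval (MvPolynomial.X j : S3) p)
    obtain ⟨β', hβ'⟩ := Module.projective_lifting_property π β hπ
    have hβ'' : ∀ v, π (β' v) = β v := fun v => LinearMap.congr_fun hβ' v
    let ρ : (Fin n → RR) →ₗ[RR] LinearMap.ker π :=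
      LinearMap.codRestrict (LinearMap.ker π) (P • LinearMap.id - β' ∘ₗ α ∘ₗ π) (fun x => by
        rw [LinearMap.mem_ker, LinearMap.sub_apply, map_sub, LinearMap.comp_apply,
          LinearMap.comp_apply, hβ'', hβα, LinearMap.smul_apply, LinearMap.id_apply]
        have : π (P • x) = P • π x := (π.restrictScalars S3).map_smul P x
        rw [this, sub_self])
    refine ⟨h ∘ₗ ρ, ?_⟩
    ext x
    rw [LinearMap.comp_apply, LinearMap.comp_apply, LinearMap.smul_apply]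
    have h1 : ρ ((LinearMap.ker π).subtype x) = P • x := by
      apply Subtype.ext
      change P • (x : Fin n → RR) - β' (α (π x)) = P • (x : Fin n → RR)
      have : π x = 0 := x.2
      rw [this, map_zero, map_zero, sub_zero]
    rw [h1]
    exact (h.restrictScalars S3).map_smul P x
  by_contra hcon
  have h0 : h ∉ extT n π := hcon
  obtain ⟨p0, hp0, hP0⟩ := hann 0
  obtain ⟨p1, hp1, hP1⟩ := hann 1
  obtain ⟨p2, hp2, hP2⟩ := hann 2
  obtain ⟨a0, q0, h1, h1'⟩ := exists_eigen (extT n π) 0 _ p0 hp0 rfl h h0 (hP0 h)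
  obtain ⟨a1, q1, h2, h2'⟩ := exists_eigen (extT n π) 1 _ p1 hp1 rfl _ h1 (hP1 _)
  obtain ⟨a2, q2, h3, h3'⟩ := exists_eigen (extT n π) 2 _ p2 hp2 rfl _ h2 (hP2 _)
  set H := q2 • (q1 • (q0 • h)) with hH
  have e1 : lin 1 a1 • H ∈ extT n π := by
    rw [hH, smul_comm (lin 1 a1) q2]
    exact (extT n π).smul_mem _ h2'
  have e0 : lin 0 a0 • H ∈ extT n π := by
    rw [hH, smul_comm (lin 0 a0) q2, smul_comm (lin 0 a0) q1]
    exact (extT n π).smul_mem _ ((extT n π).smul_mem _ h1')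
  obtain ⟨g0, hg0⟩ := e0
  obtain ⟨g1, hg1⟩ := e1
  obtain ⟨g2, hg2⟩ := h3'
  have k0 : ∀ x, π x = 0 → ∀ hx : x ∈ LinearMap.ker π, g0 x = lin 0 a0 • H ⟨x, hx⟩ :=
    fun x _ hx => LinearMap.congr_fun hg0 ⟨x, hx⟩
  have k1 : ∀ x, π x = 0 → ∀ hx : x ∈ LinearMap.ker π, g1 x = lin 1 a1 • H ⟨x, hx⟩ :=
    fun x _ hx => LinearMap.congr_fun hg1 ⟨x, hx⟩
  have k2 : ∀ x, π x = 0 → ∀ hx : x ∈ LinearMap.ker π, g2 x = lin 2 a2 • H ⟨x, hx⟩ :=
    fun x _ hx => LinearMap.congr_fun hg2 ⟨x, hx⟩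
  obtain ⟨c01, hc01⟩ := factor π hπ (lin 1 a1 • g0 - lin 0 a0 • g1) (fun x hx => by
    rw [LinearMap.sub_apply, LinearMap.smul_apply, LinearMap.smul_apply, k0 x hx hx, k1 x hx hx,
      smul_comm, sub_self])
  obtain ⟨c02, hc02⟩ := factor π hπ (lin 2 a2 • g0 - lin 0 a0 • g2) (fun x hx => by
    rw [LinearMap.sub_apply, LinearMap.smul_apply, LinearMap.smul_apply, k0 x hx hx, k2 x hx hx,
      smul_comm, sub_self])
  obtain ⟨c12, hc12⟩ := factor π hπ (lin 2 a2 • g1 - lin 1 a1 • g2) (fun x hx => by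
    rw [LinearMap.sub_apply, LinearMap.smul_apply, LinearMap.smul_apply, k1 x hx hx, k2 x hx hx,
      smul_comm, sub_self])
  obtain ⟨l0, l1, hl⟩ := flat_koszul3 (K := Module.End RR L) (a := a0) (b := a1) (c := a2)
    c01 c02 c12 (by
      apply LinearMap.ext
      intro v
      obtain ⟨x, rfl⟩ := hπ v
      simp only [LinearMap.add_apply, LinearMap.smul_apply, LinearMap.zero_apply]
      rw [hc01, hc02, hc12]
      simp only [LinearMap.sub_apply, LinearMap.smul_apply]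
      module)
  let gg : (Fin n → RR) →ₗ[RR] L := g0 - l0 ∘ₗ π
  have hgg : ∀ x, ∃ z : L, gg x = lin 0 a0 • z := by
    intro x
    refine reg_L i δ hi hex (b := a1) (gg x) (g1 x - l1 (π x)) ?_
    have h5 := LinearMap.congr_fun hl (π x)
    rw [hc01] at h5
    simp only [LinearMap.sub_apply, LinearMap.smul_apply] at h5
    change lin 1 a1 • (g0 x - l0 (π x)) = lin 0 a0 • (g1 x - l1 (π x))
    rw [smul_sub, smul_sub, sub_eq_sub_iff_sub_eq_sub, h5]
  let m : L →ₗ[RR] L := lin 0 a0 • LinearMap.id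
  obtain ⟨g, hg⟩ := Module.projective_lifting_property m.rangeRestrict
    (LinearMap.codRestrict (LinearMap.range m) gg (fun x => by
      obtain ⟨z, hz⟩ := hgg x
      exact ⟨z, hz.symm⟩)) m.surjective_rangeRestrict
  have hg' : ∀ x, lin 0 a0 • g x = gg x := fun x => congrArg Subtype.val (LinearMap.congr_fun hg x)
  apply h3
  refine ⟨g, ?_⟩
  ext x
  have h6 : lin 0 a0 • (g x - H x) = 0 := by
    rw [smul_sub, hg']
    change g0 x - l0 (π x) - _ = 0
    have hx : π x = 0 := x.2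
    rw [hx, map_zero, sub_zero, k0 x hx hx, sub_self]
  exact sub_eq_zero.1 (tf_L i hi (lin_ne_zero 0 a0) _ h6)

end Pool.Agent.V1145.NC
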