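import Pool.Agent.V1145.NC4

/-!
The first syzygy of a second syzygy `L` over `R` with flat endomorphism ring is projective.
-/

set_option autoImplicit false
set_option backward.isDefEq.respectTransparency.types true

open Pool.Agent.TH215.TM Pool.Agent.W506.Hilb

namespace Pool.Agent.V1145.NC

theorem monic_f : (Polynomial.X ^ 4 + Polynomial.C g3 : Polynomial S3).Monic :=
  Polynomial.monic_X_pow_add_C g3 (by norm_num)

/-- the coefficient of `w^k` of an element of `R` -/
noncomputable def co (k : ℕ) : RR →ₗ[S3] S3 :=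
  (Polynomial.lcoeff S3 k) ∘ₗ (AdjoinRoot.modByMonicHom monic_f)

theorem wR_pow_four : wR ^ 4 = - algebraMap S3 RR g3 := by
  have := wR_rel
  rw [← of_g3] at this
  exact eq_neg_of_add_eq_zero_left this

theorem natDegree_f : (Polynomial.X ^ 4 + Polynomial.C g3 : Polynomial S3).natDegree = 4 :=
  Polynomial.natDegree_X_pow_add_C

theorem degree_f : (Polynomial.X ^ 4 + Polynomial.C g3 : Polynomial S3).degree = 4 :=
  Polynomial.degree_X_pow_add_C (by norm_num) _

theorem co_w (k m : ℕ) (hm : m < 4) : co k (wR ^ m) = if k = m then 1 else 0 := by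
  have h1 : (wR ^ m : RR) = AdjoinRoot.mk _ (Polynomial.X ^ m) := by
    rw [map_pow, AdjoinRoot.mk_X]
    rfl
  have h2 : AdjoinRoot.modByMonicHom monic_f (wR ^ m) = Polynomial.X ^ m := by
    rw [h1, AdjoinRoot.modByMonicHom_mk]
    rw [Polynomial.modByMonic_eq_self_iff monic_f, degree_f]
    refine lt_of_le_of_lt (Polynomial.degree_X_pow_le m) ?_
    exact_mod_cast hm
  change Polynomial.coeff (AdjoinRoot.modByMonicHom monic_f (wR ^ m)) k = _
  rw [h2, Polynomial.coeff_X_pow]

theorem sum_co (x : RR) : x = ∑ k ∈ Finset.range 4, co k x • wR ^ k := by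
  obtain ⟨p, rfl⟩ := AdjoinRoot.mk_surjective x
  have h1 : (AdjoinRoot.mk (Polynomial.X ^ 4 + Polynomial.C g3) p : RR) =
      AdjoinRoot.mk (Polynomial.X ^ 4 + Polynomial.C g3)
        (p %ₘ (Polynomial.X ^ 4 + Polynomial.C g3)) := by
    rw [← AdjoinRoot.modByMonicHom_mk monic_f, AdjoinRoot.mk_leftInverse monic_f]
  have hdeg : (p %ₘ (Polynomial.X ^ 4 + Polynomial.C g3 : Polynomial S3)).natDegree < 4 := by
    have := Polynomial.natDegree_modByMonic_lt p monic_f (by
      intro h
      have := congrArg Polynomial.natDegree h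
      rw [natDegree_f] at this
      simp at this)
    rwa [natDegree_f] at this
  have h2 : ∀ k, co k (AdjoinRoot.mk (Polynomial.X ^ 4 + Polynomial.C g3) p) =
      (p %ₘ (Polynomial.X ^ 4 + Polynomial.C g3 : Polynomial S3)).coeff k := by
    intro k
    change Polynomial.coeff (AdjoinRoot.modByMonicHom monic_f _) k = _
    rw [AdjoinRoot.modByMonicHom_mk]
  simp only [h2]
  rw [h1]
  conv_lhs => rw [Polynomial.as_sum_range' _ 4 hdeg]
  rw [map_sum]
  refine Finset.sum_congr rfl fun k _ => ?_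
  rw [← Polynomial.C_mul_X_pow_eq_monomial, map_mul, map_pow, AdjoinRoot.mk_X, Algebra.smul_def]
  rfl

theorem co_three (t : ℕ) (ht : t < 4) (x : RR) : co 3 (wR ^ t * x) = co (3 - t) x := by
  have h4 : ∀ m, co 3 (wR ^ (4 + m)) = - g3 * co 3 (wR ^ m) := by
    intro m
    rw [pow_add, wR_pow_four, ← map_neg, ← Algebra.smul_def, map_smul, smul_eq_mul]
  have h5 := h4 0
  have h6 := h4 1
  have h7 := h4 2
  rw [co_w 3 0 (by norm_num)] at h5
  rw [co_w 3 1 (by norm_num)] at h6
  rw [co_w 3 2 (by norm_num)] at h7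
  conv_lhs => rw [sum_co x]
  simp only [Finset.sum_range_succ, Finset.sum_range_zero, mul_add, mul_smul_comm, ← pow_add,
    map_add, map_smul, zero_add]
  norm_num at h5 h6 h7
  have e0 : co 3 (1 : RR) = 0 := by simpa using co_w 3 0 (by norm_num)
  have e1 : co 3 (wR : RR) = 0 := by simpa using co_w 3 1 (by norm_num)
  interval_cases t
  · simp [co_w, e0, e1]
  · simp [co_w, h5, e0, e1]
  · simp [co_w, h5, h6, e0, e1]
  · simp [co_w, h5, h6, h7, e0, e1]

/-- extensions of an `S`-split type by `R` split: if `∑ w^t u φ^{3-t} = 0` then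
`u = w b - b φ`. -/
theorem coind {F : Type} [AddCommGroup F] [Module S3 F] (φ : Module.End S3 F)
    (u : F →ₗ[S3] RR) (hu : ∀ v, ∑ t ∈ Finset.range 4, wR ^ t * u ((φ ^ (3 - t)) v) = 0) :
    ∃ b : F →ₗ[S3] RR, ∀ v, u v = wR * b v - b (φ v) := by
  let sc (f : F →ₗ[S3] S3) (k : ℕ) : F →ₗ[S3] RR := f.smulRight (wR ^ k)
  let b : F →ₗ[S3] RR := sc (co 1 ∘ₗ u + co 2 ∘ₗ u ∘ₗ φ + co 3 ∘ₗ u ∘ₗ φ ∘ₗ φ) 0 +
    sc (co 2 ∘ₗ u + co 3 ∘ₗ u ∘ₗ φ) 1 + sc (co 3 ∘ₗ u) 2
  have hb : ∀ v, b v = (co 1 (u v) + co 2 (u (φ v)) + co 3 (u (φ (φ v)))) • wR ^ 0 +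
      (co 2 (u v) + co 3 (u (φ v))) • wR ^ 1 + co 3 (u v) • wR ^ 2 := fun v => rfl
  refine ⟨b, fun v => ?_⟩
  have h1 := congrArg (co 3) (hu v)
  rw [map_sum, map_zero] at h1
  have h2 : ∀ t ∈ Finset.range 4, co 3 (wR ^ t * u ((φ ^ (3 - t)) v)) =
      co (3 - t) (u ((φ ^ (3 - t)) v)) := fun t ht => co_three t (Finset.mem_range.1 ht) _
  rw [Finset.sum_congr rfl h2] at h1
  simp only [Finset.sum_range_succ, Finset.sum_range_zero, zero_add, Nat.sub_zero,
    show 3 - 1 = 2 from rfl, show 3 - 2 = 1 from rfl, Nat.sub_self, pow_zero, pow_one,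
    Module.End.one_apply] at h1
  have e2 : (φ ^ 2) v = φ (φ v) := rfl
  have e3 : (φ ^ 3) v = φ (φ (φ v)) := rfl
  rw [e2, e3] at h1
  rw [hb, hb]
  conv_lhs => rw [sum_co (u v)]
  simp only [Finset.sum_range_succ, Finset.sum_range_zero, zero_add]
  have h3 : co 0 (u v) = -(co 3 (u (φ (φ (φ v)))) + co 2 (u (φ (φ v))) + co 1 (u (φ v))) := by
    linear_combination h1
  rw [h3]
  simp only [Algebra.smul_def, map_add, map_neg]
  ring

variable {L F1 F2 : Type} [AddCommGroup L] [AddCommGroup F1]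
    [AddCommGroup F2] [Module RR L] [Module RR F1] [Module RR F2] [Module S3 L] [Module S3 F1]
    [Module S3 F2] [IsScalarTower S3 RR L] [IsScalarTower S3 RR F1] [IsScalarTower S3 RR F2]
    [Module.Projective S3 F1] [Module.Projective S3 F2]

theorem rigid_ker [Module.Finite S3 L] (i : L →ₗ[RR] F1) (δ : F1 →ₗ[RR] F2)
    (hi : Function.Injective i) (hex : Function.Exact i δ) (n : ℕ) (π : (Fin n → RR) →ₗ[RR] L)
    (hπ : Function.Surjective π) [Module.Flat S3 (Module.End RR L)]
    (a : Module.End S3 (LinearMap.ker π)) (ha : tr4 (phiN (LinearMap.ker π)) a = 0) :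
    ∃ b : Module.End S3 (LinearMap.ker π),
      a = phiN (LinearMap.ker π) * b - b * phiN (LinearMap.ker π) := by
  set φ := phiN (LinearMap.ker π) with hφ
  have hφv : ∀ v, φ v = wR • v := fun v => rfl
  have h1 : ∀ k : Fin n, ∃ b : LinearMap.ker π →ₗ[S3] RR, ∀ v, (a v).1 k =
      wR * b v - b (φ v) := by
    intro k
    let u : LinearMap.ker π →ₗ[S3] RR := (LinearMap.proj k) ∘ₗ
      ((LinearMap.ker π).subtype.restrictScalars S3) ∘ₗ a
    refine coind φ u fun v => ?_
    have h2 := congrArg (fun y : LinearMap.ker π => y.1 k) (LinearMap.congr_fun ha v)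
    simp only [tr4, LinearMap.sum_apply, Module.End.mul_apply, LinearMap.zero_apply] at h2
    have h3 : ∀ t (y : LinearMap.ker π), ((φ ^ t) y).1 k = wR ^ t * y.1 k := by
      intro t y
      rw [phiN_pow]
      rfl
    have h4 : (∑ t ∈ Finset.range 4, (φ ^ t) (a ((φ ^ (3 - t)) v)) : LinearMap.ker π).1 k =
        ∑ t ∈ Finset.range 4, wR ^ t * u ((φ ^ (3 - t)) v) := by
      simp only [AddSubmonoidClass.coe_finsetSum, Finset.sum_apply]
      exact Finset.sum_congr rfl fun t _ => h3 t _
    rw [← h4]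
    exact h2
  choose bk hbk using h1
  let b' : LinearMap.ker π →ₗ[S3] (Fin n → RR) := LinearMap.pi bk
  have hb' : ∀ v, (a v : Fin n → RR) = wR • b' v - b' (φ v) := by
    intro v
    funext k
    exact hbk k v
  let h : LinearMap.ker π →ₗ[RR] L := toR ((π.restrictScalars S3) ∘ₗ b') (fun v => by
    change π (b' (wR • v)) = wR • π (b' v)
    have h5 := congrArg π (hb' v)
    have h6 : π (a v : Fin n → RR) = 0 := (a v).2
    rw [h6, map_sub, map_smul, hφv] at h5
    exact (sub_eq_zero.1 h5.symm).symm)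
  obtain ⟨g, hg⟩ := ext_zero i δ hi hex n π hπ h
  obtain ⟨g', hg'⟩ := Module.projective_lifting_property π g hπ
  let b : Module.End S3 (LinearMap.ker π) :=
    { toFun := fun v => ⟨b' v - g' v, by
        rw [LinearMap.mem_ker, map_sub]
        have h7 : π (g' v) = g v := LinearMap.congr_fun hg' _
        have h8 : g v = π (b' v) := LinearMap.congr_fun hg v
        rw [h7, h8, sub_self]⟩
      map_add' := by
        intro v v'
        apply Subtype.ext
        change b' (v + v') - g' ((v : Fin n → RR) + v') = (b' v - g' v) + (b' v' - g' v')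
        rw [map_add, map_add]
        abel
      map_smul' := by
        intro s v
        apply Subtype.ext
        change b' (s • v) - g' (s • (v : Fin n → RR)) = s • (b' v - g' v)
        have h9 : g' (s • (v : Fin n → RR)) = s • g' v := (g'.restrictScalars S3).map_smul s _
        rw [map_smul, h9, smul_sub] }
  refine ⟨b, ?_⟩
  apply LinearMap.ext
  intro v
  apply Subtype.ext
  change (a v : Fin n → RR) = wR • (b' v - g' v) - (b' (wR • v) - g' (wR • (v : Fin n → RR)))
  rw [hb' v, hφv, map_smul g', smul_sub]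
  abel

theorem projective_ker [Module.Finite S3 L] (i : L →ₗ[RR] F1) (δ : F1 →ₗ[RR] F2)
    (hi : Function.Injective i) (hex : Function.Exact i δ) (n : ℕ) (π : (Fin n → RR) →ₗ[RR] L)
    (hπ : Function.Surjective π) [Module.Flat S3 (Module.End RR L)] :
    Module.Projective RR (LinearMap.ker π) := by
  have hL : PdLT S3 L 2 := pdLT_kernel 1 (fun M _ _ => hilbert_syzygy ℂ 3 M)
    (i.restrictScalars S3) (δ.restrictScalars S3) hi hex
  have hRR : Module.Projective S3 (Fin n → RR) := by
    have : Module.Free S3 RR :=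
      Module.Free.of_basis (AdjoinRoot.powerBasis' monic_f).basis
    infer_instance
  have hK : PdLT S3 (LinearMap.ker π) 1 :=
    pdLT_left ((LinearMap.ker π).subtype.restrictScalars S3) (π.restrictScalars S3)
      (Submodule.injective_subtype _) hπ (LinearMap.exact_subtype_ker_map π)
      (pdLT_one_of_projective hRR) hL
  have hKp : Module.Projective S3 (LinearMap.ker π) := projective_of_pdLT_one hK
  have hf0 : Module.Finite S3 (Fin n → RR) := inferInstance
  have hfin : Module.Finite S3 (LinearMap.ker π) := by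
    have h1 : IsNoetherian S3 (Fin n → RR) := inferInstance
    exact Module.Finite.of_injective ((LinearMap.ker π).subtype.restrictScalars S3)
      (Submodule.injective_subtype _)
  set φ := phiN (LinearMap.ker π) with hφ
  have hφ4 := phiN_pow_four (LinearMap.ker π)
  have hr := rigid_ker i δ hi hex n π hπ
  obtain ⟨a, ha⟩ := Pool.Agent.TH350.J291.chain (LinearMap.ker π) φ hφ4 hr
    (Pool.Agent.TH350.J289.trace_X2 _ φ hφ4) (Pool.Agent.TH350.J290.exists_tau _ φ hφ4 hr)
  exact higman 4 (by norm_num) g3 (LinearMap.ker π) φ (fun v => rfl) a ha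

end Pool.Agent.V1145.NC
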