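import Pool.Agent.V1145.NC5

/-!
A module of projective dimension at most one with `Ext¹(L, L) = 0` is projective.
-/

set_option autoImplicit false
set_option backward.isDefEq.respectTransparency.types true

open Pool.Agent.TH215.TM Pool.Agent.W506.Hilb

namespace Pool.Agent.V1145.NC

section gen

variable {R L : Type} [CommRing R] [AddCommGroup L] [Module R L]

/-- the functionals on the kernel of `π` which extend to `R^n` -/
def extD (n : ℕ) (π : (Fin n → R) →ₗ[R] L) : Submodule R (LinearMap.ker π →ₗ[R] R) where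
  carrier := {h | ∃ g : (Fin n → R) →ₗ[R] R, g ∘ₗ (LinearMap.ker π).subtype = h}
  add_mem' := by
    rintro _ _ ⟨g, rfl⟩ ⟨g', rfl⟩
    exact ⟨g + g', rfl⟩
  zero_mem' := ⟨0, rfl⟩
  smul_mem' := by
    rintro s _ ⟨g, rfl⟩
    exact ⟨s • g, rfl⟩

theorem extend_residue [Module.Finite R L] (n : ℕ) (π : (Fin n → R) →ₗ[R] L)
    [Module.Projective R (LinearMap.ker π)]
    (hext : ∀ h : LinearMap.ker π →ₗ[R] L,
      ∃ g : (Fin n → R) →ₗ[R] L, g ∘ₗ (LinearMap.ker π).subtype = h)
    (m : Ideal R) (hm : m.IsMaximal) (f : LinearMap.ker π →ₗ[R] (R ⧸ m)) :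
    ∃ g : (Fin n → R) →ₗ[R] (R ⧸ m), g ∘ₗ (LinearMap.ker π).subtype = f := by
  by_cases hL : m • (⊤ : Submodule R L) = ⊤
  · obtain ⟨s, hs1, hs2⟩ := Submodule.exists_sub_one_mem_and_smul_eq_zero_of_fg_of_le_smul m
      (⊤ : Submodule R L) Module.Finite.fg_top hL.ge
    let ρ : (Fin n → R) →ₗ[R] LinearMap.ker π :=
      LinearMap.codRestrict (LinearMap.ker π) (s • LinearMap.id) (fun x => by
        rw [LinearMap.mem_ker, LinearMap.smul_apply, map_smul]
        exact hs2 _ trivial)
    refine ⟨f ∘ₗ ρ, ?_⟩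
    ext x
    have h1 : ρ ((LinearMap.ker π).subtype x) = s • x := rfl
    rw [LinearMap.comp_apply, LinearMap.comp_apply, h1, map_smul]
    have h2 : s • f x - f x = 0 := by
      have h3 : s • f x - f x = (s - 1) • f x := by rw [sub_smul, one_smul]
      rw [h3]
      obtain ⟨y, hy⟩ := Ideal.Quotient.mk_surjective (f x)
      rw [← hy, ← Ideal.Quotient.mk_eq_mk, ← Submodule.Quotient.mk_smul,
        Submodule.Quotient.mk_eq_zero, smul_eq_mul]
      exact m.mul_mem_right _ hs1
    exact sub_eq_zero.1 h2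
  · obtain ⟨l, hl⟩ : ∃ l : L →ₗ[R] (R ⧸ m), Function.Surjective l := by
      let _ : Field (R ⧸ m) := Ideal.Quotient.field m
      obtain ⟨v, hv⟩ : ∃ v : L ⧸ (m • (⊤ : Submodule R L)), v ≠ 0 := by
        have : Nontrivial (L ⧸ (m • (⊤ : Submodule R L))) :=
          Submodule.Quotient.nontrivial_iff.2 hL
        exact exists_ne 0
      have h1 : ¬ ∀ φ : Module.Dual (R ⧸ m) (L ⧸ (m • (⊤ : Submodule R L))), φ v = 0 := by
        rw [Module.forall_dual_apply_eq_zero_iff]
        exact hv
      push Not at h1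
      obtain ⟨φ, hφ⟩ := h1
      refine ⟨(φ.restrictScalars R) ∘ₗ (m • (⊤ : Submodule R L)).mkQ, ?_⟩
      intro c
      obtain ⟨w, hw⟩ := Submodule.mkQ_surjective (m • (⊤ : Submodule R L)) ((c * (φ v)⁻¹) • v)
      refine ⟨w, ?_⟩
      rw [LinearMap.comp_apply, hw]
      change φ ((c * (φ v)⁻¹) • v) = c
      rw [map_smul, smul_eq_mul, mul_assoc, inv_mul_cancel₀ hφ, mul_one]
    obtain ⟨h, hh⟩ := Module.projective_lifting_property l f hl
    obtain ⟨g, hg⟩ := hext h
    refine ⟨l ∘ₗ g, ?_⟩
    rw [LinearMap.comp_assoc, hg, hh]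

theorem projective_of_ext [IsNoetherianRing R] [Module.Finite R L] (n : ℕ)
    (π : (Fin n → R) →ₗ[R] L) (hπ : Function.Surjective π)
    [Module.Projective R (LinearMap.ker π)]
    (hext : ∀ h : LinearMap.ker π →ₗ[R] L,
      ∃ g : (Fin n → R) →ₗ[R] L, g ∘ₗ (LinearMap.ker π).subtype = h) :
    Module.Projective R L := by
  have hfinK : Module.Finite R (LinearMap.ker π) := inferInstance
  have hfinD : Module.Finite R (LinearMap.ker π →ₗ[R] R) := inferInstance
  obtain ⟨k, p, q, -, -, hpq⟩ := Module.Finite.exists_comp_eq_id_of_projective R (LinearMap.ker π)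
  -- `p : R^k → K`, `q : K → R^k`
  have hid : ∀ v, v = ∑ l, (q v) l • p (Pi.single l 1) := by
    intro v
    have h1 : p (q v) = v := LinearMap.congr_fun hpq v
    conv_lhs => rw [← h1, pi_eq_sum_univ' (q v)]
    rw [map_sum]
    refine Finset.sum_congr rfl fun l _ => ?_
    rw [map_smul]
  have hT : extD n π = ⊤ := by
    rw [← Submodule.Quotient.subsingleton_iff]
    have h1 : Module.annihilator R ((LinearMap.ker π →ₗ[R] R) ⧸ extD n π) = ⊤ := by
      by_contra hne
      obtain ⟨m, hm, hle⟩ := Ideal.exists_le_maximal _ hne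
      have h2 : (⊤ : Submodule R ((LinearMap.ker π →ₗ[R] R) ⧸ extD n π)) ≤ m • ⊤ := by
        intro y _
        obtain ⟨φ, rfl⟩ := Submodule.mkQ_surjective _ y
        obtain ⟨g, hg⟩ := extend_residue n π hext m hm
          ((Submodule.mkQ m : R →ₗ[R] R ⧸ m) ∘ₗ φ)
        obtain ⟨ψ, hψ⟩ := Module.projective_lifting_property (Submodule.mkQ m) g
          (Submodule.mkQ_surjective m)
        set φ' := φ - ψ ∘ₗ (LinearMap.ker π).subtype with hφ'
        have h3 : ∀ v, φ' v ∈ m := by
          intro v
          rw [← Submodule.Quotient.mk_eq_zero, ← Submodule.mkQ_apply]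
          have h4 : (Submodule.mkQ m) (ψ v) = g v := LinearMap.congr_fun hψ _
          have h5 : g v = (Submodule.mkQ m) (φ v) := LinearMap.congr_fun hg v
          change (Submodule.mkQ m) (φ v - ψ v) = 0
          rw [map_sub, h4, h5, sub_self]
        have h6 : (extD n π).mkQ φ = (extD n π).mkQ φ' := by
          rw [hφ', map_sub]
          have : (extD n π).mkQ (ψ ∘ₗ (LinearMap.ker π).subtype) = 0 := by
            rw [Submodule.mkQ_apply, Submodule.Quotient.mk_eq_zero]
            exact ⟨ψ, rfl⟩
          rw [this, sub_zero]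
        have h7 : φ' = ∑ l, φ' (p (Pi.single l 1)) • ((LinearMap.proj l) ∘ₗ q) := by
          ext v
          conv_lhs => rw [hid v, map_sum]
          rw [LinearMap.sum_apply]
          refine Finset.sum_congr rfl fun l _ => ?_
          rw [map_smul, LinearMap.smul_apply, LinearMap.comp_apply, LinearMap.proj_apply,
            smul_eq_mul, smul_eq_mul, mul_comm]
        rw [h6, h7, map_sum]
        refine Submodule.sum_mem _ fun l _ => ?_
        rw [map_smul]
        exact Submodule.smul_mem_smul (h3 _) trivial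
      obtain ⟨s, hs1, hs2⟩ := Submodule.exists_sub_one_mem_and_smul_eq_zero_of_fg_of_le_smul m
        (⊤ : Submodule R ((LinearMap.ker π →ₗ[R] R) ⧸ extD n π)) Module.Finite.fg_top h2
      have h8 : s ∈ m := hle (Module.mem_annihilator.2 fun y => hs2 y trivial)
      apply hm.ne_top
      rw [Ideal.eq_top_iff_one]
      have := m.sub_mem h8 hs1
      simpa using this
    rw [← Module.annihilator_eq_top_iff (R := R)]
    exact h1
  have h9 : ∀ l : Fin k, ∃ g : (Fin n → R) →ₗ[R] R, g ∘ₗ (LinearMap.ker π).subtype =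
      (LinearMap.proj l) ∘ₗ q := by
    intro l
    have : ((LinearMap.proj l) ∘ₗ q : LinearMap.ker π →ₗ[R] R) ∈ extD n π := by
      rw [hT]
      trivial
    exact this
  choose g hg using h9
  let r : (Fin n → R) →ₗ[R] LinearMap.ker π := ∑ l, (g l).smulRight (p (Pi.single l 1))
  have hr : ∀ v : LinearMap.ker π, r v = v := by
    intro v
    conv_rhs => rw [hid v]
    change (∑ l, (g l).smulRight (p (Pi.single l 1))) v = _
    rw [LinearMap.sum_apply]
    refine Finset.sum_congr rfl fun l _ => ?_
    rw [LinearMap.smulRight_apply]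
    congr 1
    exact LinearMap.congr_fun (hg l) v
  obtain ⟨e, he⟩ := factor π hπ (LinearMap.id - (LinearMap.ker π).subtype ∘ₗ r) (fun x hx => by
    have := hr ⟨x, hx⟩
    change x - (r x : Fin n → R) = 0
    have h10 : (r x : Fin n → R) = x := congrArg Subtype.val this
    rw [h10, sub_self])
  refine Module.Projective.of_split e π ?_
  ext y
  obtain ⟨x, rfl⟩ := hπ y
  rw [LinearMap.comp_apply, he]
  change π (x - (r x : Fin n → R)) = π x
  have : π (r x : Fin n → R) = 0 := (r x).2
  rw [map_sub, this, sub_zero]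

end gen

/-- A second syzygy `L` over `R` whose endomorphism ring is flat over `ℂ[x, y, z]` is
projective. -/
theorem projective_of_flat_end {L F1 F2 : Type} [AddCommGroup L] [AddCommGroup F1]
    [AddCommGroup F2] [Module RR L] [Module RR F1] [Module RR F2] [Module S3 L] [Module S3 F1]
    [Module S3 F2] [IsScalarTower S3 RR L] [IsScalarTower S3 RR F1] [IsScalarTower S3 RR F2]
    [Module.Projective S3 F1] [Module.Projective S3 F2] [Module.Finite RR L]
    (i : L →ₗ[RR] F1) (δ : F1 →ₗ[RR] F2) (hi : Function.Injective i)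
    (hex : Function.Exact i δ) [Module.Flat S3 (Module.End RR L)] : Module.Projective RR L := by
  have hfin : Module.Finite S3 L := Module.Finite.trans RR L
  obtain ⟨n, π, hπ⟩ := Module.Finite.exists_fin' RR L
  have h1 := projective_ker i δ hi hex n π hπ
  have hN : IsNoetherianRing RR := inferInstance
  exact projective_of_ext n π hπ (ext_zero i δ hi hex n π hπ)

/-- A reflexive module over `R` with maximal Cohen-Macaulay endomorphism ring is projective. -/
theorem projective_of_reflexive (M : Type) [AddCommGroup M] [Module RR M] [Module.Finite RR M]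
    (hM : Module.IsReflexive RR M) (h : IsCM RR (Module.End RR M)) : Module.Projective RR M := by
  let _ : Module S3 M := Module.compHom M (algebraMap S3 RR)
  have _ : IsScalarTower S3 RR M := IsScalarTower.of_compHom S3 RR M
  have hN : IsNoetherianRing RR := inferInstance
  have hfree : Module.Free S3 RR :=
    Module.Free.of_basis (AdjoinRoot.powerBasis' monic_f).basis
  have hp := projective_S3 (Module.End RR M) h
  have hDfin : Module.Finite RR (Module.Dual RR M) := inferInstance
  obtain ⟨b, p, hp1⟩ := Module.Finite.exists_fin' RR (Module.Dual RR M)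
  obtain ⟨a, q, hq1⟩ := Module.Finite.exists_fin' RR (LinearMap.ker p)
  -- `M = M** → (R^b)* → (R^a)*`
  let q' : (Fin a → RR) →ₗ[RR] (Fin b → RR) := (LinearMap.ker p).subtype ∘ₗ q
  have hex0 : Function.Exact q' p := by
    intro x
    constructor
    · intro hx
      obtain ⟨y, hy⟩ := hq1 ⟨x, hx⟩
      exact ⟨y, congrArg Subtype.val hy⟩
    · rintro ⟨y, rfl⟩
      exact (q y).2
  let P : Module.Dual RR (Module.Dual RR M) →ₗ[RR] ((Fin b → RR) →ₗ[RR] RR) :=
    Module.Dual.transpose (R := RR) p
  let Q : ((Fin b → RR) →ₗ[RR] RR) →ₗ[RR] ((Fin a → RR) →ₗ[RR] RR) :=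
    Module.Dual.transpose (R := RR) q'
  have hP : Function.Injective P := by
    intro f g hfg
    ext x
    obtain ⟨y, rfl⟩ := hp1 x
    exact LinearMap.congr_fun hfg y
  have hPQ : Function.Exact P Q := by
    intro f
    constructor
    · intro hf
      obtain ⟨e, he⟩ := factor p hp1 f (fun x hx => by
        obtain ⟨y, rfl⟩ := (hex0 x).1 hx
        exact LinearMap.congr_fun hf y)
      refine ⟨e, ?_⟩
      ext x
      exact he _
    · rintro ⟨e, rfl⟩
      refine LinearMap.ext fun x => ?_
      change e (p (q' x)) = 0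
      rw [hex0.apply_apply_eq_zero, map_zero]
  let E := Module.evalEquiv RR M
  exact projective_of_flat_end (P ∘ₗ E.toLinearMap) Q (hP.comp E.injective) (by
    intro f
    rw [hPQ f]
    constructor
    · rintro ⟨e, rfl⟩
      obtain ⟨v, rfl⟩ := E.surjective e
      exact ⟨v, rfl⟩
    · rintro ⟨v, rfl⟩
      exact ⟨E v, rfl⟩)

end Pool.Agent.V1145.NC
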