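import Mathlib

/-!
Global dimension: ring isomorphisms, matrix rings, localized endomorphism rings.
-/

set_option autoImplicit false
set_option backward.isDefEq.respectTransparency.types true

universe u v

open CategoryTheory Limits

namespace Pool.Agent.V1145.NC

/-- The (left) global dimension of a ring: the supremum of the projective dimensions of its
modules. -/
noncomputable def gldim (A : Type u) [Ring A] : WithBot ℕ∞ :=
  ⨆ X : ModuleCat.{u} A, projectiveDimension X

theorem pd_of_gldim_le {A : Type u} [Ring A] {n : ℕ} (h : gldim A ≤ n) (X : ModuleCat.{u} A) :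
    HasProjectiveDimensionLT X (n + 1) := by
  have h1 : projectiveDimension X ≤ n := (le_iSup (fun X : ModuleCat.{u} A =>
    projectiveDimension X) X).trans h
  exact (projectiveDimension_le_iff X n).1 h1

/-- an equivalence of module categories preserves the projective dimension -/
theorem pd_equivalence {C D : Type*} [Category C] [Abelian C]
    [Category D] [Abelian D] [EnoughProjectives C] (F : C ≌ D) (n : ℕ) :
    ∀ X : C, HasProjectiveDimensionLT X (n + 1) → HasProjectiveDimensionLT (F.functor.obj X) (n + 1) := by
  induction n with
  | zero =>
    intro X h
    have h1 : Projective X := (projective_iff_hasProjectiveDimensionLT_one).2 h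
    have h2 : Projective (F.functor.obj X) := (F.map_projective_iff X).2 h1
    exact (projective_iff_hasProjectiveDimensionLT_one).1 h2
  | succ n ih =>
    intro X h
    have h2 : Projective (Projective.over X) := inferInstance
    let S : ShortComplex C := ShortComplex.mk (kernel.ι (Projective.π X)) (Projective.π X)
      (kernel.condition _)
    have hS : S.ShortExact :=
      { exact := ShortComplex.exact_of_f_is_kernel _ (kernelIsKernel _)
        mono_f := inferInstanceAs (Mono (kernel.ι (Projective.π X)))
        epi_g := inferInstanceAs (Epi (Projective.π X)) }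
    have hK : HasProjectiveDimensionLT S.X₁ (n + 1) :=
      (hS.hasProjectiveDimensionLT_X₃_iff n h2).1 h
    have h3 := ih S.X₁ hK
    have hadd : F.functor.Additive := Functor.additive_of_preserves_binary_products _
    have hS' : (S.map F.functor).ShortExact := hS.map_of_exact F.functor
    have h4 : Projective (S.map F.functor).X₂ := (F.map_projective_iff _).2 h2
    exact (hS'.hasProjectiveDimensionLT_X₃_iff n h4).2 h3

theorem pd_ringEquiv {A B : Type u} [Ring A] [Ring B] (e : A ≃+* B) (n : ℕ)
    (h : ∀ X : ModuleCat.{u} A, HasProjectiveDimensionLT X (n + 1)) (Y : ModuleCat.{u} B) :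
    HasProjectiveDimensionLT Y (n + 1) := by
  let F : ModuleCat.{u} B ≌ ModuleCat.{u} A := ModuleCat.restrictScalarsEquivalenceOfRingEquiv e
  have h1 := h (F.functor.obj Y)
  have h2 := pd_equivalence F.symm n _ h1
  have e2 : F.symm.functor.obj (F.functor.obj Y) ≅ Y := (F.unitIso.app Y).symm
  exact hasProjectiveDimensionLT_of_iso e2 (n + 1)

theorem pd_matrix {A : Type u} [Ring A] (r : ℕ) (hr : 0 < r) (n : ℕ)
    (h : ∀ X : ModuleCat.{u} (Matrix (Fin r) (Fin r) A), HasProjectiveDimensionLT X (n + 1))
    (Y : ModuleCat.{u} A) : HasProjectiveDimensionLT Y (n + 1) := by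
  let F : ModuleCat.{u} A ≌ ModuleCat.{u} (Matrix (Fin r) (Fin r) A) :=
    ModuleCat.matrixEquivalence A (⟨0, hr⟩ : Fin r)
  have h1 := h (F.functor.obj Y)
  have h2 := pd_equivalence F.symm n _ h1
  have e2 : F.symm.functor.obj (F.functor.obj Y) ≅ Y := (F.unitIso.app Y).symm
  exact hasProjectiveDimensionLT_of_iso e2 (n + 1)

section loc

variable {R : Type} [CommRing R] (S : Submonoid R) (M : Type) [AddCommGroup M] [Module R M]
  [Module.FinitePresentation R M]

/-- The localization of the endomorphism ring of a finitely presented module is the endomorphism
ring of the localization. -/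
noncomputable def locEnd : LocalizedModule S (Module.End R M) ≃ₗ[R]
    Module.End (Localization S) (LocalizedModule S M) :=
  IsLocalizedModule.linearEquiv S (LocalizedModule.mkLinearMap S (Module.End R M))
    (LocalizedModule.map S : (M →ₗ[R] M) →ₗ[R] _)

theorem locEnd_mkLinearMap (a : Module.End R M) :
    locEnd S M (LocalizedModule.mkLinearMap S (Module.End R M) a) = LocalizedModule.map S a :=
  IsLocalizedModule.linearEquiv_apply S _ _ a

theorem smul_locEnd_mk (a : Module.End R M) (s : S) :
    s • locEnd S M (LocalizedModule.mk a s) = LocalizedModule.map S a := by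
  rw [← locEnd_mkLinearMap]
  have h1 : s • LocalizedModule.mk a s = LocalizedModule.mkLinearMap S (Module.End R M) a := by
    rw [LocalizedModule.mkLinearMap_apply, ← LocalizedModule.mk_cancel s a, Submonoid.smul_def,
      LocalizedModule.smul'_mk]
    rfl
  rw [← h1]
  exact ((locEnd S M).map_smul (s : R) _).symm

omit [Module.FinitePresentation R M] in
theorem map_mul' (a b : Module.End R M) :
    LocalizedModule.map S (a * b : Module.End R M) =
      (LocalizedModule.map S a : Module.End (Localization S) (LocalizedModule S M)) *
        LocalizedModule.map S b := by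
  ext x
  induction x using LocalizedModule.induction_on with
  | h m s => simp [Module.End.mul_apply]

/-- `locEnd` as an isomorphism of rings -/
noncomputable def locEndRing : LocalizedModule S (Module.End R M) ≃+*
    Module.End (Localization S) (LocalizedModule S M) :=
  { (locEnd S M).toAddEquiv with
    map_mul' := by
      intro x y
      change locEnd S M (x * y) = locEnd S M x * locEnd S M y
      induction x using LocalizedModule.induction_on with
      | h a s =>
        induction y using LocalizedModule.induction_on with
        | h b t =>
          rw [LocalizedModule.mk_mul_mk]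
          have hinj := IsLocalizedModule.smul_injective
            (LocalizedModule.map S : (M →ₗ[R] M) →ₗ[R] _) (s * t)
          apply hinj
          change (s * t) • locEnd S M (LocalizedModule.mk (a * b) (s * t)) =
            (s * t) • (locEnd S M (LocalizedModule.mk a s) * locEnd S M (LocalizedModule.mk b t))
          rw [smul_locEnd_mk, map_mul', ← smul_locEnd_mk S M a s, ← smul_locEnd_mk S M b t]
          change (s : R) • locEnd S M (LocalizedModule.mk a s) *
            (t : R) • locEnd S M (LocalizedModule.mk b t) = ((s : R) * (t : R)) • _
          rw [smul_mul_smul_comm] }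

end loc

end Pool.Agent.V1145.NC
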