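import Pool.Agent.V1145.NC6
import Pool.Agent.V1145.NC7
import Pool.Agent.TH350.J294
import Pool.Agent.TH480.J296

/-!
The local ring of `w⁴ + x³ + y³ + z³ = 0` at the origin has modules of infinite projective
dimension; `R` has no non-commutative crepant resolution.
-/

set_option autoImplicit false
set_option backward.isDefEq.respectTransparency.types true

open CategoryTheory Abelian Pool.Agent.TH215.TM
open Pool.Agent.TH350.J294 hiding ff

namespace Pool.Agent.V1145.NC

/-- evaluation at the origin -/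
noncomputable def ev0 : RR →+* ℂ := (TrivSqZeroExt.fstHom ℂ ℂ ℂ).toRingHom.comp θ

/-- the maximal ideal of the origin -/
noncomputable def m0 : Ideal RR := RingHom.ker ev0

instance m0_prime : m0.IsPrime := RingHom.ker_isPrime ev0

/-- the local ring of the origin -/
abbrev Rm : Type := Localization.AtPrime m0

theorem isUnit_theta (s : m0.primeCompl) : IsUnit (θ s) := by
  rw [TrivSqZeroExt.isUnit_iff_isUnit_fst]
  rw [isUnit_iff_ne_zero]
  intro h
  exact s.2 h

/-- extension of `θ` to the local ring -/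
noncomputable def θm : Rm →+* DualNumber ℂ := IsLocalization.lift (M := m0.primeCompl) isUnit_theta

theorem θm_algebraMap (x : RR) : θm (algebraMap RR Rm x) = θ x :=
  IsLocalization.lift_eq isUnit_theta x

theorem algebraMap_Rm_injective : Function.Injective (algebraMap RR Rm) := by
  have := Pool.Agent.TH480.J295.isDomain_RR
  exact IsLocalization.injective Rm m0.primeCompl_le_nonZeroDivisors

theorem ker_eq_range_loc {n : Type} [Fintype n] [DecidableEq n] (P Q : Matrix n n RR)
    (h : LinearMap.ker P.mulVecLin = LinearMap.range Q.mulVecLin) :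
    LinearMap.ker (P.map (algebraMap RR Rm)).mulVecLin =
      LinearMap.range (Q.map (algebraMap RR Rm)).mulVecLin := by
  have hPQ : P * Q = 0 := by
    ext i j
    have h1 : Q.mulVecLin (Pi.single j 1) ∈ LinearMap.ker P.mulVecLin := by
      rw [h]; exact ⟨_, rfl⟩
    rw [LinearMap.mem_ker, Matrix.mulVecLin_apply, Matrix.mulVecLin_apply,
      Matrix.mulVec_mulVec] at h1
    have h2 := congrFun h1 i
    simpa using h2
  apply le_antisymm
  · intro v hv
    rw [LinearMap.mem_ker, Matrix.mulVecLin_apply] at hv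
    obtain ⟨s, hs⟩ := IsLocalization.exist_integer_multiples_of_finite m0.primeCompl v
    choose u hu using hs
    have hu' : (algebraMap RR Rm) ∘ u = algebraMap RR Rm s • v := by
      funext i
      rw [Function.comp_apply, hu i, Pi.smul_apply, smul_eq_mul, Algebra.smul_def]
    have h3 : P.mulVec u = 0 := by
      have h4 : (algebraMap RR Rm) ∘ (P.mulVec u) = 0 := by
        have h5 : (algebraMap RR Rm) ∘ (P.mulVec u) =
            (P.map (algebraMap RR Rm)).mulVec ((algebraMap RR Rm) ∘ u) := by
          funext i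
          exact RingHom.map_mulVec (algebraMap RR Rm) P u i
        rw [h5, hu', Matrix.mulVec_smul, hv, smul_zero]
      funext i
      apply algebraMap_Rm_injective
      rw [Pi.zero_apply, map_zero]
      exact congrFun h4 i
    have h6 : u ∈ LinearMap.range Q.mulVecLin := by
      rw [← h]
      exact h3
    obtain ⟨u', hu2⟩ := h6
    obtain ⟨t, ht⟩ := (IsLocalization.map_units Rm s).exists_left_inv
    refine ⟨t • ((algebraMap RR Rm) ∘ u'), ?_⟩
    have h7 : (Q.map (algebraMap RR Rm)).mulVec ((algebraMap RR Rm) ∘ u') =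
        (algebraMap RR Rm) ∘ u := by
      rw [← hu2]
      funext i
      exact (RingHom.map_mulVec (algebraMap RR Rm) Q u' i).symm
    rw [Matrix.mulVecLin_apply, Matrix.mulVec_smul, h7, hu', smul_smul, ht, one_smul]
  · rintro _ ⟨u, rfl⟩
    rw [LinearMap.mem_ker, Matrix.mulVecLin_apply, Matrix.mulVecLin_apply, Matrix.mulVec_mulVec,
      ← Matrix.map_mul, hPQ]
    simp

theorem unbounded_loc : ∃ N : ModuleCat.{0} Rm, Module.Finite Rm N ∧
    ∀ n : ℕ, ∃ j, n ≤ j ∧ Nontrivial (Ext N N j) := by
  have hff : Pool.Agent.TH350.J294.ff ≠ 0 := (Polynomial.monic_X_pow_add_C g3 (by norm_num)).ne_zero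
  obtain ⟨t, ht⟩ : ∃ t : Polynomial S3, t = Polynomial.X := ⟨_, rfl⟩
  obtain ⟨a, ha⟩ : ∃ a : Polynomial S3, a = Polynomial.C (MvPolynomial.X 0 + MvPolynomial.X 1) :=
    ⟨_, rfl⟩
  obtain ⟨b, hb⟩ : ∃ b : Polynomial S3, b = Polynomial.C (MvPolynomial.X 0 ^ 2 -
    MvPolynomial.X 0 * MvPolynomial.X 1 + MvPolynomial.X 1 ^ 2) := ⟨_, rfl⟩
  obtain ⟨z, hz⟩ : ∃ z : Polynomial S3, z = Polynomial.C (MvPolynomial.X 2) := ⟨_, rfl⟩
  have hff' : Pool.Agent.TH350.J294.ff = t ^ 4 + a * b + z ^ 3 := by rw [ff_eq, ht, ha, hb, hz]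
  have hPQ : P4 t a b z * Q4 t a b z = Pool.Agent.TH350.J294.ff • 1 := by rw [P4_mul_Q4, hff']
  have hQP : Q4 t a b z * P4 t a b z = Pool.Agent.TH350.J294.ff • 1 := by rw [Q4_mul_P4, hff']
  have e1 : θ (AdjoinRoot.mk Pool.Agent.TH350.J294.ff t) = DualNumber.eps := by
    rw [ht, AdjoinRoot.mk_X]
    exact AdjoinRoot.lift_root _
  have e2 : θ (AdjoinRoot.mk Pool.Agent.TH350.J294.ff a) = 0 := by
    rw [ha, AdjoinRoot.mk_C]
    exact (AdjoinRoot.lift_of _).trans (by simp)
  have e3 : θ (AdjoinRoot.mk Pool.Agent.TH350.J294.ff b) = 0 := by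
    rw [hb, AdjoinRoot.mk_C]
    exact (AdjoinRoot.lift_of _).trans (by simp)
  have e4 : θ (AdjoinRoot.mk Pool.Agent.TH350.J294.ff z) = 0 := by
    rw [hz, AdjoinRoot.mk_C]
    exact (AdjoinRoot.lift_of _).trans (by simp)
  have k1 := ker_eq_range Pool.Agent.TH350.J294.ff hff (AdjoinRoot.mk Pool.Agent.TH350.J294.ff) AdjoinRoot.mk_surjective
    (fun a => AdjoinRoot.mk_eq_zero) _ _ hPQ hQP
  have k2 := ker_eq_range Pool.Agent.TH350.J294.ff hff (AdjoinRoot.mk Pool.Agent.TH350.J294.ff) AdjoinRoot.mk_surjective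
    (fun a => AdjoinRoot.mk_eq_zero) _ _ hQP hPQ
  have k1' := ker_eq_range_loc _ _ k1
  have k2' := ker_eq_range_loc _ _ k2
  let π' : Polynomial S3 →+* Rm := (algebraMap RR Rm).comp (AdjoinRoot.mk Pool.Agent.TH350.J294.ff)
  have mm : ∀ M : Matrix (Fin 4) (Fin 4) (Polynomial S3),
      (M.map (AdjoinRoot.mk Pool.Agent.TH350.J294.ff)).map (algebraMap RR Rm) = M.map π' := fun M => by
    rw [Matrix.map_map]
    rfl
  rw [mm, mm] at k1' k2'
  exact unbounded_of_periodic (Fin 4 → Rm) _ _ k1' k2'
    fun ⟨γ, hγ⟩ => not_regular π' θm t a b z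
      ((θm_algebraMap _).trans e1) ((θm_algebraMap _).trans e2) ((θm_algebraMap _).trans e3)
      ((θm_algebraMap _).trans e4) γ hγ

theorem not_pd (n : ℕ) (h : ∀ X : ModuleCat.{0} Rm, HasProjectiveDimensionLT X n) : False := by
  obtain ⟨N, -, hN⟩ := unbounded_loc
  obtain ⟨j, hj, hjN⟩ := hN n
  have := h N
  have h2 := HasProjectiveDimensionLT.subsingleton N n j hj N
  exact not_nontrivial_iff_subsingleton.2 h2 hjN

theorem dim_Rm : ringKrullDim Rm ≤ 3 := by
  have h1 := IsLocalization.AtPrime.ringKrullDim_eq_height m0 Rm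
  rw [h1, ← Pool.Agent.TH480.J296.dim_RR]
  exact Ideal.height_le_ringKrullDim_of_ne_top m0_prime.ne_top

/-- The localization at the origin of the endomorphism ring of a nonzero reflexive module with
maximal Cohen-Macaulay endomorphism ring has infinite global dimension. -/
theorem gldim_ne (M : Type) [AddCommGroup M] [Module RR M] [Nontrivial M] [Module.Finite RR M]
    (hM : Module.IsReflexive RR M) (h : IsCM RR (Module.End RR M)) :
    gldim (LocalizedModule m0.primeCompl (Module.End RR M)) ≠ ringKrullDim Rm := by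
  intro hgl
  have hdom := Pool.Agent.TH480.J295.isDomain_RR
  have hN : IsNoetherianRing RR := inferInstance
  have hp := projective_of_reflexive M hM h
  have hfp : Module.FinitePresentation RR M := Module.finitePresentation_of_finite RR M
  set S := m0.primeCompl with hS
  have h1 : ∀ X : ModuleCat.{0} (LocalizedModule S (Module.End RR M)),
      HasProjectiveDimensionLT X (3 + 1) := fun X =>
    pd_of_gldim_le (n := 3) (by rw [hgl]; exact_mod_cast dim_Rm) X
  have h2 := pd_ringEquiv (locEndRing S M) 3 h1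
  have hfin : Module.Finite Rm (LocalizedModule S M) :=
    Module.Finite.of_isLocalizedModule S (LocalizedModule.mkLinearMap S M)
  have hproj : Module.Projective Rm (LocalizedModule S M) :=
    Module.projective_of_isLocalizedModule S (LocalizedModule.mkLinearMap S M)
  have hfree : Module.Free Rm (LocalizedModule S M) := Module.free_of_flat_of_isLocalRing
  have hnt : Nontrivial (LocalizedModule S M) := by
    obtain ⟨v, hv⟩ := exists_ne (0 : M)
    refine ⟨LocalizedModule.mkLinearMap S M v, 0, fun h0 => hv ?_⟩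
    rw [← map_zero (LocalizedModule.mkLinearMap S M)] at h0
    obtain ⟨s, hs⟩ := IsLocalizedModule.exists_of_eq (S := S)
      (f := LocalizedModule.mkLinearMap S M) h0
    rw [smul_zero] at hs
    obtain ⟨j, hj⟩ := Module.projective_def'.1 hp
    have hjv : ∀ v, (Finsupp.linearCombination RR id) (j v) = v := fun v =>
      LinearMap.congr_fun hj v
    have h3 : (s : RR) • j v = 0 := by
      rw [← map_smul]
      exact (congrArg j hs).trans (map_zero j)
    have hs0 : (s : RR) ≠ 0 := by
      intro h4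
      apply s.2
      rw [h4]
      exact m0.zero_mem
    have h5 : j v = 0 := by
      ext x
      have h6 := DFunLike.congr_fun h3 x
      rw [Finsupp.smul_apply, smul_eq_mul] at h6
      exact (mul_eq_zero.1 h6).resolve_left hs0
    rw [← hjv v, h5, map_zero]
  let b := Module.finBasis Rm (LocalizedModule S M)
  have hr : 0 < Module.finrank Rm (LocalizedModule S M) := Module.finrank_pos
  have h3 := pd_ringEquiv (LinearMap.toMatrixAlgEquiv b).toRingEquiv 3 h2
  exact not_pd 4 (pd_matrix _ hr 3 h3)

end Pool.Agent.V1145.NC
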