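import Mathlib

/-!
Star forests in two-coloured complete graphs: the embedding theorem.
-/

namespace Pool.Agent.V1145.SF

open Finset

set_option linter.unusedSectionVars false

variable {V : Type*} [Fintype V] [DecidableEq V]

open Classical in
/-- The set of the elements of `S` which are related to `v`. -/
noncomputable def nb (A : V → V → Prop) (v : V) (S : Finset V) : Finset V :=
  S.filter (fun x => A v x)

theorem mem_nb {A : V → V → Prop} {v x : V} {S : Finset V} : x ∈ nb A v S ↔ x ∈ S ∧ A v x := by
  classical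
  simp [nb]

theorem nb_subset {A : V → V → Prop} {v : V} {S : Finset V} : nb A v S ⊆ S := by
  classical
  exact Finset.filter_subset _ _

/-- Hall's theorem with capacities. -/
theorem hall_cap (T : ℕ → Finset V) (s : ℕ → ℕ) (j : ℕ)
    (h : ∀ I ⊆ range j, ∑ i ∈ I, s i ≤ (I.biUnion T).card) :
    ∃ D : ℕ → Finset V, (∀ i < j, D i ⊆ T i) ∧ (∀ i < j, (D i).card = s i) ∧
      ∀ i < j, ∀ i' < j, i ≠ i' → Disjoint (D i) (D i') := by
  classical
  obtain ⟨g, hg, hgT⟩ := (Finset.all_card_le_biUnion_card_iff_exists_injective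
    (fun x : (Σ i : Fin j, Fin (s i)) => T x.1)).1 (by
      intro A
      set I : Finset ℕ := A.image (fun x => (x.1 : ℕ)) with hI
      have hIr : I ⊆ range j := by
        intro i hi
        rw [hI, Finset.mem_image] at hi
        obtain ⟨x, _, rfl⟩ := hi
        exact Finset.mem_range.2 x.1.2
      have h1 : A.card ≤ ∑ i ∈ I, s i := by
        rw [Finset.card_eq_sum_card_fiberwise (f := fun x : (Σ i : Fin j, Fin (s i)) => (x.1 : ℕ))
          (t := I) (fun x hx => by
            rw [hI]
            exact Finset.mem_coe.2 (Finset.mem_image_of_mem _ hx))]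
        refine Finset.sum_le_sum fun i hi => ?_
        have hij : i < j := Finset.mem_range.1 (hIr hi)
        calc (A.filter (fun x => (x.1 : ℕ) = i)).card
            ≤ (Finset.univ.image (fun y : Fin (s i) =>
              (⟨⟨i, hij⟩, y⟩ : (Σ i : Fin j, Fin (s i))))).card := by
              refine Finset.card_le_card ?_
              intro x hx
              obtain ⟨⟨a, ha⟩, y⟩ := x
              have : a = i := (Finset.mem_filter.1 hx).2
              subst this
              exact Finset.mem_image.2 ⟨y, Finset.mem_univ _, rfl⟩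
          _ ≤ s i := by
              refine Finset.card_image_le.trans ?_
              simp
      have h2 : (A.biUnion fun x => T x.1) = I.biUnion T := by
        ext v
        simp [hI]
      rw [h2]
      exact h1.trans (h I hIr))
  refine ⟨fun i => if h : i < j then Finset.univ.image (fun y : Fin (s i) => g ⟨⟨i, h⟩, y⟩) else ∅,
    ?_, ?_, ?_⟩
  · intro i hi v hv
    simp only [hi, dif_pos, Finset.mem_image, Finset.mem_univ, true_and] at hv
    obtain ⟨y, rfl⟩ := hv
    exact hgT ⟨⟨i, hi⟩, y⟩
  · intro i hi
    simp only [hi, dif_pos]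
    rw [Finset.card_image_of_injective]
    · simp
    · intro a b hab
      have := hg hab
      simpa using this
  · intro i hi i' hi' hne
    simp only [hi, hi', dif_pos]
    rw [Finset.disjoint_left]
    intro v hv hv'
    simp only [Finset.mem_image, Finset.mem_univ, true_and] at hv hv'
    obtain ⟨y, rfl⟩ := hv
    obtain ⟨y', hy'⟩ := hv'
    have := hg hy'
    have h3 : (⟨i', hi'⟩ : Fin j) = ⟨i, hi⟩ := congrArg Sigma.fst this
    exact hne (Fin.mk.inj h3).symm

/-- The state of the construction after the choice of `j` centres. -/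
def HS (A : V → V → Prop) (W : Finset V) (s : ℕ → ℕ) (k : ℕ) (c : ℕ → V) (j : ℕ) : Prop :=
  Set.InjOn c (Set.Iio j) ∧ (∀ i < j, c i ∈ W) ∧
    ∀ I ⊆ range j, I.Nonempty →
      (∑ i ∈ I, s i) + (k - j) ≤ ((I.biUnion fun i => nb A (c i) W) \ (range j).image c).card

/-- The sets of leaves. -/
def Leaves (A : V → V → Prop) (W : Finset V) (s : ℕ → ℕ) (c : ℕ → V) (j : ℕ)
    (D : ℕ → Finset V) : Prop :=
  (∀ i < j, D i ⊆ nb A (c i) W \ (range j).image c) ∧ (∀ i < j, (D i).card = s i) ∧
      ∀ i < j, ∀ i' < j, i ≠ i' → Disjoint (D i) (D i')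

theorem exists_leaves {A : V → V → Prop} {W : Finset V} {s : ℕ → ℕ} {k : ℕ} {c : ℕ → V} {j : ℕ}
    (h : HS A W s k c j) : ∃ D, Leaves A W s c j D := by
  classical
  refine hall_cap (fun i => nb A (c i) W \ (range j).image c) s j ?_
  intro I hI
  rcases I.eq_empty_or_nonempty with rfl | hne
  · simp
  · have h1 := h.2.2 I hI hne
    have h2 : (I.biUnion fun i => nb A (c i) W \ (range j).image c) =
        ((I.biUnion fun i => nb A (c i) W) \ (range j).image c) := by
      ext v
      simp only [Finset.mem_biUnion, Finset.mem_sdiff]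
      constructor
      · rintro ⟨i, hi, h3, h4⟩
        exact ⟨⟨i, hi, h3⟩, h4⟩
      · rintro ⟨⟨i, hi, h3⟩, h4⟩
        exact ⟨i, hi, h3, h4⟩
    rw [h2]
    omega

/-- The unused vertices. -/
def Rest (W : Finset V) (c : ℕ → V) (j : ℕ) (D : ℕ → Finset V) : Finset V :=
  W \ ((range j).image c ∪ (range j).biUnion D)

theorem extend {A : V → V → Prop} {W : Finset V} {s : ℕ → ℕ} {k : ℕ} {c : ℕ → V} {j : ℕ}
    {D : ℕ → Finset V} (h : HS A W s k c j) (hD : Leaves A W s c j D) (hjk : j < k)
    {v : V} (hvW : v ∈ W) (hvP : v ∉ (range j).image c)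
    (hv : s j + (k - j) ≤ (nb A v (Rest W c j D)).card) :
    HS A W s k (Function.update c j v) (j + 1) := by
  classical
  have hup : ∀ i < j, Function.update c j v i = c i := fun i hi =>
    Function.update_of_ne (by omega) _ _
  have hupj : Function.update c j v j = v := Function.update_self _ _ _
  have hP : (range (j + 1)).image (Function.update c j v) = insert v ((range j).image c) := by
    rw [Finset.range_add_one, Finset.image_insert, hupj]
    congr 1
    refine Finset.image_congr ?_
    intro i hi
    exact hup i (Finset.mem_range.1 hi)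
  refine ⟨?_, ?_, ?_⟩
  · intro a ha b hb hab
    rw [Set.mem_Iio] at ha hb
    rcases Nat.lt_succ_iff_lt_or_eq.1 ha with ha' | ha' <;>
      rcases Nat.lt_succ_iff_lt_or_eq.1 hb with hb' | hb'
    · rw [hup a ha', hup b hb'] at hab
      exact h.1 ha' hb' hab
    · subst hb'
      rw [hup a ha', hupj] at hab
      exact absurd (Finset.mem_image.2 ⟨a, Finset.mem_range.2 ha', hab⟩) hvP
    · subst ha'
      rw [hup b hb', hupj] at hab
      exact absurd (Finset.mem_image.2 ⟨b, Finset.mem_range.2 hb', hab.symm⟩) hvP
    · rw [ha', hb']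
  · intro i hi
    rcases Nat.lt_succ_iff_lt_or_eq.1 hi with hi' | hi'
    · rw [hup i hi']
      exact h.2.1 i hi'
    · rw [hi', hupj]
      exact hvW
  · intro I hI hne
    rw [hP]
    by_cases hjI : j ∈ I
    · set I0 := I.erase j with hI0
      have hI0r : I0 ⊆ range j := by
        intro i hi
        have h1 := Finset.mem_erase.1 hi
        have h2 := Finset.mem_range.1 (hI h1.2)
        exact Finset.mem_range.2 (by omega)
      have hlt : ∀ i ∈ I0, i < j := fun i hi => Finset.mem_range.1 (hI0r hi)
      have hsum : ∑ i ∈ I, s i = (∑ i ∈ I0, s i) + s j := by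
        rw [hI0, Finset.sum_erase_add _ _ hjI]
      have hsub : ((I0.biUnion D ∪ nb A v (Rest W c j D)).erase v) ⊆
          ((I.biUnion fun i => nb A (Function.update c j v i) W) \
            insert v ((range j).image c)) := by
        intro x hx
        obtain ⟨hxv, hx⟩ := Finset.mem_erase.1 hx
        rw [Finset.mem_sdiff, Finset.mem_insert, Finset.mem_biUnion]
        rcases Finset.mem_union.1 hx with hx | hx
        · obtain ⟨i, hi, hxi⟩ := Finset.mem_biUnion.1 hx
          have h3 := Finset.mem_sdiff.1 (hD.1 i (hlt i hi) hxi)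
          refine ⟨⟨i, (Finset.mem_erase.1 hi).2, ?_⟩, ?_⟩
          · rw [hup i (hlt i hi)]
            exact h3.1
          · rintro (h4 | h4)
            · exact hxv h4
            · exact h3.2 h4
        · have h3 := mem_nb.1 hx
          have h4 := Finset.mem_sdiff.1 h3.1
          refine ⟨⟨j, hjI, ?_⟩, ?_⟩
          · rw [hupj]
            exact mem_nb.2 ⟨h4.1, h3.2⟩
          · rintro (h5 | h5)
            · exact hxv h5
            · exact h4.2 (Finset.mem_union_left _ h5)
      have hdisj : Disjoint (I0.biUnion D) (nb A v (Rest W c j D)) := by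
        rw [Finset.disjoint_left]
        intro x hx hx'
        have h3 := Finset.mem_sdiff.1 (mem_nb.1 hx').1
        refine h3.2 (Finset.mem_union_right _ ?_)
        obtain ⟨i, hi, hxi⟩ := Finset.mem_biUnion.1 hx
        exact Finset.mem_biUnion.2 ⟨i, hI0r hi, hxi⟩
      have hcD : (I0.biUnion D).card = ∑ i ∈ I0, s i := by
        rw [Finset.card_biUnion]
        · exact Finset.sum_congr rfl fun i hi => hD.2.1 i (hlt i hi)
        · intro a ha b hb hab
          exact hD.2.2 a (hlt a ha) b (hlt b hb) hab
      have hc := Finset.card_le_card hsub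
      have hc2 := Finset.pred_card_le_card_erase (s := I0.biUnion D ∪ nb A v (Rest W c j D))
        (a := v)
      rw [Finset.card_union_of_disjoint hdisj, hcD] at hc2
      omega
    · have hIr : I ⊆ range j := by
        intro i hi
        have h2 := Finset.mem_range.1 (hI hi)
        have h3 : i ≠ j := fun h4 => hjI (h4 ▸ hi)
        exact Finset.mem_range.2 (by omega)
      have h1 := h.2.2 I hIr hne
      have h2 : (I.biUnion fun i => nb A (Function.update c j v i) W) =
          (I.biUnion fun i => nb A (c i) W) := by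
        refine Finset.biUnion_congr rfl ?_
        intro i hi
        rw [hup i (Finset.mem_range.1 (hIr hi))]
      rw [h2]
      have h3 : (I.biUnion fun i => nb A (c i) W) \ insert v ((range j).image c) =
          ((I.biUnion fun i => nb A (c i) W) \ (range j).image c).erase v := by
        ext x
        simp only [Finset.mem_sdiff, Finset.mem_insert, Finset.mem_erase, not_or]
        tauto
      rw [h3]
      have h4 := Finset.pred_card_le_card_erase
        (s := (I.biUnion fun i => nb A (c i) W) \ (range j).image c) (a := v)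
      omega

/-- Either the construction with centres in `Z` succeeds or it is stuck. -/
theorem process (A : V → V → Prop) (W Z : Finset V) (hZ : Z ⊆ W) (s : ℕ → ℕ) (k : ℕ) (c0 : ℕ → V) :
    (∃ c, HS A W s k c k) ∨ ∃ j < k, ∃ c D, HS A W s k c j ∧ (∀ i < j, c i ∈ Z) ∧
      Leaves A W s c j D ∧
      ∀ v ∈ Z, v ∉ (range j).image c → (nb A v (Rest W c j D)).card < s j + (k - j) := by
  classical
  by_contra hcon
  push Not at hcon
  obtain ⟨h1, h2⟩ := hcon
  have key : ∀ j ≤ k, ∃ c, HS A W s k c j ∧ ∀ i < j, c i ∈ Z := by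
    intro j
    induction j with
    | zero =>
      intro _
      refine ⟨c0, ⟨?_, ?_, ?_⟩, ?_⟩
      · intro a ha
        exact absurd ha (by simp)
      · intro i hi
        omega
      · intro I hI hne
        obtain ⟨i, hi⟩ := hne
        exact absurd (Finset.mem_range.1 (hI hi)) (by omega)
      · intro i hi
        omega
    | succ j ih =>
      intro hj
      obtain ⟨c, hc, hcZ⟩ := ih (by omega)
      obtain ⟨D, hD⟩ := exists_leaves hc
      obtain ⟨v, hvZ, hvP, hv⟩ := h2 j (by omega) c D hc hcZ hD
      refine ⟨_, extend hc hD (by omega) (hZ hvZ) hvP hv, ?_⟩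
      intro i hi
      rcases Nat.lt_succ_iff_lt_or_eq.1 hi with hi' | hi'
      · rw [Function.update_of_ne (by omega)]
        exact hcZ i hi'
      · rw [hi', Function.update_self]
        exact hvZ
  obtain ⟨c, hc, _⟩ := key k le_rfl
  exact h1 c hc

/-- The number of vertices of the last stars. -/
def S (s : ℕ → ℕ) (k j : ℕ) : ℕ := ∑ i ∈ Finset.Ico j k, (s i + 1)

theorem S_split (s : ℕ → ℕ) {k j : ℕ} (hj : j ≤ k) :
    S s k 0 = j + (∑ i ∈ range j, s i) + S s k j := by
  unfold S
  rw [← Finset.sum_Ico_consecutive (fun i => s i + 1) (Nat.zero_le j) hj,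
    Finset.sum_add_distrib (s := Finset.Ico 0 j)]
  simp only [Finset.sum_const, Nat.card_Ico, smul_eq_mul, mul_one, Nat.sub_zero]
  rw [Finset.range_eq_Ico]
  ring

theorem card_rest {A : V → V → Prop} {W : Finset V} {s : ℕ → ℕ} {k : ℕ} {c : ℕ → V} {j : ℕ}
    {D : ℕ → Finset V} (h : HS A W s k c j) (hD : Leaves A W s c j D) :
    (Rest W c j D).card + j + ∑ i ∈ range j, s i = W.card := by
  classical
  have hP : ((range j).image c).card = j := by
    rw [Finset.card_image_of_injOn, Finset.card_range]
    intro a ha b hb hab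
    exact h.1 (Finset.mem_range.1 ha) (Finset.mem_range.1 hb) hab
  have hDc : ((range j).biUnion D).card = ∑ i ∈ range j, s i := by
    rw [Finset.card_biUnion]
    · exact Finset.sum_congr rfl fun i hi => hD.2.1 i (Finset.mem_range.1 hi)
    · intro a ha b hb hab
      exact hD.2.2 a (Finset.mem_range.1 ha) b (Finset.mem_range.1 hb) hab
  have hdis : Disjoint ((range j).image c) ((range j).biUnion D) := by
    rw [Finset.disjoint_left]
    intro x hx hx'
    obtain ⟨i, hi, hxi⟩ := Finset.mem_biUnion.1 hx'
    exact (Finset.mem_sdiff.1 (hD.1 i (Finset.mem_range.1 hi) hxi)).2 hx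
  have hsub : ((range j).image c ∪ (range j).biUnion D) ⊆ W := by
    intro x hx
    rcases Finset.mem_union.1 hx with hx | hx
    · obtain ⟨i, hi, rfl⟩ := Finset.mem_image.1 hx
      exact h.2.1 i (Finset.mem_range.1 hi)
    · obtain ⟨i, hi, hxi⟩ := Finset.mem_biUnion.1 hx
      exact nb_subset (Finset.mem_sdiff.1 (hD.1 i (Finset.mem_range.1 hi) hxi)).1
  have h1 := Finset.card_sdiff_add_card_eq_card hsub
  rw [Finset.card_union_of_disjoint hdis, hP, hDc] at h1
  unfold Rest
  omega

/-- **The embedding theorem.** -/
theorem core (R B : V → V → Prop) (hBs : ∀ u v, B u v → B v u)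
    (hRB : ∀ u v, u ≠ v → R u v ∨ B u v) (s : ℕ → ℕ) (k t : ℕ) (c0 : ℕ → V)
    (hcard : Fintype.card V = t + S s k 0)
    (hcond : ∀ j < k, 2 * (k - j) + (k - 1) + 2 * s j ≤ t + S s k j) :
    (∃ c, HS R Finset.univ s k c k) ∨ (∃ W c, HS B W s k c k) := by
  classical
  rcases process R Finset.univ Finset.univ (Finset.Subset.refl _) s k c0 with h | h
  · exact Or.inl h
  right
  obtain ⟨j, hjk, c, D, hc, -, hD, hstuck⟩ := h
  set P := (range j).image c with hPdef
  set U := Rest Finset.univ c j D with hU
  have hUc : U.card = t + S s k j := by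
    have h1 := card_rest hc hD
    have h2 := S_split s hjk.le
    rw [Finset.card_univ] at h1
    rw [← hU] at h1
    omega
  have hPc : P.card = j := by
    rw [hPdef, Finset.card_image_of_injOn, Finset.card_range]
    intro a ha b hb hab
    exact hc.1 (Finset.mem_range.1 ha) (Finset.mem_range.1 hb) hab
  have hUP : U ⊆ Finset.univ \ P := by
    intro x hx
    have h1 := Finset.mem_sdiff.1 hx
    refine Finset.mem_sdiff.2 ⟨Finset.mem_univ _, fun h2 => h1.2 (Finset.mem_union_left _ h2)⟩
  have hblue : ∀ v, v ∉ P → t + S s k j ≤ (nb B v U).card + (s j + (k - j)) := by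
    intro v hv
    have h1 := hstuck v (Finset.mem_univ _) hv
    have h2 : U ⊆ insert v (nb R v U ∪ nb B v U) := by
      intro x hx
      by_cases hxv : x = v
      · rw [hxv]
        exact Finset.mem_insert_self _ _
      · rcases hRB v x (Ne.symm hxv) with h3 | h3
        · exact Finset.mem_insert_of_mem (Finset.mem_union_left _ (mem_nb.2 ⟨hx, h3⟩))
        · exact Finset.mem_insert_of_mem (Finset.mem_union_right _ (mem_nb.2 ⟨hx, h3⟩))
    have h3 := Finset.card_le_card h2
    have h4 := Finset.card_insert_le v (nb R v U ∪ nb B v U)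
    have h5 := Finset.card_union_le (nb R v U) (nb B v U)
    omega
  refine ⟨Finset.univ \ P, ?_⟩
  rcases process B (Finset.univ \ P) U hUP s k c0 with h | h
  · exact h
  exfalso
  obtain ⟨i, hik, b, E, hb, hbU, hE, hst⟩ := h
  set Q := (range i).image b with hQdef
  set X := Rest (Finset.univ \ P) b i E with hX
  have hQc : Q.card = i := by
    rw [hQdef, Finset.card_image_of_injOn, Finset.card_range]
    intro a ha b' hb' hab
    exact hb.1 (Finset.mem_range.1 ha) (Finset.mem_range.1 hb') hab
  have hXc : X.card + j = t + S s k i := by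
    have h1 := card_rest hb hE
    have h2 := S_split s hik.le
    rw [Finset.card_sdiff_of_subset (Finset.subset_univ _), Finset.card_univ, hPc] at h1
    rw [← hX] at h1
    have h3 := S_split s hjk.le
    omega
  have hQU : Q ⊆ U := by
    intro x hx
    obtain ⟨a, ha, rfl⟩ := Finset.mem_image.1 hx
    exact hbU a (Finset.mem_range.1 ha)
  have hUQ : (U \ Q).card + i = t + S s k j := by
    have := Finset.card_sdiff_add_card_eq_card hQU
    omega
  -- double counting
  have hdc : ∑ x ∈ X, (nb B x (U \ Q)).card = ∑ y ∈ U \ Q, (nb B y X).card := by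
    have := Finset.sum_card_bipartiteAbove_eq_sum_card_bipartiteBelow (s := X) (t := U \ Q)
      (fun x y => B x y)
    unfold Finset.bipartiteAbove Finset.bipartiteBelow at this
    unfold nb
    convert this using 3
    ext x
    simp only [Finset.mem_filter]
    constructor
    · rintro ⟨h1, h2⟩
      exact ⟨h1, hBs _ _ h2⟩
    · rintro ⟨h1, h2⟩
      exact ⟨h1, hBs _ _ h2⟩
  have hup : ∑ y ∈ U \ Q, (nb B y X).card ≤ (U \ Q).card * (s i + (k - i) - 1) := by
    rw [← smul_eq_mul, ← Finset.sum_const]
    refine Finset.sum_le_sum ?_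
    intro y hy
    have h1 := Finset.mem_sdiff.1 hy
    have h2 := hst y h1.1 h1.2
    omega
  have hlow : X.card * (t + S s k j - (s j + (k - j)) - i) ≤ ∑ x ∈ X, (nb B x (U \ Q)).card := by
    rw [← smul_eq_mul, ← Finset.sum_const]
    refine Finset.sum_le_sum ?_
    intro x hx
    have hxP : x ∉ P := by
      have h1 := Finset.mem_sdiff.1 hx
      exact (Finset.mem_sdiff.1 h1.1).2
    have h1 := hblue x hxP
    have h2 : nb B x U ⊆ nb B x (U \ Q) ∪ Q := by
      intro y hy
      have h3 := mem_nb.1 hy
      by_cases hyQ : y ∈ Q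
      · exact Finset.mem_union_right _ hyQ
      · exact Finset.mem_union_left _ (mem_nb.2 ⟨Finset.mem_sdiff.2 ⟨h3.1, hyQ⟩, h3.2⟩)
    have h3 := Finset.card_le_card h2
    have h4 := Finset.card_union_le (nb B x (U \ Q)) Q
    omega
  have hfin := (hlow.trans hdc.le).trans hup
  have hcj := hcond j hjk
  have hci := hcond i hik
  set a := (U \ Q).card with ha
  set x := X.card with hx
  set q := t + S s k j - (s j + (k - j)) - i with hq
  set r := s i + (k - i) - 1 with hr
  have h1 : a ≤ 2 * q := by omega
  have h2 : 2 * r + 2 ≤ x := by omega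
  have h3 : 0 < a := by omega
  nlinarith

end Pool.Agent.V1145.SF
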