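import Pool.Agent.V1145.SF1

/-!
Star forests with small Ramsey numbers.
-/

namespace Pool.Agent.V1145.SF

open Finset

/-- `Arrows N G`: every colouring of the edges of the complete graph on `N` vertices with two
colours contains a monochromatic subgraph isomorphic to `G`. -/
def Arrows {n : ℕ} (N : ℕ) (G : SimpleGraph (Fin n)) : Prop :=
  ∀ c : Sym2 (Fin N) → Bool, ∃ (b : Bool) (f : Fin n → Fin N),
    Function.Injective f ∧ ∀ u v, G.Adj u v → c s(f u, f v) = b

/-- The vertices of the star forest with `k` stars with `s i` leaves. -/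
abbrev T (s : ℕ → ℕ) (k : ℕ) : Type := Σ i : Fin k, Option (Fin (s i))

/-- The star forest. -/
def forest (s : ℕ → ℕ) (k : ℕ) : SimpleGraph (T s k) where
  Adj x y := x.1 = y.1 ∧ x.2.isNone ≠ y.2.isNone
  symm := ⟨fun _ _ h => ⟨h.1.symm, h.2.symm⟩⟩
  loopless := ⟨fun _ h => h.2 rfl⟩

theorem card_T (s : ℕ → ℕ) (k : ℕ) : Fintype.card (T s k) = S s k 0 := by
  rw [Fintype.card_sigma]
  simp only [Fintype.card_option, Fintype.card_fin]
  unfold S
  rw [Fin.sum_univ_eq_sum_range (fun i : ℕ => s i + 1) k, Finset.range_eq_Ico]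

theorem embed {V : Type*} [Fintype V] [DecidableEq V] {A : V → V → Prop} {W : Finset V}
    {s : ℕ → ℕ} {k : ℕ} {c : ℕ → V} (h : HS A W s k c k) (hA : ∀ u v, A u v → A v u) :
    ∃ f : T s k → V, Function.Injective f ∧ ∀ u v, (forest s k).Adj u v → A (f u) (f v) := by
  classical
  obtain ⟨D, hD1, hD2, hD3⟩ := exists_leaves h
  let e : ∀ i : Fin k, D i ≃ Fin (s i) := fun i => Finset.equivFinOfCardEq (hD2 i i.2)
  let f : T s k → V := fun x => match x with
    | ⟨i, none⟩ => c i
    | ⟨i, some y⟩ => ((e i).symm y : V)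
  have hfs : ∀ (i : Fin k) (y : Fin (s i)), f ⟨i, some y⟩ ∈ D i := fun i y => ((e i).symm y).2
  have hfn : ∀ (i : Fin k), f ⟨i, none⟩ = c i := fun i => rfl
  have hcD : ∀ i < k, ∀ i' < k, c i ∉ D i' := by
    intro i hi i' hi' hmem
    exact (Finset.mem_sdiff.1 (hD1 i' hi' hmem)).2
      (Finset.mem_image.2 ⟨i, Finset.mem_range.2 hi, rfl⟩)
  have hadj : ∀ (i : Fin k) (y : Fin (s i)), A (c i) (f ⟨i, some y⟩) := by
    intro i y
    exact (mem_nb.1 (Finset.mem_sdiff.1 (hD1 i i.2 (hfs i y))).1).2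
  refine ⟨f, ?_, ?_⟩
  · rintro ⟨i, x⟩ ⟨i', x'⟩ hxy
    rcases x with _ | y <;> rcases x' with _ | y'
    · rw [hfn, hfn] at hxy
      have := h.1 (show (i : ℕ) ∈ Set.Iio k from i.2) (show (i' : ℕ) ∈ Set.Iio k from i'.2) hxy
      have : i = i' := Fin.ext this
      subst this
      rfl
    · rw [hfn] at hxy
      exact absurd (hxy ▸ hfs i' y') (hcD i i.2 i' i'.2)
    · rw [hfn] at hxy
      exact absurd (hxy ▸ hfs i y) (hcD i' i'.2 i i.2)
    · by_cases hii : i = i'
      · subst hii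
        have h1 : (e i).symm y = (e i).symm y' := Subtype.ext hxy
        rw [(e i).symm.injective h1]
      · have h1 := hD3 i i.2 i' i'.2 (fun h => hii (Fin.ext h))
        exact absurd (hxy ▸ hfs i' y') (Finset.disjoint_left.1 h1 (hfs i y))
  · rintro ⟨i, x⟩ ⟨i', x'⟩ ⟨h1, h2⟩
    obtain rfl : i = i' := h1
    rcases x with _ | y <;> rcases x' with _ | y'
    · exact absurd rfl h2
    · exact hadj i y'
    · exact hA _ _ (hadj i y)
    · exact absurd rfl h2

/-- The star forest on `Fin n`. -/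
theorem exists_forest (s : ℕ → ℕ) (k t n : ℕ) (hn : n = S s k 0) (hk : 0 < k)
    (hs : ∀ i < k, 0 < s i)
    (hcond : ∀ j < k, 2 * (k - j) + (k - 1) + 2 * s j ≤ t + S s k j) :
    ∃ G : SimpleGraph (Fin n), (∀ v, ∃ w, G.Adj v w) ∧ Arrows (n + t) G := by
  classical
  have hc : Fintype.card (Fin n) = Fintype.card (T s k) := by
    rw [card_T, Fintype.card_fin, hn]
  let e : Fin n ≃ T s k := Fintype.equivOfCardEq hc
  refine ⟨(forest s k).comap e, ?_, ?_⟩
  · intro v
    rcases hv : e v with ⟨i, x⟩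
    rcases x with _ | y
    · refine ⟨e.symm ⟨i, some ⟨0, hs i i.2⟩⟩, ?_⟩
      rw [SimpleGraph.comap_adj, hv, Equiv.apply_symm_apply]
      exact ⟨rfl, by simp⟩
    · refine ⟨e.symm ⟨i, none⟩, ?_⟩
      rw [SimpleGraph.comap_adj, hv, Equiv.apply_symm_apply]
      exact ⟨rfl, by simp⟩
  · intro col
    have hN : 0 < n := by
      have h1 := hs 0 hk
      have h2 := S_split s (k := k) (j := 1) hk
      omega
    let c0 : ℕ → Fin (n + t) := fun _ => ⟨0, by omega⟩
    let A : Bool → Fin (n + t) → Fin (n + t) → Prop := fun b u v => u ≠ v ∧ col s(u, v) = b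
    have hAs : ∀ b u v, A b u v → A b v u := by
      intro b u v h
      refine ⟨h.1.symm, ?_⟩
      rw [Sym2.eq_swap]
      exact h.2
    have hfin : ∀ (b : Bool) (W : Finset (Fin (n + t))) (c : ℕ → Fin (n + t)),
        HS (A b) W s k c k →
        ∃ (b : Bool) (f : Fin n → Fin (n + t)), Function.Injective f ∧
          ∀ u v, ((forest s k).comap e).Adj u v → col s(f u, f v) = b := by
      intro b W c h
      obtain ⟨f, hf, hfa⟩ := embed h (hAs b)
      refine ⟨b, f ∘ e, hf.comp e.injective, ?_⟩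
      intro u v huv
      exact (hfa _ _ huv).2
    rcases core (A true) (A false) (hAs false) (by
        intro u v huv
        cases hb : col s(u, v)
        · exact Or.inr ⟨huv, hb⟩
        · exact Or.inl ⟨huv, hb⟩) s k t c0 (by rw [Fintype.card_fin, hn]; ring) hcond with h | h
    · obtain ⟨c, hc⟩ := h
      exact hfin true _ c hc
    · obtain ⟨W, c, hc⟩ := h
      exact hfin false W c hc

/-- The sizes of the stars. -/
def sz (n m : ℕ) (j : ℕ) : ℕ := if j = 0 then n - 2 ^ m - 2 * m else 2 ^ (m - j) + 1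

theorem S_succ (s : ℕ → ℕ) {k j : ℕ} (hj : j < k) : S s k j = (s j + 1) + S s k (j + 1) := by
  unfold S
  rw [Finset.sum_eq_sum_Ico_succ_bot hj]

theorem S_sz (n m r : ℕ) (hr : r ≤ m) :
    S (sz n m) (m + 1) (m + 1 - r) + 1 = 2 ^ r + 2 * r := by
  induction r with
  | zero => simp [S]
  | succ r ih =>
    have h1 := ih (by omega)
    have h2 : m + 1 - (r + 1) < m + 1 := by omega
    rw [S_succ _ h2]
    have h3 : m + 1 - (r + 1) + 1 = m + 1 - r := by omega
    rw [h3]
    have h4 : sz n m (m + 1 - (r + 1)) = 2 ^ r + 1 := by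
      unfold sz
      rw [if_neg (by omega)]
      congr 2
      omega
    rw [h4, pow_succ]
    omega

theorem upper (n m : ℕ) (h1 : 2 ^ m + 2 * m + 1 ≤ n) (h2 : n ≤ 2 ^ (m + 1) + 2 * m + 2) :
    ∃ G : SimpleGraph (Fin n), (∀ v, ∃ w, G.Adj v w) ∧ Arrows (n + (m + 4)) G := by
  have hS1 := S_sz n m m le_rfl
  have h3 : m + 1 - m = 1 := by omega
  rw [h3] at hS1
  have hS0 : S (sz n m) (m + 1) 0 = n := by
    rw [S_succ _ (Nat.succ_pos m)]
    rw [Nat.succ_eq_add_one, Nat.zero_add]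
    have h4 : sz n m 0 = n - 2 ^ m - 2 * m := by simp [sz]
    rw [h4]
    omega
  refine exists_forest (sz n m) (m + 1) (m + 4) n hS0.symm (Nat.succ_pos m) ?_ ?_
  · intro i hi
    unfold sz
    split_ifs with h
    · omega
    · positivity
  · intro j hj
    rcases Nat.eq_zero_or_pos j with rfl | hj0
    · rw [hS0]
      have h4 : sz n m 0 = n - 2 ^ m - 2 * m := by simp [sz]
      rw [h4]
      rw [pow_succ] at h2
      omega
    · obtain ⟨r, hr⟩ : ∃ r, j + (r + 1) = m + 1 := ⟨m - j, by omega⟩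
      have h5 := S_sz n m (r + 1) (by omega)
      have h6 : m + 1 - (r + 1) = j := by omega
      rw [h6] at h5
      have h7 : sz n m j = 2 ^ r + 1 := by
        unfold sz
        rw [if_neg (by omega)]
        congr 2
        omega
      rw [h7]
      rw [pow_succ] at h5
      omega

/-- For every `n ≥ 2` there is a graph without isolated vertices on `n` vertices with Ramsey
number at most `n + m + 4`, `2 ^ m < n`. -/
theorem upper' (n : ℕ) (hn : 2 ≤ n) : ∃ m, 2 ^ m ≤ n ∧
    ∃ G : SimpleGraph (Fin n), (∀ v, ∃ w, G.Adj v w) ∧ Arrows (n + (m + 4)) G := by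
  set m := Nat.findGreatest (fun m => 2 ^ m + 2 * m + 1 ≤ n) n with hm
  have h1 : 2 ^ m + 2 * m + 1 ≤ n := by
    have := Nat.findGreatest_spec (P := fun m => 2 ^ m + 2 * m + 1 ≤ n) (m := 0) (n := n)
      (Nat.zero_le n) (by simpa using hn)
    exact this
  have h2 : ¬ (2 ^ (m + 1) + 2 * (m + 1) + 1 ≤ n) := by
    intro h3
    have h5 : m + 1 < 2 ^ (m + 1) := Nat.lt_two_pow_self
    have h4 : m + 1 ≤ n := by omega
    have := Nat.le_findGreatest (P := fun m => 2 ^ m + 2 * m + 1 ≤ n) h4 h3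
    omega
  exact ⟨m, by omega, upper n m h1 (by omega)⟩

end Pool.Agent.V1145.SF
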