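import Pool.Agent.V1145.SF2

/-!
Lower bounds for the Ramsey numbers of graphs without isolated vertices.
-/

namespace Pool.Agent.V1145.SF

open Finset

/-- A dominating set of a graph. -/
def Dom {n : ℕ} (G : SimpleGraph (Fin n)) (C : Finset (Fin n)) : Prop :=
  ∀ v, v ∉ C → ∃ c ∈ C, G.Adj c v

theorem exists_dom {n : ℕ} (G : SimpleGraph (Fin n)) (hG : ∀ v, ∃ w, G.Adj v w) :
    ∃ C : Finset (Fin n), Dom G C ∧ ∃ m : C → Fin n, Function.Injective m ∧
      ∀ c : C, m c ∉ C ∧ G.Adj c (m c) := by
  classical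
  obtain ⟨C, hC, hmin⟩ := Finset.exists_min_image
    ((Finset.univ : Finset (Finset (Fin n))).filter (Dom G)) Finset.card
    ⟨Finset.univ, by simp [Dom]⟩
  have hCd : Dom G C := (Finset.mem_filter.1 hC).2
  have hmin' : ∀ C', Dom G C' → C.card ≤ C'.card := fun C' h' =>
    hmin C' (Finset.mem_filter.2 ⟨Finset.mem_univ _, h'⟩)
  have hore : ∀ c ∈ C, ∃ w, w ∉ C ∧ G.Adj c w := by
    intro c hc
    by_contra hcon
    push Not at hcon
    have hd : Dom G (C.erase c) := by
      intro v hv
      by_cases hvc : v = c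
      · obtain ⟨w, hw⟩ := hG c
        have hwC : w ∈ C := by
          by_contra h
          exact hcon w h hw
        refine ⟨w, Finset.mem_erase.2 ⟨hw.ne', hwC⟩, ?_⟩
        rw [hvc]
        exact hw.symm
      · have hvC : v ∉ C := fun h => hv (Finset.mem_erase.2 ⟨hvc, h⟩)
        obtain ⟨c', hc', hadj⟩ := hCd v hvC
        have hne : c' ≠ c := by
          rintro rfl
          exact hcon v hvC hadj
        exact ⟨c', Finset.mem_erase.2 ⟨hne, hc'⟩, hadj⟩
    have h1 := hmin' _ hd
    rw [Finset.card_erase_of_mem hc] at h1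
    have : 0 < C.card := Finset.card_pos.2 ⟨c, hc⟩
    omega
  refine ⟨C, hCd, ?_⟩
  obtain ⟨m, hm, hmT⟩ := (Finset.all_card_le_biUnion_card_iff_exists_injective
    (fun c : C => (Finset.univ : Finset (Fin n)).filter (fun w => w ∉ C ∧ G.Adj c w))).1 (by
      intro A
      by_contra hlt
      push Not at hlt
      set B := A.biUnion (fun c : C => (Finset.univ : Finset (Fin n)).filter
        (fun w => w ∉ C ∧ G.Adj c w)) with hB
      set A' : Finset (Fin n) := A.map (Function.Embedding.subtype _) with hA'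
      have hA'C : A' ⊆ C := by
        intro x hx
        obtain ⟨y, _, rfl⟩ := Finset.mem_map.1 hx
        exact y.2
      have hA'c : A'.card = A.card := Finset.card_map _
      have hd : Dom G ((C \ A') ∪ B) := by
        intro v hv
        rw [Finset.mem_union, not_or] at hv
        by_cases hvC : v ∈ C
        · have hvA : v ∈ A' := by
            by_contra h
            exact hv.1 (Finset.mem_sdiff.2 ⟨hvC, h⟩)
          obtain ⟨w, hwC, hw⟩ := hore v hvC
          obtain ⟨y, hy, hyv⟩ := Finset.mem_map.1 hvA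
          refine ⟨w, Finset.mem_union_right _ ?_, hw.symm⟩
          rw [hB, Finset.mem_biUnion]
          refine ⟨y, hy, Finset.mem_filter.2 ⟨Finset.mem_univ _, hwC, ?_⟩⟩
          have : (y : Fin n) = v := hyv
          rw [this]
          exact hw
        · obtain ⟨c, hc, hadj⟩ := hCd v hvC
          by_cases hcA : c ∈ A'
          · exfalso
            obtain ⟨y, hy, hyc⟩ := Finset.mem_map.1 hcA
            refine hv.2 ?_
            rw [hB, Finset.mem_biUnion]
            refine ⟨y, hy, Finset.mem_filter.2 ⟨Finset.mem_univ _, hvC, ?_⟩⟩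
            have : (y : Fin n) = c := hyc
            rw [this]
            exact hadj
          · exact ⟨c, Finset.mem_union_left _ (Finset.mem_sdiff.2 ⟨hc, hcA⟩), hadj⟩
      have h1 := hmin' _ hd
      have h2 := Finset.card_union_le (C \ A') B
      have h3 := Finset.card_sdiff_add_card_eq_card hA'C
      omega)
  refine ⟨m, hm, ?_⟩
  intro c
  have := Finset.mem_filter.1 (hmT c)
  exact this.2

/-- The first lower bound. -/
theorem lower_cover {n N k : ℕ} (G : SimpleGraph (Fin n)) (hG : ∀ v, ∃ w, G.Adj v w)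
    (C : Finset (Fin n)) (m : C → Fin n) (hm : Function.Injective m)
    (hmC : ∀ c : C, m c ∉ C ∧ G.Adj c (m c)) (hk : C.card = k) (hk0 : 0 < k)
    (hA : Arrows N G) : n + k ≤ N + 1 := by
  classical
  obtain ⟨b, f, hf, hfa⟩ := hA (fun e => decide (∀ x ∈ e, k - 1 ≤ (x : Fin N).val))
  cases b
  · exfalso
    have h1 : ∀ c : C, (f c).val < k - 1 ∨ (f (m c)).val < k - 1 := by
      intro c
      have h2 := hfa c (m c) (hmC c).2
      rw [decide_eq_false_iff_not] at h2
      by_contra h3
      push Not at h3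
      apply h2
      intro x hx
      rcases Sym2.mem_iff.1 hx with rfl | rfl
      · exact h3.1
      · exact h3.2
    let h : C → ℕ := fun c => if (f c).val < k - 1 then (f c).val else (f (m c)).val
    have hlt : ∀ c, h c < k - 1 := by
      intro c
      simp only [h]
      split_ifs with h2
      · exact h2
      · exact (h1 c).resolve_left h2
    have hinj : Function.Injective h := by
      intro c c' hcc
      simp only [h] at hcc
      split_ifs at hcc with h2 h3 h3
      · exact Subtype.ext (hf (Fin.ext hcc))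
      · have := hf (Fin.ext hcc)
        exact absurd (this ▸ c.2) (hmC c').1
      · have := hf (Fin.ext hcc)
        exact absurd (this ▸ c'.2) (hmC c).1
      · exact hm (hf (Fin.ext hcc))
    have h4 : Fintype.card C ≤ (Finset.range (k - 1)).card := by
      rw [← Finset.card_univ]
      exact Finset.card_le_card_of_injOn h (fun c _ => by simpa using hlt c)
        (fun a _ b _ hab => hinj hab)
    rw [Fintype.card_coe, hk, Finset.card_range] at h4
    omega
  · have h1 : ∀ v, k - 1 ≤ (f v).val := by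
      intro v
      obtain ⟨w, hw⟩ := hG v
      have h2 := hfa v w hw
      rw [decide_eq_true_iff] at h2
      exact h2 (f v) (Sym2.mem_iff.2 (Or.inl rfl))
    have h4 : (Finset.univ : Finset (Fin n)).card ≤ (Finset.range (N - (k - 1))).card := by
      refine Finset.card_le_card_of_injOn (fun v => (f v).val - (k - 1)) ?_ ?_
      · intro v _
        have h2 := h1 v
        have h3 := (f v).2
        have : (f v).val - (k - 1) < N - (k - 1) := by omega
        simpa using this
      · intro a _ b _ hab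
        have h2 := h1 a
        have h3 := h1 b
        have h5 : (f a).val - (k - 1) = (f b).val - (k - 1) := hab
        exact hf (Fin.ext (by omega))
    rw [Finset.card_univ, Fintype.card_fin, Finset.card_range] at h4
    by_cases hn : n = 0
    · subst hn
      have hC : C = ∅ := by
        ext x
        exact x.elim0
      rw [hC, Finset.card_empty] at hk
      omega
    · omega

section Random

variable {V : Type*} [Fintype V] [DecidableEq V]

open Classical in
/-- The colourings such that all elements of `Y` are joined to `K` by an edge of colour `b`. -/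
noncomputable def cov (b : Bool) (K Y : Finset V) : Finset (Sym2 V → Bool) :=
  Finset.univ.filter (fun c => ∀ x ∈ Y, ∃ y ∈ K, c s(x, y) = b)

theorem mem_cov {b : Bool} {K Y : Finset V} {c : Sym2 V → Bool} :
    c ∈ cov b K Y ↔ ∀ x ∈ Y, ∃ y ∈ K, c s(x, y) = b := by
  classical
  simp [cov]

theorem cov_insert (b : Bool) (K Y : Finset V) (x : V) (hxY : x ∉ Y)
    (hYK : Disjoint Y K) :
    (cov b K Y).card ≤ 2 ^ K.card * ((cov b K Y).card - (cov b K (insert x Y)).card) := by
  classical
  set E : Finset (Sym2 V) := K.image (fun y => s(x, y)) with hE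
  have hEc : E.card ≤ K.card := Finset.card_image_le
  set Z := (cov b K Y) \ (cov b K (insert x Y)) with hZ
  have hsub : cov b K (insert x Y) ⊆ cov b K Y := by
    intro c hc
    rw [mem_cov] at hc ⊢
    intro y hy
    exact hc y (Finset.mem_insert_of_mem hy)
  have hZc : Z.card = (cov b K Y).card - (cov b K (insert x Y)).card :=
    Finset.card_sdiff_of_subset hsub
  rw [← hZc]
  let φ : (Sym2 V → Bool) → (Sym2 V → Bool) := fun c e => if e ∈ E then !b else c e
  have hmaps : ∀ c ∈ cov b K Y, φ c ∈ Z := by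
    intro c hc
    rw [hZ, Finset.mem_sdiff]
    constructor
    · rw [mem_cov] at hc ⊢
      intro x' hx'
      obtain ⟨y, hy, hcy⟩ := hc x' hx'
      refine ⟨y, hy, ?_⟩
      have hne : s(x', y) ∉ E := by
        rw [hE, Finset.mem_image]
        rintro ⟨y', hy', h⟩
        rcases Sym2.eq_iff.1 h with ⟨h1, -⟩ | ⟨-, h2⟩
        · exact hxY (h1 ▸ hx')
        · exact (Finset.disjoint_left.1 hYK hx') (h2 ▸ hy')
      simp only [φ, hne, if_false]
      exact hcy
    · rw [mem_cov]
      intro h
      obtain ⟨y, hy, hcy⟩ := h x (Finset.mem_insert_self _ _)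
      have hmem : s(x, y) ∈ E := Finset.mem_image.2 ⟨y, hy, rfl⟩
      simp only [φ, hmem, if_true] at hcy
      cases b <;> simp at hcy
  refine Finset.card_le_mul_card_image_of_maps_to hmaps _ ?_
  intro d _
  calc ((cov b K Y).filter (fun c => φ c = d)).card
      ≤ (Finset.univ : Finset (E → Bool)).card := by
        refine Finset.card_le_card_of_injOn (fun c e => c e) (fun _ _ => Finset.mem_coe.2 (Finset.mem_univ _)) ?_
        intro c hc c' hc' hcc
        have h1 : φ c = d := (Finset.mem_filter.1 hc).2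
        have h2 : φ c' = d := (Finset.mem_filter.1 hc').2
        funext e
        by_cases he : e ∈ E
        · exact congrFun hcc ⟨e, he⟩
        · have h3 := congrFun (h1.trans h2.symm) e
          simpa only [φ, he, if_false] using h3
    _ = 2 ^ E.card := by simp
    _ ≤ 2 ^ K.card := Nat.pow_le_pow_right (by norm_num) hEc

theorem cov_card (b : Bool) (K Y : Finset V) (k : ℕ) (hk : K.card ≤ k) (hYK : Disjoint Y K) :
    ((cov b K Y).card : ℝ) ≤ (1 - 1 / 2 ^ k) ^ Y.card * (Fintype.card (Sym2 V → Bool) : ℝ) := by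
  classical
  induction Y using Finset.induction_on with
  | empty =>
    simp only [Finset.card_empty, pow_zero, one_mul]
    exact_mod_cast Finset.card_le_univ _
  | insert x Y hx ih =>
    have hYK' : Disjoint Y K := Finset.disjoint_of_subset_left (Finset.subset_insert _ _) hYK
    have h1 := cov_insert b K Y x hx hYK'
    have hsub : cov b K (insert x Y) ⊆ cov b K Y := by
      intro c hc
      rw [mem_cov] at hc ⊢
      intro y hy
      exact hc y (Finset.mem_insert_of_mem hy)
    have hle := Finset.card_le_card hsub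
    have h2 : ((cov b K Y).card : ℝ) ≤
        2 ^ K.card * (((cov b K Y).card : ℝ) - ((cov b K (insert x Y)).card : ℝ)) := by
      have : (((cov b K Y).card - (cov b K (insert x Y)).card : ℕ) : ℝ) =
        ((cov b K Y).card : ℝ) - ((cov b K (insert x Y)).card : ℝ) := Nat.cast_sub hle
      rw [← this]
      exact_mod_cast h1
    have h3 : (2 : ℝ) ^ K.card ≤ 2 ^ k := pow_le_pow_right₀ (by norm_num) hk
    have h4 : (0 : ℝ) ≤ ((cov b K Y).card : ℝ) - ((cov b K (insert x Y)).card : ℝ) := by
      have : ((cov b K (insert x Y)).card : ℝ) ≤ ((cov b K Y).card : ℝ) := by exact_mod_cast hle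
      linarith
    have h5 : ((cov b K Y).card : ℝ) ≤
        2 ^ k * (((cov b K Y).card : ℝ) - ((cov b K (insert x Y)).card : ℝ)) :=
      h2.trans (mul_le_mul_of_nonneg_right h3 h4)
    have h6 : (0 : ℝ) < 2 ^ k := by positivity
    have h7 : ((cov b K (insert x Y)).card : ℝ) ≤ (1 - 1 / 2 ^ k) * ((cov b K Y).card : ℝ) := by
      have : ((cov b K Y).card : ℝ) / 2 ^ k ≤
          ((cov b K Y).card : ℝ) - ((cov b K (insert x Y)).card : ℝ) := by
        rw [div_le_iff₀ h6]
        linarith
      have h8 : (1 - 1 / 2 ^ k) * ((cov b K Y).card : ℝ) =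
        ((cov b K Y).card : ℝ) - ((cov b K Y).card : ℝ) / 2 ^ k := by ring
      linarith
    have h9 : (0 : ℝ) ≤ 1 - 1 / 2 ^ k := by
      have : (1 : ℝ) / 2 ^ k ≤ 1 := by
        rw [div_le_one h6]
        exact one_le_pow₀ (by norm_num)
      linarith
    rw [Finset.card_insert_of_notMem hx, pow_succ]
    calc ((cov b K (insert x Y)).card : ℝ) ≤ (1 - 1 / 2 ^ k) * ((cov b K Y).card : ℝ) := h7
      _ ≤ (1 - 1 / 2 ^ k) * ((1 - 1 / 2 ^ k) ^ Y.card * (Fintype.card (Sym2 V → Bool) : ℝ)) :=
        mul_le_mul_of_nonneg_left (ih hYK') h9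
      _ = _ := by ring

end Random

/-- A colouring of the complete graph on `N` vertices such that, for both colours and for every set
`K` of `k` vertices, more than `t` vertices outside `K` are not joined to `K` by edges of this
colour. -/
theorem exists_coloring (N k t : ℕ) (hkN : k + t ≤ N)
    (h : (2 : ℝ) * (N : ℝ) ^ k * (N : ℝ) ^ t * (1 - 1 / 2 ^ k) ^ (N - k - t) < 1) :
    ∃ c : Sym2 (Fin N) → Bool, ∀ b, ∀ K : Finset (Fin N), K.card = k →
      ∀ T : Finset (Fin N), (∀ x, x ∉ K → x ∉ T → ∃ y ∈ K, c s(x, y) = b) → t < T.card := by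
  classical
  set I : Finset (Bool × Finset (Fin N) × Finset (Fin N)) :=
    Finset.univ ×ˢ (Finset.powersetCard k Finset.univ ×ˢ Finset.powersetCard t Finset.univ)
    with hI
  set Bad := I.biUnion (fun p => cov p.1 p.2.1 (Finset.univ \ (p.2.1 ∪ p.2.2))) with hBad
  have hΩ : (0 : ℝ) < (Fintype.card (Sym2 (Fin N) → Bool) : ℝ) := by
    exact_mod_cast Fintype.card_pos
  have h01 : (0 : ℝ) ≤ 1 - 1 / 2 ^ k := by
    have : (1 : ℝ) / 2 ^ k ≤ 1 := by
      rw [div_le_one (by positivity)]
      exact one_le_pow₀ (by norm_num)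
    linarith
  have h11 : (1 : ℝ) - 1 / 2 ^ k ≤ 1 := by
    have : (0 : ℝ) ≤ 1 / 2 ^ k := by positivity
    linarith
  have hIc : (I.card : ℝ) ≤ 2 * (N : ℝ) ^ k * (N : ℝ) ^ t := by
    rw [hI, Finset.card_product, Finset.card_product, Finset.card_powersetCard,
      Finset.card_powersetCard, Finset.card_univ, Finset.card_univ, Fintype.card_bool,
      Fintype.card_fin]
    have h1 : N.choose k ≤ N ^ k := Nat.choose_le_pow N k
    have h2 : N.choose t ≤ N ^ t := Nat.choose_le_pow N t
    have h3 : 2 * (N.choose k * N.choose t) ≤ 2 * N ^ k * N ^ t := by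
      rw [mul_assoc]
      exact Nat.mul_le_mul_left 2 (Nat.mul_le_mul h1 h2)
    exact_mod_cast h3
  have hBc : (Bad.card : ℝ) < (Fintype.card (Sym2 (Fin N) → Bool) : ℝ) := by
    have h1 : (Bad.card : ℝ) ≤ ∑ p ∈ I, ((cov p.1 p.2.1 (Finset.univ \ (p.2.1 ∪ p.2.2))).card : ℝ) := by
      exact_mod_cast Finset.card_biUnion_le
    have h2 : ∑ p ∈ I, ((cov p.1 p.2.1 (Finset.univ \ (p.2.1 ∪ p.2.2))).card : ℝ) ≤
        ∑ p ∈ I, ((1 - 1 / 2 ^ k) ^ (N - k - t) * (Fintype.card (Sym2 (Fin N) → Bool) : ℝ)) := by
      refine Finset.sum_le_sum ?_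
      intro p hp
      rw [hI, Finset.mem_product, Finset.mem_product] at hp
      have hK := (Finset.mem_powersetCard.1 hp.2.1).2
      have hT := (Finset.mem_powersetCard.1 hp.2.2).2
      have h3 := cov_card p.1 p.2.1 (Finset.univ \ (p.2.1 ∪ p.2.2)) k hK.le (by
        rw [Finset.disjoint_left]
        intro x hx hx'
        exact (Finset.mem_sdiff.1 hx).2 (Finset.mem_union_left _ hx'))
      have h4 : N - k - t ≤ (Finset.univ \ (p.2.1 ∪ p.2.2)).card := by
        rw [Finset.card_sdiff_of_subset (Finset.subset_univ _), Finset.card_univ, Fintype.card_fin]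
        have := Finset.card_union_le p.2.1 p.2.2
        omega
      exact h3.trans (mul_le_mul_of_nonneg_right (pow_le_pow_of_le_one h01 h11 h4) hΩ.le)
    rw [Finset.sum_const, nsmul_eq_mul] at h2
    have h5 : (I.card : ℝ) * ((1 - 1 / 2 ^ k) ^ (N - k - t) * (Fintype.card (Sym2 (Fin N) → Bool) : ℝ)) ≤
        (2 * (N : ℝ) ^ k * (N : ℝ) ^ t) * ((1 - 1 / 2 ^ k) ^ (N - k - t) * (Fintype.card (Sym2 (Fin N) → Bool) : ℝ)) :=
      mul_le_mul_of_nonneg_right hIc (mul_nonneg (pow_nonneg h01 _) hΩ.le)
    have h6 : (2 * (N : ℝ) ^ k * (N : ℝ) ^ t) * ((1 - 1 / 2 ^ k) ^ (N - k - t) * (Fintype.card (Sym2 (Fin N) → Bool) : ℝ)) <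
        1 * (Fintype.card (Sym2 (Fin N) → Bool) : ℝ) := by
      rw [← mul_assoc]
      exact mul_lt_mul_of_pos_right h hΩ
    linarith
  have hex : ∃ c, c ∉ Bad := by
    by_contra hall
    push Not at hall
    have : Bad = Finset.univ := Finset.eq_univ_iff_forall.2 hall
    rw [this, Finset.card_univ] at hBc
    exact lt_irrefl _ hBc
  obtain ⟨c, hc⟩ := hex
  refine ⟨c, ?_⟩
  intro b K hK T hT
  by_contra hle
  push Not at hle
  obtain ⟨T', hTT', -, hT'c⟩ := Finset.exists_subsuperset_card_eq (Finset.subset_univ T) hle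
    (by rw [Finset.card_univ, Fintype.card_fin]; omega : t ≤ (Finset.univ : Finset (Fin N)).card)
  apply hc
  rw [hBad, Finset.mem_biUnion]
  refine ⟨(b, K, T'), ?_, ?_⟩
  · rw [hI, Finset.mem_product, Finset.mem_product]
    exact ⟨Finset.mem_univ _, Finset.mem_powersetCard.2 ⟨Finset.subset_univ _, hK⟩,
      Finset.mem_powersetCard.2 ⟨Finset.subset_univ _, hT'c⟩⟩
  · rw [mem_cov]
    intro x hx
    have h1 := (Finset.mem_sdiff.1 hx).2
    rw [Finset.mem_union, not_or] at h1
    exact hT x h1.1 (fun h2 => h1.2 (hTT' h2))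

/-- The second lower bound. -/
theorem lower_random {n N k t : ℕ} (G : SimpleGraph (Fin n)) (C : Finset (Fin n)) (hC : Dom G C)
    (hk : C.card = k) (hN : N = n + t) (hkn : k ≤ n)
    (h : (2 : ℝ) * (N : ℝ) ^ k * (N : ℝ) ^ t * (1 - 1 / 2 ^ k) ^ (N - k - t) < 1)
    (hA : Arrows N G) : False := by
  classical
  obtain ⟨c, hc⟩ := exists_coloring N k t (by omega) h
  obtain ⟨b, f, hf, hfa⟩ := hA c
  have hK : (C.image f).card = k := by
    rw [Finset.card_image_of_injective _ hf, hk]
  have h1 := hc b (C.image f) hK (Finset.univ \ Finset.univ.image f) (by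
    intro x hxK hxT
    have hx : x ∈ Finset.univ.image f := by
      by_contra h2
      exact hxT (Finset.mem_sdiff.2 ⟨Finset.mem_univ _, h2⟩)
    obtain ⟨v, -, rfl⟩ := Finset.mem_image.1 hx
    have hvC : v ∉ C := fun h2 => hxK (Finset.mem_image_of_mem _ h2)
    obtain ⟨w, hw, hadj⟩ := hC v hvC
    exact ⟨f w, Finset.mem_image_of_mem _ hw, hfa v w hadj.symm⟩)
  rw [Finset.card_sdiff_of_subset (Finset.subset_univ _), Finset.card_univ, Fintype.card_fin,
    Finset.card_image_of_injective _ hf, Finset.card_univ, Fintype.card_fin] at h1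
  omega

end Pool.Agent.V1145.SF
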