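import Pool.Agent.V1145.SF3

/-!
The final estimates for the minimum Ramsey number of graphs without isolated vertices.
-/

namespace Pool.Agent.V1145.SF

open Finset Filter

/-- `IsRamsey G r`: the Ramsey number of `G` is `r`. -/
def IsRamsey {n : ℕ} (G : SimpleGraph (Fin n)) (r : ℕ) : Prop :=
  IsLeast {N : ℕ | Arrows N G} r

/-- `IsMinRamsey n m`: the smallest Ramsey number of a graph with exactly `n` vertices and no
isolated vertex is `m`. -/
def IsMinRamsey (n m : ℕ) : Prop :=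
  IsLeast {r : ℕ | ∃ G : SimpleGraph (Fin n), (∀ v, ∃ w, G.Adj v w) ∧ IsRamsey G r} m

theorem lower (n N : ℕ) (hn : 16 ≤ n) (G : SimpleGraph (Fin n)) (hG : ∀ v, ∃ w, G.Adj v w)
    (hA : Arrows N G) :
    (n : ℝ) + Real.logb 2 n - 3 * Real.logb 2 (Real.logb 2 n) - 2 ≤ N := by
  by_contra hcon
  push Not at hcon
  set L := Real.logb 2 n with hL
  have hn0 : (0 : ℝ) < n := by
    have : 0 < n := by omega
    exact_mod_cast this
  have hn16 : (16 : ℝ) ≤ n := by exact_mod_cast hn
  have hL4 : 4 ≤ L := by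
    rw [hL, Real.le_logb_iff_rpow_le (by norm_num) hn0]
    norm_num
    exact hn
  have hLL : 2 ≤ Real.logb 2 L := by
    rw [Real.le_logb_iff_rpow_le (by norm_num) (by linarith)]
    norm_num
    linarith
  have hLn : L ≤ n / 2 := by
    -- `log_2 n ≤ n / 2` for `n ≥ 4`
    have h1 : Real.log n ≤ n / 4 - 1 + Real.log 4 := by
      have := Real.log_le_sub_one_of_pos (show (0 : ℝ) < n / 4 by positivity)
      rw [Real.log_div (by positivity) (by norm_num)] at this
      linarith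
    have h2 : Real.log 4 = 2 * Real.log 2 := by
      rw [show (4 : ℝ) = 2 ^ 2 by norm_num, Real.log_pow]
      norm_num
    have h3 := Real.log_two_gt_d9
    have h4 := Real.log_two_lt_d9
    rw [hL, Real.logb, div_le_iff₀ (by linarith)]
    nlinarith
  obtain ⟨C, hC, m, hm, hmC⟩ := exists_dom G hG
  have hCne : C.Nonempty := by
    by_contra hne
    rw [Finset.not_nonempty_iff_eq_empty] at hne
    obtain ⟨c, hc, _⟩ := hC ⟨0, by omega⟩ (by rw [hne]; simp)
    rw [hne] at hc
    simp at hc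
  have hk0 : 0 < C.card := Finset.card_pos.2 hCne
  have hcov := lower_cover G hG C m hm hmC rfl hk0 hA
  set k := C.card with hk
  obtain ⟨t, ht⟩ : ∃ t, N = n + t := ⟨N - n, by omega⟩
  have hNr : (N : ℝ) = n + t := by rw [ht]; push_cast; ring
  have hkr : (k : ℝ) + n ≤ N + 1 := by exact_mod_cast (by omega : k + n ≤ N + 1)
  have htL : (t : ℝ) ≤ L := by linarith
  have hkL1 : (k : ℝ) < L - 3 * Real.logb 2 L - 1 := by linarith
  have hkL : (k : ℝ) ≤ L := by linarith
  have hkn : k ≤ n := by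
    have : (k : ℝ) ≤ n := by linarith
    exact_mod_cast this
  have hL0 : 0 < L := by linarith
  -- `2 ^ k < n / (2 L ^ 3)`
  have h2k : (2 : ℝ) ^ k * (2 * L ^ 3) < n := by
    have h1 : (2 : ℝ) ^ (k : ℝ) < 2 ^ (L - 3 * Real.logb 2 L - 1) :=
      Real.rpow_lt_rpow_of_exponent_lt (by norm_num) hkL1
    rw [Real.rpow_natCast] at h1
    have h2 : (2 : ℝ) ^ (L - 3 * Real.logb 2 L - 1) = n / (2 * L ^ 3) := by
      rw [Real.rpow_sub (by norm_num), Real.rpow_sub (by norm_num), hL,
        Real.rpow_logb (by norm_num) (by norm_num) hn0, ← hL]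
      rw [mul_comm 3 (Real.logb 2 L), Real.rpow_mul (by norm_num),
        Real.rpow_logb (by norm_num) (by norm_num) hL0]
      rw [show (3 : ℝ) = ((3 : ℕ) : ℝ) by norm_num, Real.rpow_natCast, Real.rpow_one]
      field_simp
    rw [h2, lt_div_iff₀ (by positivity)] at h1
    exact h1
  refine lower_random (t := t) G C hC rfl ht hkn ?_ hA
  have hp : (0 : ℝ) < 2 ^ k := by positivity
  have h01 : (0 : ℝ) ≤ 1 - 1 / 2 ^ k := by
    have : (1 : ℝ) / 2 ^ k ≤ 1 := by
      rw [div_le_one hp]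
      exact one_le_pow₀ (by norm_num)
    linarith
  have hexp : (1 - 1 / (2 : ℝ) ^ k) ^ (N - k - t) ≤ Real.exp (-(L ^ 3)) := by
    have h1 : (1 - 1 / (2 : ℝ) ^ k) ≤ Real.exp (-(1 / 2 ^ k)) := by
      have := Real.add_one_le_exp (-(1 / (2 : ℝ) ^ k))
      linarith
    have h2 : N - k - t = n - k := by omega
    calc (1 - 1 / (2 : ℝ) ^ k) ^ (N - k - t) ≤ (Real.exp (-(1 / 2 ^ k))) ^ (N - k - t) :=
          pow_le_pow_left₀ h01 h1 _
      _ = Real.exp (-((n - k : ℕ) / 2 ^ k)) := by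
          rw [h2, ← Real.exp_nat_mul]
          congr 1
          ring
      _ ≤ Real.exp (-(L ^ 3)) := by
          apply Real.exp_le_exp.2
          rw [neg_le_neg_iff, Nat.cast_sub hkn, le_div_iff₀ hp]
          have h3 : (0 : ℝ) < L ^ 3 := by positivity
          nlinarith
  have hNpos : (0 : ℝ) < N := by rw [hNr]; positivity
  have hN2 : (N : ℝ) ≤ 2 * n := by rw [hNr]; linarith
  have hpow : (N : ℝ) ^ k * (N : ℝ) ^ t ≤ Real.exp (2 * L * ((L + 1) * Real.log 2)) := by
    rw [← pow_add]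
    have h1 : (N : ℝ) ^ (k + t) = Real.exp ((k + t : ℕ) * Real.log N) := by
      rw [Real.exp_nat_mul, Real.exp_log hNpos]
    rw [h1]
    apply Real.exp_le_exp.2
    have h2 : Real.log N ≤ (L + 1) * Real.log 2 := by
      have h3 : Real.log N ≤ Real.log (2 * n) := Real.log_le_log hNpos hN2
      rw [Real.log_mul (by norm_num) hn0.ne'] at h3
      have h4 : L * Real.log 2 = Real.log n := by
        rw [hL, Real.logb, div_mul_cancel₀]
        exact (Real.log_pos (by norm_num)).ne'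
      linarith
    have h5 : ((k + t : ℕ) : ℝ) ≤ 2 * L := by push_cast; linarith
    have h6 : 0 ≤ (L + 1) * Real.log 2 := by
      have := Real.log_pos (show (1 : ℝ) < 2 by norm_num)
      positivity
    exact mul_le_mul h5 h2 (Real.log_nonneg (by
      have : 1 ≤ N := by omega
      exact_mod_cast this)) (by linarith)
  calc (2 : ℝ) * (N : ℝ) ^ k * (N : ℝ) ^ t * (1 - 1 / 2 ^ k) ^ (N - k - t)
      = 2 * ((N : ℝ) ^ k * (N : ℝ) ^ t) * (1 - 1 / 2 ^ k) ^ (N - k - t) := by ring
    _ ≤ 2 * Real.exp (2 * L * ((L + 1) * Real.log 2)) * Real.exp (-(L ^ 3)) := by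
        refine mul_le_mul (mul_le_mul_of_nonneg_left hpow (by norm_num)) hexp
          (pow_nonneg h01 _) (by positivity)
    _ = Real.exp (Real.log 2 + 2 * L * ((L + 1) * Real.log 2) - L ^ 3) := by
        rw [Real.exp_sub, Real.exp_add, Real.exp_log (by norm_num), Real.exp_neg]
        ring
    _ < 1 := by
        rw [Real.exp_lt_one_iff]
        have h4 := Real.log_two_lt_d9
        have h5 : 0 < Real.log 2 := Real.log_pos (by norm_num)
        have h6 : Real.log 2 + 2 * L * ((L + 1) * Real.log 2) =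
          Real.log 2 * (1 + 2 * L * (L + 1)) := by ring
        rw [h6]
        have h7 : Real.log 2 * (1 + 2 * L * (L + 1)) ≤ 0.7 * (1 + 2 * L * (L + 1)) := by
          refine mul_le_mul_of_nonneg_right (by linarith) (by positivity)
        have h8 : 4 * L ^ 2 ≤ L ^ 3 := by nlinarith [sq_nonneg L]
        nlinarith

/-- The upper bound for the minimum. -/
theorem exists_min (n : ℕ) (hn : 2 ≤ n) :
    ∃ m, IsMinRamsey n m ∧ (m : ℝ) ≤ n + Real.logb 2 n + 4 := by
  classical
  obtain ⟨m, hmn, G, hG, hA⟩ := upper' n hn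
  have hne : {N : ℕ | Arrows N G}.Nonempty := ⟨_, hA⟩
  have h1 : IsRamsey G (sInf {N : ℕ | Arrows N G}) :=
    ⟨Nat.sInf_mem hne, fun _ h => Nat.sInf_le h⟩
  set Q : Set ℕ := {r : ℕ | ∃ G : SimpleGraph (Fin n), (∀ v, ∃ w, G.Adj v w) ∧ IsRamsey G r}
    with hQ
  have hQne : Q.Nonempty := ⟨_, G, hG, h1⟩
  refine ⟨sInf Q, ⟨Nat.sInf_mem hQne, fun _ h => Nat.sInf_le h⟩, ?_⟩
  have h2 : sInf Q ≤ n + (m + 4) :=
    (Nat.sInf_le (s := Q) ⟨G, hG, h1⟩).trans (Nat.sInf_le hA)
  have h3 : (m : ℝ) ≤ Real.logb 2 n := by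
    have hn0 : (0 : ℝ) < n := by
      have : 0 < n := by omega
      exact_mod_cast this
    rw [Real.le_logb_iff_rpow_le (by norm_num) hn0, Real.rpow_natCast]
    exact_mod_cast hmn
  have h4 : ((sInf Q : ℕ) : ℝ) ≤ n + (m + 4) := by exact_mod_cast h2
  linarith

theorem asymptotics (f : ℕ → ℕ)
    (h1 : ∀ n : ℕ, 16 ≤ n → (n : ℝ) + Real.logb 2 n - 3 * Real.logb 2 (Real.logb 2 n) - 2 ≤ f n)
    (h2 : ∀ n : ℕ, 2 ≤ n → (f n : ℝ) ≤ n + Real.logb 2 n + 4) :
    Tendsto (fun n : ℕ => ((f n : ℝ) - n) / Real.logb 2 n) atTop (nhds 1) := by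
  have hlog2 : 0 < Real.log 2 := Real.log_pos (by norm_num)
  have hLinf : Tendsto (fun n : ℕ => Real.logb 2 (n : ℝ)) atTop atTop :=
    (Real.tendsto_logb_atTop (by norm_num)).comp tendsto_natCast_atTop_atTop
  have hlo : Tendsto (fun x : ℝ => Real.logb 2 x / x) atTop (nhds 0) := by
    have := Real.isLittleO_log_id_atTop.tendsto_div_nhds_zero
    have h3 := this.div_const (Real.log 2)
    rw [zero_div] at h3
    refine h3.congr ?_
    intro x
    simp only [id, Real.logb]
    ring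
  have hinv : Tendsto (fun x : ℝ => x⁻¹) atTop (nhds 0) := tendsto_inv_atTop_zero
  have hlow : Tendsto (fun x : ℝ => 1 - 3 * (Real.logb 2 x / x) - 2 * x⁻¹) atTop (nhds 1) := by
    have := ((tendsto_const_nhds (x := (1 : ℝ))).sub (hlo.const_mul 3)).sub (hinv.const_mul 2)
    simpa using this
  have hupp : Tendsto (fun x : ℝ => 1 + 4 * x⁻¹) atTop (nhds 1) := by
    have := (tendsto_const_nhds (x := (1 : ℝ))).add (hinv.const_mul 4)
    simpa using this
  refine tendsto_of_tendsto_of_tendsto_of_le_of_le' (hlow.comp hLinf) (hupp.comp hLinf) ?_ ?_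
  · filter_upwards [eventually_ge_atTop 16, hLinf.eventually_gt_atTop 0] with n hn hpos
    have h3 := h1 n hn
    simp only [Function.comp]
    rw [le_div_iff₀ hpos]
    have h4 : (1 - 3 * (Real.logb 2 (Real.logb 2 (n : ℝ)) / Real.logb 2 n) -
        2 * (Real.logb 2 (n : ℝ))⁻¹) * Real.logb 2 n =
        Real.logb 2 n - 3 * Real.logb 2 (Real.logb 2 n) - 2 := by
      field_simp
    rw [h4]
    linarith
  · filter_upwards [eventually_ge_atTop 16, hLinf.eventually_gt_atTop 0] with n hn hpos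
    have h3 := h2 n (by omega)
    simp only [Function.comp]
    rw [div_le_iff₀ hpos]
    have h4 : (1 + 4 * (Real.logb 2 (n : ℝ))⁻¹) * Real.logb 2 n = Real.logb 2 n + 4 := by
      field_simp
    rw [h4]
    linarith

end Pool.Agent.V1145.SF
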