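import Mathlib

universe u v w w' w''

namespace Pool.Agent.V1145.SR

/-- A representation of the poset `P` over the field `k`: a functor from `P` to vector spaces. -/
structure Rep (k : Type u) [Field k] (P : Type v) [PartialOrder P] where
  V : P → Type w
  [grp : ∀ p, AddCommGroup (V p)]
  [mod : ∀ p, Module k (V p)]
  map : ∀ {p q : P}, p ≤ q → V p →ₗ[k] V q
  map_id : ∀ (p : P) (x : V p), map (le_refl p) x = x
  map_comp : ∀ {p q r : P} (h : p ≤ q) (h' : q ≤ r) (x : V p),
    map h' (map h x) = map (h.trans h') x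

attribute [instance] Rep.grp Rep.mod

variable {k : Type u} [Field k] {P : Type v} [PartialOrder P]

/-- A morphism of representations: a natural transformation. -/
structure Hom (X : Rep.{u, v, w} k P) (Y : Rep.{u, v, w'} k P) where
  app : ∀ p, X.V p →ₗ[k] Y.V p
  nat : ∀ {p q : P} (h : p ≤ q) (x : X.V p), app q (X.map h x) = Y.map h (app p x)

theorem Hom.ext' {X : Rep.{u, v, w} k P} {Y : Rep.{u, v, w'} k P} {f g : Hom X Y}
    (h : ∀ p x, f.app p x = g.app p x) : f = g := by
  cases f; cases g
  congr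
  funext p
  exact LinearMap.ext (h p)

/-- Composition of morphisms. -/
def Hom.comp {X : Rep.{u, v, w} k P} {Y : Rep.{u, v, w'} k P} {Z : Rep.{u, v, w''} k P}
    (g : Hom Y Z) (f : Hom X Y) : Hom X Z where
  app p := (g.app p).comp (f.app p)
  nat h x := by simp [f.nat, g.nat]

/-- The zero morphism. -/
def Hom.zero (X : Rep.{u, v, w} k P) (Y : Rep.{u, v, w'} k P) : Hom X Y where
  app _ := 0
  nat h x := by simp

/-- Spreads: nonempty convex connected subsets. -/
structure IsSpread (S : Set P) : Prop where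
  nonempty : S.Nonempty
  convex : ∀ a ∈ S, ∀ b ∈ S, ∀ p, a ≤ p → p ≤ b → p ∈ S
  connected : ∀ a ∈ S, ∀ b ∈ S,
    Relation.ReflTransGen (fun x y => x ∈ S ∧ y ∈ S ∧ (x ≤ y ∨ y ≤ x)) a b

/-- The value at `p` of the direct sum of the spread representations `k_{S i}`. -/
def fib (k : Type u) [Field k] {ι : Type} (S : ι → Set P) (p : P) : Submodule k (ι → k) where
  carrier := {x | ∀ i, p ∉ S i → x i = 0}
  add_mem' := by
    intro a b ha hb i hi
    simp [ha i hi, hb i hi]
  zero_mem' := by
    intro i hi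
    rfl
  smul_mem' := by
    intro c x hx i hi
    simp [hx i hi]

open Classical in
/-- The coordinates `i` with `q ∉ S i` are replaced by `0`. -/
noncomputable def cut (k : Type u) [Field k] {ι : Type} (S : ι → Set P) (q : P) :
    (ι → k) →ₗ[k] (ι → k) where
  toFun x i := if q ∈ S i then x i else 0
  map_add' x y := by
    funext i
    by_cases h : q ∈ S i <;> simp [h]
  map_smul' c x := by
    funext i
    by_cases h : q ∈ S i <;> simp [h]

theorem cut_mem (k : Type u) [Field k] {ι : Type} (S : ι → Set P) (q : P) (x : ι → k) :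
    cut k S q x ∈ fib k S q := by
  intro i hi
  exact if_neg hi

/-- The structure map from the value at `p` to the value at `q` of the direct sum of the
spread representations `k_{S i}`: identity wherever not forced to be zero. -/
noncomputable def fibMap (k : Type u) [Field k] {ι : Type} (S : ι → Set P) (p q : P) :
    fib k S p →ₗ[k] fib k S q :=
  ((cut k S q).comp (fib k S p).subtype).codRestrict (fib k S q) (fun x => cut_mem k S q x.1)

theorem fibMap_id (k : Type u) [Field k] {ι : Type} (S : ι → Set P) (p : P)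
    (x : fib k S p) : fibMap k S p p x = x := by
  classical
  apply Subtype.ext
  funext i
  change (if p ∈ S i then x.1 i else 0) = x.1 i
  by_cases h : p ∈ S i
  · rw [if_pos h]
  · rw [if_neg h, x.2 i h]

theorem fibMap_comp (k : Type u) [Field k] {ι : Type} (S : ι → Set P)
    (hS : ∀ i, IsSpread (S i)) {p q r : P} (h : p ≤ q) (h' : q ≤ r) (x : fib k S p) :
    fibMap k S q r (fibMap k S p q x) = fibMap k S p r x := by
  classical
  apply Subtype.ext
  funext i
  change (if r ∈ S i then (if q ∈ S i then x.1 i else 0) else 0) =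
    (if r ∈ S i then x.1 i else 0)
  by_cases hr : r ∈ S i
  · rw [if_pos hr, if_pos hr]
    by_cases hq : q ∈ S i
    · rw [if_pos hq]
    · rw [if_neg hq]
      by_cases hp : p ∈ S i
      · exact absurd ((hS i).convex p hp r hr q h h') hq
      · exact (x.2 i hp).symm
  · rw [if_neg hr, if_neg hr]

/-- The finite (for `ι` finite) direct sum of the spread representations `k_{S i}`. -/
noncomputable def spreadSum (k : Type u) [Field k] {ι : Type} (S : ι → Set P)
    (hS : ∀ i, IsSpread (S i)) : Rep.{u, v, u} k P where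
  V p := fib k S p
  map {p q} _ := fibMap k S p q
  map_id p x := fibMap_id k S p x
  map_comp h h' x := fibMap_comp k S hS h h' x

/-- The spread representation `k_S`. -/
noncomputable def kS (k : Type u) [Field k] (S : Set P) (hS : IsSpread S) : Rep.{u, v, u} k P :=
  spreadSum k (fun _ : Unit => S) (fun _ => hS)

theorem isSpread_Ici (p : P) : IsSpread (Set.Ici p) where
  nonempty := ⟨p, le_refl p⟩
  convex := fun a ha _ _ c hac _ => le_trans (Set.mem_Ici.1 ha) hac
  connected := by
    intro a ha b hb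
    have h1 : Relation.ReflTransGen
      (fun x y => x ∈ Set.Ici p ∧ y ∈ Set.Ici p ∧ (x ≤ y ∨ y ≤ x)) a p :=
      Relation.ReflTransGen.single ⟨ha, le_refl p, Or.inr ha⟩
    exact h1.tail ⟨le_refl p, hb, Or.inl hb⟩

/-- The finite (for `α` finite) direct sum of the representables `k_{↑ a i}`. -/
noncomputable def proj (k : Type u) [Field k] {α : Type} (a : α → P) : Rep.{u, v, u} k P :=
  spreadSum k (fun i => Set.Ici (a i)) (fun i => isSpread_Ici (a i))

/-- `M` is the cokernel of a morphism between finite direct sums of representables. -/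
def FinPres (M : Rep.{u, v, w} k P) : Prop :=
  ∃ (α β : Type) (_ : Finite α) (_ : Finite β) (a : α → P) (b : β → P)
    (f : Hom (proj k a) (proj k b)) (g : Hom (proj k b) M),
    (∀ p z, ∃ y, g.app p y = z) ∧ ∀ p y, g.app p y = 0 ↔ ∃ x, f.app p x = y

/-- `X → Y → Z` is exact at `Y` and stays exact under `Hom(k_A, -)` for all spreads `A`. -/
def SpreadExact {X : Rep.{u, v, w} k P} {Y : Rep.{u, v, w'} k P} {Z : Rep.{u, v, w''} k P}
    (f : Hom X Y) (g : Hom Y Z) : Prop :=
  (∀ p y, g.app p y = 0 ↔ ∃ x, f.app p x = y) ∧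
  ∀ (A : Set P) (hA : IsSpread A) (y : Hom (kS k A hA) Y),
    g.comp y = Hom.zero _ _ ↔ ∃ x : Hom (kS k A hA) X, f.comp x = y

/-- `Y → Z` is onto and stays onto under `Hom(k_A, -)` for all spreads `A`. -/
def SpreadEpi {Y : Rep.{u, v, w'} k P} {Z : Rep.{u, v, w''} k P} (g : Hom Y Z) : Prop :=
  (∀ p z, ∃ y, g.app p y = z) ∧
  ∀ (A : Set P) (hA : IsSpread A) (z : Hom (kS k A hA) Z),
    ∃ y : Hom (kS k A hA) Y, g.comp y = z

/-- `M` has a spread-resolution `0 → X_n → ⋯ → X_0 → M → 0` in `rep(P)`. -/
def HasSpreadRes (n : ℕ) (M : Rep.{u, v, w} k P) : Prop :=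
  ∃ (ι : ℕ → Type) (_ : ∀ i, Finite (ι i)) (S : ∀ i, ι i → Set P)
    (hS : ∀ i j, IsSpread (S i j))
    (d : ∀ i, Hom (spreadSum k (S (i + 1)) (hS (i + 1))) (spreadSum k (S i) (hS i)))
    (e : Hom (spreadSum k (S 0) (hS 0)) M),
    (∀ i, n < i → IsEmpty (ι i)) ∧
    (∀ i, FinPres (spreadSum k (S i) (hS i))) ∧
    SpreadEpi e ∧ SpreadExact (d 0) e ∧ ∀ i, SpreadExact (d (i + 1)) (d i)

end Pool.Agent.V1145.SR
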