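import Pool.Agent.V1145.SR9

universe u

namespace Pool.Agent.V1145.SR

open SR7 Function

variable {k : Type u} [Field k] {P : Type u} [PartialOrder P] [Finite P]

theorem ab_mins_up (S : Set P) : Ab S (mins (up S)) := by
  intro x hx
  exact (mem_mins.1 hx).1

theorem exists_bd {S K : Sp P} (hD : Dn S.1 K.1) (hne : K ≠ S) :
    ∃ z ∈ mins (up S.1), z ∈ K.1 := by
  obtain ⟨s, hs⟩ := S.2.nonempty
  have h1 : ∃ b ∈ K.1, b ∉ S.1 := by
    by_contra h
    push Not at h
    exact hne (Subtype.ext (Set.Subset.antisymm h hD.1))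
  obtain ⟨b0, hb0, hb0'⟩ := h1
  have key : ∀ p, Relation.ReflTransGen (fun x y => x ∈ K.1 ∧ y ∈ K.1 ∧ (x ≤ y ∨ y ≤ x)) s p →
      p ∉ S.1 → ∃ b ∈ K.1, b ∉ S.1 ∧ ∃ a ∈ S.1, a ≤ b := by
    intro p hp
    induction hp with
    | refl => exact fun h => absurd hs h
    | @tail b c _ h2 ih =>
      intro hc
      by_cases hb : b ∈ S.1
      · rcases h2.2.2 with h | h
        · exact ⟨c, h2.2.1, hc, b, hb, h⟩
        · exact absurd (hD.2 c h2.2.1 b hb h) hc
      · exact ih hb
  obtain ⟨b, hb, hbS, a, ha, hab⟩ := key b0 (K.2.connected s (hD.1 hs) b0 hb0) hb0'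
  have hbu : b ∈ up S.1 := ⟨⟨a, ha, hab⟩, hbS⟩
  obtain ⟨z, hz, hzb⟩ := exists_min_le hbu
  obtain ⟨a', ha', haz⟩ := hz.1.1
  exact ⟨z, mem_mins.2 hz, K.2.convex a' (hD.1 ha') b hb z haz hzb⟩

theorem Rg_sum {ι : Type*} (s : Finset ι) (f : ι → Rg k P) (K T : Sp P) :
    (∑ i ∈ s, f i).1 K T = ∑ i ∈ s, (f i).1 K T := by
  classical
  induction s using Finset.induction_on with
  | empty => rfl
  | insert a s ha ih =>
    rw [Finset.sum_insert ha, Finset.sum_insert ha, ← ih]
    rfl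

theorem one_eq_sum : (1 : Rg k P) = ∑ S, eps k S := by
  classical
  apply Subtype.ext
  funext K T
  rw [Rg_sum]
  change (if K = T then ind T.1 else 0) = ∑ S, (if K = S ∧ T = S then ind S.1 else 0)
  by_cases h : K = T
  · subst h
    rw [if_pos rfl, Finset.sum_eq_single K]
    · rw [if_pos ⟨rfl, rfl⟩]
    · intro S _ hS
      rw [if_neg (fun h' => hS h'.1.symm)]
    · intro h'
      exact absurd (Finset.mem_univ K) h'
  · rw [if_neg h]
    symm
    apply Finset.sum_eq_zero
    intro S _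
    rw [if_neg (fun h' => h (h'.1.trans h'.2.symm))]

theorem rho_eS (S : Sp P) : rho k S (eS k S) = eps k S := by
  classical
  apply Subtype.ext
  funext K T
  change (if T = S then (if K = S then ind S.1 else 0) else 0) =
    (if K = S ∧ T = S then ind S.1 else (0 : P → k))
  by_cases h1 : T = S
  · by_cases h2 : K = S
    · rw [if_pos h1, if_pos h2, if_pos ⟨h2, h1⟩]
    · rw [if_pos h1, if_neg h2, if_neg (fun h => h2 h.1)]
  · rw [if_neg h1, if_neg (fun h => h1 h.2)]

theorem gen_of_ne {S : Sp P} (z : Col (P := P) k S.1) (hz : z.1.1 S ≠ 0) :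
    ∃ r : Rg k P, r • z = eS k S := by
  classical
  obtain ⟨s0, hs0⟩ := S.2.nonempty
  have hzS : z.1.1 S ∈ HH k S.1 S.1 := z.2 S
  have hc : z.1.1 S s0 ≠ 0 := by
    intro h0
    apply hz
    funext p
    by_cases hp : p ∈ S.1
    · rw [HH_const' S.2 (fun _ h => h) hzS hp hs0]
      exact h0
    · exact hzS.1 p (Or.inl hp)
  refine ⟨(z.1.1 S s0)⁻¹ • eps k S, ?_⟩
  apply Subtype.ext
  apply Subtype.ext
  funext K p
  change ∑ T, ((z.1.1 S s0)⁻¹ • (if K = S ∧ T = S then ind S.1 else (0 : P → k)) p) * z.1.1 T p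
    = (if K = S then ind S.1 else (0 : P → k)) p
  rw [Finset.sum_eq_single S]
  · by_cases h : K = S
    · rw [if_pos ⟨h, rfl⟩, if_pos h]
      by_cases hp : p ∈ S.1
      · rw [HH_const' S.2 (fun _ h => h) hzS hp hs0]
        simp only [ind, if_pos hp, smul_eq_mul, mul_one]
        exact inv_mul_cancel₀ hc
      · simp [ind, hp]
    · rw [if_neg (fun h' => h h'.1), if_neg h]
      simp
  · intro T _ hT
    rw [if_neg (fun h' => hT h'.2)]
    simp
  · intro h
    exact absurd (Finset.mem_univ S) h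

theorem mem_rad_iff {S : Sp P} (y : Col (P := P) k S.1) :
    y.1 ∈ DD k S (fun K => (∀ x ∈ (∅ : Finset P), x ∈ K) ∧ ∃ z ∈ mins (up S.1), z ∈ K)
      (mono_XZ (fun x hx => absurd hx (Finset.notMem_empty x)) (ab_mins_up S.1)) ↔
    y.1.1 S = 0 := by
  constructor
  · intro h
    refine h.2 S ⟨fun _ h => h, fun p hp _ _ _ => hp⟩ ?_
    rintro ⟨_, z, hz, hzS⟩
    exact (ab_mins_up S.1 z hz).2 hzS
  · intro h
    refine ⟨y.2, fun K hD hn => ?_⟩
    by_cases hKS : K = S
    · rw [hKS]; exact h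
    · exact absurd ⟨fun x hx => absurd hx (Finset.notMem_empty x), exists_bd hD hKS⟩ hn

theorem rq_rad (S : Sp P) :
    RQ (Rg k P) (CC k P) ((mins S.1).card + (mins (up S.1)).card)
      (DD k S (fun K => (∀ x ∈ (∅ : Finset P), x ∈ K) ∧ ∃ z ∈ mins (up S.1), z ∈ K)
        (mono_XZ (fun x hx => absurd hx (Finset.notMem_empty x)) (ab_mins_up S.1)))
      (Col k S.1) := by
  have h1 : DD k S (fun K => ∀ x ∈ (∅ : Finset P), x ∈ K)
      (mono_X (fun x hx => absurd hx (Finset.notMem_empty x))) = Col (P := P) k S.1 := by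
    ext y
    constructor
    · intro h
      exact h.1
    · intro h
      exact ⟨h, fun K _ hn => absurd (fun x hx => absurd hx (Finset.notMem_empty x)) hn⟩
  rw [← h1]
  exact rq_cech S (mins (up S.1)) ∅ (fun x hx => absurd hx (Finset.notMem_empty x))
    (ab_mins_up S.1)

theorem res_simple (M : Type u) [AddCommGroup M] [Module (Rg k P) M]
    [IsSimpleModule (Rg k P) M] :
    ∃ S : Sp P, Res (Rg k P) (CC k P) ((mins S.1).card + (mins (up S.1)).card) M := by
  have hnt := IsSimpleModule.nontrivial (Rg k P) M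
  have hA : ∃ (S : Sp P) (v : M), eps k S • v ≠ 0 := by
    by_contra h
    push Not at h
    obtain ⟨v, hv⟩ := exists_ne (0 : M)
    apply hv
    rw [← one_smul (Rg k P) v, one_eq_sum, Finset.sum_smul]
    exact Finset.sum_eq_zero (fun S _ => h S v)
  obtain ⟨S, v, hv⟩ := hA
  refine ⟨S, ?_⟩
  let f : Col (P := P) k S.1 →ₗ[Rg k P] M := (LinearMap.toSpanSingleton (Rg k P) M v).comp
    (rho k S)
  have hfe : f (eS k S) ≠ 0 := by
    change rho k S (eS k S) • v ≠ 0
    rw [rho_eS]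
    exact hv
  have hsurj : Surjective f := by
    intro m
    have hr := IsSimpleModule.toSpanSingleton_surjective (Rg k P) hfe m
    obtain ⟨r, hr⟩ := hr
    refine ⟨r • eS k S, ?_⟩
    rw [map_smul]
    exact hr
  have hker1 : ∀ y, f y = 0 → y.1.1 S = 0 := by
    intro y hy
    by_contra hne
    obtain ⟨r, hr⟩ := gen_of_ne y hne
    apply hfe
    rw [← hr, map_smul, hy, smul_zero]
  refine (RQ_iff f hsurj ?_).1 (rq_rad S)
  ext y
  rw [LinearMap.mem_ker]
  refine Iff.trans ?_ (mem_rad_iff y).symm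
  refine ⟨hker1 y, fun hy => ?_⟩
  by_contra hne
  obtain ⟨r, hr⟩ := IsSimpleModule.toSpanSingleton_surjective (Rg k P) hne (f (eS k S))
  have h2 : f (eS k S - r • y) = 0 := by
    refine (LinearMap.map_sub f (eS k S) (r • y)).trans ?_
    rw [map_smul]
    exact sub_eq_zero.2 hr.symm
  have h3 := hker1 _ h2
  have h4 : (r • y).1.1 S = 0 :=
    (mem_rad_iff (r • y)).1 (Submodule.smul_mem _ r ((mem_rad_iff y).2 hy))
  have h5 : (eS k S).1.1 S - (r • y).1.1 S = 0 := h3
  rw [h4, sub_zero] at h5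
  have h6 : (eS k S).1.1 S = ind S.1 := by
    classical
    change (if S = S then ind S.1 else 0) = _
    rw [if_pos rfl]
  rw [h6] at h5
  obtain ⟨s0, hs0⟩ := S.2.nonempty
  have h7 := congrFun h5 s0
  simp [ind, hs0] at h7

theorem res_finlen (W : ℕ) (hW : ∀ S : Sp P, (mins S.1).card ≤ W ∧ (mins (up S.1)).card ≤ W)
    (M : Type u) [AddCommGroup M] [Module (Rg k P) M] (hM : IsFiniteLength (Rg k P) M) :
    Res (Rg k P) (CC k P) (W + W) M := by
  refine Res.of_simple (eC k P) (rC k P) (hC k P) (W + W) ?_ M hM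
  intro M _ _ _
  obtain ⟨S, hS⟩ := res_simple (k := k) (P := P) M
  exact Res.mono (Nat.add_le_add (hW S).1 (hW S).2) hS

theorem finlen_EM (X : Rep.{u, u, u} k P) (hX : ∀ p, Module.Finite k (X.V p)) :
    IsFiniteLength (Rg k P) (EM X) := by
  have h1 : Module.Finite k (Amb k X.V) := by
    change Module.Finite k (AmbS k X.V)
    infer_instance
  have h2 : IsNoetherian k (Amb k X.V) := inferInstance
  have h3 : IsArtinian k (Amb k X.V) := inferInstance
  have h4 : IsNoetherian (Rg k P) (Amb k X.V) := isNoetherian_of_tower k h2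
  have h5 : IsArtinian (Rg k P) (Amb k X.V) := isArtinian_of_tower k h3
  rw [isFiniteLength_iff_isNoetherian_isArtinian]
  exact ⟨inferInstance, inferInstance⟩

end Pool.Agent.V1145.SR
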