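import Pool.Agent.V1145.SR10

universe u

namespace Pool.Agent.V1145.SR

open SR7 Function

variable {k : Type u} [Field k] {P : Type u} [PartialOrder P] [Finite P]

structure FO (P : Type u) [PartialOrder P] where
  ι : Type
  fin : Finite ι
  s : ι → Sp P

noncomputable def SS (k : Type u) [Field k] {P : Type u} [PartialOrder P] (o : FO P) :
    Rep.{u, u, u} k P :=
  spreadSum k (fun i => (o.s i).1) (fun i => (o.s i).2)

theorem smul_apply_EM {X : Rep.{u, u, u} k P} (r : Rg k P) (y : EM X) (K : Sp P) (p : P) :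
    (r • y).1.1 K p = ∑ T, r.1 K T p • y.1.1 T p := rfl

noncomputable def coordIso (k : Type u) [Field k] {P : Type u} [PartialOrder P] [Finite P]
    (o : FO P) : (∀ j, CC k P (o.s j)) ≃ₗ[Rg k P] EM (SS k o) where
  toFun w := ⟨⟨fun K p => ⟨fun j => (w j).1.1 K p, fun j hj => ((w j).2 K).1 p (Or.inr hj)⟩,
    fun K p hp => Subtype.ext (funext fun j => ((w j).2 K).1 p (Or.inl hp))⟩, by
      classical
      intro K
      refine ⟨fun p hp => Subtype.ext (funext fun j => ((w j).2 K).1 p (Or.inl hp)),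
        fun p q h hp => ?_⟩
      apply Subtype.ext
      funext j
      change (if q ∈ (o.s j).1 then (w j).1.1 K p else 0) = (w j).1.1 K q
      by_cases hq : q ∈ (o.s j).1
      · rw [if_pos hq]
        exact ((w j).2 K).2 p q h hp hq
      · rw [if_neg hq]
        exact (((w j).2 K).1 q (Or.inr hq)).symm⟩
  map_add' _ _ := rfl
  map_smul' r w := by
    apply Subtype.ext
    apply Subtype.ext
    funext K p
    apply Subtype.ext
    funext j
    change ∑ T, r.1 K T p • (w j).1.1 T p = _
    have h1 : ((∑ T, r.1 K T p • (⟨fun j => (w j).1.1 T p,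
        fun j hj => ((w j).2 T).1 p (Or.inr hj)⟩ : fib k (fun i => (o.s i).1) p) :
        fib k (fun i => (o.s i).1) p) : o.ι → k) j = ∑ T, r.1 K T p • (w j).1.1 T p := by
      rw [Submodule.coe_sum, Finset.sum_apply]
      rfl
    exact h1.symm
  invFun y := fun j => ⟨⟨fun K p => (y.1.1 K p).1 j, fun K p hp => by
      have h1 : y.1.1 K p = 0 := y.1.2 K p hp
      exact congrFun (congrArg Subtype.val h1) j⟩, by
    classical
    intro K
    have hy : y.1.1 K ∈ E (SS k o) K.1 := y.2 K
    refine ⟨fun p hp => ?_, fun p q h hp hq => ?_⟩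
    · rcases hp with hp | hp
      · change (y.1.1 K p).1 j = 0
        rw [hy.1 p hp]
        rfl
      · exact (y.1.1 K p).2 j hp
    · have h1 := congrFun (congrArg Subtype.val (hy.2 p q h hp)) j
      change (if q ∈ (o.s j).1 then (y.1.1 K p).1 j else 0) = (y.1.1 K q).1 j at h1
      rw [if_pos hq] at h1
      exact h1⟩
  left_inv _ := rfl
  right_inv _ := rfl

def evE {Y : Rep.{u, u, u} k P} (K : Sp P) (p : P) : EM Y →+ Y.V p where
  toFun y := y.1.1 K p
  map_zero' := rfl
  map_add' _ _ := rfl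

theorem yon (o : FO P) {Y : Rep.{u, u, u} k P} (γ : EM (SS k o) →ₗ[Rg k P] EM Y) :
    ∃ h : Hom (SS k o) Y, ∀ (y : EM (SS k o)) (K : Sp P) (p : P),
      (γ y).1.1 K p = h.app p (y.1.1 K p) := by
  classical
  have := o.fin
  have := Fintype.ofFinite o.ι
  let uu : ∀ i, EM (SS k o) := fun i => coordIso k o (Pi.single i (eS k (o.s i)))
  let z : ∀ (i : o.ι) (p : P), Y.V p := fun i p => (γ (uu i)).1.1 (o.s i) p
  have hz : ∀ i, z i ∈ E Y (o.s i).1 := fun i => (γ (uu i)).2 (o.s i)
  refine ⟨⟨fun p =>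
    { toFun := fun c => ∑ i, c.1 i • z i p
      map_add' := by
        intro c d
        rw [← Finset.sum_add_distrib]
        exact Finset.sum_congr rfl (fun i _ => add_smul (c.1 i) (d.1 i) (z i p))
      map_smul' := by
        intro a c
        rw [RingHom.id_apply, Finset.smul_sum]
        exact Finset.sum_congr rfl (fun i _ => mul_smul a (c.1 i) (z i p)) }, ?_⟩, ?_⟩
  · intro p q h c
    change ∑ i, (if q ∈ (o.s i).1 then c.1 i else 0) • z i q =
      Y.map h (∑ i, c.1 i • z i p)
    rw [map_sum]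
    apply Finset.sum_congr rfl
    intro i _
    rw [map_smul]
    by_cases hp : p ∈ (o.s i).1
    · rw [(hz i).2 p q h hp]
      by_cases hq : q ∈ (o.s i).1
      · rw [if_pos hq]
      · rw [if_neg hq, (hz i).1 q hq, smul_zero, smul_zero]
    · have h0 : c.1 i = 0 := c.2 i hp
      rw [h0, ite_self, zero_smul, zero_smul]
  · intro y K p
    obtain ⟨w, rfl⟩ := (coordIso k o).surjective y
    have hw : w = ∑ i, rho k (o.s i) (w i) • Pi.single i (eS k (o.s i)) := by
      conv_lhs => rw [← Finset.univ_sum_single w]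
      apply Finset.sum_congr rfl
      intro i _
      rw [← Pi.single_smul, rho_smul]
    have h1 : γ (coordIso k o w) = ∑ i, rho k (o.s i) (w i) • γ (uu i) := by
      conv_lhs => rw [hw]
      rw [map_sum, map_sum]
      apply Finset.sum_congr rfl
      intro i _
      rw [map_smul, map_smul]
    have h2 : (γ (coordIso k o w)).1.1 K p =
        ∑ i, (rho k (o.s i) (w i) • γ (uu i)).1.1 K p := by
      rw [h1]
      exact map_sum (evE K p) _ _
    rw [h2]
    change _ = ∑ i, (w i).1.1 K p • z i p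
    apply Finset.sum_congr rfl
    intro i _
    rw [smul_apply_EM, Finset.sum_eq_single (o.s i)]
    · change (if o.s i = o.s i then (w i).1.1 K else 0) p • _ = _
      rw [if_pos rfl]
    · intro T _ hT
      change (if T = o.s i then (w i).1.1 K else 0) p • _ = _
      rw [if_neg hT, Pi.zero_apply, zero_smul]
    · intro h
      exact absurd (Finset.mem_univ _) h

theorem EM_sub (o : FO P) (h : IsEmpty o.ι) (x : EM (SS k o)) : x = 0 := by
  apply (coordIso k o).symm.injective
  exact Subsingleton.elim _ _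

theorem res_seq : ∀ (n : ℕ) (M : Type u) [AddCommGroup M] [Module (Rg k P) M],
    Res (Rg k P) (CC k P) n M →
    ∃ (O : ℕ → FO P) (ε : EM (SS k (O 0)) →ₗ[Rg k P] M)
      (δ : ∀ i, EM (SS k (O (i + 1))) →ₗ[Rg k P] EM (SS k (O i))),
      Surjective ε ∧ (∀ x, ε x = 0 ↔ ∃ y, δ 0 y = x) ∧
      (∀ i x, δ i x = 0 ↔ ∃ y, δ (i + 1) y = x) ∧ ∀ i, n < i → IsEmpty (O i).ι
  | 0, M, _, _, h => by
    obtain ⟨ι, hι, s, ⟨E'⟩⟩ := h
    let O : ℕ → FO P := fun i => Nat.casesOn i ⟨ι, hι, s⟩
      (fun _ => ⟨Empty, inferInstance, Empty.elim⟩)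
    let e : EM (SS k (O 0)) ≃ₗ[Rg k P] M := (E'.trans (coordIso k ⟨ι, hι, s⟩)).symm
    refine ⟨O, e.toLinearMap, fun i => 0, e.surjective, fun x => ?_, fun i x => ?_,
      fun i hi => ?_⟩
    · constructor
      · intro hx
        refine ⟨0, ?_⟩
        have : x = 0 := e.injective (by rw [map_zero]; exact hx)
        rw [this]
        rfl
      · rintro ⟨y, rfl⟩
        exact map_zero e
    · constructor
      · intro _
        exact ⟨0, (EM_sub (O (i + 1)) (show IsEmpty Empty by infer_instance) x).symm⟩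
      · intro _
        rfl
    · obtain ⟨j, rfl⟩ := Nat.exists_eq_succ_of_ne_zero (Nat.pos_iff_ne_zero.1 hi)
      exact (show IsEmpty Empty by infer_instance)
  | n + 1, M, _, _, h => by
    obtain ⟨F, _, _, f, ⟨ι, hι, s, ⟨E'⟩⟩, hf, hk⟩ := h
    obtain ⟨O', ε', δ', hε', h0', hδ', hO'⟩ := res_seq n _ hk
    let O : ℕ → FO P := fun i => Nat.casesOn i ⟨ι, hι, s⟩ (fun j => O' j)
    let e : F ≃ₗ[Rg k P] EM (SS k (O 0)) := E'.trans (coordIso k ⟨ι, hι, s⟩)
    let δ : ∀ i, EM (SS k (O (i + 1))) →ₗ[Rg k P] EM (SS k (O i)) := fun i =>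
      Nat.casesOn i (e.toLinearMap.comp ((LinearMap.ker f).subtype.comp ε')) (fun j => δ' j)
    refine ⟨O, f.comp e.symm.toLinearMap, δ, hf.comp e.symm.surjective, fun x => ?_,
      fun i x => ?_, fun i hi => ?_⟩
    · constructor
      · intro hx
        obtain ⟨y, hy⟩ := hε' ⟨e.symm x, hx⟩
        refine ⟨y, ?_⟩
        change e (ε' y).1 = x
        rw [hy]
        exact e.apply_symm_apply x
      · rintro ⟨y, rfl⟩
        change f (e.symm (e (ε' y).1)) = 0
        rw [e.symm_apply_apply]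
        exact (ε' y).2
    · cases i with
      | zero =>
        refine Iff.trans ?_ (h0' x)
        change e (ε' x).1 = 0 ↔ ε' x = 0
        constructor
        · intro hx
          apply Subtype.ext
          apply e.injective
          rw [hx]
          exact (map_zero e).symm
        · intro hx
          rw [hx]
          exact map_zero e
      | succ j => exact hδ' j x
    · cases i with
      | zero => exact absurd hi (Nat.not_lt_zero _)
      | succ j => exact hO' j (Nat.lt_of_succ_lt_succ hi)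

open Classical in
noncomputable def colE {Y : Rep.{u, u, u} k P} (A : Sp P) (y : ∀ p, Y.V p)
    (hy : y ∈ E Y A.1) : EM Y :=
  ⟨⟨fun K p => if K = A then y p else 0, fun K p hp => by
      by_cases h : K = A
      · rw [h] at hp
        change (if K = A then y p else 0) = 0
        rw [if_pos h]
        exact hy.1 p hp
      · exact if_neg h⟩, fun K => by
      by_cases h : K = A
      · subst h
        refine ⟨fun p hp => ?_, fun p q hpq hp => ?_⟩
        · change (if K = K then y p else 0) = 0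
          rw [if_pos rfl]
          exact hy.1 p hp
        · change Y.map hpq (if K = K then y p else 0) = (if K = K then y q else 0)
          rw [if_pos rfl, if_pos rfl]
          exact hy.2 p q hpq hp
      · refine ⟨fun p hp => if_neg h, fun p q hpq hp => ?_⟩
        change Y.map hpq (if K = A then y p else 0) = (if K = A then y q else 0)
        rw [if_neg h, if_neg h, map_zero]⟩

theorem colE_self {Y : Rep.{u, u, u} k P} (A : Sp P) (y : ∀ p, Y.V p)
    (hy : y ∈ E Y A.1) (p : P) : (colE A y hy).1.1 A p = y p := if_pos rfl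

theorem colE_ne {Y : Rep.{u, u, u} k P} {A K : Sp P} (y : ∀ p, Y.V p)
    (hy : y ∈ E Y A.1) (p : P) (h : K ≠ A) : (colE A y hy).1.1 K p = 0 := if_neg h

variable {X Y Z : Rep.{u, u, u} k P}

theorem epi_of_surj (f : Hom X Y) (γ : EM X →ₗ[Rg k P] EM Y)
    (hf : ∀ (y : EM X) (K : Sp P) (p : P), (γ y).1.1 K p = f.app p (y.1.1 K p))
    (hs : Surjective γ) : SpreadEpi f := by
  apply spreadEpi_of_lift
  intro A hA y hy _
  obtain ⟨x, hx⟩ := hs (colE ⟨A, hA⟩ y hy)
  refine ⟨x.1.1 ⟨A, hA⟩, x.2 ⟨A, hA⟩, fun p => ?_⟩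
  rw [← hf, hx, colE_self]

theorem exact_of_ker (f : Hom X Y) (g : Hom Y Z) (γ : EM X →ₗ[Rg k P] EM Y)
    (γ' : EM Y →ₗ[Rg k P] EM Z)
    (hf : ∀ (y : EM X) (K : Sp P) (p : P), (γ y).1.1 K p = f.app p (y.1.1 K p))
    (hg : ∀ (y : EM Y) (K : Sp P) (p : P), (γ' y).1.1 K p = g.app p (y.1.1 K p))
    (hex : ∀ x, γ' x = 0 ↔ ∃ y, γ y = x) : SpreadExact f g := by
  classical
  apply spreadExact_of_lift
  · intro p x
    have hx : (fun q => if hq : p ≤ q then X.map hq x else 0) ∈ E X (Set.Ici p) :=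
      ⟨fun q hq => dif_neg hq, fun q r hqr hq => by
        have hq' : p ≤ q := hq
        simp only [hq', hq'.trans hqr, dif_pos]
        rw [X.map_comp]⟩
    have h1 := (hex _).2 ⟨colE ⟨Set.Ici p, isSpread_Ici p⟩ _ hx, rfl⟩
    have h2 : (γ' (γ (colE ⟨Set.Ici p, isSpread_Ici p⟩ _ hx))).1.1
        ⟨Set.Ici p, isSpread_Ici p⟩ p = 0 := by
      rw [h1]
      rfl
    rw [hg, hf, colE_self] at h2
    simp only [le_refl, dif_pos] at h2
    rwa [X.map_id] at h2
  · intro A hA y hy hgy
    have h1 : γ' (colE ⟨A, hA⟩ y hy) = 0 := by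
      apply Subtype.ext
      apply Subtype.ext
      funext K p
      rw [hg]
      by_cases hK : K = ⟨A, hA⟩
      · subst hK
        rw [colE_self]
        exact hgy p
      · rw [colE_ne y hy p hK, map_zero]
        rfl
    obtain ⟨x, hx⟩ := (hex _).1 h1
    refine ⟨x.1.1 ⟨A, hA⟩, x.2 ⟨A, hA⟩, fun p => ?_⟩
    rw [← hf, hx, colE_self]

theorem res_final (n : ℕ) (M : Rep.{u, u, u} k P) (h : Res (Rg k P) (CC k P) n (EM M))
    (hfp : ∀ o : FO P, FinPres (SS k o)) : HasSpreadRes n M := by
  obtain ⟨O, ε, δ, hε, h0, hδ, hO⟩ := res_seq n _ h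
  obtain ⟨e, he⟩ := yon (O 0) ε
  have hd := fun i => yon (O (i + 1)) (δ i)
  choose d hd using hd
  exact ⟨fun i => (O i).ι, fun i => (O i).fin, fun i j => ((O i).s j).1,
    fun i j => ((O i).s j).2, d, e, hO, fun i => hfp (O i), epi_of_surj e ε he hε,
    exact_of_ker (d 0) e (δ 0) ε (hd 0) he h0,
    fun i => exact_of_ker (d (i + 1)) (d i) (δ (i + 1)) (δ i) (hd (i + 1)) (hd i) (hδ i)⟩

/-- The finite poset theorem, with an explicit bound. -/
theorem finite_poset (W : ℕ)
    (hW : ∀ S : Sp P, (mins S.1).card ≤ W ∧ (mins (up S.1)).card ≤ W)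
    (hfp : ∀ o : FO P, FinPres (SS k o)) (M : Rep.{u, u, u} k P)
    (hM : ∀ p, Module.Finite k (M.V p)) : HasSpreadRes (W + W) M :=
  res_final _ M (res_finlen W hW _ (finlen_EM M hM)) hfp

end Pool.Agent.V1145.SR
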