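import Pool.Agent.V1145.SR11

universe u

namespace Pool.Agent.V1145.SR

open Function

theorem mins_card {k T Q : Type u} [Field k] [LinearOrder T] [Finite T] [PartialOrder Q]
    [Finite Q] (A : Set (T × Q)) : (mins A).card ≤ Nat.card Q := by
  classical
  have := Fintype.ofFinite Q
  rw [Nat.card_eq_fintype_card, ← Finset.card_univ]
  apply Finset.card_le_card_of_injOn (fun m => m.2) (fun _ _ => Finset.mem_univ _)
  intro a ha b hb hab
  have ha' := mem_mins.1 (Finset.mem_coe.1 ha)
  have hb' := mem_mins.1 (Finset.mem_coe.1 hb)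
  have hab' : a.2 = b.2 := hab
  rcases le_total a.1 b.1 with h | h
  · exact hb'.2 a ha'.1 ⟨h, hab'.le⟩
  · exact (ha'.2 b hb'.1 ⟨h, hab'.ge⟩).symm

theorem chain_times {k T Q : Type u} [Field k] [LinearOrder T] [Finite T] [PartialOrder Q]
    [Finite Q] (M : Rep.{u, u, u} k (T × Q)) (hM : ∀ p, Module.Finite k (M.V p)) :
    HasSpreadRes (2 * Nat.card Q) M := by
  rw [two_mul]
  refine finite_poset (Nat.card Q) (fun S => ⟨mins_card (k := k) _, mins_card (k := k) _⟩)
    (fun o => ?_) M hM
  have := o.fin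
  exact finPres_finite (fun p => fd_spreadSum _ _ p)

theorem main {k T Q : Type u} [Field k] [LinearOrder T] [PartialOrder Q] [Finite Q]
    (M : Rep.{u, u, u} k (T × Q)) (hM : FinPres M) : HasSpreadRes (2 * Nat.card Q) M := by
  obtain ⟨F, hF, hfd⟩ := fconst_of_finPres hM
  exact transfer hF (chain_times (rest F M) (fun p => hfd _))

end Pool.Agent.V1145.SR
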