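import Pool.Agent.V1145.SR1

universe u v w w' w''

namespace Pool.Agent.V1145.SR

variable {k : Type u} [Field k] {P : Type v} [PartialOrder P]
variable {X : Rep.{u, v, w} k P} {Y : Rep.{u, v, w'} k P} {Z : Rep.{u, v, w''} k P}

/-- Sections over `A` vanishing outside: a model of `Hom(k_A, X)`. -/
def E (X : Rep.{u, v, w} k P) (A : Set P) : Set (∀ p, X.V p) :=
  {x | (∀ p, p ∉ A → x p = 0) ∧ ∀ p q (h : p ≤ q), p ∈ A → X.map h (x p) = x q}

theorem E_on (f : Hom X Y) {A : Set P} {x : ∀ p, X.V p} (hx : x ∈ E X A) :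
    (fun p => f.app p (x p)) ∈ E Y A := by
  refine ⟨fun p hp => ?_, fun p q h hp => ?_⟩
  · simp [hx.1 p hp]
  · rw [← f.nat, hx.2 p q h hp]

def Lift (f : Hom X Y) (g : Hom Y Z) (A : Set P) : Prop :=
  ∀ y ∈ E Y A, (∀ p, g.app p (y p) = 0) → ∃ x ∈ E X A, ∀ p, f.app p (x p) = y p

theorem E_add {A : Set P} {x y : ∀ p, X.V p} (hx : x ∈ E X A) (hy : y ∈ E X A) :
    (fun p => x p + y p) ∈ E X A := by
  refine ⟨fun p hp => ?_, fun p q h hp => ?_⟩
  · simp [hx.1 p hp, hy.1 p hp]
  · rw [map_add, hx.2 p q h hp, hy.2 p q h hp]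

open Classical in
noncomputable def toE {A : Set P} (hA : IsSpread A) (y : Hom (kS k A hA) X) : ∀ p, X.V p :=
  fun p => if h : p ∈ A then y.app p ⟨fun _ => 1, fun _ hi => absurd h hi⟩ else 0

theorem toE_mem {A : Set P} (hA : IsSpread A) (y : Hom (kS k A hA) X) : toE hA y ∈ E X A := by
  classical
  refine ⟨fun p hp => by simp [toE, hp], fun p q h hp => ?_⟩
  by_cases hq : q ∈ A
  · simp only [toE, hp, hq, dif_pos]
    rw [← y.nat]
    congr 1
    apply Subtype.ext
    funext i
    change (if q ∈ A then (1 : k) else 0) = 1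
    rw [if_pos hq]
  · simp only [toE, hp, hq, dif_pos, dif_neg, not_false_eq_true]
    rw [← y.nat]
    have : (kS k A hA).map h ⟨fun _ => 1, fun _ hi => absurd hp hi⟩ = 0 := by
      apply Subtype.ext
      funext i
      change (if q ∈ A then (1 : k) else 0) = 0
      rw [if_neg hq]
    rw [this, map_zero]

theorem app_eq_toE {A : Set P} (hA : IsSpread A) (y : Hom (kS k A hA) X) (p : P)
    (x : (kS k A hA).V p) : y.app p x = x.1 () • toE hA y p := by
  classical
  by_cases hp : p ∈ A
  · simp only [toE, hp, dif_pos]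
    rw [← map_smul]
    congr 1
    apply Subtype.ext
    funext i
    change x.1 i = x.1 () • (1 : k)
    simp
  · have h0 : x.1 () = 0 := x.2 () hp
    have : x = 0 := by
      apply Subtype.ext
      funext i
      exact h0
    rw [h0, zero_smul, this, map_zero]

noncomputable def ofE {A : Set P} (hA : IsSpread A) (x : ∀ p, X.V p) (hx : x ∈ E X A) :
    Hom (kS k A hA) X where
  app p := (LinearMap.toSpanSingleton k _ (x p)).comp
    ((LinearMap.proj ()).comp (fib k (fun _ : Unit => A) p).subtype)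
  nat := by
    classical
    intro p q h y
    change (if q ∈ A then y.1 () else 0) • x q = X.map h (y.1 () • x p)
    rw [map_smul]
    by_cases hp : p ∈ A
    · rw [hx.2 p q h hp]
      by_cases hq : q ∈ A
      · simp [hq]
      · simp [hq, hx.1 q hq]
    · have h0 : y.1 () = 0 := y.2 () hp
      simp [h0]

theorem ofE_app {A : Set P} (hA : IsSpread A) (x : ∀ p, X.V p) (hx : x ∈ E X A) (p : P)
    (y : (kS k A hA).V p) : (ofE hA x hx).app p y = y.1 () • x p := rfl

theorem lift_of_spreadExact {f : Hom X Y} {g : Hom Y Z} (h : SpreadExact f g) {A : Set P}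
    (hA : IsSpread A) : Lift f g A := by
  classical
  intro y hy hg
  obtain ⟨x, hx⟩ := (h.2 A hA (ofE hA y hy)).1 (by
    apply Hom.ext'
    intro p z
    change g.app p ((ofE hA y hy).app p z) = 0
    rw [ofE_app, map_smul, hg, smul_zero])
  refine ⟨toE hA x, toE_mem hA x, fun p => ?_⟩
  by_cases hp : p ∈ A
  · have h1 : (f.comp x).app p ⟨fun _ => 1, fun _ hi => absurd hp hi⟩ =
        (ofE hA y hy).app p ⟨fun _ => 1, fun _ hi => absurd hp hi⟩ := by rw [hx]
    rw [ofE_app, one_smul] at h1
    simp only [toE, hp, dif_pos]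
    exact h1
  · rw [hy.1 p hp, (toE_mem hA x).1 p hp, map_zero]

theorem spreadExact_of_lift {f : Hom X Y} {g : Hom Y Z} (h0 : ∀ p x, g.app p (f.app p x) = 0)
    (h : ∀ A, IsSpread A → Lift f g A) : SpreadExact f g := by
  classical
  refine ⟨fun p y => ⟨fun hy => ?_, ?_⟩, fun A hA y => ⟨fun hy => ?_, ?_⟩⟩
  · obtain ⟨x, _, hx⟩ := h (Set.Ici p) (isSpread_Ici p)
      (fun q => if hq : p ≤ q then Y.map hq y else 0)
      ⟨fun q hq => dif_neg hq, fun q r hqr hq => by
        have hq' : p ≤ q := hq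
        simp only [hq', hq'.trans hqr, dif_pos]
        rw [Y.map_comp]⟩
      (fun q => by
        by_cases hq : p ≤ q
        · simp only [hq, dif_pos]
          rw [g.nat, hy, map_zero]
        · simp only [hq, dif_neg, not_false_eq_true, map_zero])
    refine ⟨x p, ?_⟩
    rw [hx p]
    simp only [le_refl, dif_pos]
    exact Y.map_id p y
  · rintro ⟨x, rfl⟩
    exact h0 p x
  · obtain ⟨x, hxE, hx⟩ := h A hA (toE hA y) (toE_mem hA y) (fun p => by
      by_cases hp : p ∈ A
      · simp only [toE, hp, dif_pos]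
        have : (g.comp y).app p ⟨fun _ => 1, fun _ hi => absurd hp hi⟩ = 0 := by rw [hy]; rfl
        exact this
      · rw [(toE_mem hA y).1 p hp, map_zero])
    refine ⟨ofE hA x hxE, ?_⟩
    apply Hom.ext'
    intro p z
    change f.app p ((ofE hA x hxE).app p z) = y.app p z
    rw [ofE_app, map_smul, hx, app_eq_toE]
  · rintro ⟨x, rfl⟩
    apply Hom.ext'
    intro p z
    exact h0 p _

theorem lift_of_spreadEpi {g : Hom Y Z} (h : SpreadEpi g) {A : Set P}
    (hA : IsSpread A) : Lift g (Hom.zero Z Z) A := by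
  classical
  intro y hy hg
  obtain ⟨x, hx⟩ := h.2 A hA (ofE hA y hy)
  refine ⟨toE hA x, toE_mem hA x, fun p => ?_⟩
  by_cases hp : p ∈ A
  · have h1 : (g.comp x).app p ⟨fun _ => 1, fun _ hi => absurd hp hi⟩ =
        (ofE hA y hy).app p ⟨fun _ => 1, fun _ hi => absurd hp hi⟩ := by rw [hx]
    rw [ofE_app, one_smul] at h1
    simp only [toE, hp, dif_pos]
    exact h1
  · rw [hy.1 p hp, (toE_mem hA x).1 p hp, map_zero]

theorem spreadEpi_of_lift {g : Hom Y Z} (h : ∀ A, IsSpread A → Lift g (Hom.zero Z Z) A) :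
    SpreadEpi g := by
  have := spreadExact_of_lift (f := g) (g := Hom.zero Z Z) (fun p x => rfl) h
  exact ⟨fun p z => (this.1 p z).1 rfl, fun A hA z => (this.2 A hA z).1 rfl⟩

/-! ### From spreads to convex sets -/

def Cvx (A : Set P) : Prop := ∀ a ∈ A, ∀ b ∈ A, ∀ p, a ≤ p → p ≤ b → p ∈ A

def cmp (A : Set P) (a : P) : Set P :=
  {p | p ∈ A ∧ Relation.ReflTransGen (fun x y => x ∈ A ∧ y ∈ A ∧ (x ≤ y ∨ y ≤ x)) a p}

theorem cmp_spread {A : Set P} (hA : Cvx A) {a : P} (ha : a ∈ A) : IsSpread (cmp A a) := by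
  have key : ∀ p, Relation.ReflTransGen (fun x y => x ∈ A ∧ y ∈ A ∧ (x ≤ y ∨ y ≤ x)) a p →
      Relation.ReflTransGen
        (fun x y => x ∈ cmp A a ∧ y ∈ cmp A a ∧ (x ≤ y ∨ y ≤ x)) a p := by
    intro p hp
    induction hp with
    | refl => exact Relation.ReflTransGen.refl
    | tail h1 h2 ih => exact ih.tail ⟨⟨h2.1, h1⟩, ⟨h2.2.1, h1.tail h2⟩, h2.2.2⟩
  have sym : ∀ p q, Relation.ReflTransGen
      (fun x y => x ∈ cmp A a ∧ y ∈ cmp A a ∧ (x ≤ y ∨ y ≤ x)) p q →
      Relation.ReflTransGen
        (fun x y => x ∈ cmp A a ∧ y ∈ cmp A a ∧ (x ≤ y ∨ y ≤ x)) q p := by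
    intro p q hpq
    induction hpq with
    | refl => exact Relation.ReflTransGen.refl
    | tail h1 h2 ih => exact Relation.ReflTransGen.head ⟨h2.2.1, h2.1, h2.2.2.symm⟩ ih
  refine ⟨⟨a, ha, Relation.ReflTransGen.refl⟩, fun s hs s' hs' p h1 h2 => ?_,
    fun b hb c hc => ?_⟩
  · have hp : p ∈ A := hA s hs.1 s' hs'.1 p h1 h2
    exact ⟨hp, hs.2.tail ⟨hs.1, hp, Or.inl h1⟩⟩
  · exact (sym _ _ (key b hb.2)).trans (key c hc.2)

theorem cmp_closed {A : Set P} {a p q : P} (hp : p ∈ cmp A a) (hq : q ∈ A)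
    (h : p ≤ q ∨ q ≤ p) : q ∈ cmp A a := ⟨hq, hp.2.tail ⟨hp.1, hq, h⟩⟩

theorem lift_convex [Finite P] (f : Hom X Y) (g : Hom Y Z)
    (h : ∀ A, IsSpread A → Lift f g A) : ∀ (A : Set P), Cvx A → Lift f g A := by
  classical
  have main : ∀ (n : ℕ) (A : Set P), A.ncard = n → Cvx A → Lift f g A := by
    intro n
    induction n using Nat.strong_induction_on with
    | _ n ih =>
      intro A hn hA y hy hg
      rcases Set.eq_empty_or_nonempty A with rfl | ⟨a, ha⟩
      · refine ⟨fun p => 0, ⟨fun p _ => rfl, fun p q _ hp => absurd hp (by simp)⟩,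
          fun p => ?_⟩
        rw [hy.1 p (by simp), map_zero]
      · have hfin : A.Finite := Set.toFinite A
        have hC := cmp_spread hA ha
        have hB : Cvx (A \ cmp A a) := by
          intro s hs s' hs' p h1 h2
          have hp : p ∈ A := hA s hs.1 s' hs'.1 p h1 h2
          exact ⟨hp, fun hpc => hs.2 (cmp_closed hpc hs.1 (Or.inr h1))⟩
        have hcard : (A \ cmp A a).ncard < n := by
          rw [← hn]
          apply Set.ncard_lt_ncard _ hfin
          refine ⟨Set.sdiff_subset, fun hs => ?_⟩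
          exact (hs ha).2 ⟨ha, Relation.ReflTransGen.refl⟩
        obtain ⟨x1, hx1, hf1⟩ := h _ hC (fun p => if p ∈ cmp A a then y p else 0)
          ⟨fun p hp => if_neg hp, fun p q hpq hp => by
            simp only [hp, if_true]
            rw [hy.2 p q hpq hp.1]
            by_cases hq : q ∈ cmp A a
            · simp [hq]
            · simp only [hq, if_false]
              exact hy.1 q (fun hqA => hq (cmp_closed hp hqA (Or.inl hpq)))⟩
          (fun p => by
            by_cases hp : p ∈ cmp A a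
            · simp only [hp, if_true]; exact hg p
            · simp only [hp, if_false, map_zero])
        obtain ⟨x2, hx2, hf2⟩ := ih _ hcard (A \ cmp A a) rfl hB
          (fun p => if p ∈ A \ cmp A a then y p else 0)
          ⟨fun p hp => if_neg hp, fun p q hpq hp => by
            simp only [hp, if_true]
            rw [hy.2 p q hpq hp.1]
            by_cases hq : q ∈ A \ cmp A a
            · simp [hq]
            · simp only [hq, if_false]
              exact hy.1 q (fun hqA => hq ⟨hqA, fun hqc =>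
                hp.2 (cmp_closed hqc hp.1 (Or.inr hpq))⟩)⟩
          (fun p => by
            by_cases hp : p ∈ A \ cmp A a
            · simp only [hp, if_true]; exact hg p
            · simp only [hp, if_false, map_zero])
        refine ⟨fun p => x1 p + x2 p, ⟨fun p hp => ?_, fun p q hpq hp => ?_⟩, fun p => ?_⟩
        · beta_reduce
          rw [hx1.1 p (fun hc => hp hc.1), hx2.1 p (fun hc => hp hc.1), add_zero]
        · beta_reduce
          rw [map_add]
          by_cases hpc : p ∈ cmp A a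
          · rw [hx1.2 p q hpq hpc, hx2.1 p (fun hc => hc.2 hpc), map_zero,
              hx2.1 q (fun hc => hc.2 (cmp_closed hpc hc.1 (Or.inl hpq)))]
          · rw [hx2.2 p q hpq ⟨hp, hpc⟩, hx1.1 p hpc, map_zero,
              hx1.1 q (fun hc => hpc (cmp_closed hc hp (Or.inr hpq)))]
        · rw [map_add, hf1, hf2]
          by_cases hpA : p ∈ A
          · by_cases hpc : p ∈ cmp A a
            · simp [hpc]
            · simp [hpc, hpA]
          · have h1 : p ∉ cmp A a := fun hc => hpA hc.1
            simp only [h1, Set.mem_sdiff, hpA, false_and, if_false, add_zero]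
            exact (hy.1 p hpA).symm
  exact fun A => main _ A rfl

end Pool.Agent.V1145.SR
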