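import Pool.Agent.V1145.SR2

universe u v v' w w' w''

namespace Pool.Agent.V1145.SR

variable {k : Type u} [Field k] {T : Type v} [LinearOrder T] {Q : Type v'} [PartialOrder Q]

abbrev Blk (F : Finset T) (c t : T) : Prop := c ∈ F ∧ c ≤ t ∧ ∀ c' ∈ F, c' ≤ t → c' ≤ c

def Low (F : Finset T) (t : T) : Prop := ∀ c ∈ F, ¬ c ≤ t

theorem low_or_blk (F : Finset T) (t : T) : Low F t ∨ ∃ c, Blk F c t := by
  classical
  by_cases h : (F.filter (fun c => c ≤ t)).Nonempty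
  · right
    refine ⟨(F.filter (fun c => c ≤ t)).max' h, ?_, ?_, ?_⟩
    · exact (Finset.mem_filter.1 (Finset.max'_mem _ h)).1
    · exact (Finset.mem_filter.1 (Finset.max'_mem _ h)).2
    · intro c' hc' hle
      exact Finset.le_max' _ _ (Finset.mem_filter.2 ⟨hc', hle⟩)
  · left
    intro c hc hle
    exact h ⟨c, Finset.mem_filter.2 ⟨hc, hle⟩⟩

variable {F : Finset T}

theorem Blk.uniq {c c' t : T} (h : Blk F c t) (h' : Blk F c' t) : c = c' :=
  le_antisymm (h'.2.2 c h.1 h.2.1) (h.2.2 c' h'.1 h'.2.1)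

theorem Blk.self {c : T} (h : c ∈ F) : Blk F c c := ⟨h, le_refl c, fun _ _ h => h⟩

theorem Blk.mono {c t t' : T} (h : Blk F c t) (ht : t ≤ t') : ∃ c', Blk F c' t' ∧ c ≤ c' := by
  rcases low_or_blk F t' with h' | ⟨c', h'⟩
  · exact absurd (h.2.1.trans ht) (h' c h.1)
  · exact ⟨c', h', h'.2.2 c h.1 (h.2.1.trans ht)⟩

theorem Blk.sup {c c' t t' : T} (h : Blk F c t) (h' : Blk F c' t') (hc : c ≤ c') :
    Blk F c' (max t t') := by
  rcases le_total t t' with ht | ht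
  · rw [max_eq_right ht]; exact h'
  · rw [max_eq_left ht]
    have : c' = c := le_antisymm (h.2.2 c' h'.1 (h'.2.1.trans ht)) hc
    rw [this]; exact h

theorem Blk.notLow {c t : T} (h : Blk F c t) : ¬ Low F t := fun hl => hl c h.1 h.2.1

theorem bl {c t : T} (h : Blk F c t) (q : Q) : ((c, q) : T × Q) ≤ (t, q) := ⟨h.2.1, le_refl q⟩

structure FConst (F : Finset T) (W : Rep.{u, max v v', w} k (T × Q)) : Prop where
  low : ∀ t q, Low F t → ∀ x : W.V (t, q), x = 0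
  inj : ∀ c t q (h : Blk F c t), Function.Injective (W.map (bl h q))
  surj : ∀ c t q (h : Blk F c t), Function.Surjective (W.map (bl h q))

theorem FConst.inj' {W : Rep.{u, max v v', w} k (T × Q)} (hW : FConst F W) {c t t' : T} {q : Q}
    (h : Blk F c t) (h' : Blk F c t') (ht : ((t, q) : T × Q) ≤ (t', q)) :
    Function.Injective (W.map ht) := by
  intro x y hxy
  obtain ⟨x0, rfl⟩ := hW.surj c t q h x
  obtain ⟨y0, rfl⟩ := hW.surj c t q h y
  rw [W.map_comp, W.map_comp] at hxy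
  rw [hW.inj c t' q h' hxy]

/-- Restriction to `F × Q`. -/
abbrev rest (F : Finset T) (W : Rep.{u, max v v', w} k (T × Q)) :
    Rep.{u, max v v', w} k (F × Q) where
  V x := W.V (x.1.1, x.2)
  map {x y} h := W.map (p := (x.1.1, x.2)) (q := (y.1.1, y.2)) ⟨h.1, h.2⟩
  map_id _ y := W.map_id _ y
  map_comp _ _ x := W.map_comp _ _ x

def restHom (F : Finset T) {W : Rep.{u, max v v', w} k (T × Q)}
    {M : Rep.{u, max v v', w'} k (T × Q)} (f : Hom W M) : Hom (rest F W) (rest F M) where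
  app x := f.app (x.1.1, x.2)
  nat h x := f.nat _ x

variable {W : Rep.{u, max v v', w} k (T × Q)} {M : Rep.{u, max v v', w'} k (T × Q)}
  {N : Rep.{u, max v v', w''} k (T × Q)}

def Sdd (F : Finset T) (S : Set (T × Q)) : Set (F × Q) :=
  {x | (∃ t0, Blk F x.1.1 t0 ∧ ∀ t, Blk F x.1.1 t → t0 ≤ t → (t, x.2) ∈ S) ∧
    ∀ t q', (t, q') ∈ S → q' ≤ x.2 → ¬ Low F t}

theorem Sdd_cvx {S : Set (T × Q)} (hS : Cvx S) : Cvx (Sdd F S) := by
  rintro ⟨ca, qa⟩ ⟨⟨ta, hta, hta'⟩, _⟩ ⟨cb, qb⟩ ⟨⟨tb, htb, htb'⟩, hb⟩ ⟨c, q⟩ hac hcb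
  have h1 : ca.1 ≤ c.1 := hac.1
  have h2 : qa ≤ q := hac.2
  have h3 : c.1 ≤ cb.1 := hcb.1
  have h4 : q ≤ qb := hcb.2
  refine ⟨⟨max ta c.1, hta.sup (Blk.self c.2) h1, fun t ht hle => ?_⟩, fun t q' hq hle =>
    hb t q' hq (hle.trans h4)⟩
  have h5 : Blk F cb.1 (max t tb) := ht.sup htb h3
  have h6 := htb' _ h5 (le_max_right _ _)
  refine hS (ta, qa) (hta' _ hta (le_refl _)) _ h6 (t, q) ⟨(le_max_left _ _).trans hle, h2⟩
    ⟨le_max_left _ _, h4⟩

theorem claimB (hW : FConst F W) {S : Set (T × Q)} {y : ∀ p, W.V p} (hy : y ∈ E W S) :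
    ∃ z ∈ E (rest F W) (Sdd F S), ∀ c t q (h : Blk F c t), (t, q) ∈ S →
      W.map (bl h q) (z (⟨c, h.1⟩, q)) = y (t, q) := by
  classical
  -- outside `Sdd` the section vanishes on the whole block
  have hZ : ∀ (x : F × Q), x ∉ Sdd F S → ∀ t, Blk F x.1.1 t → y (t, x.2) = 0 := by
    rintro ⟨c, q⟩ hx t ht
    by_cases h1 : ∃ t' q', (t', q') ∈ S ∧ q' ≤ q ∧ Low F t'
    · obtain ⟨t', q', hS, hle, hlow⟩ := h1
      have h2 : t' ≤ t := by
        rcases le_total t' t with h | h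
        · exact h
        · exact absurd (ht.2.1.trans h) (hlow _ ht.1)
      have h3 := hy.2 (t', q') (t, q) ⟨h2, hle⟩ hS
      rw [hW.low t' q' hlow (y (t', q')), map_zero] at h3
      exact h3.symm
    · have h2 : ¬ ∃ t0, Blk F c.1 t0 ∧ ∀ t, Blk F c.1 t → t0 ≤ t → (t, q) ∈ S := by
        intro h3
        refine hx ⟨h3, fun t' q' ha hb hc => h1 ⟨t', q', ha, hb, hc⟩⟩
      push Not at h2
      obtain ⟨t1, ht1, hle, hnot⟩ := h2 t ht
      by_cases hS : (t, q) ∈ S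
      · have hle' : ((t, q) : T × Q) ≤ (t1, q) := ⟨hle, le_refl q⟩
        have h3 := hy.2 (t, q) (t1, q) hle' hS
        rw [hy.1 _ hnot] at h3
        apply hW.inj' ht ht1 hle'
        rw [h3, map_zero]
      · exact hy.1 _ hS
  -- the preimage
  have hex : ∀ x : F × Q, ∃ z : W.V (x.1.1, x.2), (x ∉ Sdd F S → z = 0) ∧
      ∀ t (h : Blk F x.1.1 t), (t, x.2) ∈ S → W.map (bl h x.2) z = y (t, x.2) := by
    rintro ⟨c, q⟩
    by_cases hx : (c, q) ∈ Sdd F S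
    · have hx0 := hx
      obtain ⟨⟨t0, ht0, ht0'⟩, _⟩ := hx0
      obtain ⟨z, hz⟩ := hW.surj c.1 t0 q ht0 (y (t0, q))
      refine ⟨z, fun h => absurd hx h, fun t h hS => ?_⟩
      have h1 : Blk F c.1 (max t t0) := h.sup ht0 (le_refl _)
      have hle1 : ((t, q) : T × Q) ≤ (max t t0, q) := ⟨le_max_left _ _, le_refl q⟩
      have hle2 : ((t0, q) : T × Q) ≤ (max t t0, q) := ⟨le_max_right _ _, le_refl q⟩
      apply hW.inj' h h1 hle1
      rw [W.map_comp, hy.2 _ _ hle1 hS, ← hy.2 _ _ hle2 (ht0' _ ht0 (le_refl _)), ← hz,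
        W.map_comp]
    · exact ⟨0, fun _ => rfl, fun t h hS => by rw [map_zero, hZ _ hx t h]⟩
  choose z hz0 hz using hex
  refine ⟨z, ⟨hz0, ?_⟩, fun c t q h hS => hz (⟨c, h.1⟩, q) t h hS⟩
  rintro ⟨c, q⟩ ⟨c', q'⟩ hle hx
  obtain ⟨⟨t0, ht0, ht0'⟩, _⟩ := hx
  have hcc : c.1 ≤ c'.1 := hle.1
  have hqq : q ≤ q' := hle.2
  by_cases hx' : (c', q') ∈ Sdd F S
  · obtain ⟨⟨t1, ht1, ht1'⟩, -⟩ := id hx'
    have h1 : Blk F c'.1 (max t0 t1) := ht0.sup ht1 hcc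
    have h2 : (max t0 t1, q') ∈ S := ht1' _ h1 (le_max_right _ _)
    apply hW.inj c'.1 _ q' h1
    have hle3 : ((t0, q) : T × Q) ≤ (max t0 t1, q') := ⟨le_max_left _ _, hqq⟩
    have h3 := hz (c', q') _ h1 h2
    have h4 := hz (c, q) _ ht0 (ht0' _ ht0 (le_refl _))
    have h5 := hy.2 _ _ hle3 (ht0' _ ht0 (le_refl _))
    rw [h3, ← h5, ← h4]
    change W.map _ (W.map _ _) = W.map _ (W.map _ _)
    rw [W.map_comp, W.map_comp]
  · rw [hz0 _ hx']
    have h1 : Blk F c'.1 (max t0 c'.1) := ht0.sup (Blk.self c'.2) hcc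
    apply hW.inj c'.1 _ q' h1
    have hle3 : ((t0, q) : T × Q) ≤ (max t0 c'.1, q') := ⟨le_max_left _ _, hqq⟩
    have h4 := hz (c, q) _ ht0 (ht0' _ ht0 (le_refl _))
    have h5 := hy.2 _ _ hle3 (ht0' _ ht0 (le_refl _))
    rw [hZ _ hx' _ h1, ← h4] at h5
    rw [map_zero, ← h5]
    change W.map _ (W.map _ _) = W.map _ (W.map _ _)
    rw [W.map_comp, W.map_comp]

theorem claimA (hW : FConst F W) {S : Set (T × Q)} (hS : Cvx S) {z : ∀ p, (rest F W).V p}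
    (hz : z ∈ E (rest F W) (Sdd F S)) :
    ∃ y ∈ E W S, ∀ c t q (h : Blk F c t), (t, q) ∈ S →
      y (t, q) = W.map (bl h q) (z (⟨c, h.1⟩, q)) := by
  classical
  have hex : ∀ p : T × Q, ∃ y : W.V p, (p ∉ S → y = 0) ∧
      ∀ c (h : Blk F c p.1), p ∈ S → y = W.map (bl h p.2) (z (⟨c, h.1⟩, p.2)) := by
    rintro ⟨t, q⟩
    by_cases hp : (t, q) ∈ S
    · rcases low_or_blk F t with hl | ⟨c, hc⟩
      · exact ⟨0, fun _ => rfl, fun c h _ => absurd hl h.notLow⟩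
      · refine ⟨W.map (bl hc q) (z (⟨c, hc.1⟩, q)), fun h => absurd hp h, fun c' h' _ => ?_⟩
        obtain rfl := hc.uniq h'
        rfl
    · exact ⟨0, fun _ => rfl, fun c h h' => absurd h' hp⟩
  choose y hy0 hy using hex
  refine ⟨y, ⟨hy0, ?_⟩, fun c t q h hS => hy (t, q) c h hS⟩
  rintro ⟨t, q⟩ ⟨t', q'⟩ hle hp
  have htt : t ≤ t' := hle.1
  have hqq : q ≤ q' := hle.2
  rcases low_or_blk F t with hl | ⟨c, hc⟩
  · rw [hW.low t q hl (y (t, q)), map_zero]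
    by_cases hp' : (t', q') ∈ S
    · rcases low_or_blk F t' with hl' | ⟨c', hc'⟩
      · exact (hW.low t' q' hl' _).symm
      · rw [hy (t', q') c' hc' hp', hz.1 (⟨c', hc'.1⟩, q') (fun h => h.2 t q hp hqq hl), map_zero]
    · exact (hy0 _ hp').symm
  · obtain ⟨c', hc', hcc⟩ := hc.mono htt
    rw [hy (t, q) c hc hp]
    by_cases hx : ((⟨c, hc.1⟩, q) : F × Q) ∈ Sdd F S
    · have hle2 : ((⟨c, hc.1⟩, q) : F × Q) ≤ (⟨c', hc'.1⟩, q') := ⟨hcc, hqq⟩
      have h1 := hz.2 _ _ hle2 hx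
      have h2 : W.map hle (W.map (bl hc q) (z (⟨c, hc.1⟩, q))) =
          W.map (bl hc' q') (z (⟨c', hc'.1⟩, q')) := by
        rw [← h1]
        change _ = W.map _ (W.map _ _)
        rw [W.map_comp, W.map_comp]
      change W.map hle (W.map (bl hc q) (z (⟨c, hc.1⟩, q))) = y (t', q')
      rw [h2]
      by_cases hp' : (t', q') ∈ S
      · rw [hy (t', q') c' hc' hp']
      · rw [hy0 _ hp', hz.1 (⟨c', hc'.1⟩, q') _, map_zero]
        rintro ⟨⟨t0, ht0, ht0'⟩, _⟩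
        have h3 : Blk F c' (max t' t0) := hc'.sup ht0 (le_refl _)
        have h4 := ht0' _ h3 (le_max_right _ _)
        exact hp' (hS _ hp _ h4 (t', q') hle ⟨le_max_left _ _, le_refl _⟩)
    · change W.map hle (W.map (bl hc q) (z (⟨c, hc.1⟩, q))) = y (t', q')
      rw [hz.1 _ hx, map_zero, map_zero]
      by_cases hp' : (t', q') ∈ S
      · rw [hy (t', q') c' hc' hp', hz.1 (⟨c', hc'.1⟩, q') _, map_zero]
        rintro ⟨⟨t0, ht0, ht0'⟩, hn⟩
        apply hx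
        refine ⟨⟨t, hc, fun t1 ht1 hle1 => ?_⟩, fun a b ha hb => hn a b ha (hb.trans hqq)⟩
        have h3 : Blk F c' (max t1 t0) := ht1.sup ht0 hcc
        have h4 := ht0' _ h3 (le_max_right _ _)
        exact hS _ hp _ h4 (t1, q) ⟨hle1, le_refl _⟩ ⟨le_max_left _ _, hqq⟩
      · exact (hy0 _ hp').symm

theorem lift_transfer (hW : FConst F W) (hM : FConst F M) (hN : FConst F N) (f : Hom W M)
    (g : Hom M N) {S : Set (T × Q)} (hS : Cvx S)
    (h : Lift (restHom F f) (restHom F g) (Sdd F S)) : Lift f g S := by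
  intro y hy hg
  obtain ⟨z, hz, hzy⟩ := claimB hM hy
  obtain ⟨x, hx, hfx⟩ := h z hz (by
    rintro ⟨c, q⟩
    by_cases hcq : (c, q) ∈ Sdd F S
    · obtain ⟨⟨t0, ht0, ht0'⟩, _⟩ := hcq
      apply hN.inj c.1 t0 q ht0
      change N.map _ (g.app _ (z (c, q))) = _
      rw [← g.nat, hzy c.1 t0 q ht0 (ht0' _ ht0 (le_refl _)), hg, map_zero]
    · rw [hz.1 _ hcq, map_zero])
  obtain ⟨y', hy', hy''⟩ := claimA hW hS hx
  refine ⟨y', hy', ?_⟩
  rintro ⟨t, q⟩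
  by_cases hp : (t, q) ∈ S
  · rcases low_or_blk F t with hl | ⟨c, hc⟩
    · rw [hM.low t q hl (y (t, q))]
      exact hM.low t q hl _
    · rw [hy'' c t q hc hp, f.nat, ← hzy c t q hc hp]
      have := hfx (⟨c, hc.1⟩, q)
      change f.app (c, q) (x (⟨c, hc.1⟩, q)) = _ at this
      rw [this]
  · rw [hy.1 _ hp, hy'.1 _ hp, map_zero]

theorem comp_zero_transfer (hW : FConst F W) (f : Hom W M) (g : Hom M N)
    (h : ∀ p x, (restHom F g).app p ((restHom F f).app p x) = 0) :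
    ∀ p x, g.app p (f.app p x) = 0 := by
  rintro ⟨t, q⟩ x
  rcases low_or_blk F t with hl | ⟨c, hc⟩
  · rw [hW.low t q hl x, map_zero, map_zero]
  · obtain ⟨x0, rfl⟩ := hW.surj c t q hc x
    rw [f.nat, g.nat]
    have := h (⟨c, hc.1⟩, q) x0
    change g.app (c, q) (f.app (c, q) x0) = 0 at this
    rw [this, map_zero]

/-- Morphisms between the restrictions extend. -/
theorem ext_hom (hW : FConst F W) (hM : FConst F M) (φ : Hom (rest F W) (rest F M)) :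
    ∃ ψ : Hom W M, restHom F ψ = φ := by
  classical
  have hex : ∀ p : T × Q, ∃ ψ : W.V p →ₗ[k] M.V p, ∀ c (h : Blk F c p.1) (x : W.V (c, p.2)),
      ψ (W.map (bl h p.2) x) = M.map (bl h p.2) (φ.app (⟨c, h.1⟩, p.2) x) := by
    rintro ⟨t, q⟩
    rcases low_or_blk F t with hl | ⟨c, hc⟩
    · exact ⟨0, fun c h _ => absurd hl h.notLow⟩
    · let e := LinearEquiv.ofBijective (W.map (bl hc q)) ⟨hW.inj c t q hc, hW.surj c t q hc⟩
      refine ⟨(M.map (bl hc q)).comp ((φ.app (⟨c, hc.1⟩, q)).comp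
        (e.symm : W.V (t, q) →ₗ[k] W.V (c, q))), ?_⟩
      intro c' h' x
      obtain rfl := hc.uniq h'
      have h1 : e.symm (W.map (bl hc q) x) = x := e.symm_apply_apply x
      change M.map (bl hc q) (φ.app (⟨c, hc.1⟩, q) (e.symm (W.map (bl hc q) x))) = _
      rw [h1]
  choose ψ hψ using hex
  refine ⟨⟨ψ, ?_⟩, ?_⟩
  · rintro ⟨t, q⟩ ⟨t', q'⟩ hle x
    rcases low_or_blk F t with hl | ⟨c, hc⟩
    · rw [hW.low t q hl x, map_zero, map_zero, map_zero, map_zero]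
    · obtain ⟨x0, rfl⟩ := hW.surj c t q hc x
      obtain ⟨c', hc', hcc⟩ := hc.mono hle.1
      have hle2 : ((⟨c, hc.1⟩, q) : F × Q) ≤ (⟨c', hc'.1⟩, q') := ⟨hcc, hle.2⟩
      have hle3 : ((c, q) : T × Q) ≤ (c', q') := ⟨hcc, hle.2⟩
      have h1 : W.map hle (W.map (bl hc q) x0) = W.map (bl hc' q') (W.map hle3 x0) := by
        rw [W.map_comp, W.map_comp]
      rw [h1, hψ (t', q') c' hc' (W.map hle3 x0)]
      have h2 := φ.nat hle2 x0
      change φ.app (⟨c', hc'.1⟩, q') (W.map hle3 x0) =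
        M.map hle3 (φ.app (⟨c, hc.1⟩, q) x0) at h2
      have h3 := hψ (t, q) c hc x0
      change ψ (t, q) (W.map (bl hc q) x0) = M.map (bl hc q) (φ.app (⟨c, hc.1⟩, q) x0) at h3
      rw [h2, h3, M.map_comp, M.map_comp]
  · apply Hom.ext'
    rintro ⟨c, q⟩ x
    have h1 := hψ (c.1, q) c.1 (Blk.self c.2) x
    have h2 : W.map (bl (Blk.self c.2) q) x = x := W.map_id _ x
    change ψ (c.1, q) (W.map (bl (Blk.self c.2) q) x) =
      M.map (bl (Blk.self c.2) q) (φ.app (c, q) x) at h1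
    rw [h2] at h1
    change ψ (c.1, q) x = φ.app (c, q) x
    rw [h1]
    exact M.map_id _ _

end Pool.Agent.V1145.SR
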