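import Pool.Agent.V1145.SR3

universe u v v' w w' w''

namespace Pool.Agent.V1145.SR

variable {k : Type u} [Field k] {T : Type v} [LinearOrder T] {Q : Type v'} [PartialOrder Q]
variable {F : Finset T}
variable {W : Rep.{u, max v v', w} k (T × Q)} {M : Rep.{u, max v v', w'} k (T × Q)}
  {N : Rep.{u, max v v', w''} k (T × Q)}

/-! ### Kernels, cokernels, direct sums -/

theorem FConst.coker (hW : FConst F W) (hM : FConst F M) (f : Hom W M) (g : Hom M N)
    (hs : ∀ p z, ∃ y, g.app p y = z) (he : ∀ p y, g.app p y = 0 ↔ ∃ x, f.app p x = y) :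
    FConst F N where
  low t q hl z := by
    obtain ⟨y, rfl⟩ := hs _ z
    rw [hM.low t q hl y, map_zero]
  inj c t q h := by
    rw [injective_iff_map_eq_zero]
    intro z hz
    obtain ⟨y, rfl⟩ := hs _ z
    rw [← g.nat, he] at hz
    obtain ⟨x, hx⟩ := hz
    obtain ⟨x', rfl⟩ := hW.surj c t q h x
    rw [f.nat] at hx
    rw [he]
    exact ⟨x', hM.inj c t q h hx⟩
  surj c t q h z := by
    obtain ⟨y, rfl⟩ := hs _ z
    obtain ⟨y', rfl⟩ := hM.surj c t q h y
    exact ⟨g.app _ y', by rw [g.nat]⟩

/-- The kernel of a morphism. -/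
def kerRep {P : Type v} [PartialOrder P] {X : Rep.{u, v, w} k P} {Y : Rep.{u, v, w'} k P}
    (g : Hom X Y) : Rep.{u, v, w} k P where
  V p := LinearMap.ker (g.app p)
  map {p q} h := (X.map h).restrict (fun x hx => by
    rw [LinearMap.mem_ker] at hx ⊢
    rw [g.nat, hx, map_zero])
  map_id p x := Subtype.ext (X.map_id p x.1)
  map_comp h h' x := Subtype.ext (X.map_comp h h' x.1)

def kerIncl {P : Type v} [PartialOrder P] {X : Rep.{u, v, w} k P} {Y : Rep.{u, v, w'} k P}
    (g : Hom X Y) : Hom (kerRep g) X where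
  app p := (LinearMap.ker (g.app p)).subtype
  nat _ _ := rfl

theorem FConst.kernel (hW : FConst F W) (hM : FConst F M) (f : Hom W M) :
    FConst F (kerRep f) where
  low t q hl x := Subtype.ext (hW.low t q hl x.1)
  inj c t q h := by
    intro x y hxy
    exact Subtype.ext (hW.inj c t q h (congrArg Subtype.val hxy))
  surj c t q h := by
    rintro ⟨x, hx⟩
    obtain ⟨x0, rfl⟩ := hW.surj c t q h x
    refine ⟨⟨x0, ?_⟩, rfl⟩
    rw [LinearMap.mem_ker] at hx ⊢
    rw [f.nat] at hx
    apply hM.inj c t q h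
    rw [hx, map_zero]

theorem fconst_spreadSum {ι : Type} (S : ι → Set (T × Q)) (hS : ∀ i, IsSpread (S i))
    (h1 : ∀ i t q, Low F t → (t, q) ∉ S i)
    (h2 : ∀ i c t q, Blk F c t → ((c, q) ∈ S i ↔ (t, q) ∈ S i)) :
    FConst F (spreadSum k S hS) where
  low t q hl x := by
    apply Subtype.ext
    funext i
    exact x.2 i (h1 i t q hl)
  inj c t q h := by
    classical
    intro x y hxy
    apply Subtype.ext
    funext i
    have h3 : (if (t, q) ∈ S i then x.1 i else 0) = (if (t, q) ∈ S i then y.1 i else 0) :=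
      congrFun (congrArg Subtype.val hxy) i
    by_cases hi : (t, q) ∈ S i
    · rwa [if_pos hi, if_pos hi] at h3
    · have hi' : (c, q) ∉ S i := fun h4 => hi ((h2 i c t q h).1 h4)
      rw [x.2 i hi', y.2 i hi']
  surj c t q h := by
    classical
    intro x
    refine ⟨⟨x.1, fun i hi => x.2 i (fun h4 => hi ((h2 i c t q h).2 h4))⟩, ?_⟩
    apply Subtype.ext
    funext i
    change (if (t, q) ∈ S i then x.1 i else 0) = x.1 i
    by_cases hi : (t, q) ∈ S i
    · rw [if_pos hi]
    · rw [if_neg hi, x.2 i hi]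

theorem fconst_proj {α : Type} (a : α → T × Q) (h : ∀ i, (a i).1 ∈ F) :
    FConst F (proj k a) := by
  apply fconst_spreadSum
  · intro i t q hl hi
    exact hl _ (h i) (Set.mem_Ici.1 hi).1
  · intro i c t q hb
    constructor
    · intro hi
      exact le_trans (Set.mem_Ici.1 hi) (bl hb q)
    · intro hi
      exact ⟨hb.2.2 _ (h i) (Set.mem_Ici.1 hi).1, (Set.mem_Ici.1 hi).2⟩

theorem fd_spreadSum {P : Type v} [PartialOrder P] {ι : Type} [Finite ι] (S : ι → Set P)
    (hS : ∀ i, IsSpread (S i)) (p : P) : Module.Finite k ((spreadSum k S hS).V p) := by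
  change Module.Finite k (fib k S p)
  infer_instance

open Classical in
noncomputable def covHom {P : Type v} [PartialOrder P] {X : Rep.{u, v, w} k P} {β : Type}
    [Fintype β] (b : β → P) (x : ∀ j, X.V (b j)) : Hom (proj k b) X where
  app p :=
    { toFun := fun y => ∑ j, y.1 j • (if h : b j ≤ p then X.map h (x j) else 0)
      map_add' := by
        intro y z
        rw [← Finset.sum_add_distrib]
        apply Finset.sum_congr rfl
        intro j _
        rw [← add_smul]
        rfl
      map_smul' := by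
        intro c y
        rw [Finset.smul_sum]
        apply Finset.sum_congr rfl
        intro j _
        rw [RingHom.id_apply, ← mul_smul]
        rfl }
  nat := by
    intro p q h y
    change ∑ j, (if q ∈ Set.Ici (b j) then y.1 j else 0) •
      (if h : b j ≤ q then X.map h (x j) else 0) =
      X.map h (∑ j, y.1 j • (if h : b j ≤ p then X.map h (x j) else 0))
    rw [map_sum]
    apply Finset.sum_congr rfl
    intro j _
    rw [map_smul]
    by_cases hj : b j ≤ p
    · have hq : b j ≤ q := hj.trans h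
      rw [if_pos (Set.mem_Ici.2 hq), dif_pos hq, dif_pos hj, X.map_comp]
    · have h0 : y.1 j = 0 := y.2 j hj
      rw [h0, zero_smul, ite_self, zero_smul]

theorem covHom_mem {P : Type v} [PartialOrder P] {X : Rep.{u, v, w} k P} {β : Type}
    [Fintype β] (b : β → P) (x : ∀ j, X.V (b j)) (p : P) (j : β) (h : b j ≤ p) :
    X.map h (x j) ∈ LinearMap.range ((covHom b x).app p) := by
  classical
  refine ⟨⟨Pi.single j 1, ?_⟩, ?_⟩
  · intro i hi
    by_cases hij : i = j
    · subst hij
      exact absurd h hi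
    · exact Pi.single_eq_of_ne hij _
  · change ∑ i, (Pi.single j (1 : k) : β → k) i • (if h : b i ≤ p then X.map h (x i) else 0) = _
    rw [Finset.sum_eq_single j]
    · rw [Pi.single_eq_same, one_smul, dif_pos h]
    · intro i _ hij
      rw [Pi.single_eq_of_ne hij, zero_smul]
    · intro h'
      exact absurd (Finset.mem_univ j) h'

theorem cover [Finite Q] (hW : FConst F W)
    (hfd : ∀ x : F × Q, Module.Finite k (W.V (x.1.1, x.2))) :
    ∃ (β : Type) (_ : Finite β) (b : β → T × Q) (g : Hom (proj k b) W),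
      (∀ j, (b j).1 ∈ F) ∧ ∀ p z, ∃ y, g.app p y = z := by
  have h1 : ∀ x : F × Q, ∃ (n : ℕ) (s : Fin n → W.V (x.1.1, x.2)),
      Submodule.span k (Set.range s) = ⊤ := fun x => (hfd x).exists_fin
  choose n s hs using h1
  obtain ⟨m, ⟨eq⟩⟩ := Finite.exists_equiv_fin (F × Q)
  let β : Type := Σ i : Fin m, Fin (n (eq.symm i))
  let b : β → T × Q := fun j => ((eq.symm j.1).1.1, (eq.symm j.1).2)
  let x : ∀ j, W.V (b j) := fun j => s (eq.symm j.1) j.2
  refine ⟨β, inferInstance, b, covHom b x, fun j => (eq.symm j.1).1.2, ?_⟩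
  rintro ⟨t, q⟩ z
  rcases low_or_blk F t with hl | ⟨c, hc⟩
  · exact ⟨0, by rw [map_zero, hW.low t q hl z]⟩
  · obtain ⟨z0, rfl⟩ := hW.surj c t q hc z
    have h2 : (⊤ : Submodule k (W.V (c, q))) ≤
        (LinearMap.range ((covHom b x).app (t, q))).comap (W.map (bl hc q)) := by
      have h3 := hs (⟨c, hc.1⟩, q)
      change Submodule.span k (Set.range (s (⟨c, hc.1⟩, q))) =
        (⊤ : Submodule k (W.V (c, q))) at h3
      rw [← h3, Submodule.span_le]
      rintro _ ⟨i, rfl⟩
      have h4 : ∀ (y : F × Q) (i : Fin (n y)) (hy : ((y.1.1, y.2) : T × Q) ≤ (t, q)),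
          W.map hy (s y i) ∈ LinearMap.range ((covHom b x).app (t, q)) := by
        intro y
        obtain ⟨j, rfl⟩ := eq.symm.surjective y
        intro i hy
        exact covHom_mem b x (t, q) ⟨j, i⟩ hy
      exact h4 (⟨c, hc.1⟩, q) i (bl hc q)
    exact h2 (Submodule.mem_top (x := z0))

theorem finPres_of_fconst [Finite Q] (hW : FConst F W)
    (hfd : ∀ x : F × Q, Module.Finite k (W.V (x.1.1, x.2))) : FinPres W := by
  obtain ⟨β, hβ, b, g, hb, hg⟩ := cover hW hfd
  have hK : FConst F (kerRep g) := (fconst_proj b hb).kernel hW g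
  obtain ⟨α, hα, a, f, _, hf⟩ := cover hK (fun x => by
    have := fd_spreadSum (k := k) (fun i => Set.Ici (b i)) (fun i => isSpread_Ici (b i))
      (x.1.1, x.2)
    change Module.Finite k (LinearMap.ker (g.app (x.1.1, x.2)))
    change Module.Finite k ((proj k b).V (x.1.1, x.2)) at this
    infer_instance)
  refine ⟨α, β, hα, hβ, a, b, (kerIncl g).comp f, g, hg, fun p y => ⟨fun hy => ?_, ?_⟩⟩
  · obtain ⟨x, hx⟩ := hf p ⟨y, hy⟩
    exact ⟨x, congrArg Subtype.val hx⟩
  · rintro ⟨x, rfl⟩
    exact (f.app p x).2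

theorem fconst_of_finPres (hM : FinPres M) :
    ∃ F : Finset T, FConst F M ∧ ∀ p, Module.Finite k (M.V p) := by
  classical
  obtain ⟨α, β, hα, hβ, a, b, f, g, hg, he⟩ := hM
  have := Fintype.ofFinite α
  have := Fintype.ofFinite β
  let F : Finset T := (Finset.univ.image (fun i => (a i).1)) ∪
    (Finset.univ.image (fun i => (b i).1))
  refine ⟨F, ?_, fun p => ?_⟩
  · refine FConst.coker (fconst_proj a (fun i => ?_)) (fconst_proj b (fun i => ?_)) f g hg he
    · exact Finset.mem_union_left _ (Finset.mem_image_of_mem _ (Finset.mem_univ i))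
    · exact Finset.mem_union_right _ (Finset.mem_image_of_mem _ (Finset.mem_univ i))
  · have := fd_spreadSum (k := k) (fun i => Set.Ici (b i)) (fun i => isSpread_Ici (b i)) p
    change Module.Finite k ((proj k b).V p) at this
    exact Module.Finite.of_surjective (g.app p) (hg p)

/-- Every pointwise finite dimensional representation of `F × Q`, `F` finite, is finitely
presented. -/
theorem finPres_finite [Finite Q] [Finite T] (hfd : ∀ p, Module.Finite k (W.V p)) :
    FinPres W := by
  classical
  have := Fintype.ofFinite T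
  have hb : ∀ c t : T, Blk (Finset.univ : Finset T) c t → c = t := fun c t h =>
    le_antisymm h.2.1 (h.2.2 t (Finset.mem_univ t) (le_refl t))
  refine finPres_of_fconst (F := Finset.univ) ⟨?_, ?_, ?_⟩ (fun x => hfd _)
  · intro t q hl
    exact absurd (le_refl t) (hl t (Finset.mem_univ t))
  · intro c t q h
    obtain rfl := hb c t h
    intro x y hxy
    have h1 : ∀ z, W.map (bl h q) z = z := W.map_id (c, q)
    rwa [h1, h1] at hxy
  · intro c t q h
    obtain rfl := hb c t h
    exact fun x => ⟨x, W.map_id (c, q) x⟩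

end Pool.Agent.V1145.SR
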