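import Pool.Agent.V1145.SR4

universe u v v' w w' w''

namespace Pool.Agent.V1145.SR

variable {k : Type u} [Field k] {T : Type v} [LinearOrder T] {Q : Type v'} [PartialOrder Q]
variable {F : Finset T}
variable {W : Rep.{u, max v v', w} k (T × Q)} {M : Rep.{u, max v v', w'} k (T × Q)}
  {N : Rep.{u, max v v', w''} k (T × Q)}

/-! ### Cylinders over subsets of `F × Q` -/

def cyl (S : Set (F × Q)) : Set (T × Q) :=
  {p | ∃ (c : T) (h : Blk F c p.1), ((⟨c, h.1⟩ : F), p.2) ∈ S}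

theorem mem_cyl {S : Set (F × Q)} {c t : T} {q : Q} (h : Blk F c t) :
    (t, q) ∈ cyl S ↔ ((⟨c, h.1⟩ : F), q) ∈ S := by
  constructor
  · rintro ⟨c', h', hs⟩
    obtain rfl := h.uniq h'
    exact hs
  · intro hs
    exact ⟨c, h, hs⟩

theorem mem_cyl_self {S : Set (F × Q)} (x : F × Q) : (x.1.1, x.2) ∈ cyl S ↔ x ∈ S :=
  mem_cyl (Blk.self x.1.2)

theorem cyl_spread {S : Set (F × Q)} (hS : IsSpread S) : IsSpread (cyl S) := by
  refine ⟨?_, ?_, ?_⟩
  · obtain ⟨x, hx⟩ := hS.nonempty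
    exact ⟨(x.1.1, x.2), (mem_cyl_self x).2 hx⟩
  · rintro ⟨ta, qa⟩ ⟨ca, hca, ha⟩ ⟨tb, qb⟩ ⟨cb, hcb, hb⟩ ⟨t, q⟩ h1 h2
    have h1' : ta ≤ t := h1.1
    have h2' : t ≤ tb := h2.1
    obtain ⟨c, hc, hcc⟩ := Blk.mono (F := F) hca h1'
    have h3 : c ≤ cb := hcb.2.2 c hc.1 (hc.2.1.trans h2')
    exact ⟨c, hc, hS.convex _ ha _ hb (⟨c, hc.1⟩, q) ⟨hcc, h1.2⟩ ⟨h3, h2.2⟩⟩
  · have key : ∀ x y : F × Q, Relation.ReflTransGen
        (fun x y => x ∈ S ∧ y ∈ S ∧ (x ≤ y ∨ y ≤ x)) x y →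
        Relation.ReflTransGen
          (fun x y => x ∈ cyl S ∧ y ∈ cyl S ∧ (x ≤ y ∨ y ≤ x))
          ((x.1.1, x.2) : T × Q) (y.1.1, y.2) := by
      intro x y h
      induction h with
      | refl => exact Relation.ReflTransGen.refl
      | tail h1 h2 ih =>
        refine ih.tail ⟨(mem_cyl_self _).2 h2.1, (mem_cyl_self _).2 h2.2.1, ?_⟩
        rcases h2.2.2 with h | h
        · exact Or.inl ⟨h.1, h.2⟩
        · exact Or.inr ⟨h.1, h.2⟩
    rintro ⟨ta, qa⟩ ⟨ca, hca, ha⟩ ⟨tb, qb⟩ ⟨cb, hcb, hb⟩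
    have h1 := key _ _ (hS.connected _ ha _ hb)
    have h2 : ((ta, qa) : T × Q) ∈ cyl S := ⟨ca, hca, ha⟩
    have h3 : ((tb, qb) : T × Q) ∈ cyl S := ⟨cb, hcb, hb⟩
    have h4 : ((ca, qa) : T × Q) ∈ cyl S := (mem_cyl_self (⟨ca, hca.1⟩, qa)).2 ha
    have h5 : ((cb, qb) : T × Q) ∈ cyl S := (mem_cyl_self (⟨cb, hcb.1⟩, qb)).2 hb
    exact ((Relation.ReflTransGen.single ⟨h2, h4, Or.inr ⟨hca.2.1, le_refl _⟩⟩).trans h1).tail
      ⟨h5, h3, Or.inl ⟨hcb.2.1, le_refl _⟩⟩

theorem cyl_fconst {ι : Type} (S : ι → Set (F × Q)) (hS : ∀ i, IsSpread (S i)) :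
    FConst F (spreadSum k (fun i => cyl (S i)) (fun i => cyl_spread (hS i))) := by
  apply fconst_spreadSum
  · rintro i t q hl ⟨c, hc, _⟩
    exact hc.notLow hl
  · intro i c t q h
    rw [mem_cyl h, mem_cyl (Blk.self h.1)]

/-! ### Isomorphisms -/

structure IsoPair {P : Type v} [PartialOrder P] (X : Rep.{u, v, w} k P)
    (Y : Rep.{u, v, w'} k P) where
  fw : Hom X Y
  inv : Hom Y X
  l : ∀ p x, inv.app p (fw.app p x) = x
  r : ∀ p y, fw.app p (inv.app p y) = y

def IsoPair.id {P : Type v} [PartialOrder P] (X : Rep.{u, v, w} k P) : IsoPair X X where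
  fw := ⟨fun _ => LinearMap.id, fun _ _ => rfl⟩
  inv := ⟨fun _ => LinearMap.id, fun _ _ => rfl⟩
  l _ _ := rfl
  r _ _ := rfl

theorem fib_cyl {ι : Type} (S : ι → Set (F × Q)) (x : F × Q) :
    fib k (fun i => cyl (S i)) (x.1.1, x.2) = fib k S x := by
  ext y
  constructor
  · intro h i hi
    exact h i (fun h' => hi ((mem_cyl_self x).1 h'))
  · intro h i hi
    exact h i (fun h' => hi ((mem_cyl_self x).2 h'))

noncomputable def cylIso {ι : Type} (S : ι → Set (F × Q)) (hS : ∀ i, IsSpread (S i)) :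
    IsoPair (rest F (spreadSum k (fun i => cyl (S i)) (fun i => cyl_spread (hS i))))
      (spreadSum k S hS) where
  fw :=
    { app := fun x => Submodule.inclusion (fib_cyl (k := k) S x).le
      nat := by
        classical
        intro x y h z
        apply Subtype.ext
        funext i
        change (if (y.1.1, y.2) ∈ cyl (S i) then z.1 i else 0) =
          (if y ∈ S i then z.1 i else 0)
        by_cases hy : y ∈ S i
        · rw [if_pos hy, if_pos ((mem_cyl_self y).2 hy)]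
        · rw [if_neg hy, if_neg (fun h' => hy ((mem_cyl_self y).1 h'))] }
  inv :=
    { app := fun x => Submodule.inclusion (fib_cyl (k := k) S x).ge
      nat := by
        classical
        intro x y h z
        apply Subtype.ext
        funext i
        change (if y ∈ S i then z.1 i else 0) =
          (if (y.1.1, y.2) ∈ cyl (S i) then z.1 i else 0)
        by_cases hy : y ∈ S i
        · rw [if_pos hy, if_pos ((mem_cyl_self y).2 hy)]
        · rw [if_neg hy, if_neg (fun h' => hy ((mem_cyl_self y).1 h'))] }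
  l _ _ := rfl
  r _ _ := rfl

theorem lift_iso {P : Type v} [PartialOrder P] {X : Rep.{u, v, w} k P}
    {Y : Rep.{u, v, w'} k P} {Z : Rep.{u, v, w''} k P} {X' : Rep.{u, v, w} k P}
    {Y' : Rep.{u, v, w'} k P} {Z' : Rep.{u, v, w''} k P} (a : IsoPair X' X) (b : IsoPair Y' Y)
    (c : IsoPair Z' Z) (f : Hom X Y) (g : Hom Y Z) {A : Set P} (h : Lift f g A) :
    Lift (b.inv.comp (f.comp a.fw)) (c.inv.comp (g.comp b.fw)) A := by
  intro y hy hg
  obtain ⟨x, hx, hfx⟩ := h _ (E_on b.fw hy) (fun p => by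
    have h1 : c.inv.app p (g.app p (b.fw.app p (y p))) = 0 := hg p
    have h2 := congrArg (c.fw.app p) h1
    rwa [c.r, map_zero] at h2)
  refine ⟨_, E_on a.inv hx, fun p => ?_⟩
  change b.inv.app p (f.app p (a.fw.app p (a.inv.app p (x p)))) = y p
  rw [a.r, hfx, b.l]

theorem lift_all [Finite Q] (hW : FConst F W) (hM : FConst F M) (hN : FConst F N)
    (f : Hom W M) (g : Hom M N)
    (h : ∀ A, IsSpread A → Lift (restHom F f) (restHom F g) A) {S : Set (T × Q)}
    (hS : IsSpread S) : Lift f g S :=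
  lift_transfer hW hM hN f g hS.convex (lift_convex _ _ h _ (Sdd_cvx hS.convex))

theorem transfer [Finite Q] (hM : FConst F M) {n : ℕ} (h : HasSpreadRes n (rest F M)) :
    HasSpreadRes n M := by
  obtain ⟨ι, hι, S, hS, d, e, hlen, _, hepi, hex0, hex⟩ := h
  have hX : ∀ i, FConst F (spreadSum k (fun j => cyl (S i j)) (fun j => cyl_spread (hS i j))) :=
    fun i => cyl_fconst (S i) (hS i)
  let θ := fun i => cylIso (k := k) (S i) (hS i)
  have hψ := fun i => ext_hom (hX (i + 1)) (hX i)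
    ((θ i).inv.comp ((d i).comp (θ (i + 1)).fw))
  choose ψ hψ' using hψ
  obtain ⟨ψe, hψe⟩ := ext_hom (hX 0) hM ((IsoPair.id (rest F M)).inv.comp (e.comp (θ 0).fw))
  refine ⟨ι, hι, fun i j => cyl (S i j), fun i j => cyl_spread (hS i j), ψ, ψe, hlen,
    fun i => ?_, ?_, ?_, fun i => ?_⟩
  · have := hι i
    exact finPres_of_fconst (hX i) (fun x => fd_spreadSum _ _ _)
  · apply spreadEpi_of_lift
    intro A hA
    apply lift_all (hX 0) hM hM ψe (Hom.zero M M) _ hA
    intro B hB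
    have h1 := lift_iso (θ 0) (IsoPair.id (rest F M)) (IsoPair.id (rest F M)) e
      (Hom.zero (rest F M) (rest F M)) (lift_of_spreadEpi hepi hB)
    rw [hψe]
    intro y hy _
    exact h1 y hy (fun p => rfl)
  · apply spreadExact_of_lift
    · apply comp_zero_transfer (hX 1)
      rw [hψe, hψ' 0]
      intro p x
      change e.app p ((θ 0).fw.app p ((θ 0).inv.app p ((d 0).app p ((θ 1).fw.app p x)))) = 0
      rw [(θ 0).r]
      exact (hex0.1 p _).2 ⟨_, rfl⟩
    · intro A hA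
      apply lift_all (hX 1) (hX 0) hM _ _ _ hA
      intro B hB
      rw [hψe, hψ' 0]
      exact lift_iso (θ 1) (θ 0) (IsoPair.id (rest F M)) (d 0) e (lift_of_spreadExact hex0 hB)
  · apply spreadExact_of_lift
    · apply comp_zero_transfer (hX (i + 1 + 1))
      rw [hψ' i, hψ' (i + 1)]
      intro p x
      change (θ i).inv.app p ((d i).app p ((θ (i + 1)).fw.app p ((θ (i + 1)).inv.app p
        ((d (i + 1)).app p ((θ (i + 1 + 1)).fw.app p x))))) = 0
      rw [(θ (i + 1)).r, ((hex i).1 p _).2 ⟨_, rfl⟩, map_zero]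
    · intro A hA
      apply lift_all (hX (i + 1 + 1)) (hX (i + 1)) (hX i) _ _ _ hA
      intro B hB
      rw [hψ' i, hψ' (i + 1)]
      exact lift_iso (θ (i + 1 + 1)) (θ (i + 1)) (θ i) (d (i + 1)) (d i)
        (lift_of_spreadExact (hex i) hB)

/-- Every finitely presented representation `M` of `T × Q` is controlled by its restriction to
`F × Q` for some finite `F ⊆ T`. -/
theorem reduction [Finite Q] (hM : FinPres M) :
    ∃ F : Finset T, FinPres (rest F M) ∧ ∀ n, HasSpreadRes n (rest F M) → HasSpreadRes n M := by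
  obtain ⟨F, hF, hfd⟩ := fconst_of_finPres hM
  exact ⟨F, finPres_finite (fun p => hfd _), fun n hn => transfer hF hn⟩

end Pool.Agent.V1145.SR
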