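import Pool.Agent.V1145.SR5

universe u

namespace Pool.Agent.V1145.SR

variable {k : Type u} [Field k] {P : Type u} [PartialOrder P]

/-- `Hom(k_K, k_S)` as functions on `P`. -/
def HH (k : Type u) [Field k] (K S : Set P) : Submodule k (P → k) where
  carrier := {φ | (∀ p, p ∉ K ∨ p ∉ S → φ p = 0) ∧
    ∀ p q, p ≤ q → p ∈ K → q ∈ S → φ p = φ q}
  add_mem' := by
    intro a b ha hb
    refine ⟨fun p hp => ?_, fun p q h hp hq => ?_⟩
    · simp [ha.1 p hp, hb.1 p hp]
    · simp [ha.2 p q h hp hq, hb.2 p q h hp hq]
  zero_mem' := ⟨fun _ _ => rfl, fun _ _ _ _ _ => rfl⟩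
  smul_mem' := by
    intro c a ha
    refine ⟨fun p hp => ?_, fun p q h hp hq => ?_⟩
    · simp [ha.1 p hp]
    · simp [ha.2 p q h hp hq]

theorem HH_mul {K S A : Set P} {φ ψ : P → k} (hφ : φ ∈ HH k K S) (hψ : ψ ∈ HH k S A) :
    φ * ψ ∈ HH k K A := by
  refine ⟨fun p hp => ?_, fun p q h hp hq => ?_⟩
  · rcases hp with hp | hp
    · simp [hφ.1 p (Or.inl hp)]
    · simp [hψ.1 p (Or.inr hp)]
  · simp only [Pi.mul_apply]
    by_cases hpS : p ∈ S
    · have h1 := hψ.2 p q h hpS hq
      by_cases hqS : q ∈ S
      · rw [h1, hφ.2 p q h hp hqS]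
      · have h2 : ψ q = 0 := hψ.1 q (Or.inl hqS)
        rw [h1, h2, mul_zero, mul_zero]
    · rw [hφ.1 p (Or.inr hpS), zero_mul]
      by_cases hqS : q ∈ S
      · rw [← hφ.2 p q h hp hqS, hφ.1 p (Or.inr hpS), zero_mul]
      · rw [hψ.1 q (Or.inl hqS), mul_zero]

abbrev Sp (P : Type u) [PartialOrder P] : Type u := {S : Set P // IsSpread S}

variable [Finite P]

noncomputable instance : Fintype (Sp P) := Fintype.ofFinite _

noncomputable def RS (k : Type u) [Field k] (P : Type u) [PartialOrder P] [Finite P] :
    NonUnitalSubring (Matrix (Sp P) (Sp P) (P → k)) where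
  carrier := {r | ∀ K S, r K S ∈ HH k K.1 S.1}
  add_mem' := fun ha hb K S => Submodule.add_mem (HH k K.1 S.1) (ha K S) (hb K S)
  zero_mem' := fun K S => Submodule.zero_mem (HH k K.1 S.1)
  neg_mem' := fun ha K S => Submodule.neg_mem (HH k K.1 S.1) (ha K S)
  mul_mem' := by
    intro a b ha hb K S
    rw [Matrix.mul_apply]
    exact Submodule.sum_mem _ (fun T _ => HH_mul (ha K T) (hb T S))

def Rg (k : Type u) [Field k] (P : Type u) [PartialOrder P] [Finite P] : Type u :=
  ↥(RS k P)

open Classical in
noncomputable def ind (A : Set P) : P → k := fun p => if p ∈ A then 1 else 0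

theorem ind_self (A : Set P) : (ind A : P → k) ∈ HH k A A := by
  classical
  refine ⟨fun p hp => ?_, fun p q _ hp hq => ?_⟩
  · simp only [ind]
    rw [if_neg (by tauto)]
  · simp only [ind]
    rw [if_pos hp, if_pos hq]

theorem ind_mul_left {K S : Set P} {φ : P → k} (hφ : φ ∈ HH k K S) : ind K * φ = φ := by
  classical
  funext p
  simp only [ind, Pi.mul_apply]
  by_cases hp : p ∈ K
  · rw [if_pos hp, one_mul]
  · rw [if_neg hp, hφ.1 p (Or.inl hp), mul_zero]

theorem ind_mul_right {K S : Set P} {φ : P → k} (hφ : φ ∈ HH k K S) : φ * ind S = φ := by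
  classical
  funext p
  simp only [ind, Pi.mul_apply]
  by_cases hp : p ∈ S
  · rw [if_pos hp, mul_one]
  · rw [if_neg hp, hφ.1 p (Or.inr hp), zero_mul]

open Classical in
noncomputable def eps (k : Type u) [Field k] (S : Sp P) : Rg k P :=
  ⟨fun K T => if K = S ∧ T = S then ind S.1 else 0, by
    intro K T
    beta_reduce
    by_cases h : K = S ∧ T = S
    · rw [if_pos h]
      obtain ⟨rfl, rfl⟩ := h
      exact ind_self _
    · rw [if_neg h]
      exact Submodule.zero_mem _⟩

open Classical in
noncomputable def oneR (k : Type u) [Field k] (P : Type u) [PartialOrder P] [Finite P] :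
    Rg k P :=
  ⟨fun K T => if K = T then ind T.1 else 0, by
    intro K T
    beta_reduce
    by_cases h : K = T
    · rw [if_pos h]
      subst h
      exact ind_self _
    · rw [if_neg h]
      exact Submodule.zero_mem _⟩

noncomputable instance instRingRg : Ring (Rg k P) :=
  { (inferInstance : NonUnitalRing ↥(RS k P)) with
    one := oneR k P
    one_mul := by
      classical
      intro a
      apply Subtype.ext
      change ((oneR k P).1 : Matrix (Sp P) (Sp P) (P → k)) * a.1 = a.1
      apply Matrix.ext
      intro K T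
      rw [Matrix.mul_apply, Finset.sum_eq_single K]
      · change (if K = K then ind K.1 else 0) * _ = _
        rw [if_pos rfl]
        exact ind_mul_left (a.2 K T)
      · intro S _ hS
        change (if K = S then ind S.1 else 0) * _ = _
        rw [if_neg (Ne.symm hS), zero_mul]
      · intro h
        exact absurd (Finset.mem_univ K) h
    mul_one := by
      classical
      intro a
      apply Subtype.ext
      change a.1 * ((oneR k P).1 : Matrix (Sp P) (Sp P) (P → k)) = a.1
      apply Matrix.ext
      intro K T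
      rw [Matrix.mul_apply, Finset.sum_eq_single T]
      · change _ * (if T = T then ind T.1 else 0) = _
        rw [if_pos rfl]
        exact ind_mul_right (a.2 K T)
      · intro S _ hS
        change _ * (if S = T then ind T.1 else 0) = _
        rw [if_neg hS, mul_zero]
      · intro h
        exact absurd (Finset.mem_univ T) h }

theorem Rg_mul (r s : Rg k P) (K T : Sp P) : (r * s).1 K T = ∑ S, r.1 K S * s.1 S T := rfl

theorem Rg_add (r s : Rg k P) (K T : Sp P) : (r + s).1 K T = r.1 K T + s.1 K T := rfl

theorem Rg_zero (K T : Sp P) : (0 : Rg k P).1 K T = 0 := rfl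

theorem Rg_one : (1 : Rg k P) = oneR k P := rfl

instance : SMul k (Rg k P) :=
  ⟨fun c r => ⟨fun K S => c • r.1 K S, fun K S => Submodule.smul_mem _ c (r.2 K S)⟩⟩

/-! ### Column modules -/

def AmbS (k : Type u) [Field k] (V : P → Type u) [∀ p, AddCommGroup (V p)]
    [∀ p, Module k (V p)] : Submodule k (Sp P → ∀ p, V p) where
  carrier := {y | ∀ K p, p ∉ K.1 → y K p = 0}
  add_mem' := by
    intro a b ha hb K p hp
    simp [ha K p hp, hb K p hp]
  zero_mem' := fun _ _ _ => rfl
  smul_mem' := by
    intro c a ha K p hp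
    simp [ha K p hp]

variable (V : P → Type u) [∀ p, AddCommGroup (V p)] [∀ p, Module k (V p)]

abbrev Amb (k : Type u) [Field k] (V : P → Type u) [∀ p, AddCommGroup (V p)]
    [∀ p, Module k (V p)] : Type u := ↥(AmbS k V)

noncomputable instance instSMulAmb : SMul (Rg k P) (Amb k V) :=
  ⟨fun r y => ⟨fun K p => ∑ S, r.1 K S p • y.1 S p, by
    intro K p hp
    apply Finset.sum_eq_zero
    intro S _
    rw [(r.2 K S).1 p (Or.inl hp), zero_smul]⟩⟩

theorem smul_apply (r : Rg k P) (y : Amb k V) (K : Sp P) (p : P) :
    (r • y).1 K p = ∑ S, r.1 K S p • y.1 S p := rfl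

noncomputable instance instModAmb : Module (Rg k P) (Amb k V) where
  one_smul y := by
    classical
    apply Subtype.ext
    funext K p
    rw [smul_apply, Finset.sum_eq_single K]
    · change (if K = K then ind K.1 else (0 : P → k)) p • y.1 K p = _
      rw [if_pos rfl]
      by_cases hp : p ∈ K.1
      · simp [ind, hp]
      · rw [y.2 K p hp, smul_zero]
    · intro S _ hS
      change (if K = S then ind S.1 else (0 : P → k)) p • y.1 S p = _
      rw [if_neg (Ne.symm hS), Pi.zero_apply, zero_smul]
    · intro h
      exact absurd (Finset.mem_univ K) h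
  mul_smul r s y := by
    apply Subtype.ext
    funext K p
    rw [smul_apply, smul_apply]
    have h1 : ∀ S, (r * s).1 K S p • y.1 S p =
        ∑ T, r.1 K T p • (s.1 T S p • y.1 S p) := by
      intro S
      rw [Rg_mul, Finset.sum_apply, Finset.sum_smul]
      apply Finset.sum_congr rfl
      intro T _
      rw [Pi.mul_apply, mul_smul]
    have h2 : ∀ T, r.1 K T p • (s • y).1 T p = ∑ S, r.1 K T p • (s.1 T S p • y.1 S p) := by
      intro T
      rw [smul_apply, Finset.smul_sum]
    rw [Finset.sum_congr rfl (fun S _ => h1 S), Finset.sum_congr rfl (fun T _ => h2 T)]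
    exact Finset.sum_comm
  smul_zero r := by
    apply Subtype.ext
    funext K p
    rw [smul_apply]
    apply Finset.sum_eq_zero
    intro S _
    exact smul_zero _
  smul_add r x y := by
    apply Subtype.ext
    funext K p
    change ∑ S, r.1 K S p • (x.1 S p + y.1 S p) =
      (∑ S, r.1 K S p • x.1 S p) + ∑ S, r.1 K S p • y.1 S p
    rw [← Finset.sum_add_distrib]
    exact Finset.sum_congr rfl (fun S _ => smul_add _ _ _)
  add_smul r s y := by
    apply Subtype.ext
    funext K p
    change ∑ S, (r.1 K S p + s.1 K S p) • y.1 S p =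
      (∑ S, r.1 K S p • y.1 S p) + ∑ S, s.1 K S p • y.1 S p
    rw [← Finset.sum_add_distrib]
    exact Finset.sum_congr rfl (fun S _ => add_smul _ _ _)
  zero_smul y := by
    apply Subtype.ext
    funext K p
    rw [smul_apply]
    apply Finset.sum_eq_zero
    intro S _
    exact zero_smul _ _

instance : IsScalarTower k (Rg k P) (Amb k V) where
  smul_assoc c r y := by
    apply Subtype.ext
    funext K p
    change ∑ S, (c • r.1 K S p) • y.1 S p = c • ∑ S, r.1 K S p • y.1 S p
    rw [Finset.smul_sum]
    exact Finset.sum_congr rfl (fun S _ => smul_assoc _ _ _)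

/-- The functor `Hom(k_-, X)` as a module. -/
noncomputable def EM (X : Rep.{u, u, u} k P) : Submodule (Rg k P) (Amb k X.V) where
  carrier := {y | ∀ K, y.1 K ∈ E X K.1}
  add_mem' := by
    intro a b ha hb K
    exact E_add (ha K) (hb K)
  zero_mem' := by
    intro K
    exact ⟨fun _ _ => rfl, fun p q h _ => map_zero _⟩
  smul_mem' := by
    intro r y hy K
    refine ⟨(r • y).2 K, fun p q h hp => ?_⟩
    rw [smul_apply, smul_apply, map_sum]
    apply Finset.sum_congr rfl
    intro S _
    rw [map_smul]
    by_cases hq : q ∈ S.1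
    · rw [(r.2 K S).2 p q h hp hq]
      by_cases hpS : p ∈ S.1
      · rw [(hy S).2 p q h hpS]
      · rw [← (r.2 K S).2 p q h hp hq, (r.2 K S).1 p (Or.inr hpS), zero_smul, zero_smul]
    · rw [(hy S).1 q hq, smul_zero]
      by_cases hpS : p ∈ S.1
      · rw [(hy S).2 p q h hpS, (hy S).1 q hq, smul_zero]
      · rw [(hy S).1 p hpS, map_zero, smul_zero]

abbrev A0 (k : Type u) [Field k] (P : Type u) [PartialOrder P] [Finite P] : Type u :=
  Amb k (fun _ : P => k)

/-- The functor `Hom(k_-, k_A)` as a module. -/
noncomputable def Col (k : Type u) [Field k] (A : Set P) : Submodule (Rg k P) (A0 k P) where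
  carrier := {y | ∀ K, y.1 K ∈ HH k K.1 A}
  add_mem' := fun ha hb K => Submodule.add_mem (HH k K.1 A) (ha K) (hb K)
  zero_mem' := fun K => Submodule.zero_mem (HH k K.1 A)
  smul_mem' := by
    intro r y hy K
    have : (r • y).1 K = ∑ S, r.1 K S * y.1 S := by
      funext p
      rw [smul_apply, Finset.sum_apply]
      rfl
    rw [this]
    exact Submodule.sum_mem _ (fun S _ => HH_mul (r.2 K S) (hy S))

open Classical in
noncomputable def eS (k : Type u) [Field k] (S : Sp P) : Col k S.1 :=
  ⟨⟨fun K => if K = S then ind S.1 else 0, by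
    intro K p hp
    beta_reduce
    by_cases h : K = S
    · rw [if_pos h]
      subst h
      simp [ind, hp]
    · rw [if_neg h]
      rfl⟩, by
    intro K
    by_cases h : K = S
    · change (if K = S then ind S.1 else 0) ∈ HH k K.1 S.1
      rw [if_pos h, h]
      exact ind_self _
    · change (if K = S then ind S.1 else 0) ∈ HH k K.1 S.1
      rw [if_neg h]
      exact Submodule.zero_mem _⟩

open Classical in
/-- `Col S` embeds in the ring. -/
noncomputable def rho (k : Type u) [Field k] (S : Sp P) : Col k S.1 →ₗ[Rg k P] Rg k P where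
  toFun y := ⟨fun K T => if T = S then y.1.1 K else 0, by
    intro K T
    beta_reduce
    by_cases h : T = S
    · rw [if_pos h, h]
      exact y.2 K
    · rw [if_neg h]
      exact Submodule.zero_mem _⟩
  map_add' x y := by
    apply Subtype.ext
    funext K T
    change (if T = S then x.1.1 K + y.1.1 K else 0) =
      (if T = S then x.1.1 K else 0) + (if T = S then y.1.1 K else 0)
    by_cases h : T = S
    · rw [if_pos h, if_pos h, if_pos h]
    · rw [if_neg h, if_neg h, if_neg h, add_zero]
  map_smul' r y := by
    apply Subtype.ext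
    funext K T
    change (if T = S then (r • y.1).1 K else 0) =
      ∑ L, r.1 K L * (if T = S then y.1.1 L else 0)
    by_cases h : T = S
    · rw [if_pos h]
      funext p
      rw [smul_apply, Finset.sum_apply]
      apply Finset.sum_congr rfl
      intro L _
      rw [if_pos h]
      rfl
    · rw [if_neg h]
      symm
      apply Finset.sum_eq_zero
      intro L _
      rw [if_neg h, mul_zero]

theorem rho_smul (S : Sp P) (y : Col k S.1) : rho k S y • eS k S = y := by
  classical
  apply Subtype.ext
  apply Subtype.ext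
  funext K p
  change ∑ T, (if T = S then y.1.1 K else 0) p • (if T = S then ind S.1 else (0 : P → k)) p = _
  rw [Finset.sum_eq_single S]
  · rw [if_pos rfl, if_pos rfl]
    exact congrFun (ind_mul_right (y.2 K)) p
  · intro T _ hT
    rw [if_neg hT, if_neg hT, Pi.zero_apply, zero_smul]
  · intro h
    exact absurd (Finset.mem_univ S) h

end Pool.Agent.V1145.SR
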