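import Mathlib

universe u

namespace Pool.Agent.V1145.SR7

open Function

variable {R : Type u} [Ring R] {I : Type u} (C : I → Type u) [∀ i, AddCommGroup (C i)]
  [∀ i, Module R (C i)]

/-- Finite direct sums of the modules `C i`. -/
def Fr (R : Type u) [Ring R] {I : Type u} (C : I → Type u) [∀ i, AddCommGroup (C i)]
    [∀ i, Module R (C i)] (M : Type u) [AddCommGroup M] [Module R M] : Prop :=
  ∃ (ι : Type) (_ : Finite ι) (s : ι → I), Nonempty (M ≃ₗ[R] (∀ j, C (s j)))

/-- Resolutions of length `n` by finite direct sums of the `C i`. -/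
def Res (R : Type u) [Ring R] {I : Type u} (C : I → Type u) [∀ i, AddCommGroup (C i)]
    [∀ i, Module R (C i)] : ℕ → (M : Type u) → [AddCommGroup M] → [Module R M] → Prop
  | 0, M, _, _ => Fr R C M
  | n + 1, M, _, _ => ∃ (F : Type u) (_ : AddCommGroup F) (_ : Module R F) (f : F →ₗ[R] M),
      Fr R C F ∧ Surjective f ∧ Res R C n (LinearMap.ker f)

variable {C}
variable {M N B D : Type u} [AddCommGroup M] [Module R M] [AddCommGroup N] [Module R N]
  [AddCommGroup B] [Module R B] [AddCommGroup D] [Module R D]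

theorem Fr.congr (E : M ≃ₗ[R] N) (h : Fr R C M) : Fr R C N := by
  obtain ⟨ι, hι, s, ⟨E'⟩⟩ := h
  exact ⟨ι, hι, s, ⟨E.symm.trans E'⟩⟩

theorem Fr.zero [Subsingleton M] : Fr R C M := by
  refine ⟨Empty, inferInstance, Empty.elim, ⟨?_⟩⟩
  exact
    { toFun := fun _ j => j.elim
      map_add' := fun _ _ => funext fun j => j.elim
      map_smul' := fun _ _ => funext fun j => j.elim
      invFun := fun _ => 0
      left_inv := fun _ => Subsingleton.elim _ _
      right_inv := fun _ => funext fun j => j.elim }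

theorem Fr.single (i : I) : Fr R C (C i) := by
  refine ⟨Unit, inferInstance, fun _ => i, ⟨?_⟩⟩
  exact
    { toFun := fun x _ => x
      map_add' := fun _ _ => rfl
      map_smul' := fun _ _ => rfl
      invFun := fun x => x ()
      left_inv := fun _ => rfl
      right_inv := fun _ => rfl }

theorem Fr.prod (h : Fr R C M) (h' : Fr R C N) : Fr R C (M × N) := by
  obtain ⟨ι, hι, s, ⟨E⟩⟩ := h
  obtain ⟨κ, hκ, t, ⟨E'⟩⟩ := h'
  refine ⟨ι ⊕ κ, inferInstance, Sum.elim s t, ⟨?_⟩⟩
  have E2 : (∀ j, C (Sum.elim s t j)) ≃ₗ[R] (∀ j, C (s j)) × (∀ j, C (t j)) :=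
    LinearEquiv.sumPiEquivProdPi R ι κ (fun j => C (Sum.elim s t j))
  exact (E.prodCongr E').trans E2.symm

theorem Res.congr : ∀ (n : ℕ) {M N : Type u} [AddCommGroup M] [Module R M] [AddCommGroup N]
    [Module R N], (M ≃ₗ[R] N) → Res R C n M → Res R C n N
  | 0, M, N, _, _, _, _, E, h => Fr.congr E h
  | n + 1, M, N, _, _, _, _, E, h => by
    obtain ⟨F, _, _, f, hF, hf, hk⟩ := h
    refine ⟨F, inferInstance, inferInstance, E.toLinearMap.comp f, hF,
      E.surjective.comp hf, ?_⟩
    have : LinearMap.ker (E.toLinearMap.comp f) = LinearMap.ker f :=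
      LinearEquiv.ker_comp E f
    exact Res.congr n (LinearEquiv.ofEq _ _ this.symm) hk

theorem Res.succ : ∀ (n : ℕ) {M : Type u} [AddCommGroup M] [Module R M],
    Res R C n M → Res R C (n + 1) M
  | 0, M, _, _, h => by
    refine ⟨M, inferInstance, inferInstance, LinearMap.id, h, surjective_id, ?_⟩
    have : Subsingleton (LinearMap.ker (LinearMap.id : M →ₗ[R] M)) := by
      rw [LinearMap.ker_id]
      infer_instance
    exact Fr.zero
  | n + 1, M, _, _, h => by
    obtain ⟨F, _, _, f, hF, hf, hk⟩ := h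
    exact ⟨F, inferInstance, inferInstance, f, hF, hf, Res.succ n hk⟩

theorem Res.mono {n m : ℕ} (hnm : n ≤ m) (h : Res R C n M) : Res R C m M := by
  induction hnm with
  | refl => exact h
  | step _ ih => exact Res.succ _ ih

section

variable (e : ∀ i, C i) (ρ : ∀ i, C i →ₗ[R] R) (hρ : ∀ i y, ρ i y • e i = y)

include hρ

theorem Fr.lift {F : Type u} [AddCommGroup F] [Module R F] (hF : Fr R C F) (g : B →ₗ[R] D)
    (hg : Surjective g) (f : F →ₗ[R] D) : ∃ f' : F →ₗ[R] B, ∀ x, g (f' x) = f x := by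
  classical
  obtain ⟨ι, hι, s, ⟨E⟩⟩ := hF
  have := Fintype.ofFinite ι
  have hb := fun j => hg (f (E.symm (Pi.single j (e (s j)))))
  choose b hb using hb
  refine ⟨(∑ j, (LinearMap.toSpanSingleton R B (b j)).comp
    ((ρ (s j)).comp (LinearMap.proj j))).comp E.toLinearMap, fun x => ?_⟩
  rw [LinearMap.comp_apply, LinearMap.sum_apply, map_sum]
  have h1 : ∀ j, g ((LinearMap.toSpanSingleton R B (b j)).comp
      ((ρ (s j)).comp (LinearMap.proj j)) (E.toLinearMap x)) =
      f (E.symm (Pi.single j (E x j))) := by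
    intro j
    change g (ρ (s j) (E x j) • b j) = _
    rw [map_smul, hb, ← map_smul, ← map_smul, ← Pi.single_smul, hρ]
  rw [Finset.sum_congr rfl (fun j _ => h1 j), ← map_sum, ← map_sum,
    Finset.univ_sum_single (E x), E.symm_apply_apply]

theorem Res.horseshoe : ∀ (n : ℕ) {B D : Type u} [AddCommGroup B] [Module R B]
    [AddCommGroup D] [Module R D] (g : B →ₗ[R] D), Surjective g →
    Res R C n (LinearMap.ker g) → Res R C n D → Res R C n B
  | 0, B, D, _, _, _, _, g, hg, h1, h2 => by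
    obtain ⟨σ, hσ⟩ := Fr.lift e ρ hρ h2 g hg LinearMap.id
    refine Fr.congr ?_ (Fr.prod h1 h2)
    refine LinearEquiv.ofBijective ((LinearMap.ker g).subtype.coprod σ) ⟨?_, ?_⟩
    · rw [injective_iff_map_eq_zero]
      rintro ⟨a, c⟩ h
      have h3 : a.1 + σ c = 0 := h
      have h4 : c = 0 := by
        have h5 := congrArg g h3
        rw [map_add, hσ, map_zero, a.2, zero_add] at h5
        exact h5
      subst h4
      rw [map_zero, add_zero] at h3
      exact Prod.ext (Subtype.ext h3) rfl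
    · intro b
      refine ⟨(⟨b - σ (g b), ?_⟩, g b), ?_⟩
      · rw [LinearMap.mem_ker, map_sub, hσ]
        exact sub_self _
      · change b - σ (g b) + σ (g b) = b
        exact sub_add_cancel _ _
  | n + 1, B, D, _, _, _, _, g, hg, h1, h2 => by
    obtain ⟨F1, _, _, f1, hF1, hf1, hk1⟩ := h1
    obtain ⟨F2, _, _, f2, hF2, hf2, hk2⟩ := h2
    obtain ⟨σ, hσ⟩ := Fr.lift e ρ hρ hF2 g hg f2
    refine ⟨F1 × F2, inferInstance, inferInstance,
      ((LinearMap.ker g).subtype.comp f1).coprod σ, Fr.prod hF1 hF2, ?_, ?_⟩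
    · intro b
      obtain ⟨y, hy⟩ := hf2 (g b)
      obtain ⟨x, hx⟩ := hf1 ⟨b - σ y, by rw [LinearMap.mem_ker, map_sub, hσ, hy, sub_self]⟩
      refine ⟨(x, y), ?_⟩
      change (f1 x).1 + σ y = b
      rw [hx]
      exact sub_add_cancel _ _
    · let h := ((LinearMap.ker g).subtype.comp f1).coprod σ
      have hh : ∀ x : F1 × F2, h x = (f1 x.1).1 + σ x.2 := fun x => rfl
      let g' : LinearMap.ker h →ₗ[R] LinearMap.ker f2 :=
        LinearMap.codRestrict _ ((LinearMap.snd R F1 F2).comp (LinearMap.ker h).subtype) (by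
          rintro ⟨x, hx⟩
          rw [LinearMap.mem_ker, hh] at hx
          rw [LinearMap.mem_ker]
          change f2 x.2 = 0
          have h5 := congrArg g hx
          rw [map_add, hσ, map_zero, (f1 x.1).2, zero_add] at h5
          exact h5)
      refine Res.horseshoe n g' ?_ ?_ hk2
      · rintro ⟨y, hy⟩
        rw [LinearMap.mem_ker] at hy
        obtain ⟨x, hx⟩ := hf1 ⟨- σ y, by rw [LinearMap.mem_ker, map_neg, hσ, hy, neg_zero]⟩
        refine ⟨⟨(x, y), ?_⟩, rfl⟩
        rw [LinearMap.mem_ker, hh]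
        rw [hx]
        exact neg_add_cancel _
      · refine Res.congr n ?_ hk1
        refine LinearEquiv.ofBijective
          (LinearMap.codRestrict (LinearMap.ker g')
            (LinearMap.codRestrict (LinearMap.ker h)
              ((LinearMap.inl R F1 F2).comp (LinearMap.ker f1).subtype) ?_) ?_) ⟨?_, ?_⟩
        · rintro ⟨x, hx⟩
          rw [LinearMap.mem_ker, hh]
          change (f1 x).1 + σ 0 = 0
          rw [LinearMap.mem_ker] at hx
          rw [hx, map_zero, add_zero]
          rfl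
        · rintro ⟨x, hx⟩
          rw [LinearMap.mem_ker]
          rfl
        · rintro ⟨x, hx⟩ ⟨y, hy⟩ hxy
          have h6 : (x, (0 : F2)) = (y, 0) :=
            congrArg (fun z : LinearMap.ker g' => z.1.1) hxy
          exact Subtype.ext (Prod.ext_iff.1 h6).1
        · rintro ⟨⟨⟨x, y⟩, hxy⟩, hz⟩
          have h7 : y = 0 := congrArg Subtype.val (LinearMap.mem_ker.1 hz)
          subst h7
          have h8 : (f1 x).1 + σ 0 = 0 := hxy
          rw [map_zero, add_zero] at h8
          exact ⟨⟨x, Subtype.ext h8⟩, rfl⟩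

theorem Res.cone (n : ℕ) (g : B →ₗ[R] D) (hg : Surjective g)
    (h1 : Res R C n (LinearMap.ker g)) (h2 : Res R C (n + 1) B) : Res R C (n + 1) D := by
  obtain ⟨F, _, _, f, hF, hf, hk⟩ := h2
  refine ⟨F, inferInstance, inferInstance, g.comp f, hF, hg.comp hf, ?_⟩
  let g' : LinearMap.ker (g.comp f) →ₗ[R] LinearMap.ker g :=
    LinearMap.codRestrict _ (f.comp (LinearMap.ker (g.comp f)).subtype) (fun x => x.2)
  refine Res.horseshoe e ρ hρ n g' ?_ ?_ h1
  · rintro ⟨y, hy⟩
    obtain ⟨x, rfl⟩ := hf y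
    exact ⟨⟨x, hy⟩, rfl⟩
  · refine Res.congr n ?_ hk
    refine LinearEquiv.ofBijective
      (LinearMap.codRestrict (LinearMap.ker g')
        (LinearMap.codRestrict (LinearMap.ker (g.comp f)) (LinearMap.ker f).subtype ?_) ?_)
      ⟨?_, ?_⟩
    · rintro ⟨x, hx⟩
      rw [LinearMap.mem_ker] at hx ⊢
      change g (f x) = 0
      rw [hx, map_zero]
    · rintro ⟨x, hx⟩
      exact Subtype.ext hx
    · rintro ⟨x, hx⟩ ⟨y, hy⟩ hxy
      exact Subtype.ext (congrArg (fun z : LinearMap.ker g' => z.1.1) hxy)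
    · rintro ⟨⟨x, hx⟩, hz⟩
      exact ⟨⟨x, congrArg Subtype.val (LinearMap.mem_ker.1 hz)⟩, rfl⟩

theorem Res.of_simple (n : ℕ)
    (hs : ∀ (M : Type u) [AddCommGroup M] [Module R M] [IsSimpleModule R M], Res R C n M) :
    ∀ (M : Type u) [AddCommGroup M] [Module R M], IsFiniteLength R M → Res R C n M := by
  intro M _ _ h
  induction h with
  | of_subsingleton => exact Res.mono (Nat.zero_le n) (show Res R C 0 _ from Fr.zero)
  | @of_simple_quotient M _ _ N _ _ ih =>
    refine Res.horseshoe e ρ hρ n N.mkQ (Submodule.mkQ_surjective N) ?_ (hs _)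
    exact Res.congr n (LinearEquiv.ofEq _ _ (Submodule.ker_mkQ N).symm) ih

end

/-- Resolutions of `L/N`. -/
def RQ (R : Type u) [Ring R] {I : Type u} (C : I → Type u) [∀ i, AddCommGroup (C i)]
    [∀ i, Module R (C i)] (n : ℕ) {A : Type u} [AddCommGroup A] [Module R A]
    (N L : Submodule R A) : Prop := Res R C n (L ⧸ N.submoduleOf L)

variable {A : Type u} [AddCommGroup A] [Module R A]

theorem RQ_iff {n : ℕ} {N L : Submodule R A} {Y : Type u} [AddCommGroup Y] [Module R Y]
    (φ : L →ₗ[R] Y) (hs : Surjective φ) (hk : LinearMap.ker φ = N.submoduleOf L) :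
    RQ R C n N L ↔ Res R C n Y := by
  have E := (Submodule.quotEquivOfEq _ _ hk.symm).trans (φ.quotKerEquivOfSurjective hs)
  exact ⟨Res.congr n E, Res.congr n E.symm⟩

theorem RQ.map {A' : Type u} [AddCommGroup A'] [Module R A'] {n : ℕ} {N L : Submodule R A}
    {N' L' : Submodule R A'} (f : L →ₗ[R] L') (h1 : ∀ y : L', ∃ x : L, (f x).1 - y.1 ∈ N')
    (h2 : ∀ x : L, (f x).1 ∈ N' ↔ x.1 ∈ N) (h : RQ R C n N L) : RQ R C n N' L' := by
  refine (RQ_iff ((N'.submoduleOf L').mkQ.comp f) ?_ ?_).1 h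
  · intro q
    obtain ⟨y, rfl⟩ := Submodule.mkQ_surjective _ q
    obtain ⟨x, hx⟩ := h1 y
    refine ⟨x, ?_⟩
    change Submodule.Quotient.mk _ = Submodule.Quotient.mk _
    rw [Submodule.Quotient.eq]
    exact hx
  · ext x
    rw [LinearMap.mem_ker, LinearMap.comp_apply, Submodule.mkQ_apply,
      Submodule.Quotient.mk_eq_zero]
    exact h2 x

theorem RQ.cone (e : ∀ i, C i) (ρ : ∀ i, C i →ₗ[R] R) (hρ : ∀ i y, ρ i y • e i = y)
    {n : ℕ} {N L K : Submodule R A} (hK : K ≤ L)
    (h1 : RQ R C n (K ⊓ N) K) (h2 : RQ R C (n + 1) N L) : RQ R C (n + 1) (N ⊔ K) L := by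
  have hle : N.submoduleOf L ≤ (N ⊔ K).submoduleOf L :=
    Submodule.comap_mono le_sup_left
  refine Res.cone e ρ hρ n (Submodule.factor hle) (Submodule.factor_surjective hle) ?_ h2
  let φ : K →ₗ[R] LinearMap.ker (Submodule.factor hle) :=
    LinearMap.codRestrict _ ((N.submoduleOf L).mkQ.comp (Submodule.inclusion hK)) (by
      intro x
      rw [LinearMap.mem_ker, LinearMap.comp_apply, Submodule.factor_mk, Submodule.mkQ_apply]
      rw [Submodule.Quotient.mk_eq_zero]
      exact Submodule.mem_sup_right x.2)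
  refine (RQ_iff φ ?_ ?_).1 h1
  · rintro ⟨x, hx⟩
    obtain ⟨⟨l, hl⟩, rfl⟩ := Submodule.mkQ_surjective _ x
    rw [LinearMap.mem_ker, Submodule.factor_mk, Submodule.mkQ_apply,
      Submodule.Quotient.mk_eq_zero] at hx
    have hx' : l ∈ N ⊔ K := hx
    obtain ⟨a, ha, b, hb, rfl⟩ := Submodule.mem_sup.1 hx'
    refine ⟨⟨b, hb⟩, ?_⟩
    apply Subtype.ext
    change Submodule.Quotient.mk _ = Submodule.Quotient.mk _
    rw [Submodule.Quotient.eq]
    change b - (a + b) ∈ N
    have : b - (a + b) = -a := by abel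
    rw [this]
    exact N.neg_mem ha
  · ext x
    rw [LinearMap.mem_ker]
    constructor
    · intro h
      have h3 : (N.submoduleOf L).mkQ (Submodule.inclusion hK x) = 0 := congrArg Subtype.val h
      rw [Submodule.mkQ_apply, Submodule.Quotient.mk_eq_zero] at h3
      exact ⟨x.2, h3⟩
    · intro h
      apply Subtype.ext
      change (N.submoduleOf L).mkQ (Submodule.inclusion hK x) = 0
      rw [Submodule.mkQ_apply, Submodule.Quotient.mk_eq_zero]
      exact h.2

end Pool.Agent.V1145.SR7
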