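import Pool.Agent.V1145.SR6
import Pool.Agent.V1145.SR7

universe u

namespace Pool.Agent.V1145.SR

open SR7 Function

variable {k : Type u} [Field k] {P : Type u} [PartialOrder P]

/-! ### Subsets closed under comparability, minimal elements -/

theorem HH_sub {K A D : Set P} (hD : D ⊆ A)
    (hc : ∀ p ∈ D, ∀ q ∈ A, (p ≤ q ∨ q ≤ p) → q ∈ D) : HH k K D ≤ HH k K A := by
  intro φ hφ
  refine ⟨fun p hp => hφ.1 p (hp.imp id (fun h h' => h (hD h'))), fun p q h hp hq => ?_⟩
  by_cases hqD : q ∈ D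
  · exact hφ.2 p q h hp hqD
  · rw [hφ.1 q (Or.inr hqD), hφ.1 p (Or.inr (fun h' => hqD (hc p h' q hq (Or.inl h))))]

theorem HH_cut {K A D : Set P} (hD : D ⊆ A)
    (hc : ∀ p ∈ D, ∀ q ∈ A, (p ≤ q ∨ q ≤ p) → q ∈ D) {φ : P → k} (hφ : φ ∈ HH k K A) :
    φ * ind D ∈ HH k K D := by
  classical
  refine ⟨fun p hp => ?_, fun p q h hp hq => ?_⟩
  · simp only [Pi.mul_apply, ind]
    rcases hp with hp | hp
    · rw [hφ.1 p (Or.inl hp), zero_mul]
    · rw [if_neg hp, mul_zero]
  · simp only [Pi.mul_apply, ind]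
    rw [if_pos hq]
    by_cases hpD : p ∈ D
    · rw [if_pos hpD, hφ.2 p q h hp (hD hq)]
    · have : p ∉ A := fun h' => hpD (hc q hq p h' (Or.inr h))
      rw [if_neg hpD, ← hφ.2 p q h hp (hD hq), hφ.1 p (Or.inr this), zero_mul, zero_mul]

/-- `φ` restricted to the part `Z` of `K ∩ A` closed under comparability in `K ∩ A`. -/
theorem HH_ind {K A Z : Set P} (hc : ∀ p ∈ Z, ∀ q ∈ K ∩ A, (p ≤ q ∨ q ≤ p) → q ∈ Z)
    {φ : P → k} (hφ : φ ∈ HH k K A) : φ * ind Z ∈ HH k K A := by
  classical
  refine ⟨fun p hp => ?_, fun p q h hp hq => ?_⟩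
  · rw [Pi.mul_apply, hφ.1 p hp, zero_mul]
  · simp only [Pi.mul_apply, ind]
    by_cases hpA : p ∈ A
    · by_cases hqK : q ∈ K
      · have : (p ∈ Z) ↔ (q ∈ Z) :=
          ⟨fun h' => hc p h' q ⟨hqK, hq⟩ (Or.inl h), fun h' => hc q h' p ⟨hp, hpA⟩ (Or.inr h)⟩
        rw [hφ.2 p q h hp hq]
        by_cases hqZ : q ∈ Z
        · rw [if_pos hqZ, if_pos (this.2 hqZ)]
        · rw [if_neg hqZ, if_neg (fun h' => hqZ (this.1 h'))]
      · rw [hφ.2 p q h hp hq, hφ.1 q (Or.inl hqK), zero_mul, zero_mul]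
    · rw [← hφ.2 p q h hp hq, hφ.1 p (Or.inr hpA), zero_mul, zero_mul]

theorem HH_const {K A : Set P} {φ : P → k} (hφ : φ ∈ HH k K A) {m p : P}
    (hp : p ∈ cmp (K ∩ A) m) : φ p = φ m := by
  have h0 := hp.2
  clear hp
  induction h0 with
  | refl => rfl
  | tail h1 h2 ih =>
    rw [← ih]
    rcases h2.2.2 with h | h
    · exact (hφ.2 _ _ h h2.1.1 h2.2.1.2).symm
    · exact hφ.2 _ _ h h2.2.1.1 h2.1.2

/-- `m` is a minimal element of `A`. -/
def IsMin' (A : Set P) (m : P) : Prop := m ∈ A ∧ ∀ p ∈ A, p ≤ m → p = m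

theorem HH_del_mem {K A : Set P} {m : P} (hm : IsMin' A m) {φ : P → k} :
    φ ∈ HH k K (A \ {m}) ↔ φ ∈ HH k K A ∧ φ m = 0 := by
  constructor
  · intro hφ
    have h0 : φ m = 0 := hφ.1 m (Or.inr (fun h => h.2 rfl))
    refine ⟨⟨fun p hp => hφ.1 p (hp.imp id (fun h h' => h h'.1)), fun p q h hp hq => ?_⟩, h0⟩
    by_cases hqm : q = m
    · subst hqm
      by_cases hpq : p = q
      · rw [hpq]
      · rw [h0]
        exact hφ.1 p (Or.inr (fun h' => hpq (hm.2 p h'.1 h)))
    · exact hφ.2 p q h hp ⟨hq, hqm⟩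
  · rintro ⟨hφ, h0⟩
    refine ⟨fun p hp => ?_, fun p q h hp hq => hφ.2 p q h hp hq.1⟩
    rcases hp with hp | hp
    · exact hφ.1 p (Or.inl hp)
    · by_cases hpm : p = m
      · rw [hpm]; exact h0
      · exact hφ.1 p (Or.inr (fun h => hp ⟨h, hpm⟩))

theorem IsMin'.del {A : Set P} {m x : P} (hx : IsMin' A x) (h : x ≠ m) :
    IsMin' (A \ {m}) x := ⟨⟨hx.1, h⟩, fun p hp hle => hx.2 p hp.1 hle⟩

theorem cvx_del {A : Set P} (hA : Cvx A) {m : P} (hm : IsMin' A m) : Cvx (A \ {m}) := by
  intro a ha b hb p h1 h2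
  refine ⟨hA a ha.1 b hb.1 p h1 h2, fun h => ?_⟩
  have h3 : p = m := h
  subst h3
  exact ha.2 (hm.2 a ha.1 h1)

theorem HH_kill {K A : Set P} {m : P} (hm : IsMin' A m) {φ : P → k} (hφ : φ ∈ HH k K A) :
    φ - φ * ind (cmp (K ∩ A) m) ∈ HH k K (A \ {m}) := by
  classical
  rw [HH_del_mem hm]
  refine ⟨Submodule.sub_mem _ hφ (HH_ind (fun p hp q hq h => cmp_closed hp hq h) hφ), ?_⟩
  simp only [Pi.sub_apply, Pi.mul_apply, ind]
  by_cases hmK : m ∈ K
  · have h1 : m ∈ cmp (K ∩ A) m := ⟨⟨hmK, hm.1⟩, Relation.ReflTransGen.refl⟩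
    rw [if_pos h1, mul_one, sub_self]
  · rw [hφ.1 m (Or.inl hmK), zero_mul, sub_zero]

theorem HH_fix {K A : Set P} {m : P} (hm : IsMin' A m) {φ : P → k}
    (hφ : φ ∈ HH k K (A \ {m})) : φ * ind (cmp (K ∩ A) m) = 0 := by
  classical
  rw [HH_del_mem hm] at hφ
  funext p
  simp only [Pi.mul_apply, ind, Pi.zero_apply]
  by_cases hp : p ∈ cmp (K ∩ A) m
  · rw [HH_const hφ.1 hp, hφ.2, zero_mul]
  · rw [if_neg hp, mul_zero]

/-- The span of the maps to `k_A` which miss some element of `Y`. -/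
def HN (k : Type u) [Field k] (K A : Set P) (Y : Finset P) : Submodule k (P → k) :=
  ⨆ x ∈ Y, HH k K (A \ {x})

theorem HN_le {K A : Set P} {Y : Finset P} (hY : ∀ m ∈ Y, IsMin' A m) :
    HN k K A Y ≤ HH k K A :=
  iSup₂_le (fun x hx _ hφ => ((HH_del_mem (hY x hx)).1 hφ).1)

theorem HN_mul {K S A : Set P} {Y : Finset P} {φ ψ : P → k} (hφ : φ ∈ HH k K S)
    (hψ : ψ ∈ HN k S A Y) : φ * ψ ∈ HN k K A Y := by
  have h : HN k S A Y ≤ (HN k K A Y).comap (LinearMap.mulLeft k φ) := by
    refine iSup₂_le (fun x hx χ hχ => ?_)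
    have h1 : φ * χ ∈ HH k K (A \ {x}) := HH_mul hφ hχ
    exact (le_iSup₂_of_le (f := fun x (_ : x ∈ Y) => HH k K (A \ {x})) x hx (le_refl _)) h1
  exact h hψ

theorem HN_split {K A : Set P} {m : P} {Y : Finset P} (hm : IsMin' A m) (hmY : m ∉ Y)
    (hY : ∀ x ∈ Y, IsMin' A x) {φ : P → k} (h1 : φ ∈ HH k K (A \ {m})) (h2 : φ ∈ HN k K A Y) :
    φ ∈ HN k K (A \ {m}) Y := by
  let κ : (P → k) →ₗ[k] (P → k) :=
    LinearMap.id - LinearMap.mulRight k (ind (cmp (K ∩ A) m))
  have hκ : ∀ χ : P → k, κ χ = χ - χ * ind (cmp (K ∩ A) m) := fun χ => rfl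
  have h : HN k K A Y ≤ (HN k K (A \ {m}) Y).comap κ := by
    refine iSup₂_le (fun x hx χ hχ => ?_)
    have h3 := (HH_del_mem (hY x hx)).1 hχ
    have h4 := HH_kill hm h3.1
    have hxm : x ≠ m := fun h' => hmY (h' ▸ hx)
    have h5 : κ χ ∈ HH k K ((A \ {m}) \ {x}) := by
      rw [HH_del_mem ((hY x hx).del hxm), hκ]
      refine ⟨h4, ?_⟩
      simp [h3.2]
    exact (le_iSup₂_of_le (f := fun x (_ : x ∈ Y) => HH k K ((A \ {m}) \ {x})) x hx
      (le_refl _)) h5
  have h6 : κ φ = φ := by rw [hκ, HH_fix hm h1, sub_zero]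
  have h7 := h h2
  rw [Submodule.mem_comap, h6] at h7
  exact h7

/-- A function all of whose supporting components miss some element of `Y`. -/
theorem HN_of_miss {K A : Set P} {Y : Finset P} (hY : ∀ m ∈ Y, IsMin' A m) :
    ∀ {φ : P → k}, φ ∈ HH k K A → (∀ p, φ p ≠ 0 → ∃ m ∈ Y, p ∉ cmp (K ∩ A) m) →
      φ ∈ HN k K A Y := by
  classical
  induction Y using Finset.induction_on with
  | empty =>
    intro φ _ h
    have : φ = 0 := by
      funext p
      by_contra hp
      obtain ⟨m, hm, _⟩ := h p hp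
      exact absurd hm (Finset.notMem_empty m)
    rw [this]
    exact Submodule.zero_mem _
  | insert m Y hmY ih =>
    intro φ hφ h
    have hm := hY m (Finset.mem_insert_self m Y)
    have h1 := HH_kill hm hφ
    have h2 : φ * ind (cmp (K ∩ A) m) ∈ HN k K A Y := by
      apply ih (fun x hx => hY x (Finset.mem_insert_of_mem hx))
      · exact HH_ind (fun p hp q hq h => cmp_closed hp hq h) hφ
      · intro p hp
        simp only [Pi.mul_apply, ind] at hp
        by_cases hpc : p ∈ cmp (K ∩ A) m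
        · rw [if_pos hpc, mul_one] at hp
          obtain ⟨m', hm', hpm'⟩ := h p hp
          rcases Finset.mem_insert.1 hm' with rfl | hm''
          · exact absurd hpc hpm'
          · exact ⟨m', hm'', hpm'⟩
        · rw [if_neg hpc, mul_zero] at hp
          exact absurd rfl hp
    have h3 : φ = (φ - φ * ind (cmp (K ∩ A) m)) + φ * ind (cmp (K ∩ A) m) := by abel
    unfold HN at h2 ⊢
    rw [Finset.iSup_insert, h3]
    exact Submodule.add_mem _ (Submodule.mem_sup_left h1) (Submodule.mem_sup_right h2)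

variable [Finite P]

abbrev CC (k : Type u) [Field k] (P : Type u) [PartialOrder P] [Finite P] (S : Sp P) :
    Type u := ↥(Col (P := P) k S.1)

theorem smul_fun (r : Rg k P) (y : A0 k P) (K : Sp P) :
    (r • y).1 K = ∑ S, r.1 K S * y.1 S := by
  funext p
  rw [smul_apply, Finset.sum_apply]
  rfl

theorem fr_col : ∀ A : Set P, Cvx A → Fr (Rg k P) (CC k P) (Col (P := P) k A) := by
  classical
  have main : ∀ (n : ℕ) (A : Set P), A.ncard = n → Cvx A →
      Fr (Rg k P) (CC k P) (Col (P := P) k A) := by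
    intro n
    induction n using Nat.strong_induction_on with
    | _ n ih =>
      intro A hn hA
      rcases Set.eq_empty_or_nonempty A with rfl | ⟨a, ha⟩
      · have : Subsingleton (Col (P := P) k (∅ : Set P)) := by
          refine ⟨fun x y => ?_⟩
          apply Subtype.ext
          apply Subtype.ext
          funext K p
          rw [(x.2 K).1 p (Or.inr (by simp)), (y.2 K).1 p (Or.inr (by simp))]
        exact Fr.zero
      · have hfin : A.Finite := Set.toFinite A
        have hC := cmp_spread hA ha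
        have hCA : cmp A a ⊆ A := fun p hp => hp.1
        have hBA : A \ cmp A a ⊆ A := fun p hp => hp.1
        have hcC : ∀ p ∈ cmp A a, ∀ q ∈ A, (p ≤ q ∨ q ≤ p) → q ∈ cmp A a :=
          fun p hp q hq h => cmp_closed hp hq h
        have hcB : ∀ p ∈ A \ cmp A a, ∀ q ∈ A, (p ≤ q ∨ q ≤ p) → q ∈ A \ cmp A a :=
          fun p hp q hq h => ⟨hq, fun h' => hp.2 (cmp_closed h' hp.1 h.symm)⟩
        have hB : Cvx (A \ cmp A a) := by
          intro s hs s' hs' p h1 h2
          have hp : p ∈ A := hA s hs.1 s' hs'.1 p h1 h2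
          exact ⟨hp, fun hpc => hs.2 (cmp_closed hpc hs.1 (Or.inr h1))⟩
        have hcard : (A \ cmp A a).ncard < n := by
          rw [← hn]
          apply Set.ncard_lt_ncard _ hfin
          refine ⟨Set.sdiff_subset, fun hs => ?_⟩
          exact (hs ha).2 ⟨ha, Relation.ReflTransGen.refl⟩
        have h1 : Col (P := P) k (cmp A a) ≤ Col k A := fun y hy K => HH_sub hCA hcC (hy K)
        have h2 : Col (P := P) k (A \ cmp A a) ≤ Col k A := fun y hy K => HH_sub hBA hcB (hy K)
        refine Fr.congr ?_ (Fr.prod (Fr.single (C := CC k P) ⟨cmp A a, hC⟩)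
          (ih _ hcard (A \ cmp A a) rfl hB))
        refine LinearEquiv.ofBijective
          ((Submodule.inclusion h1).coprod (Submodule.inclusion h2)) ⟨?_, ?_⟩
        · rw [injective_iff_map_eq_zero]
          rintro ⟨x, y⟩ hxy
          have h3 : ∀ K p, x.1.1 K p + y.1.1 K p = 0 := fun K p =>
            congrFun (congrFun (congrArg (fun z : Col (P := P) k A => z.1.1) hxy) K) p
          refine Prod.ext (Subtype.ext (Subtype.ext ?_)) (Subtype.ext (Subtype.ext ?_))
          · funext K p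
            by_cases hp : p ∈ cmp A a
            · have h4 : y.1.1 K p = 0 := (y.2 K).1 p (Or.inr (fun h => h.2 hp))
              have h5 := h3 K p
              rw [h4, add_zero] at h5
              exact h5
            · exact (x.2 K).1 p (Or.inr hp)
          · funext K p
            by_cases hp : p ∈ cmp A a
            · exact (y.2 K).1 p (Or.inr (fun h => h.2 hp))
            · have h4 : x.1.1 K p = 0 := (x.2 K).1 p (Or.inr hp)
              have h5 := h3 K p
              rw [h4, zero_add] at h5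
              exact h5
        · intro z
          have hz1 : ∀ K, z.1.1 K * ind (cmp A a) ∈ HH k K.1 (cmp A a) :=
            fun K => HH_cut hCA hcC (z.2 K)
          have hz2 : ∀ K, z.1.1 K * ind (A \ cmp A a) ∈ HH k K.1 (A \ cmp A a) :=
            fun K => HH_cut hBA hcB (z.2 K)
          refine ⟨(⟨⟨fun K => z.1.1 K * ind (cmp A a), fun K p hp => (hz1 K).1 p (Or.inl hp)⟩,
            hz1⟩, ⟨⟨fun K => z.1.1 K * ind (A \ cmp A a), fun K p hp =>
            (hz2 K).1 p (Or.inl hp)⟩, hz2⟩), ?_⟩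
          apply Subtype.ext
          apply Subtype.ext
          funext K p
          change z.1.1 K p * ind (cmp A a) p + z.1.1 K p * ind (A \ cmp A a) p = z.1.1 K p
          by_cases hpA : p ∈ A
          · by_cases hp : p ∈ cmp A a
            · simp [ind, hp]
            · simp [ind, hp, hpA]
          · have h0 : z.1.1 K p = 0 := (z.2 K).1 p (Or.inr hpA)
            rw [h0, zero_mul, zero_mul, add_zero]
  exact fun A => main _ A rfl

noncomputable def eC (k : Type u) [Field k] (P : Type u) [PartialOrder P] [Finite P] :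
    ∀ S : Sp P, CC k P S := fun S => eS k S

noncomputable def rC (k : Type u) [Field k] (P : Type u) [PartialOrder P] [Finite P] :
    ∀ S : Sp P, CC k P S →ₗ[Rg k P] Rg k P := fun S => rho k S

theorem hC (k : Type u) [Field k] (P : Type u) [PartialOrder P] [Finite P] :
    ∀ (S : Sp P) (y : CC k P S), rC k P S y • eC k P S = y := fun S y => rho_smul S y

noncomputable def NN (k : Type u) [Field k] (A : Set P) (Y : Finset P) :
    Submodule (Rg k P) (A0 k P) where
  carrier := {y | ∀ K, y.1 K ∈ HN k K.1 A Y}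
  add_mem' := by
    intro a b ha hb K
    have h1 : a.1 K ∈ HN k K.1 A Y := ha K
    have h2 : b.1 K ∈ HN k K.1 A Y := hb K
    change a.1 K + b.1 K ∈ HN k K.1 A Y
    exact Submodule.add_mem _ h1 h2
  zero_mem' := by
    intro K
    change (0 : P → k) ∈ HN k K.1 A Y
    exact Submodule.zero_mem _
  smul_mem' := by
    intro r y hy K
    have h1 : ∀ S, r.1 K S * y.1 S ∈ HN k K.1 A Y := by
      intro S
      have h2 : r.1 K S ∈ HH k K.1 S.1 := r.2 K S
      have h3 : y.1 S ∈ HN k S.1 A Y := hy S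
      exact HN_mul h2 h3
    rw [smul_fun]
    exact Submodule.sum_mem (HN k K.1 A Y) (fun S _ => h1 S)

theorem rq_koszul (Y : Finset P) : ∀ A : Set P, Cvx A → (∀ m ∈ Y, IsMin' A m) →
    RQ (Rg k P) (CC k P) Y.card (NN k A Y) (Col k A) := by
  classical
  induction Y using Finset.induction_on with
  | empty =>
    intro A hA _
    refine (RQ_iff LinearMap.id surjective_id ?_).2 (fr_col A hA)
    rw [LinearMap.ker_id]
    ext y
    rw [Submodule.mem_bot]
    constructor
    · rintro rfl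
      exact Submodule.zero_mem _
    · intro hy
      have hy' : ∀ K, y.1.1 K ∈ HN k K.1 A ∅ := hy
      apply Subtype.ext
      apply Subtype.ext
      funext K
      have h1 := hy' K
      unfold HN at h1
      simp only [Finset.notMem_empty, iSup_false, iSup_bot, Submodule.mem_bot] at h1
      exact h1
  | insert m Y hmY ih =>
    intro A hA hY
    have hm := hY m (Finset.mem_insert_self m Y)
    have hY' : ∀ x ∈ Y, IsMin' A x := fun x hx => hY x (Finset.mem_insert_of_mem hx)
    have hYd : ∀ x ∈ Y, IsMin' (A \ {m}) x := fun x hx =>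
      (hY' x hx).del (fun h => hmY (h ▸ hx))
    rw [Finset.card_insert_of_notMem hmY]
    have hle : Col (P := P) k (A \ {m}) ≤ Col k A := fun y hy K => ((HH_del_mem hm).1 (hy K)).1
    have e1 : Col (P := P) k (A \ {m}) ⊓ NN k A Y = NN k (A \ {m}) Y := by
      apply le_antisymm
      · rintro y ⟨h1, h2⟩ K
        exact HN_split hm hmY hY' (h1 K) (h2 K)
      · intro y hy
        refine ⟨fun K => HN_le hYd (hy K), fun K => ?_⟩
        have h3 : HN k K.1 (A \ {m}) Y ≤ HN k K.1 A Y := by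
          refine iSup₂_le (fun x hx χ hχ => ?_)
          have hxm : x ≠ m := fun h' => hmY (h' ▸ hx)
          have h4 := (HH_del_mem (hYd x hx)).1 hχ
          have h5 : χ ∈ HH k K.1 (A \ {x}) :=
            (HH_del_mem (hY' x hx)).2 ⟨((HH_del_mem hm).1 h4.1).1, h4.2⟩
          exact (le_iSup₂_of_le (f := fun x (_ : x ∈ Y) => HH k K.1 (A \ {x})) x hx
            (le_refl _)) h5
        exact h3 (hy K)
    have e2 : NN k A Y ⊔ Col (P := P) k (A \ {m}) = NN k A (insert m Y) := by
      have hins : ∀ K : Sp P, HN k K.1 A (insert m Y) =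
          HH k K.1 (A \ {m}) ⊔ HN k K.1 A Y := fun K => by
        unfold HN
        rw [Finset.iSup_insert]
      apply le_antisymm
      · apply sup_le
        · intro y hy K
          rw [hins]
          exact Submodule.mem_sup_right (hy K)
        · intro y hy K
          rw [hins]
          exact Submodule.mem_sup_left (hy K)
      · intro y hy
        have h1 : ∀ K : Sp P, ∃ a ∈ HH k K.1 (A \ {m}), ∃ b ∈ HN k K.1 A Y,
            a + b = y.1 K := fun K => by
          have h2 := hy K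
          rw [hins] at h2
          exact Submodule.mem_sup.1 h2
        choose a ha b hb hab using h1
        have h3 : y = (⟨b, fun K p hp => (HN_le hY' (hb K)).1 p (Or.inl hp)⟩ : A0 k P) +
            ⟨a, fun K p hp => (ha K).1 p (Or.inl hp)⟩ := by
          apply Subtype.ext
          funext K
          change y.1 K = b K + a K
          rw [← hab K, add_comm]
        rw [h3]
        have h4 : (⟨b, fun K p hp => (HN_le hY' (hb K)).1 p (Or.inl hp)⟩ : A0 k P) ∈
          NN k A Y := hb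
        have h5 : (⟨a, fun K p hp => (ha K).1 p (Or.inl hp)⟩ : A0 k P) ∈
          Col (P := P) k (A \ {m}) := ha
        exact Submodule.add_mem_sup h4 h5
    rw [← e2]
    refine RQ.cone (eC k P) (rC k P) (hC k P) hle ?_ (Res.succ _ (ih A hA hY'))
    rw [e1]
    exact ih _ (cvx_del hA hm) hYd

end Pool.Agent.V1145.SR
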