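import Pool.Agent.V1145.SR8

universe u

namespace Pool.Agent.V1145.SR

open SR7 Function

variable {k : Type u} [Field k] {P : Type u} [PartialOrder P]

def Dn (S K : Set P) : Prop := S ⊆ K ∧ ∀ p ∈ K, ∀ s ∈ S, p ≤ s → p ∈ S

theorem HH_const' {K S : Set P} (hS : IsSpread S) (hSK : S ⊆ K) {φ : P → k}
    (hφ : φ ∈ HH k K S) {s t : P} (hs : s ∈ S) (ht : t ∈ S) : φ s = φ t := by
  have h := hS.connected s hs t ht
  clear ht
  induction h with
  | refl => rfl
  | tail h1 h2 ih =>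
    rw [ih]
    rcases h2.2.2 with h | h
    · exact hφ.2 _ _ h (hSK h2.1) h2.2.1
    · exact (hφ.2 _ _ h (hSK h2.2.1) h2.1).symm

def Mono' (S : Set P) (Pr : Set P → Prop) : Prop :=
  ∀ K K' : Set P, Pr K' → (∀ x ∈ K', (∃ s ∈ S, s ≤ x) → x ∈ K) → Pr K

theorem prod_nonzero {K K' S : Set P} (hS : IsSpread S) {φ ψ : P → k} (hφ : φ ∈ HH k K K')
    (hψ : ψ ∈ HH k K' S) (hD : Dn S K) (h : φ * ψ ≠ 0) :
    Dn S K' ∧ ∀ x ∈ K', (∃ s ∈ S, s ≤ x) → x ∈ K := by
  have h1 := HH_mul hφ hψ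
  have h2 : ∀ s ∈ S, φ s * ψ s ≠ 0 := by
    intro s hs h0
    apply h
    funext p
    by_cases hp : p ∈ S
    · rw [HH_const' hS hD.1 h1 hp hs]
      exact h0
    · exact h1.1 p (Or.inr hp)
  have h3 : S ⊆ K' := by
    intro s hs
    by_contra hn
    apply h2 s hs
    rw [hφ.1 s (Or.inr hn), zero_mul]
  refine ⟨⟨h3, fun p hp s hs hle => ?_⟩, ?_⟩
  · by_contra hn
    apply h2 s hs
    rw [← hψ.2 p s hle hp hs, hψ.1 p (Or.inr hn), mul_zero]
  · rintro x hx ⟨s, hs, hle⟩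
    by_contra hn
    apply h2 s hs
    rw [hφ.2 s x hle (hD.1 hs) hx, hφ.1 x (Or.inl hn), zero_mul]

/-! ### The auxiliary convex sets -/

def AX (S : Set P) (X : Finset P) : Set P :=
  S ∪ {y | (∃ x ∈ X, y ≤ x) ∧ ∀ s ∈ S, ¬ y ≤ s}

theorem AX_cvx {S : Set P} (hS : IsSpread S) (X : Finset P) : Cvx (AX S X) := by
  intro a ha b hb p h1 h2
  rcases hb with hb | ⟨⟨x, hx, hbx⟩, hb⟩
  · rcases ha with ha | ha
    · exact Or.inl (hS.convex a ha b hb p h1 h2)
    · exact absurd (h1.trans h2) (ha.2 b hb)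
  · by_cases h : ∃ s ∈ S, p ≤ s
    · obtain ⟨s, hs, hps⟩ := h
      rcases ha with ha | ha
      · exact Or.inl (hS.convex a ha s hs p h1 hps)
      · exact absurd (h1.trans hps) (ha.2 s hs)
    · push Not at h
      exact Or.inr ⟨⟨x, hx, h2.trans hbx⟩, h⟩

theorem AX_down {S : Set P} {X : Finset P} {y s : P} (hy : y ∈ AX S X) (hs : s ∈ S)
    (h : y ≤ s) : y ∈ S := by
  rcases hy with hy | hy
  · exact hy
  · exact absurd h (hy.2 s hs)

/-- The condition that `X` lies strictly above `S`. -/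
def Ab (S : Set P) (X : Finset P) : Prop := ∀ x ∈ X, (∃ s ∈ S, s ≤ x) ∧ x ∉ S

theorem AX_mem {S : Set P} (hS : IsSpread S) {X : Finset P} (hX : Ab S X) {x : P}
    (hx : x ∈ X) : x ∈ AX S X := by
  obtain ⟨⟨s, hs, hsx⟩, hn⟩ := hX x hx
  exact Or.inr ⟨⟨x, hx, le_refl x⟩, fun t ht hxt => hn (hS.convex s hs t ht x hsx hxt)⟩

theorem AX_ind {S : Set P} (X : Finset P) : (ind S : P → k) ∈ HH k (AX S X) S := by
  classical
  refine ⟨fun p hp => ?_, fun p q h hp hq => ?_⟩
  · simp only [ind]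
    rw [if_neg]
    rcases hp with hp | hp
    · exact fun h => hp (Or.inl h)
    · exact hp
  · simp only [ind]
    rw [if_pos hq, if_pos (AX_down hp hq h)]

theorem AX_ind' {S K : Set P} (hK : Cvx K) {X : Finset P} (hD : Dn S K)
    (hXK : ∀ x ∈ X, x ∈ K) : (ind (K ∩ AX S X) : P → k) ∈ HH k K (AX S X) := by
  classical
  refine ⟨fun p hp => ?_, fun p q h hp hq => ?_⟩
  · simp only [ind]
    rw [if_neg]
    rintro ⟨h1, h2⟩
    rcases hp with hp | hp
    · exact hp h1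
    · exact hp h2
  · have : p ∈ K ∩ AX S X ↔ q ∈ K ∩ AX S X := by
      constructor
      · rintro ⟨_, h2⟩
        refine ⟨?_, hq⟩
        rcases hq with hq | ⟨⟨x, hx, hqx⟩, _⟩
        · exact hD.1 hq
        · exact hK p hp x (hXK x hx) q h hqx
      · rintro ⟨_, h2⟩
        refine ⟨hp, ?_⟩
        rcases h2 with h2 | ⟨⟨x, hx, hqx⟩, _⟩
        · exact Or.inl (hD.2 p hp q h2 h)
        · by_cases h3 : ∃ s ∈ S, p ≤ s
          · obtain ⟨s, hs, hps⟩ := h3
            exact Or.inl (hD.2 p hp s hs hps)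
          · push Not at h3
            exact Or.inr ⟨⟨x, hx, h.trans hqx⟩, h3⟩
    simp only [ind]
    by_cases hq' : q ∈ K ∩ AX S X
    · rw [if_pos hq', if_pos (this.2 hq')]
    · rw [if_neg hq', if_neg (fun h' => hq' (this.1 h'))]

variable [Finite P]

theorem exists_min_le {A : Set P} {s : P} (hs : s ∈ A) : ∃ m, IsMin' A m ∧ m ≤ s := by
  have hwf : WellFounded ((· < ·) : P → P → Prop) := wellFounded_lt
  obtain ⟨m, hm, hmin⟩ := hwf.has_min {y | y ∈ A ∧ y ≤ s} ⟨s, hs, le_refl s⟩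
  refine ⟨m, ⟨hm.1, fun p hp hle => ?_⟩, hm.2⟩
  by_contra hne
  exact hmin p ⟨hp, hle.trans hm.2⟩ (lt_of_le_of_ne hle hne)

open Classical in
/-- The minimal elements of `A`. -/
noncomputable def mins (A : Set P) : Finset P :=
  (Set.toFinite {m | IsMin' A m}).toFinset

theorem mem_mins {A : Set P} {m : P} : m ∈ mins A ↔ IsMin' A m := by
  simp [mins]

/-- Elements strictly above `S`. -/
def up (S : Set P) : Set P := {x | (∃ s ∈ S, s ≤ x) ∧ x ∉ S}

noncomputable def DD (k : Type u) [Field k] (S : Sp P) (Pr : Set P → Prop)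
    (hPr : Mono' S.1 Pr) : Submodule (Rg k P) (A0 k P) where
  carrier := {y | (∀ K : Sp P, y.1 K ∈ HH k K.1 S.1) ∧
    ∀ K : Sp P, Dn S.1 K.1 → ¬ Pr K.1 → y.1 K = 0}
  add_mem' := by
    intro a b ha hb
    refine ⟨fun K => Submodule.add_mem (HH k K.1 S.1) (ha.1 K) (hb.1 K), fun K h1 h2 => ?_⟩
    change a.1 K + b.1 K = 0
    rw [ha.2 K h1 h2, hb.2 K h1 h2, add_zero]
  zero_mem' := ⟨fun K => Submodule.zero_mem (HH k K.1 S.1), fun _ _ _ => rfl⟩
  smul_mem' := by
    intro r y hy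
    refine ⟨fun K => ?_, fun K h1 h2 => ?_⟩
    · rw [smul_fun]
      exact Submodule.sum_mem (HH k K.1 S.1) (fun T _ => HH_mul (r.2 K T) (hy.1 T))
    · rw [smul_fun]
      apply Finset.sum_eq_zero
      intro T _
      by_contra h3
      obtain ⟨h4, h5⟩ := prod_nonzero S.2 (r.2 K T) (hy.1 T) h1 h3
      by_cases h6 : Pr T.1
      · exact h2 (hPr K.1 T.1 h6 h5)
      · rw [hy.2 T h4 h6, mul_zero] at h3
        exact h3 rfl

theorem DD_congr {S : Sp P} {P1 P2 : Set P → Prop} (h1 : Mono' S.1 P1) (h2 : Mono' S.1 P2)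
    (h : ∀ K, P1 K ↔ P2 K) : DD k S P1 h1 = DD k S P2 h2 := by
  ext y
  exact ⟨fun hy => ⟨hy.1, fun K a b => hy.2 K a (fun c => b ((h _).1 c))⟩,
    fun hy => ⟨hy.1, fun K a b => hy.2 K a (fun c => b ((h _).2 c))⟩⟩

theorem DD_mono {S : Sp P} {P1 P2 : Set P → Prop} (h1 : Mono' S.1 P1) (h2 : Mono' S.1 P2)
    (h : ∀ K, P1 K → P2 K) : DD k S P1 h1 ≤ DD k S P2 h2 :=
  fun _ hy => ⟨hy.1, fun K a b => hy.2 K a (fun c => b (h _ c))⟩

theorem DD_inf {S : Sp P} {P1 P2 P3 : Set P → Prop} (h1 : Mono' S.1 P1) (h2 : Mono' S.1 P2)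
    (h3 : Mono' S.1 P3) (h : ∀ K, P3 K ↔ P1 K ∧ P2 K) :
    DD k S P1 h1 ⊓ DD k S P2 h2 = DD k S P3 h3 := by
  apply le_antisymm
  · rintro y ⟨ha, hb⟩
    refine ⟨ha.1, fun K hD hn => ?_⟩
    by_cases h4 : P1 K.1
    · by_cases h5 : P2 K.1
      · exact absurd ((h _).2 ⟨h4, h5⟩) hn
      · exact hb.2 K hD h5
    · exact ha.2 K hD h4
  · exact le_inf (DD_mono _ _ (fun K hK => ((h K).1 hK).1))
      (DD_mono _ _ (fun K hK => ((h K).1 hK).2))

theorem DD_sup {S : Sp P} {P1 P2 P3 : Set P → Prop} (h1 : Mono' S.1 P1) (h2 : Mono' S.1 P2)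
    (h3 : Mono' S.1 P3) (h : ∀ K, P3 K ↔ P1 K ∨ P2 K) :
    DD k S P1 h1 ⊔ DD k S P2 h2 = DD k S P3 h3 := by
  classical
  apply le_antisymm
  · exact sup_le (DD_mono _ _ (fun K hK => (h K).2 (Or.inl hK)))
      (DD_mono _ _ (fun K hK => (h K).2 (Or.inr hK)))
  · intro y hy
    have ha : ∀ K : Sp P, (if P1 K.1 then y.1 K else 0) ∈ HH k K.1 S.1 := by
      intro K
      by_cases hK : P1 K.1
      · rw [if_pos hK]; exact hy.1 K
      · rw [if_neg hK]; exact Submodule.zero_mem _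
    have hb : ∀ K : Sp P, (if P1 K.1 then 0 else y.1 K) ∈ HH k K.1 S.1 := by
      intro K
      by_cases hK : P1 K.1
      · rw [if_pos hK]; exact Submodule.zero_mem _
      · rw [if_neg hK]; exact hy.1 K
    let a : A0 k P := ⟨fun K => if P1 K.1 then y.1 K else 0,
      fun K p hp => (ha K).1 p (Or.inl hp)⟩
    let b : A0 k P := ⟨fun K => if P1 K.1 then 0 else y.1 K,
      fun K p hp => (hb K).1 p (Or.inl hp)⟩
    have hab : y = a + b := by
      apply Subtype.ext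
      funext K
      change y.1 K = (if P1 K.1 then y.1 K else 0) + (if P1 K.1 then 0 else y.1 K)
      by_cases hK : P1 K.1
      · rw [if_pos hK, if_pos hK, add_zero]
      · rw [if_neg hK, if_neg hK, zero_add]
    have ha' : a ∈ DD k S P1 h1 := ⟨ha, fun K _ hn => if_neg hn⟩
    have hb' : b ∈ DD k S P2 h2 := by
      refine ⟨hb, fun K hD hn => ?_⟩
      change (if P1 K.1 then 0 else y.1 K) = 0
      by_cases hK : P1 K.1
      · rw [if_pos hK]
      · rw [if_neg hK]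
        exact hy.2 K hD (fun h4 => ((h _).1 h4).elim hK hn)
    rw [hab]
    exact Submodule.add_mem_sup ha' hb'

theorem mono_false (S : Set P) : Mono' S (fun _ => False) := fun _ _ h _ => h

theorem mono_X {S : Set P} {X : Finset P} (hX : Ab S X) :
    Mono' S (fun K => ∀ x ∈ X, x ∈ K) :=
  fun _ _ h1 h2 x hx => h2 x (h1 x hx) (hX x hx).1

theorem mono_XZ {S : Set P} {X Z : Finset P} (hX : Ab S X) (hZ : Ab S Z) :
    Mono' S (fun K => (∀ x ∈ X, x ∈ K) ∧ ∃ z ∈ Z, z ∈ K) :=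
  fun _ _ h1 h2 => ⟨fun x hx => h2 x (h1.1 x hx) (hX x hx).1, by
    obtain ⟨z, hz, hzK⟩ := h1.2
    exact ⟨z, hz, h2 z hzK (hZ z hz).1⟩⟩

/-- Multiplication by `1_S`. -/
noncomputable def mulS (S : Sp P) {X : Finset P} (hX : Ab S.1 X) :
    Col (P := P) k (AX S.1 X) →ₗ[Rg k P] DD k S (fun K => ∀ x ∈ X, x ∈ K) (mono_X hX) where
  toFun y := ⟨⟨fun K => y.1.1 K * ind S.1, fun K p hp => by
      have h1 : y.1.1 K p = 0 := y.1.2 K p hp
      change y.1.1 K p * ind S.1 p = 0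
      rw [h1, zero_mul]⟩, by
    have hmem : ∀ K : Sp P, y.1.1 K * ind S.1 ∈ HH k K.1 S.1 := fun K =>
      HH_mul (y.2 K) (AX_ind X)
    refine ⟨hmem, fun K hD hn => ?_⟩
    push Not at hn
    obtain ⟨x, hx, hxK⟩ := hn
    obtain ⟨⟨s, hs, hsx⟩, _⟩ := hX x hx
    change y.1.1 K * ind S.1 = 0
    have hyK : y.1.1 K ∈ HH k K.1 (AX S.1 X) := y.2 K
    have h1 : y.1.1 K s = 0 := by
      rw [hyK.2 s x hsx (hD.1 hs) (AX_mem S.2 hX hx)]
      exact hyK.1 x (Or.inl hxK)
    funext p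
    by_cases hp : p ∈ S.1
    · rw [HH_const' S.2 hD.1 (hmem K) hp hs, Pi.mul_apply, h1, zero_mul]
      rfl
    · exact (hmem K).1 p (Or.inr hp)⟩
  map_add' x y := by
    apply Subtype.ext
    apply Subtype.ext
    funext K
    exact add_mul (x.1.1 K) (y.1.1 K) (ind S.1)
  map_smul' r y := by
    apply Subtype.ext
    apply Subtype.ext
    funext K
    change (r • y.1).1 K * ind S.1 = _
    rw [smul_fun, Finset.sum_mul]
    funext p
    rw [Finset.sum_apply]
    change _ = ∑ T, r.1 K T p * (y.1.1 T p * ind S.1 p)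
    apply Finset.sum_congr rfl
    intro T _
    exact mul_assoc _ _ _

theorem rq_base (S : Sp P) {X : Finset P} (hX : Ab S.1 X) :
    RQ (Rg k P) (CC k P) (mins S.1).card (DD k S (fun _ => False) (mono_false S.1))
      (DD k S (fun K => ∀ x ∈ X, x ∈ K) (mono_X hX)) := by
  classical
  obtain ⟨s0, hs0⟩ := S.2.nonempty
  have hmin : ∀ m ∈ mins S.1, IsMin' (AX S.1 X) m := by
    intro m hm
    rw [mem_mins] at hm
    exact ⟨Or.inl hm.1, fun p hp hle => hm.2 p (AX_down hp hm.1 hle) hle⟩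
  have hK := rq_koszul (k := k) (mins S.1) (AX S.1 X) (AX_cvx S.2 X) hmin
  refine RQ.map (mulS S hX) ?_ ?_ hK
  · intro d
    have hd : d.1 ∈ DD k S (fun K => ∀ x ∈ X, x ∈ K) (mono_X hX) := d.2
    have hy : ∀ K : Sp P, (if Dn S.1 K.1 ∧ ∀ x ∈ X, x ∈ K.1 then
        (d.1.1 K s0) • (ind (K.1 ∩ AX S.1 X) : P → k) else 0) ∈ HH k K.1 (AX S.1 X) := by
      intro K
      by_cases h : Dn S.1 K.1 ∧ ∀ x ∈ X, x ∈ K.1
      · rw [if_pos h]
        exact Submodule.smul_mem _ _ (AX_ind' K.2.convex h.1 h.2)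
      · rw [if_neg h]
        exact Submodule.zero_mem _
    refine ⟨⟨⟨fun K => if Dn S.1 K.1 ∧ ∀ x ∈ X, x ∈ K.1 then
        (d.1.1 K s0) • (ind (K.1 ∩ AX S.1 X) : P → k) else 0,
        fun K p hp => (hy K).1 p (Or.inl hp)⟩, hy⟩, ?_⟩
    refine ⟨fun K => ?_, fun K hD _ => ?_⟩
    · exact Submodule.sub_mem _ ((mulS S hX _).2.1 K) (hd.1 K)
    · change (if Dn S.1 K.1 ∧ ∀ x ∈ X, x ∈ K.1 then
        (d.1.1 K s0) • (ind (K.1 ∩ AX S.1 X) : P → k) else 0) * ind S.1 - d.1.1 K = 0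
      by_cases h : ∀ x ∈ X, x ∈ K.1
      · rw [if_pos ⟨hD, h⟩]
        funext p
        simp only [Pi.sub_apply, Pi.mul_apply, Pi.smul_apply, Pi.zero_apply, ind, smul_eq_mul]
        by_cases hp : p ∈ S.1
        · have h2 : p ∈ K.1 ∩ AX S.1 X := ⟨hD.1 hp, Or.inl hp⟩
          rw [if_pos h2, if_pos hp, mul_one, mul_one,
            HH_const' S.2 hD.1 (hd.1 K) hp hs0, sub_self]
        · rw [if_neg hp, mul_zero, zero_sub, neg_eq_zero]
          exact (hd.1 K).1 p (Or.inr hp)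
      · rw [if_neg (fun h' => h h'.2), zero_mul, zero_sub, neg_eq_zero]
        exact hd.2 K hD h
  · intro y
    have hyC : ∀ K : Sp P, y.1.1 K ∈ HH k K.1 (AX S.1 X) := y.2
    have h1 : (mulS S hX y).1 ∈ DD k S (fun _ => False) (mono_false S.1) ↔
        ∀ K : Sp P, Dn S.1 K.1 → y.1.1 K * ind S.1 = 0 := by
      constructor
      · intro h K hD
        exact h.2 K hD (fun h' => h')
      · intro h
        exact ⟨fun K => (mulS S hX y).2.1 K, fun K hD _ => h K hD⟩
    rw [h1]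
    constructor
    · intro h K
      refine HN_of_miss hmin (hyC K) (fun p hp => ?_)
      by_contra hno
      push Not at hno
      have h2 : ∀ s ∈ S.1, y.1.1 K s ≠ 0 ∧ s ∈ K.1 := by
        intro s hs
        obtain ⟨m, hm, hms⟩ := exists_min_le hs
        have h3 : y.1.1 K m ≠ 0 := by
          rw [← HH_const (hyC K) (hno m (mem_mins.2 hm))]
          exact hp
        have h4 : m ∈ K.1 := by
          by_contra hn
          exact h3 ((hyC K).1 m (Or.inl hn))
        have h5 : y.1.1 K s ≠ 0 := by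
          rw [← (hyC K).2 m s hms h4 (Or.inl hs)]
          exact h3
        refine ⟨h5, ?_⟩
        by_contra hn
        exact h5 ((hyC K).1 s (Or.inl hn))
      have hD : Dn S.1 K.1 := by
        refine ⟨fun s hs => (h2 s hs).2, fun p' hp' s hs hle => ?_⟩
        have h6 : y.1.1 K p' ≠ 0 := by
          rw [(hyC K).2 p' s hle hp' (Or.inl hs)]
          exact (h2 s hs).1
        have h7 : p' ∈ AX S.1 X := by
          by_contra hn
          exact h6 ((hyC K).1 p' (Or.inr hn))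
        exact AX_down h7 hs hle
      have h8 := congrFun (h K hD) s0
      simp only [Pi.mul_apply, ind, Pi.zero_apply] at h8
      rw [if_pos hs0, mul_one] at h8
      exact (h2 s0 hs0).1 h8
    · intro h K hD
      have h2 : y.1.1 K ∈ HN k K.1 (AX S.1 X) (mins S.1) := h K
      have h3 : HN k K.1 (AX S.1 X) (mins S.1) ≤
          LinearMap.ker (LinearMap.mulRight k (ind S.1 : P → k)) := by
        refine iSup₂_le (fun m hm χ hχ => ?_)
        have h4 := (HH_del_mem (hmin m hm)).1 hχ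
        have hmS : m ∈ S.1 := (mem_mins.1 hm).1
        rw [LinearMap.mem_ker, LinearMap.mulRight_apply]
        have h5 : χ * ind S.1 ∈ HH k K.1 S.1 := HH_mul h4.1 (AX_ind X)
        funext p
        by_cases hp : p ∈ S.1
        · rw [HH_const' S.2 hD.1 h5 hp hmS, Pi.mul_apply, h4.2, zero_mul]
          rfl
        · exact h5.1 p (Or.inr hp)
      exact h3 h2

theorem rq_cech (S : Sp P) (Z : Finset P) : ∀ (X : Finset P) (hX : Ab S.1 X) (hZ : Ab S.1 Z),
    RQ (Rg k P) (CC k P) ((mins S.1).card + Z.card)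
      (DD k S (fun K => (∀ x ∈ X, x ∈ K) ∧ ∃ z ∈ Z, z ∈ K) (mono_XZ hX hZ))
      (DD k S (fun K => ∀ x ∈ X, x ∈ K) (mono_X hX)) := by
  classical
  induction Z using Finset.induction_on with
  | empty =>
    intro X hX hZ
    rw [Finset.card_empty, add_zero]
    have h1 := DD_congr (k := k) (mono_XZ hX hZ) (mono_false S.1) (fun K => by simp)
    rw [h1]
    exact rq_base S hX
  | insert z Z hzZ ih =>
    intro X hX hZ
    have hZ' : Ab S.1 Z := fun x hx => hZ x (Finset.mem_insert_of_mem hx)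
    have hz := hZ z (Finset.mem_insert_self z Z)
    have hzX : Ab S.1 (insert z X) := by
      intro x hx
      rcases Finset.mem_insert.1 hx with rfl | hx
      · exact hz
      · exact hX x hx
    rw [Finset.card_insert_of_notMem hzZ, ← add_assoc]
    have e1 := DD_inf (k := k) (mono_X hzX) (mono_XZ hX hZ') (mono_XZ hzX hZ') (fun K => by
      simp only [Finset.mem_insert, forall_eq_or_imp]
      tauto)
    have e2 := DD_sup (k := k) (mono_XZ hX hZ') (mono_X hzX) (mono_XZ hX hZ) (fun K => by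
      constructor
      · rintro ⟨h1, w, hw, hwK⟩
        rcases Finset.mem_insert.1 hw with rfl | hw
        · right
          intro x hx
          rcases Finset.mem_insert.1 hx with rfl | hx
          · exact hwK
          · exact h1 x hx
        · exact Or.inl ⟨h1, w, hw, hwK⟩
      · rintro (⟨h1, w, hw, hwK⟩ | h)
        · exact ⟨h1, w, Finset.mem_insert_of_mem hw, hwK⟩
        · exact ⟨fun x hx => h x (Finset.mem_insert_of_mem hx), z,
            Finset.mem_insert_self z Z, h z (Finset.mem_insert_self z X)⟩)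
    rw [← e2]
    refine RQ.cone (eC k P) (rC k P) (hC k P) (DD_mono _ _ (fun K hK x hx =>
      hK x (Finset.mem_insert_of_mem hx))) ?_ (Res.succ _ (ih X hX hZ'))
    rw [e1]
    exact ih _ hzX hZ'

end Pool.Agent.V1145.SR
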